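import Mathlib

/-!
# The finite minimax theorem (von Neumann)

Possible proofs: (1) `Mathlib/Topology/Sion.lean` on the two simplices `stdSimplex ℝ S`,
`stdSimplex ℝ H` (compact, convex) with the bilinear function; (2) separation of the convex set
`{(∑ p s A s h)_h + nonnegative vectors}` from an open orthant.
-/

namespace MPacf82c

theorem minimax {S H : Type} [Fintype S] [Fintype H] [Nonempty S] [Nonempty H]
    (A : S → H → ℝ) :
    ∃ (V : ℝ) (p : S → ℝ) (q : H → ℝ), (∀ s, 0 ≤ p s) ∧ ∑ s, p s = 1 ∧ (∀ h, 0 ≤ q h) ∧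
      ∑ h, q h = 1 ∧ (∀ h, ∑ s, p s * A s h ≤ V) ∧ (∀ s, V ≤ ∑ h, q h * A s h) := by
  classical
  have hs1 : ∀ s : S, Pi.single s (1 : ℝ) ∈ stdSimplex ℝ S := fun s => single_mem_stdSimplex ℝ s
  have hh1 : ∀ h : H, Pi.single h (1 : ℝ) ∈ stdSimplex ℝ H := fun h => single_mem_stdSimplex ℝ h
  obtain ⟨s0⟩ := ‹Nonempty S›
  obtain ⟨h0⟩ := ‹Nonempty H›
  obtain ⟨p, hp, q, hq, hsad⟩ := Sion.exists_isSaddlePointOn (X := stdSimplex ℝ S)
    (Y := stdSimplex ℝ H) (f := fun (p : S → ℝ) (q : H → ℝ) => ∑ s, p s * ∑ h, q h * A s h)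
    ⟨_, hs1 s0⟩ (convex_stdSimplex ℝ S) (isCompact_stdSimplex ℝ S)
    (fun y _ => Continuous.lowerSemicontinuous (by fun_prop) |>.lowerSemicontinuousOn _)
    (fun y _ => ConvexOn.quasiconvexOn ⟨convex_stdSimplex ℝ S, by
      intro a _ b _ t u _ _ _
      simp only [Pi.add_apply, Pi.smul_apply, smul_eq_mul, add_mul, Finset.sum_add_distrib,
        Finset.mul_sum, mul_assoc]
      exact le_rfl⟩)
    (convex_stdSimplex ℝ H) ⟨_, hh1 h0⟩ (isCompact_stdSimplex ℝ H)
    (fun x _ => Continuous.upperSemicontinuous (by fun_prop) |>.upperSemicontinuousOn _)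
    (fun x _ => ConcaveOn.quasiconcaveOn ⟨convex_stdSimplex ℝ H, by
      intro a _ b _ t u _ _ _
      simp only [Pi.add_apply, Pi.smul_apply, smul_eq_mul, add_mul, Finset.sum_add_distrib,
        Finset.mul_sum, mul_add]
      apply le_of_eq
      congr 1 <;> exact Finset.sum_congr rfl fun s _ => Finset.sum_congr rfl fun h _ => by ring⟩)
  refine ⟨∑ s, p s * ∑ h, q h * A s h, p, q, hp.1, hp.2, hq.1, hq.2, ?_, ?_⟩
  · intro h
    have h1 := hsad p hp _ (hh1 h)
    simpa [Pi.single_apply] using h1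
  · intro s
    have h1 := hsad _ (hs1 s) q hq
    simpa [Pi.single_apply] using h1

end MPacf82c
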