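import Pool.Agent.Lib.MP_acf82c_lc.GoodMoves

/-!
# Arithmetic of the parameters
-/

namespace MPacf82c

open Set MeasureTheory

variable {Q : Type} [MetricSpace Q] (N : Network Q)

theorem samples_count {h : ℝ} (hh : 0 < h) :
    ((∑ e, ⌊N.len e / h⌋₊ : ℕ) : ℝ) * h ≤ N.length ∧
      N.length ≤ (((∑ e, ⌊N.len e / h⌋₊ : ℕ) : ℝ) + Fintype.card N.Arc) * h := by
  constructor
  · rw [Nat.cast_sum, Finset.sum_mul, Network.length]
    refine Finset.sum_le_sum fun e _ => ?_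
    have h1 : ((⌊N.len e / h⌋₊ : ℕ) : ℝ) ≤ N.len e / h :=
      Nat.floor_le (div_nonneg (N.len_pos e).le hh.le)
    calc ((⌊N.len e / h⌋₊ : ℕ) : ℝ) * h ≤ N.len e / h * h := by gcongr
      _ = N.len e := by field_simp
  · rw [Nat.cast_sum, add_mul, Finset.sum_mul, Network.length]
    have : (Fintype.card N.Arc : ℝ) * h = ∑ _e : N.Arc, h := by
      simp
    rw [this, ← Finset.sum_add_distrib]
    refine Finset.sum_le_sum fun e _ => ?_
    have h1 : N.len e / h < (⌊N.len e / h⌋₊ : ℕ) + 1 := Nat.lt_floor_add_one _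
    calc N.len e = N.len e / h * h := by field_simp
      _ ≤ (((⌊N.len e / h⌋₊ : ℕ) : ℝ) + 1) * h := by gcongr
      _ = ((⌊N.len e / h⌋₊ : ℕ) : ℝ) * h + h := by ring

/-- Arithmetic of the upper bound. -/
theorem upper_arith {ε η L n B B' M V q x : ℝ} (hε : 0 < ε) (hε1 : ε ≤ 1) (hη : η = ε / 12)
    (hL : 30 / ε ≤ L) (hn : 0 < n) (hB : 0 < B) (hB' : 0 ≤ B') (hBB : B' ≤ (1 + 2 * η) * B)
    (hV : 0 ≤ V) (hx : x = B / n * V) (hx2 : x ≤ 2) (hq : 0 ≤ q) (hqM : B / n * (M * q) ≤ η)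
    (hM : 0 < M) (hVM : (V + M * q) / M ≤ 5 / L) :
    B' * (V + M * q) / (1 - (V + M * q) / M) ≤ (x + ε) * n := by
  have hη0 : 0 < η := by rw [hη]; positivity
  have hL0 : 30 ≤ L := by
    refine le_trans ?_ hL
    rw [le_div_iff₀ hε]; nlinarith
  have h5 : 5 / L ≤ ε / 6 := by
    rw [div_le_iff₀ (by linarith)]
    rw [div_le_iff₀ hε] at hL
    nlinarith
  have hx0 : 0 ≤ x := by rw [hx]; positivity
  have h1 : 0 < 1 - (V + M * q) / M := by linarith
  rw [div_le_iff₀ h1]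
  have h2 : B' * (V + M * q) ≤ (1 + 2 * η) * B * (V + M * q) := by
    have : 0 ≤ V + M * q := by positivity
    gcongr
  have h3 : B * (V + M * q) = n * (x + B / n * (M * q)) := by
    rw [hx]; field_simp
  have h4 : (1 + 2 * η) * B * (V + M * q) ≤ (1 + 2 * η) * (n * (x + η)) := by
    rw [mul_assoc, h3]; gcongr
  have h6 : (1 + 2 * η) * (n * (x + η)) ≤ (x + ε) * n * (1 - 5 / L) := by
    have h7 : (1 + 2 * η) * (x + η) ≤ (x + ε) * (1 - 5 / L) := by
      have h8 : (x + ε) * (5 / L) ≤ 3 * (ε / 6) := by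
        apply mul_le_mul (by linarith) h5 (by positivity) (by norm_num)
      nlinarith
    nlinarith
  have h9 : (x + ε) * n * (1 - 5 / L) ≤ (x + ε) * n * (1 - (V + M * q) / M) := by
    have : 0 ≤ (x + ε) * n := by positivity
    gcongr
  linarith

/-- Arithmetic of the errors. `μ` the total length, `c` the number of arcs. -/
theorem err_arith {μ h R γ T0 n : ℝ} (hμ : 0 < μ) (hh : 0 < h) (hR : 1 ≤ R) (hγ : 0 < γ)
    (hγR : γ ≤ 1 / (4 * R)) (hT1 : μ / (2 * R) ≤ T0) (hT2 : T0 ≤ μ / R) (h3 : 3 * h ≤ γ * μ)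
    (hnh : μ / 2 ≤ n * h) (hn : 0 < n) :
    (γ * μ + 3 * h + γ ^ 4 * μ + γ ^ 2 * μ / γ) / (T0 - γ * μ) +
      (γ ^ 2 * μ + 2 * (γ ^ 4 * μ)) / (γ * μ) +
      (γ * T0 + 8 * (γ ^ 4 * μ) * T0 / (n * h)) / (T0 - γ * μ) ≤ 87 * R * γ := by
  have hR0 : 0 < R := by linarith
  have hγ1 : γ ≤ 1 / 4 := by
    refine hγR.trans ?_
    rw [div_le_div_iff₀ (by positivity) (by norm_num)]; linarith
  have hγ4 : γ ^ 4 ≤ γ := by
    calc γ ^ 4 = γ * γ ^ 3 := by ring
      _ ≤ γ * 1 := by gcongr; exact pow_le_one₀ hγ.le (by linarith)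
      _ = γ := by ring
  have hγ3 : γ ^ 3 ≤ γ := by
    calc γ ^ 3 = γ * γ ^ 2 := by ring
      _ ≤ γ * 1 := by gcongr; exact pow_le_one₀ hγ.le (by linarith)
      _ = γ := by ring
  have hden : μ / (4 * R) ≤ T0 - γ * μ := by
    have : γ * μ ≤ 1 / (4 * R) * μ := by gcongr
    have e1 : μ / (2 * R) = μ / (4 * R) + 1 / (4 * R) * μ := by field_simp; ring
    linarith
  have hden0 : 0 < T0 - γ * μ := lt_of_lt_of_le (by positivity) hden
  have hT0 : 0 < T0 := lt_of_lt_of_le (by positivity) hT1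
  have e2 : γ ^ 2 * μ / γ = γ * μ := by field_simp
  have A : (γ * μ + 3 * h + γ ^ 4 * μ + γ ^ 2 * μ / γ) / (T0 - γ * μ) ≤ 16 * R * γ := by
    rw [div_le_iff₀ hden0, e2]
    have : 4 * γ * μ ≤ 16 * R * γ * (T0 - γ * μ) := by
      calc 4 * γ * μ = 16 * R * γ * (μ / (4 * R)) := by field_simp; ring
        _ ≤ _ := by gcongr
    have h4 : γ ^ 4 * μ ≤ γ * μ := by gcongr
    linarith
  have Bd : (γ ^ 2 * μ + 2 * (γ ^ 4 * μ)) / (γ * μ) ≤ 3 * γ := by
    rw [div_le_iff₀ (by positivity)]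
    have : γ ^ 4 * μ ≤ γ ^ 2 * μ := by
      have : γ ^ 4 ≤ γ ^ 2 := by
        calc γ ^ 4 = γ ^ 2 * γ ^ 2 := by ring
          _ ≤ γ ^ 2 * 1 := by gcongr; exact pow_le_one₀ hγ.le (by linarith)
          _ = γ ^ 2 := by ring
      gcongr
    nlinarith
  have C : (γ * T0 + 8 * (γ ^ 4 * μ) * T0 / (n * h)) / (T0 - γ * μ) ≤ 68 * γ := by
    rw [div_le_iff₀ hden0]
    have c1 : 8 * (γ ^ 4 * μ) * T0 / (n * h) ≤ 16 * γ * T0 := by
      rw [div_le_iff₀ (by positivity)]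
      calc 8 * (γ ^ 4 * μ) * T0 ≤ 8 * (γ * μ) * T0 := by gcongr
        _ = 16 * γ * T0 * (μ / 2) := by ring
        _ ≤ 16 * γ * T0 * (n * h) := by gcongr
    have c2 : T0 ≤ 4 * (T0 - γ * μ) := by
      have : μ / R = 4 * (μ / (4 * R)) := by field_simp
      linarith
    nlinarith
  have : 16 * R * γ + 3 * γ + 68 * γ ≤ 87 * R * γ := by nlinarith
  linarith

/-- Arithmetic of the lower bound. -/
theorem lower_arith {ε μ h R L K c n B V x err : ℝ} (hε : 0 < ε) (hμ : 0 < μ) (hh : 0 < h)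
    (hR : 1 ≤ R) (hL : 1 ≤ L) (hK : 1 ≤ K) (hc : 0 ≤ c) (hn : 0 < n) (hB : 1 ≤ B)
    (hBn : B / n ≤ 1 / R) (hnh : n * h ≤ μ) (hnh' : μ ≤ (n + c) * h) (hx : x = B / n * V)
    (hx2 : x ≤ 2) (hV1 : 1 ≤ V) (hV4 : V ≤ 4 * R) (herr0 : 0 ≤ err)
    (hR2 : (1 + 2 * (L * K)) / R ≤ ε / 3) (herr : L * K * err ≤ ε / 3)
    (hh2 : (2 * c + 4 * R) * h ≤ ε * μ / 3) :
    (x - ε) * μ ≤ h * (B - 1) * (V - 1 - L * R * K * (err + 2 * B / n)) := by
  have hR0 : 0 < R := by linarith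
  have hx0 : 0 ≤ x := by rw [hx]; positivity
  have e1 : h * (B - 1) * V = h * n * x - h * V := by rw [hx]; field_simp
  have e2 : x * μ - 2 * c * h ≤ h * n * x := by nlinarith
  have e3 : h * V ≤ 4 * R * h := by nlinarith
  have hhB : h * B ≤ μ / R := by
    have : h * B = (n * h) * (B / n) := by field_simp
    rw [this]
    calc (n * h) * (B / n) ≤ μ * (1 / R) := by gcongr
      _ = μ / R := by ring
  have e4 : h * (B - 1) * (1 + L * R * K * (err + 2 * B / n)) ≤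
      μ * ((1 + 2 * (L * K)) / R + L * K * err) := by
    have s1 : 2 * B / n ≤ 2 / R := by
      calc 2 * B / n = 2 * (B / n) := by ring
        _ ≤ 2 * (1 / R) := by gcongr
        _ = 2 / R := by ring
    have s2 : h * (B - 1) ≤ μ / R := by nlinarith
    have s3 : 1 + L * R * K * (err + 2 * B / n) ≤ 1 + L * R * K * (err + 2 / R) := by
      gcongr
    have s4 : 0 ≤ 1 + L * R * K * (err + 2 * B / n) := by positivity
    calc h * (B - 1) * (1 + L * R * K * (err + 2 * B / n)) ≤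
        μ / R * (1 + L * R * K * (err + 2 / R)) := by
          apply mul_le_mul s2 s3 s4 (by positivity)
      _ = μ * ((1 + 2 * (L * K)) / R + L * K * err) := by field_simp; ring
  have e5 : μ * ((1 + 2 * (L * K)) / R + L * K * err) ≤ μ * (ε / 3 + ε / 3) := by gcongr
  have e6 : h * (B - 1) * (V - 1 - L * R * K * (err + 2 * B / n)) =
      h * (B - 1) * V - h * (B - 1) * (1 + L * R * K * (err + 2 * B / n)) := by ring
  rw [e6, e1]
  nlinarith

end MPacf82c
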