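import Pool.Agent.Lib.MP_acf82c_lc.Notions

/-!
# Crude upper bound for the block game

For every finite hider mixture `(q, y, b)` (admissibility is not needed) there is a pure searcher
strategy with payoff at most `2 n / B`.

Proof. Let `s = (B+1)/2` (so `B/2 ≤ s` and `s ≤ 3/4 B`, `s ≤ B`, `s ≤ n`). Choose `L 0, L 1, ...`
recursively, each of cardinality `s`, such that
`∑ i, q i * surv B L (y i) (b i) (m+1) ≤ (1 - B/(2n)) * ∑ i, q i * surv B L (y i) (b i) m`:
the average of `fac B L y b` over all `L` with `L.card = s` is `s/B ≤ 3/4 ≤ 1 - B/(2n)` if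
`b = true` and `1 - s/n ≤ 1 - B/(2n)` if `b = false`, so some `L` does at least as well as the
average. Sum the geometric series. (Instead of all `s`-sets one may average over the `n` cyclic
shifts `{j, j+1, ..., j+s-1}` mod `n`.)
-/

namespace MPacf82c

/-- The initial segment of length `s` of `Fin n`. -/
def crudeSeg (n s : ℕ) : Finset (Fin n) := Finset.univ.filter fun i => i.val < s

theorem crudeSeg_card {n s : ℕ} (h : s ≤ n) : (crudeSeg n s).card = s := by
  have h1 : (crudeSeg n s) = (Finset.univ : Finset (Fin s)).map (Fin.castLEEmb h) := by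
    ext i
    simp only [crudeSeg, Finset.mem_filter, Finset.mem_univ, true_and, Finset.mem_map,
      Fin.castLEEmb_apply]
    constructor
    · intro hi
      exact ⟨⟨i.val, hi⟩, by ext; simp⟩
    · rintro ⟨a, rfl⟩
      simp
  rw [h1, Finset.card_map, Finset.card_univ, Fintype.card_fin]

/-- The cyclic shift of the initial segment. -/
def crudeShift (n s : ℕ) [NeZero n] (j : Fin n) : Finset (Fin n) :=
  (crudeSeg n s).map (Equiv.addRight j).toEmbedding

theorem crudeShift_card {n s : ℕ} [NeZero n] (h : s ≤ n) (j : Fin n) :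
    (crudeShift n s j).card = s := by
  rw [crudeShift, Finset.card_map, crudeSeg_card h]

theorem mem_crudeShift {n s : ℕ} [NeZero n] (j y : Fin n) :
    y ∈ crudeShift n s j ↔ y - j ∈ crudeSeg n s := by
  rw [crudeShift, Finset.mem_map_equiv]
  simp [sub_eq_add_neg]

theorem crude_count {n s : ℕ} [NeZero n] (h : s ≤ n) (y : Fin n) :
    (Finset.univ.filter fun j => y ∈ crudeShift n s j).card = s := by
  have h1 : (Finset.univ.filter fun j => y ∈ crudeShift n s j) =
      (crudeSeg n s).map (Equiv.subLeft y).toEmbedding := by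
    ext j
    rw [Finset.mem_map_equiv]
    simp only [Finset.mem_filter, Finset.mem_univ, true_and, mem_crudeShift]
    have : (Equiv.subLeft y).symm j = y - j := by
      rw [Equiv.symm_apply_eq]; simp
    rw [this]
  rw [h1, Finset.card_map, crudeSeg_card h]

/-- The average of one factor over all cyclic shifts. -/
theorem crude_avg {n s B : ℕ} [NeZero n] (hs : s ≤ n) (y : Fin n) (b : Bool) {ρ : ℝ}
    (h1 : (s : ℝ) / B ≤ ρ) (h2 : (n : ℝ) - s ≤ n * ρ) :
    ∑ j, fac B (crudeShift n s j) y b ≤ n * ρ := by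
  cases b with
  | true =>
    have h3 : ∀ j, fac B (crudeShift n s j) y true = (s : ℝ) / B := by
      intro j
      simp [fac, crudeShift_card hs]
    simp only [h3]
    rw [Finset.sum_const, Finset.card_univ, Fintype.card_fin, nsmul_eq_mul]
    exact mul_le_mul_of_nonneg_left h1 (Nat.cast_nonneg n)
  | false =>
    have h3 : ∀ j, fac B (crudeShift n s j) y false =
        1 - (if y ∈ crudeShift n s j then (1 : ℝ) else 0) := by
      intro j
      by_cases h : y ∈ crudeShift n s j <;> simp [fac, h]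
    simp only [h3]
    rw [Finset.sum_sub_distrib, Finset.sum_boole, crude_count hs]
    simpa using h2

theorem fac_nonneg' {n : ℕ} (B : ℕ) (L : Finset (Fin n)) (y : Fin n) (b : Bool) :
    0 ≤ fac B L y b := by
  unfold fac
  split_ifs <;> positivity

theorem surv_nonneg' {n : ℕ} (B : ℕ) (L : ℕ → Finset (Fin n)) (y : ℕ → Fin n) (b : ℕ → Bool)
    (m : ℕ) : 0 ≤ surv B L y b m :=
  Finset.prod_nonneg fun _ _ => fac_nonneg' _ _ _ _

theorem surv_succ' {n : ℕ} (B : ℕ) (L : ℕ → Finset (Fin n)) (y : ℕ → Fin n) (b : ℕ → Bool)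
    (m : ℕ) : surv B L y b (m + 1) = surv B L y b m * fac B (L m) (y m) (b m) := by
  unfold surv
  rw [Finset.prod_range_succ]

theorem surv_congr' {n : ℕ} (B : ℕ) (L L' : ℕ → Finset (Fin n)) (y : ℕ → Fin n) (b : ℕ → Bool)
    (m : ℕ) (h : ∀ k < m, L k = L' k) : surv B L y b m = surv B L' y b m := by
  unfold surv
  refine Finset.prod_congr rfl fun k hk => ?_
  rw [h k (Finset.mem_range.1 hk)]

/-- One step of the greedy choice. -/
theorem crude_step {n s B : ℕ} [NeZero n] (hs : s ≤ n) {ρ : ℝ}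
    (h1 : (s : ℝ) / B ≤ ρ) (h2 : (n : ℝ) - s ≤ n * ρ) {ι : Type} [Fintype ι] (w : ι → ℝ)
    (hw : ∀ i, 0 ≤ w i) (y : ι → Fin n) (b : ι → Bool) :
    ∃ j, ∑ i, w i * fac B (crudeShift n s j) (y i) (b i) ≤ ρ * ∑ i, w i := by
  have h3 : ∑ j : Fin n, ∑ i, w i * fac B (crudeShift n s j) (y i) (b i) ≤
      ∑ _j : Fin n, ρ * ∑ i, w i := by
    rw [Finset.sum_comm, Finset.sum_const, Finset.card_univ, Fintype.card_fin, nsmul_eq_mul,
      ← mul_assoc, Finset.mul_sum]
    refine Finset.sum_le_sum fun i _ => ?_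
    rw [← Finset.mul_sum, mul_comm (w i)]
    exact mul_le_mul_of_nonneg_right (crude_avg hs (y i) (b i) h1 h2) (hw i)
  obtain ⟨j, -, hj⟩ := Finset.exists_le_of_sum_le (Finset.univ_nonempty) h3
  exact ⟨j, hj⟩

/-- The greedy strategy for the first `m` blocks. -/
theorem crude_greedy {n s B : ℕ} [NeZero n] (hs : s ≤ n) (hsB : s ≤ B) {ρ : ℝ} (hρ : 0 ≤ ρ)
    (h1 : (s : ℝ) / B ≤ ρ) (h2 : (n : ℝ) - s ≤ n * ρ) {ι : Type} [Fintype ι] (q : ι → ℝ)
    (hq : ∀ i, 0 ≤ q i) (hq1 : ∑ i, q i = 1) (y : ι → ℕ → Fin n) (b : ι → ℕ → Bool) (m : ℕ) :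
    ∃ L : ℕ → Finset (Fin n), (∀ k, (L k).card ≤ B) ∧
      ∀ k ≤ m, ∑ i, q i * surv B L (y i) (b i) k ≤ ρ ^ k := by
  induction m with
  | zero =>
    refine ⟨fun _ => ∅, fun k => by simp, fun k hk => ?_⟩
    have hk0 : k = 0 := by omega
    subst hk0
    simp [surv, hq1]
  | succ m ih =>
    obtain ⟨L, hL, hL2⟩ := ih
    obtain ⟨j, hj⟩ := crude_step (B := B) hs h1 h2 (fun i => q i * surv B L (y i) (b i) m)
      (fun i => mul_nonneg (hq i) (surv_nonneg' _ _ _ _ _)) (fun i => y i m) (fun i => b i m)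
    refine ⟨Function.update L m (crudeShift n s j), fun k => ?_, fun k hk => ?_⟩
    · by_cases hkm : k = m
      · subst hkm
        rw [Function.update_self, crudeShift_card hs]
        exact hsB
      · rw [Function.update_of_ne hkm]
        exact hL k
    · have hcongr : ∀ k ≤ m, ∀ i, surv B (Function.update L m (crudeShift n s j)) (y i) (b i) k =
          surv B L (y i) (b i) k := by
        intro k hk i
        refine surv_congr' _ _ _ _ _ _ fun l hl => ?_
        rw [Function.update_of_ne (by omega)]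
      rcases Nat.lt_or_ge m k with hmk | hmk
      · have hk' : k = m + 1 := by omega
        subst hk'
        have h4 : ∀ i, q i * surv B (Function.update L m (crudeShift n s j)) (y i) (b i) (m + 1) =
            q i * surv B L (y i) (b i) m * fac B (crudeShift n s j) (y i m) (b i m) := by
          intro i
          rw [surv_succ', hcongr m le_rfl i, Function.update_self, mul_assoc]
        simp only [h4]
        calc _ ≤ ρ * ∑ i, q i * surv B L (y i) (b i) m := hj
          _ ≤ ρ * ρ ^ m := mul_le_mul_of_nonneg_left (hL2 m le_rfl) hρ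
          _ = ρ ^ (m + 1) := by ring
      · simp only [hcongr k hmk]
        exact hL2 k hmk

theorem crude (n B M : ℕ) (hB : 2 ≤ B) (hBn : 2 * B ≤ n) {ι : Type} [Fintype ι] (q : ι → ℝ)
    (hq : ∀ i, 0 ≤ q i) (hq1 : ∑ i, q i = 1) (y : ι → ℕ → Fin n) (b : ι → ℕ → Bool) :
    ∃ L : ℕ → Finset (Fin n), (∀ k, (L k).card ≤ B) ∧
      ∑ i, q i * payoff B M L (y i) (b i) ≤ 2 * n / B := by
  have hn0 : n ≠ 0 := by omega
  have : NeZero n := ⟨hn0⟩
  have hBr : (2 : ℝ) ≤ B := by exact_mod_cast hB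
  have hnr : (2 : ℝ) * B ≤ n := by exact_mod_cast hBn
  have hBpos : (0 : ℝ) < B := by linarith
  have hnpos : (0 : ℝ) < n := by linarith
  obtain ⟨s, hs⟩ : ∃ s, s = (B + 1) / 2 := ⟨_, rfl⟩
  have hs1 : s ≤ B := by omega
  have hs2 : s ≤ n := by omega
  have hs3 : B ≤ 2 * s := by omega
  have hs4 : 2 * s ≤ B + 1 := by omega
  have hs3r : (B : ℝ) ≤ 2 * s := by exact_mod_cast hs3
  have hs4r : (2 : ℝ) * s ≤ B + 1 := by exact_mod_cast hs4
  obtain ⟨ρ, hρ⟩ : ∃ ρ : ℝ, ρ = 1 - B / (2 * n) := ⟨_, rfl⟩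
  have hx : (B : ℝ) / (2 * n) ≤ 1 / 4 := by
    rw [div_le_iff₀ (by positivity)]
    linarith
  have hx0 : (0 : ℝ) < (B : ℝ) / (2 * n) := by positivity
  have h1 : (s : ℝ) / B ≤ ρ := by
    have : (s : ℝ) / B ≤ 3 / 4 := by
      rw [div_le_iff₀ hBpos]
      linarith
    linarith
  have hnρ : (n : ℝ) * ρ = n - B / 2 := by
    rw [hρ]
    field_simp
  have h2 : (n : ℝ) - s ≤ n * ρ := by
    rw [hnρ]
    linarith
  have hρ0 : 0 ≤ ρ := by linarith
  have hρ1 : ρ < 1 := by linarith
  obtain ⟨L, hL, hL2⟩ := crude_greedy (B := B) hs2 hs1 hρ0 h1 h2 q hq hq1 y b M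
  refine ⟨L, hL, ?_⟩
  have h3 : ∑ i, q i * payoff B M L (y i) (b i) =
      ∑ m ∈ Finset.range M, ∑ i, q i * surv B L (y i) (b i) m := by
    simp only [payoff, Finset.mul_sum]
    rw [Finset.sum_comm]
  rw [h3]
  calc ∑ m ∈ Finset.range M, ∑ i, q i * surv B L (y i) (b i) m
      ≤ ∑ m ∈ Finset.range M, ρ ^ m :=
        Finset.sum_le_sum fun m hm => hL2 m (Finset.mem_range.1 hm).le
    _ ≤ (1 - ρ)⁻¹ := by
        rw [← tsum_geometric_of_lt_one hρ0 hρ1]
        exact (summable_geometric_of_lt_one hρ0 hρ1).sum_le_tsum _ fun i _ => pow_nonneg hρ0 i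
    _ = 2 * n / B := by
        rw [hρ, sub_sub_cancel, inv_div]

end MPacf82c
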