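import Pool.Agent.Lib.MP_acf82c_lc.Minimax
import Pool.Agent.Lib.MP_acf82c_lc.Crude

/-!
# The value of the block game

Apply `minimax` to the finite sets `S = Fin M → {L : Finset (Fin n) // L.card ≤ B}` and
`H = {(y, b) : (Fin (M+1) → Fin n) × (Fin M → Bool) // admissible}` (extend the finite sequences
to `ℕ`, e.g. by `L k = ∅`, `y k = y M`, `b k = false` beyond the range; `payoff` only uses
`k < M`). `V ≤ 2n/B` follows from `crude` applied to the optimal hider mixture, and `1 ≤ V`
because every payoff is at least `surv _ 0 = 1` (all factors are `≥ 0`, `0 < M`).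
-/

namespace MPacf82c

/-- extension of a finite search sequence -/
private def bgExtL {n B M : ℕ} (s : Fin M → {L : Finset (Fin n) // L.card ≤ B}) :
    ℕ → Finset (Fin n) := fun k => if h : k < M then (s ⟨k, h⟩).1 else ∅

/-- extension of a finite sequence of labels -/
private def bgExtY {n M : ℕ} (y : Fin (M + 1) → Fin n) : ℕ → Fin n :=
  fun k => y ⟨min k M, by omega⟩

/-- extension of a finite sequence of star bits -/
private def bgExtB {M : ℕ} (b : Fin M → Bool) : ℕ → Bool :=
  fun k => if h : k < M then b ⟨k, h⟩ else false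

private theorem bg_extL_card {n B M : ℕ} (s : Fin M → {L : Finset (Fin n) // L.card ≤ B})
    (k : ℕ) : (bgExtL s k).card ≤ B := by
  unfold bgExtL
  split_ifs with h
  · exact (s ⟨k, h⟩).2
  · simp

private theorem bg_payoff_congr {n B M : ℕ} {L L' : ℕ → Finset (Fin n)} {y y' : ℕ → Fin n}
    {b b' : ℕ → Bool} (hL : ∀ k, k < M → L k = L' k) (hy : ∀ k, k < M → y k = y' k)
    (hb : ∀ k, k < M → b k = b' k) : payoff B M L y b = payoff B M L' y' b' := by
  unfold payoff
  refine Finset.sum_congr rfl fun m hm => ?_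
  unfold surv
  refine Finset.prod_congr rfl fun k hk => ?_
  rw [Finset.mem_range] at hm hk
  have h : k < M := hk.trans hm
  rw [hL k h, hy k h, hb k h]

private theorem bg_adm_congr {n M K : ℕ} {y y' : ℕ → Fin n} {b b' : ℕ → Bool}
    (hy : ∀ k, k ≤ M → y k = y' k) (hb : ∀ k, k < M → b k = b' k) (h : Adm M K y b) :
    Adm M K y' b' := by
  refine ⟨fun k hk hbk => ?_, ?_⟩
  · rw [← hy k hk.le, ← hy (k + 1) hk]
    exact h.1 k hk ((hb k hk).trans hbk)
  · refine le_trans (le_of_eq ?_) h.2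
    congr 1
    refine Finset.filter_congr fun k hk => ?_
    rw [hb k (Finset.mem_range.mp hk)]

private theorem bg_fac_nonneg {n : ℕ} (B : ℕ) (L : Finset (Fin n)) (y : Fin n) (b : Bool) :
    0 ≤ fac B L y b := by
  unfold fac
  split_ifs
  · positivity
  · exact le_rfl
  · exact zero_le_one

private theorem bg_one_le_payoff {n B M : ℕ} (hM : 0 < M) (L : ℕ → Finset (Fin n))
    (y : ℕ → Fin n) (b : ℕ → Bool) : 1 ≤ payoff B M L y b := by
  have h0 : surv B L y b 0 = 1 := by simp [surv]
  unfold payoff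
  rw [← h0]
  exact Finset.single_le_sum (f := fun m => surv B L y b m)
    (fun m _ => Finset.prod_nonneg fun k _ => bg_fac_nonneg _ _ _ _) (Finset.mem_range.mpr hM)

theorem block_game (n B M K : ℕ) (hB : 2 ≤ B) (hBn : 2 * B ≤ n) (hM : 0 < M) :
    ∃ V : ℝ, 1 ≤ V ∧ V ≤ 2 * n / B ∧ SearcherVal n B M K V ∧ HiderVal n B M K V := by
  classical
  have hn : 0 < n := by omega
  let S : Type := Fin M → {L : Finset (Fin n) // L.card ≤ B}
  let H : Type := {yb : (Fin (M + 1) → Fin n) × (Fin M → Bool) //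
    Adm M K (bgExtY yb.1) (bgExtB yb.2)}
  have hS : Nonempty S := ⟨fun _ => ⟨∅, by simp⟩⟩
  let h₀ : H := ⟨(fun _ => ⟨0, hn⟩, fun _ => false), by
    refine ⟨fun k _ _ => rfl, ?_⟩
    have : ((Finset.range M).filter fun k => bgExtB (fun _ : Fin M => false) k = true) = ∅ := by
      refine Finset.filter_eq_empty_iff.mpr fun k _ => ?_
      unfold bgExtB
      split_ifs <;> simp
    rw [this]
    simp⟩
  have hH : Nonempty H := ⟨h₀⟩
  let iS : Fintype S := inferInstance
  let iH : Fintype H := Fintype.ofFinite H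
  obtain ⟨V, p, q, hp, hp1, hq, hq1, hV1, hV2⟩ := minimax (S := S) (H := H)
    (fun s h => payoff B M (bgExtL s) (bgExtY h.1.1) (bgExtB h.1.2))
  have hHid : ∀ L : ℕ → Finset (Fin n), (∀ k, (L k).card ≤ B) →
      V ≤ ∑ h : H, q h * payoff B M L (bgExtY h.1.1) (bgExtB h.1.2) := by
    intro L hL
    refine (hV2 (fun k => ⟨L k, hL k⟩)).trans (le_of_eq ?_)
    refine Finset.sum_congr rfl fun h _ => ?_
    congr 1
    refine bg_payoff_congr (fun k hk => ?_) (fun _ _ => rfl) (fun _ _ => rfl)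
    unfold bgExtL
    rw [dif_pos hk]
  refine ⟨V, ?_, ?_, ⟨S, iS, p, bgExtL, hp, hp1, bg_extL_card, ?_⟩,
    ⟨H, iH, q, fun h => bgExtY h.1.1, fun h => bgExtB h.1.2, hq, hq1, fun h => h.2, hHid⟩⟩
  · calc (1 : ℝ) = ∑ s, p s := hp1.symm
      _ ≤ ∑ s, p s * payoff B M (bgExtL s) (bgExtY h₀.1.1) (bgExtB h₀.1.2) :=
          Finset.sum_le_sum fun s _ =>
            le_mul_of_one_le_right (hp s) (bg_one_le_payoff hM _ _ _)
      _ ≤ V := hV1 h₀
  · obtain ⟨L, hL, hL2⟩ := crude n B M hB hBn q hq hq1 (fun h => bgExtY h.1.1)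
      (fun h => bgExtB h.1.2)
    exact (hHid L hL).trans hL2
  · intro y b hyb
    have hy : ∀ k, k ≤ M → y k = bgExtY (fun j : Fin (M + 1) => y j) k := by
      intro k hk
      unfold bgExtY
      simp only [min_eq_left hk]
    have hb : ∀ k, k < M → b k = bgExtB (fun j : Fin M => b j) k := by
      intro k hk
      unfold bgExtB
      rw [dif_pos hk]
    let h : H := ⟨(fun j => y j, fun j => b j), bg_adm_congr hy hb hyb⟩
    refine le_trans (le_of_eq ?_) (hV1 h)
    refine Finset.sum_congr rfl fun s _ => ?_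
    congr 1
    exact bg_payoff_congr (fun _ _ => rfl) (fun k hk => hy k hk.le) hb

end MPacf82c
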