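import Pool.Agent.Lib.MP_acf82c_lc.Notions

/-!
# Independent blocks of the hider

`H ω t = mv k (ω k) (t - k T0)` for `t ∈ [k T0, (k+1) T0]`, `k < M`, and `H ω t = x M` for
`t ≥ M T0`. It is 1-Lipschitz (pieces agree at the block boundaries). Let `C_k` be a measurable
superset (`toMeasurable`) of the caught set of block `k` with the same measure. If `ω k ∉ C_k` for
all `k ≤ m` then `H ω` is not caught in `[0, (m+1) T0]`, so `captureTime ≥ (m+1) T0`; hence
`captureTime ≥ ∑_{m<M} T0 * [∀ k ≤ m, ω k ∉ C_k]`, whose integral with respect to the product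
measure is `T0 ∑_{m<M} ∏_{k≤m} (1 - P_k C_k)`.
-/

namespace MPacf82c

open Set MeasureTheory
open scoped NNReal ENNReal

variable {Q : Type} [MetricSpace Q]

namespace BlocksLower

/-- The concatenation of the first `m` moves. -/
noncomputable def path (T0 : ℝ) (x : ℕ → Q) (mv : ℕ → ℕ × ℝ → ℝ → Q) (w : ℕ → ℕ × ℝ) :
    ℕ → ℝ → Q
  | 0 => fun _ => x 0
  | m + 1 => fun t => if t ≤ m * T0 then path T0 x mv w m t else mv m (w m) (t - m * T0)

section

variable {T0 : ℝ} {x : ℕ → Q} {mv : ℕ → ℕ × ℝ → ℝ → Q} {w : ℕ → ℕ × ℝ}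

lemma path_end (hT0 : 0 < T0) (h1 : ∀ k ω t, T0 ≤ t → mv k ω t = x (k + 1)) (m : ℕ) :
    ∀ t, (m : ℝ) * T0 ≤ t → path T0 x mv w m t = x m := by
  cases m with
  | zero => intro t _; rfl
  | succ m =>
    intro t ht
    push_cast at ht
    simp only [path]
    rw [if_neg (by linarith)]
    apply h1
    linarith

lemma path_lip (hT0 : 0 < T0) (hlip : ∀ k ω, LipschitzWith 1 (mv k ω))
    (h0 : ∀ k ω, ∀ t ≤ 0, mv k ω t = x k)
    (h1 : ∀ k ω t, T0 ≤ t → mv k ω t = x (k + 1)) (m : ℕ) :
    ∀ s t : ℝ, s ≤ t → dist (path T0 x mv w m s) (path T0 x mv w m t) ≤ t - s := by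
  induction m with
  | zero =>
    intro s t hst
    simp only [path, dist_self]
    linarith
  | succ m ih =>
    intro s t hst
    simp only [path]
    have hm : ∀ a b : ℝ, a ≤ b → dist (mv m (w m) a) (mv m (w m) b) ≤ b - a := by
      intro a b hab
      have := (hlip m (w m)).dist_le_mul a b
      rw [NNReal.coe_one, one_mul, Real.dist_eq, abs_sub_comm, abs_of_nonneg (by linarith)] at this
      exact this
    by_cases ht : t ≤ m * T0
    · rw [if_pos ht, if_pos (hst.trans ht)]
      exact ih s t hst
    · rw [if_neg ht]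
      by_cases hs : s ≤ m * T0
      · rw [if_pos hs]
        push Not at ht
        have e1 : path T0 x mv w m (m * T0) = x m := path_end hT0 h1 m _ le_rfl
        have e2 : mv m (w m) 0 = x m := h0 m (w m) 0 le_rfl
        calc dist (path T0 x mv w m s) (mv m (w m) (t - m * T0))
            ≤ dist (path T0 x mv w m s) (path T0 x mv w m (m * T0)) +
              dist (path T0 x mv w m (m * T0)) (mv m (w m) (t - m * T0)) := dist_triangle _ _ _
          _ ≤ (m * T0 - s) + (t - m * T0 - 0) := by
              apply add_le_add (ih _ _ hs)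
              rw [e1, ← e2]
              exact hm _ _ (by linarith)
          _ = t - s := by ring
      · rw [if_neg hs]
        refine (hm _ _ (by linarith)).trans ?_
        linarith

lemma path_block (hT0 : 0 < T0) (h0 : ∀ k ω, ∀ t ≤ 0, mv k ω t = x k)
    (h1 : ∀ k ω t, T0 ≤ t → mv k ω t = x (k + 1)) (k : ℕ) (m : ℕ) (hkm : k < m) (t : ℝ)
    (ht1 : k * T0 ≤ t) (ht2 : t ≤ k * T0 + T0) :
    path T0 x mv w m t = mv k (w k) (t - k * T0) := by
  induction m with
  | zero => omega
  | succ m ih =>
    simp only [path]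
    rcases Nat.lt_succ_iff_lt_or_eq.1 hkm with h | h
    · have hle : t ≤ m * T0 := by
        have : (k : ℝ) + 1 ≤ m := by exact_mod_cast h
        nlinarith
      rw [if_pos hle]
      exact ih h
    · subst h
      by_cases ht : t ≤ k * T0
      · have : t = k * T0 := le_antisymm ht ht1
        rw [if_pos ht, this, path_end hT0 h1 k _ le_rfl, sub_self, h0 k _ 0 le_rfl]
      · rw [if_neg ht]

end

lemma path_meas {Ω : Type} [MeasurableSpace Ω] {T0 : ℝ} {x : ℕ → Q} {mv : ℕ → ℕ × ℝ → ℝ → Q}
    (hmeas : ∀ k t, @Measurable (ℕ × ℝ) Q _ (borel Q) fun ω => mv k ω t)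
    (w : Ω → ℕ → ℕ × ℝ) (hw : ∀ k, Measurable fun ω => w ω k) (m : ℕ) (t : ℝ) :
    @Measurable Ω Q _ (borel Q) fun ω => path T0 x mv (w ω) m t := by
  induction m with
  | zero => exact @measurable_const _ _ (borel Q) _ _
  | succ m ih =>
    simp only [path]
    by_cases ht : t ≤ m * T0
    · simp only [if_pos ht]
      exact ih
    · simp only [if_neg ht]
      exact @Measurable.comp _ _ _ _ _ (borel Q) _ _ (hmeas m (t - m * T0)) (hw m)

end BlocksLower

open BlocksLower

theorem blocks_lower {T0 : ℝ} (hT0 : 0 < T0) (M : ℕ) (x : ℕ → Q) (P : ℕ → Measure (ℕ × ℝ))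
    (hP : ∀ k, IsProbabilityMeasure (P k)) (mv : ℕ → ℕ × ℝ → ℝ → Q)
    (hlip : ∀ k ω, LipschitzWith 1 (mv k ω)) (h0 : ∀ k ω, ∀ t ≤ 0, mv k ω t = x k)
    (h1 : ∀ k ω t, T0 ≤ t → mv k ω t = x (k + 1))
    (hmeas : ∀ k t, @Measurable (ℕ × ℝ) Q _ (borel Q) fun ω => mv k ω t) :
    ∃ H : (Fin M → ℕ × ℝ) → ℝ≥0 → Q, (∀ ω, LipschitzWith 1 (H ω)) ∧
      (∀ t, @Measurable (Fin M → ℕ × ℝ) Q _ (borel Q) fun ω => H ω t) ∧
      ∀ S : ℝ≥0 → Q, LipschitzWith 1 S →
        ENNReal.ofReal (T0 * ∑ m ∈ Finset.range M, ∏ k ∈ Finset.range (m + 1),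
          (1 - (P k {ω | ∃ t ∈ Icc (k * T0) (k * T0 + T0),
            S (Real.toNNReal t) = mv k ω (t - k * T0)}).toReal)) ≤
        ∫⁻ ω, captureTime S (H ω) ∂(Measure.pi fun k : Fin M => P k) := by
  classical
  let w : (Fin M → ℕ × ℝ) → ℕ → ℕ × ℝ := fun ω k => if h : k < M then ω ⟨k, h⟩ else (0, 0)
  have hw : ∀ k, Measurable fun ω => w ω k := by
    intro k
    by_cases h : k < M
    · simp only [w, dif_pos h]
      exact measurable_pi_apply _
    · simp only [w, dif_neg h]
      exact measurable_const
  have hwk : ∀ ω (k : ℕ) (h : k < M), w ω k = ω ⟨k, h⟩ := by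
    intro ω k h
    simp only [w, dif_pos h]
  refine ⟨fun ω t => path T0 x mv (w ω) M t, ?_, ?_, ?_⟩
  · intro ω
    apply LipschitzWith.of_dist_le_mul
    intro s t
    rw [NNReal.coe_one, one_mul, NNReal.dist_eq]
    rcases le_total (s : ℝ) (t : ℝ) with h | h
    · rw [abs_sub_comm, abs_of_nonneg (by linarith)]
      exact path_lip hT0 hlip h0 h1 M _ _ h
    · rw [abs_of_nonneg (by linarith), dist_comm]
      exact path_lip hT0 hlip h0 h1 M _ _ h
  · intro t
    exact path_meas hmeas w hw M t
  · intro S hS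
    set B : ℕ → Set (ℕ × ℝ) := fun k => {ω | ∃ t ∈ Icc (k * T0) (k * T0 + T0),
      S (Real.toNNReal t) = mv k ω (t - k * T0)} with hB
    set C : ℕ → Set (ℕ × ℝ) := fun k => toMeasurable (P k) (B k) with hC
    have hCm : ∀ k, MeasurableSet (C k) := fun k => measurableSet_toMeasurable _ _
    have hCB : ∀ k, P k (C k) = P k (B k) := fun k => measure_toMeasurable _
    -- survival
    have hsurv : ∀ ω (m : ℕ), m < M → (∀ k ≤ m, w ω k ∉ C k) →
        ENNReal.ofReal ((m + 1) * T0) ≤ captureTime S fun t => path T0 x mv (w ω) M t := by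
      intro ω m hm hk
      unfold captureTime
      refine le_iInf₂ ?_
      intro t ht
      by_contra hcon
      push Not at hcon
      have ht2 : (t : ℝ) < (m + 1) * T0 := by
        rw [ENNReal.lt_ofReal_iff_toReal_lt ENNReal.coe_ne_top] at hcon
        simpa using hcon
      have ht0 : (0 : ℝ) ≤ t := t.2
      set k : ℕ := ⌊(t : ℝ) / T0⌋₊ with hkdef
      have hk1 : (k : ℝ) * T0 ≤ t := by
        rw [← le_div_iff₀ hT0]
        exact Nat.floor_le (by positivity)
      have hk2 : (t : ℝ) ≤ k * T0 + T0 := by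
        have := (Nat.lt_floor_add_one ((t : ℝ) / T0)).le
        rw [div_le_iff₀ hT0] at this
        linarith
      have hkm : k ≤ m := by
        have h3 : (k : ℝ) < m + 1 := by
          have : (k : ℝ) * T0 < (m + 1) * T0 := lt_of_le_of_lt hk1 ht2
          exact lt_of_mul_lt_mul_right this hT0.le
        have : k < m + 1 := by exact_mod_cast h3
        omega
      apply hk k hkm
      apply subset_toMeasurable
      refine ⟨t, ⟨hk1, hk2⟩, ?_⟩
      rw [Real.toNNReal_coe, ht]
      exact path_block hT0 h0 h1 k M (by omega) t hk1 hk2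
    let A : ℕ → Set (Fin M → ℕ × ℝ) := fun m => Set.pi univ fun k : Fin M =>
      if (k : ℕ) ≤ m then (C k)ᶜ else univ
    have hAm : ∀ m, MeasurableSet (A m) := by
      intro m
      apply MeasurableSet.univ_pi
      intro k
      by_cases h : (k : ℕ) ≤ m
      · rw [if_pos h]
        exact (hCm _).compl
      · rw [if_neg h]
        exact MeasurableSet.univ
    have hAmem : ∀ m, m < M → ∀ ω, ω ∈ A m ↔ ∀ k ≤ m, w ω k ∉ C k := by
      intro m hm ω
      constructor
      · intro h k hk
        have h2 := h ⟨k, by omega⟩ (mem_univ _)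
        simp only [if_pos hk] at h2
        rw [hwk ω k (by omega)]
        exact h2
      · intro h k _
        by_cases hk : (k : ℕ) ≤ m
        · simp only [if_pos hk]
          have := h k hk
          rw [hwk ω k k.2] at this
          exact this
        · simp only [if_neg hk]
          trivial
    have hpt : ∀ ω, ∀ n ≤ M, ∑ m ∈ Finset.range n, (A m).indicator (fun _ => ENNReal.ofReal T0) ω ≤
        captureTime S fun t => path T0 x mv (w ω) M t := by
      intro ω n
      induction n with
      | zero =>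
        intro _
        simp
      | succ n ih =>
        intro hn
        by_cases hA : ω ∈ A n
        · refine le_trans ?_ (hsurv ω n (by omega) ((hAmem n (by omega) ω).1 hA))
          calc ∑ m ∈ Finset.range (n + 1), (A m).indicator (fun _ => ENNReal.ofReal T0) ω
              ≤ ∑ _m ∈ Finset.range (n + 1), ENNReal.ofReal T0 := by
                apply Finset.sum_le_sum
                intro m _
                exact Set.indicator_le_self _ _ _
            _ = ENNReal.ofReal ((n + 1) * T0) := by
                rw [Finset.sum_const, Finset.card_range, nsmul_eq_mul,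
                  ENNReal.ofReal_mul (by positivity)]
                congr 1
                rw [← Nat.cast_succ, ENNReal.ofReal_natCast]
        · rw [Finset.sum_range_succ, Set.indicator_of_notMem hA, add_zero]
          exact ih (by omega)
    have hmono : ∫⁻ ω, ∑ m ∈ Finset.range M, (A m).indicator (fun _ => ENNReal.ofReal T0) ω
        ∂(Measure.pi fun k : Fin M => P k) ≤
        ∫⁻ ω, captureTime S (fun t => path T0 x mv (w ω) M t)
          ∂(Measure.pi fun k : Fin M => P k) :=
      lintegral_mono fun ω => hpt ω M le_rfl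
    refine le_trans (le_of_eq ?_) hmono
    rw [lintegral_finsetSum _ (fun m _ => measurable_const.indicator (hAm m))]
    have hq : ∀ k, 0 ≤ 1 - (P k (B k)).toReal := by
      intro k
      have := hP k
      have h1 : (P k (B k)).toReal ≤ 1 := by
        have := prob_le_one (μ := P k) (s := B k)
        exact ENNReal.toReal_le_of_le_ofReal zero_le_one (by simpa using this)
      linarith
    have hμ : ∀ m ∈ Finset.range M, ∫⁻ ω, (A m).indicator (fun _ => ENNReal.ofReal T0) ω
        ∂(Measure.pi fun k : Fin M => P k) =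
        ENNReal.ofReal (T0 * ∏ k ∈ Finset.range (m + 1), (1 - (P k (B k)).toReal)) := by
      intro m hm
      rw [Finset.mem_range] at hm
      rw [lintegral_indicator_const (hAm m), Measure.pi_pi, ENNReal.ofReal_mul hT0.le]
      congr 1
      have h3 : ∀ k : Fin M, P k (if (k : ℕ) ≤ m then (C k)ᶜ else univ) =
          (fun j : ℕ => if j ≤ m then ENNReal.ofReal (1 - (P j (B j)).toReal) else 1) k := by
        intro k
        have := hP k
        by_cases hk : (k : ℕ) ≤ m
        · simp only [if_pos hk]
          rw [prob_compl_eq_one_sub (hCm _), hCB, ENNReal.ofReal_sub _ ENNReal.toReal_nonneg,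
            ENNReal.ofReal_one, ENNReal.ofReal_toReal (measure_ne_top _ _)]
        · simp only [if_neg hk]
          exact measure_univ
      rw [Finset.prod_congr rfl fun k _ => h3 k,
        Fin.prod_univ_eq_prod_range (fun j : ℕ => if j ≤ m then
          ENNReal.ofReal (1 - (P j (B j)).toReal) else 1) M,
        ENNReal.ofReal_prod_of_nonneg (fun k _ => hq k)]
      rw [← Finset.prod_subset (s₁ := Finset.range (m + 1)) (s₂ := Finset.range M)]
      · apply Finset.prod_congr rfl
        intro k hk
        rw [Finset.mem_range] at hk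
        rw [if_pos (by omega)]
      · intro k hk
        rw [Finset.mem_range] at hk ⊢
        omega
      · intro k _ hk
        rw [Finset.mem_range] at hk
        rw [if_neg (by omega)]
    rw [Finset.sum_congr rfl hμ, Finset.mul_sum, ENNReal.ofReal_sum_of_nonneg]
    intro m _
    exact mul_nonneg hT0.le (Finset.prod_nonneg fun k _ => hq k)

end MPacf82c
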