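import Pool.Agent.Lib.MP_acf82c_lc.Notions

/-!
# Cutting a hider strategy after its `K`-th star

Let `(y, b)` be arbitrary with `y k = y (k+1)` whenever `b k = false` (`k < M`), with any number
of stars. Cut: let `m0` be the least `m` with at least `K` stars among the indices `< m` (if there
is none, or `m0 > M`, then `(y, b)` is admissible already). Put `b' k = b k` for `k < m0`,
`b' k = false` for `k ≥ m0`, `y' k = y k` for `k ≤ m0`, `y' k = y m0` for `k ≥ m0`. Then
`Adm M K y' b'`, `surv B' L y b m ≤ surv B L y' b' m` for `m ≤ m0` (as `card/B' ≤ card/B`), and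
`surv B' L y b m ≤ (B/B')^K` for `m ≥ m0` (at least `K` factors `card/B' ≤ B/B'`, the other
factors are in `[0, 1]`). Sum over `m < M` and average over `p`.
-/

namespace MPacf82c

variable {n : ℕ}

theorem cut_fac_nonneg (B : ℕ) (L : Finset (Fin n)) (y : Fin n) (b : Bool) : 0 ≤ fac B L y b := by
  unfold fac
  split_ifs
  · positivity
  · exact le_refl 0
  · exact zero_le_one

theorem cut_fac_mono {B B' : ℕ} (hB : 0 < B) (hBB : B ≤ B') (L : Finset (Fin n)) (y : Fin n)
    (b : Bool) : fac B' L y b ≤ fac B L y b := by
  unfold fac
  split_ifs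
  · have h1 : (0 : ℝ) < B := by exact_mod_cast hB
    have h2 : (B : ℝ) ≤ B' := by exact_mod_cast hBB
    exact div_le_div_of_nonneg_left (Nat.cast_nonneg _) h1 h2
  · exact le_refl _
  · exact le_refl _

theorem cut_fac_star {B B' : ℕ} (L : Finset (Fin n)) (hL : L.card ≤ B) (y : Fin n) (b : Bool)
    (hB' : 0 < B') :
    fac B' L y b ≤ if b then (B : ℝ) / B' else 1 := by
  unfold fac
  have h2 : (0 : ℝ) < B' := by exact_mod_cast hB'
  have h3 : (L.card : ℝ) ≤ B := by exact_mod_cast hL
  cases b
  · simp only [Bool.false_eq_true, if_false]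
    split_ifs
    · exact zero_le_one
    · exact le_refl _
  · simp only [if_true]
    gcongr

theorem cut_surv_star {B B' : ℕ} (hB : 0 < B) (hBB : B ≤ B') (L : ℕ → Finset (Fin n))
    (hL : ∀ k, (L k).card ≤ B) (y : ℕ → Fin n) (b : ℕ → Bool) (m : ℕ) :
    surv B' L y b m ≤
      ((B : ℝ) / B') ^ ((Finset.range m).filter fun k => b k = true).card := by
  have hB' : 0 < B' := lt_of_lt_of_le hB hBB
  unfold surv
  calc ∏ k ∈ Finset.range m, fac B' (L k) (y k) (b k)
      ≤ ∏ k ∈ Finset.range m, (if b k = true then (B : ℝ) / B' else 1) := by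
        apply Finset.prod_le_prod
        · intro k _
          exact cut_fac_nonneg _ _ _ _
        · intro k _
          exact cut_fac_star (L k) (hL k) (y k) (b k) hB'
    _ = ((B : ℝ) / B') ^ ((Finset.range m).filter fun k => b k = true).card := by
        rw [Finset.prod_ite, Finset.prod_const, Finset.prod_const_one, mul_one]

theorem cut_surv_le {B B' : ℕ} (hB : 0 < B) (hBB : B ≤ B') (L : ℕ → Finset (Fin n))
    (y : ℕ → Fin n) (b : ℕ → Bool) (m : ℕ) : surv B' L y b m ≤ surv B L y b m := by
  unfold surv
  apply Finset.prod_le_prod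
  · intro k _
    exact cut_fac_nonneg _ _ _ _
  · intro k _
    exact cut_fac_mono hB hBB _ _ _

theorem cut_surv_nonneg (B : ℕ) (L : ℕ → Finset (Fin n))
    (y : ℕ → Fin n) (b : ℕ → Bool) (m : ℕ) : 0 ≤ surv B L y b m := by
  unfold surv
  exact Finset.prod_nonneg fun k _ => cut_fac_nonneg _ _ _ _

theorem cut_exists (M K : ℕ) (b : ℕ → Bool)
    (h : K < ((Finset.range M).filter fun k => b k = true).card) :
    ∃ m0, ((Finset.range m0).filter fun k => b k = true).card = K := by
  classical
  have hex : ∃ m, K ≤ ((Finset.range m).filter fun k => b k = true).card := ⟨M, h.le⟩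
  refine ⟨Nat.find hex, ?_⟩
  have h1 := Nat.find_spec hex
  refine le_antisymm ?_ h1
  rcases Nat.eq_zero_or_pos (Nat.find hex) with h0 | h0
  · rw [h0]
    simp
  · have h2 := Nat.find_min hex (Nat.sub_lt h0 one_pos)
    push Not at h2
    have h3 : Nat.find hex = (Nat.find hex - 1) + 1 := by omega
    rw [h3, Finset.range_add_one, Finset.filter_insert]
    split_ifs
    · exact (Finset.card_insert_le _ _).trans h2
    · exact h2.le

/-- Purely combinatorial part: arbitrary star patterns against the optimal mixture. -/
theorem unrestricted_bound {B B' M K : ℕ} (hB : 0 < B) (hBB : B ≤ B') {V : ℝ} {ι : Type}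
    [Fintype ι] {p : ι → ℝ} {L : ι → ℕ → Finset (Fin n)} (hp : ∀ i, 0 ≤ p i)
    (hp1 : ∑ i, p i = 1) (hL : ∀ i k, (L i k).card ≤ B)
    (hV : ∀ (y : ℕ → Fin n) (b : ℕ → Bool), Adm M K y b → ∑ i, p i * payoff B M (L i) y b ≤ V)
    (y : ℕ → Fin n) (b : ℕ → Bool) (hy : ∀ k, k < M → b k = false → y k = y (k + 1)) :
    ∑ i, p i * payoff B' M (L i) y b ≤ V + M * ((B : ℝ) / B') ^ K := by
  classical
  have hB' : 0 < B' := lt_of_lt_of_le hB hBB
  have hB'r : (0 : ℝ) < B' := by exact_mod_cast hB'
  have hpow : (0 : ℝ) ≤ ((B : ℝ) / B') ^ K := by positivity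
  have hpowM : (0 : ℝ) ≤ (M : ℝ) * ((B : ℝ) / B') ^ K := by positivity
  have hr1 : (B : ℝ) / B' ≤ 1 := by
    rw [div_le_one hB'r]
    exact_mod_cast hBB
  have hr0 : 0 ≤ (B : ℝ) / B' := by positivity
  by_cases hK : ((Finset.range M).filter fun k => b k = true).card ≤ K
  · have h1 := hV y b ⟨hy, hK⟩
    have h2 : ∑ i, p i * payoff B' M (L i) y b ≤ ∑ i, p i * payoff B M (L i) y b := by
      apply Finset.sum_le_sum
      intro i _
      apply mul_le_mul_of_nonneg_left _ (hp i)
      unfold payoff
      apply Finset.sum_le_sum
      intro m _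
      exact cut_surv_le hB hBB (L i) y b m
    linarith
  · push Not at hK
    obtain ⟨m0, hm0⟩ := cut_exists M K b hK
    have hm0M : m0 ≤ M := by
      by_contra hcon
      push Not at hcon
      have hsub : (Finset.range M).filter (fun k => b k = true) ⊆
          (Finset.range m0).filter (fun k => b k = true) := by
        apply Finset.filter_subset_filter
        intro k hk
        rw [Finset.mem_range] at hk ⊢
        omega
      have := Finset.card_le_card hsub
      omega
    set y' : ℕ → Fin n := fun k => y (min k m0) with hy'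
    set b' : ℕ → Bool := fun k => if k < m0 then b k else false with hb'
    have hadm : Adm M K y' b' := by
      refine ⟨?_, ?_⟩
      · intro k hk hbk
        by_cases hkm : k < m0
        · have h1 : b k = false := by
            simpa [hb', hkm] using hbk
          have h2 := hy k hk h1
          have h3 : min k m0 = k := min_eq_left hkm.le
          have h4 : min (k + 1) m0 = k + 1 := min_eq_left hkm
          simp only [hy', h3, h4, h2]
        · have h3 : min k m0 = m0 := min_eq_right (by omega)
          have h4 : min (k + 1) m0 = m0 := min_eq_right (by omega)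
          simp only [hy', h3, h4]
      · have hsub : (Finset.range M).filter (fun k => b' k = true) ⊆
            (Finset.range m0).filter (fun k => b k = true) := by
          intro k hk
          rw [Finset.mem_filter] at hk ⊢
          have h2 := hk.2
          simp only [hb'] at h2
          by_cases hkm : k < m0
          · rw [if_pos hkm] at h2
            exact ⟨Finset.mem_range.2 hkm, h2⟩
          · rw [if_neg hkm] at h2
            exact absurd h2 (by decide)
        calc _ ≤ _ := Finset.card_le_card hsub
          _ ≤ K := hm0.le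
    have h1 := hV y' b' hadm
    have hterm : ∀ i m, surv B' (L i) y b m ≤ surv B (L i) y' b' m + ((B : ℝ) / B') ^ K := by
      intro i m
      by_cases hm : m ≤ m0
      · have h2 : surv B (L i) y' b' m = surv B (L i) y b m := by
          unfold surv
          apply Finset.prod_congr rfl
          intro k hk
          have hk' : k < m0 := lt_of_lt_of_le (Finset.mem_range.1 hk) hm
          have h3 : min k m0 = k := min_eq_left hk'.le
          simp only [hy', hb', h3, if_pos hk']
        have h3 := cut_surv_le hB hBB (L i) y b m
        linarith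
      · push Not at hm
        have h2 := cut_surv_star hB hBB (L i) (hL i) y b m
        have h3 : K ≤ ((Finset.range m).filter fun k => b k = true).card := by
          rw [← hm0]
          apply Finset.card_le_card
          apply Finset.filter_subset_filter
          intro k hk
          rw [Finset.mem_range] at hk ⊢
          omega
        have h4 : ((B : ℝ) / B') ^ ((Finset.range m).filter fun k => b k = true).card ≤
            ((B : ℝ) / B') ^ K := pow_le_pow_of_le_one hr0 hr1 h3
        have h5 := cut_surv_nonneg B (L i) y' b' m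
        linarith
    have hpay : ∀ i, payoff B' M (L i) y b ≤
        payoff B M (L i) y' b' + M * ((B : ℝ) / B') ^ K := by
      intro i
      unfold payoff
      calc ∑ m ∈ Finset.range M, surv B' (L i) y b m
          ≤ ∑ m ∈ Finset.range M, (surv B (L i) y' b' m + ((B : ℝ) / B') ^ K) :=
            Finset.sum_le_sum fun m _ => hterm i m
        _ = _ := by
            rw [Finset.sum_add_distrib, Finset.sum_const, Finset.card_range, nsmul_eq_mul]
    calc ∑ i, p i * payoff B' M (L i) y b
        ≤ ∑ i, p i * (payoff B M (L i) y' b' + M * ((B : ℝ) / B') ^ K) :=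
          Finset.sum_le_sum fun i _ => mul_le_mul_of_nonneg_left (hpay i) (hp i)
      _ = ∑ i, p i * payoff B M (L i) y' b' + (∑ i, p i) * (M * ((B : ℝ) / B') ^ K) := by
          rw [Finset.sum_mul, ← Finset.sum_add_distrib]
          apply Finset.sum_congr rfl
          intro i _
          ring
      _ ≤ V + M * ((B : ℝ) / B') ^ K := by
          rw [hp1, one_mul]
          linarith

end MPacf82c
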