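import Pool.Agent.Lib.MP_acf82c_lc.CloverTour

/-!
# Independent rounds

`R` is the finite set of pure round strategies with probabilities `p`; `g r` are the slots of the
round `r`; a round has `M * B'` slots. The searcher plays independent rounds for ever:
`Ω = ℕ → R` with `Measure.infinitePi`, `S ω = tour N O (fun s => g (ω (s / (M*B'))) (s % (M*B')))`.

For a continuous hider path `H` let `H_j τ = H (j M B' + τ)`, let `u_{j,m}` be the probability
that round `j` does not catch `H` in its first `m` blocks, i.e.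
`∑ r, p r * [∀ τ ≤ m B', tour (g r) τ ≠ H_j τ]`; so `∑ m < M, u_{j,m} ≤ V'` and
`u_{j,M} ≤ u_{j,M-1} ≤ ...`, hence `M u_{j,M} ≤ V'` (only `u_{j,M} ≤ u_{j,m}` is used).
The capture time is at most `B' * ∑_j [rounds < j fail] * ∑_{m<M} [round j fails in its first m
blocks]` (every block not yet survived costs at most `B'`; if all rounds fail the right hand side
is infinite), and the rounds are independent, so
`E T ≤ B' ∑_j (V'/M)^j V' = B' V' / (1 - V'/M)`.
Measurability in `ω` for fixed `t`: `S ω t` depends on one coordinate of `ω` only and `R` is finite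
with the discrete measurable space.
-/

namespace MPacf82c

open Set MeasureTheory
open scoped NNReal ENNReal

variable {Q : Type} [MetricSpace Q] {N : Network Q} {O : Q} {n : ℕ}

/-- The capture time is at most the number of blocks not survived times `B'`. -/
private theorem IidRounds_capture (hC : IsClover N O n) {R : Type} (g : R → ℕ → Option N.Arc)
    {M B' : ℕ} (hM : 0 < M) (hB' : 0 < B') (H : ℝ≥0 → Q) (ω : ℕ → R) (F : ℕ → ℕ → Set R)
    (hF : ∀ j m r, r ∈ F j m ↔ ∀ τ : ℝ≥0, τ ≤ m * B' →
      tour N O (g r) τ ≠ H ((j : ℝ≥0) * (M * B') + τ)) :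
    captureTime (tour N O (fun s => g (ω (s / (M * B'))) (s % (M * B')))) H ≤
      ∑' j : ℕ, ∑ m ∈ Finset.range M,
        ({ω : ℕ → R | (∀ i < j, ω i ∈ F i M) ∧ ω j ∈ F j m}.indicator (fun _ => (B' : ℝ≥0∞)) ω) := by
  classical
  have hL : 0 < M * B' := Nat.mul_pos hM hB'
  have hmono : ∀ j m r, m ≤ M → r ∈ F j M → r ∈ F j m := by
    intro j m r hm hr
    rw [hF] at hr ⊢
    intro τ hτ
    refine hr τ (hτ.trans ?_)
    have : (m : ℝ≥0) ≤ M := by exact_mod_cast hm
    gcongr
  -- a full failing round costs `M * B'`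
  have hfull : ∀ j, (∀ i < j, ω i ∈ F i M) → ω j ∈ F j M →
      ∑ m ∈ Finset.range M,
        ({ω : ℕ → R | (∀ i < j, ω i ∈ F i M) ∧ ω j ∈ F j m}.indicator (fun _ => (B' : ℝ≥0∞)) ω)
        = (M * B' : ℕ) := by
    intro j h1 h2
    rw [Finset.sum_congr rfl (g := fun _ => (B' : ℝ≥0∞))]
    · rw [Finset.sum_const, Finset.card_range, nsmul_eq_mul]
      push_cast
      rfl
    · intro m hm
      rw [Set.indicator_of_mem]
      exact ⟨h1, hmono j m _ (Finset.mem_range.1 hm).le h2⟩
  by_cases hex : ∃ j, ω j ∉ F j M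
  · set j0 := Nat.find hex with hj0
    have h1 : ω j0 ∉ F j0 M := Nat.find_spec hex
    have h2 : ∀ i < j0, ω i ∈ F i M := fun i hi => not_not.1 (Nat.find_min hex hi)
    have hex2 : ∃ m, ω j0 ∉ F j0 m := ⟨M, h1⟩
    set m0 := Nat.find hex2 with hm0
    have h3 : ω j0 ∉ F j0 m0 := Nat.find_spec hex2
    have h4 : ∀ m < m0, ω j0 ∈ F j0 m := fun m hm => not_not.1 (Nat.find_min hex2 hm)
    have h5 : m0 ≤ M := Nat.find_min' hex2 h1
    rw [hF] at h3
    push Not at h3
    obtain ⟨τ, hτ, h6⟩ := h3
    have hτL : τ ≤ ((M * B' : ℕ) : ℝ≥0) := by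
      refine hτ.trans ?_
      push_cast
      have : (m0 : ℝ≥0) ≤ M := by exact_mod_cast h5
      gcongr
    have hshift : tour N O (fun s => g (ω (s / (M * B'))) (s % (M * B')))
        (((j0 * (M * B') : ℕ) : ℝ≥0) + τ) = tour N O (g (ω j0)) τ := by
      refine tour_shift hC _ _ (fun s hs => ?_) hτL
      have e1 : (j0 * (M * B') + s) / (M * B') = j0 := by
        rw [mul_comm j0, Nat.mul_add_div hL, Nat.div_eq_of_lt hs, add_zero]
      have e2 : (j0 * (M * B') + s) % (M * B') = s := by
        rw [mul_comm j0, Nat.mul_add_mod, Nat.mod_eq_of_lt hs]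
      rw [e1, e2]
    have hmeet : tour N O (fun s => g (ω (s / (M * B'))) (s % (M * B')))
        (((j0 * (M * B') : ℕ) : ℝ≥0) + τ) = H (((j0 * (M * B') : ℕ) : ℝ≥0) + τ) := by
      rw [hshift, h6]
      push_cast
      rfl
    have hT : captureTime (tour N O (fun s => g (ω (s / (M * B'))) (s % (M * B')))) H ≤
        ((((j0 * (M * B') : ℕ) : ℝ≥0) + τ : ℝ≥0) : ℝ≥0∞) :=
      iInf₂_le (f := fun (t : ℝ≥0) (_ : tour N O (fun s => g (ω (s / (M * B'))) (s % (M * B'))) t
        = H t) => (t : ℝ≥0∞)) _ hmeet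
    refine hT.trans ?_
    have hbound : ((((j0 * (M * B') : ℕ) : ℝ≥0) + τ : ℝ≥0) : ℝ≥0∞) ≤
        (j0 * (M * B') : ℕ) + (m0 * B' : ℕ) := by
      have : τ ≤ ((m0 * B' : ℕ) : ℝ≥0) := by
        push_cast
        exact hτ
      rw [ENNReal.coe_add]
      refine add_le_add (by simp) ?_
      calc (τ : ℝ≥0∞) ≤ (((m0 * B' : ℕ) : ℝ≥0) : ℝ≥0∞) := ENNReal.coe_le_coe.2 this
        _ = _ := by simp
    refine hbound.trans ?_
    refine le_trans ?_ (ENNReal.sum_le_tsum (Finset.range (j0 + 1)))
    rw [Finset.sum_range_succ]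
    refine add_le_add ?_ ?_
    · rw [Finset.sum_congr rfl (g := fun _ => ((M * B' : ℕ) : ℝ≥0∞))]
      · rw [Finset.sum_const, Finset.card_range, nsmul_eq_mul]
        push_cast
        rfl
      · intro i hi
        have hi' := Finset.mem_range.1 hi
        exact hfull i (fun k hk => h2 k (hk.trans hi')) (h2 i hi')
    · refine le_trans ?_ (Finset.sum_le_sum_of_subset (Finset.range_mono h5))
      rw [Finset.sum_congr rfl (g := fun _ => (B' : ℝ≥0∞))]
      · rw [Finset.sum_const, Finset.card_range, nsmul_eq_mul]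
        push_cast
        rfl
      · intro m hm
        rw [Set.indicator_of_mem]
        exact ⟨h2, h4 m (Finset.mem_range.1 hm)⟩
  · push Not at hex
    have : ∑' j : ℕ, ∑ m ∈ Finset.range M,
        ({ω : ℕ → R | (∀ i < j, ω i ∈ F i M) ∧ ω j ∈ F j m}.indicator (fun _ => (B' : ℝ≥0∞)) ω)
        = ⊤ := by
      rw [tsum_congr (g := fun _ => ((M * B' : ℕ) : ℝ≥0∞))
        (fun j => hfull j (fun i _ => hex i) (hex j))]
      refine ENNReal.tsum_const_eq_top_of_ne_zero ?_
      exact_mod_cast hL.ne'
    rw [this]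
    exact le_top

/-- The probability of the events. -/
private theorem IidRounds_prob {R : Type} [MeasurableSpace R] [DiscreteMeasurableSpace R]
    (P0 : Measure R) [IsProbabilityMeasure P0] (F : ℕ → Set R) (G : Set R) (j : ℕ) :
    MeasurableSet {ω : ℕ → R | (∀ i < j, ω i ∈ F i) ∧ ω j ∈ G} ∧
    Measure.infinitePi (fun _ : ℕ => P0) {ω : ℕ → R | (∀ i < j, ω i ∈ F i) ∧ ω j ∈ G} =
      (∏ i ∈ Finset.range j, P0 (F i)) * P0 G := by
  classical
  have h1 : {ω : ℕ → R | (∀ i < j, ω i ∈ F i) ∧ ω j ∈ G} =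
      Set.pi (Finset.range (j + 1) : Finset ℕ) (fun i => if i = j then G else F i) := by
    ext ω
    simp only [Set.mem_ofPred_eq, Set.mem_pi, Finset.mem_coe, Finset.mem_range]
    constructor
    · rintro ⟨h1, h2⟩ i hi
      by_cases h3 : i = j
      · rw [if_pos h3, h3]
        exact h2
      · rw [if_neg h3]
        exact h1 i (by omega)
    · intro h
      refine ⟨fun i hi => ?_, ?_⟩
      · have := h i (by omega)
        rwa [if_neg (by omega)] at this
      · have := h j (by omega)
        rwa [if_pos rfl] at this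
  rw [h1]
  refine ⟨?_, ?_⟩
  · exact MeasurableSet.pi (Finset.countable_toSet _) fun _ _ => MeasurableSet.of_discrete
  · rw [Measure.infinitePi_pi _ (fun _ _ => MeasurableSet.of_discrete), Finset.prod_range_succ,
      if_pos rfl]
    congr 1
    refine Finset.prod_congr rfl fun i hi => ?_
    rw [if_neg (Finset.mem_range.1 hi).ne]

open Classical in
theorem iid_rounds (hC : IsClover N O n) {R : Type} [Fintype R] {p : R → ℝ}
    (hp : ∀ r, 0 ≤ p r) (hp1 : ∑ r, p r = 1) (g : R → ℕ → Option N.Arc) {M B' : ℕ}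
    (hM : 0 < M) (hB' : 0 < B') {V' : ℝ} (hV0 : 0 ≤ V') (hV : V' < M)
    (hguar : ∀ H : ℝ≥0 → Q, Continuous H →
      ∑ m ∈ Finset.range M, ∑ r, p r *
        (if ∀ τ : ℝ≥0, τ ≤ m * B' → tour N O (g r) τ ≠ H τ then 1 else 0) ≤ V')
    (w : ℝ≥0) :
    SearcherGuarantees w O (ENNReal.ofReal (B' * V' / (1 - V' / M))) := by
  let mR : MeasurableSpace R := ⊤
  have hdisc : DiscreteMeasurableSpace R := ⟨fun _ => MeasurableSpace.measurableSet_top⟩
  have hsum : ∑ r, ENNReal.ofReal (p r) = 1 := by
    rw [← ENNReal.ofReal_sum_of_nonneg (fun r _ => hp r), hp1, ENNReal.ofReal_one]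
  let pm : PMF R := PMF.ofFintype (fun r => ENNReal.ofReal (p r)) hsum
  have hP0 : ∀ s : Set R, pm.toMeasure s = ENNReal.ofReal (∑ r, p r * (if r ∈ s then 1 else 0)) := by
    intro s
    rw [PMF.toMeasure_apply_fintype, ENNReal.ofReal_sum_of_nonneg]
    · refine Finset.sum_congr rfl fun r _ => ?_
      by_cases hr : r ∈ s
      · rw [Set.indicator_of_mem hr, if_pos hr, mul_one]
        rfl
      · rw [Set.indicator_of_notMem hr, if_neg hr, mul_zero, ENNReal.ofReal_zero]
    · intro r _
      split_ifs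
      · simpa using hp r
      · simp
  refine ⟨ℕ → R, inferInstance, Measure.infinitePi (fun _ : ℕ => pm.toMeasure),
    fun ω => tour N O (fun s => g (ω (s / (M * B'))) (s % (M * B'))), inferInstance,
    fun ω => tour_zero hC _, fun ω => tour_lip hC _, ?_, ?_⟩
  · intro t
    let mQ : MeasurableSpace Q := borel Q
    have h1 : (fun ω : ℕ → R => tour N O (fun s => g (ω (s / (M * B'))) (s % (M * B'))) t) =
        (fun r : R => tour N O (fun s => g r (s % (M * B'))) t) ∘
          (fun ω : ℕ → R => ω (⌊t⌋₊ / (M * B'))) := by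
      funext ω
      simp only [tour, Function.comp_apply]
    rw [h1]
    exact (Measurable.of_discrete).comp (measurable_pi_apply _)
  · intro H hH
    have hHc : Continuous H := hH.continuous
    let F : ℕ → ℕ → Set R := fun j m => {r | ∀ τ : ℝ≥0, τ ≤ m * B' →
      tour N O (g r) τ ≠ H ((j : ℝ≥0) * (M * B') + τ)}
    have hF : ∀ j m r, r ∈ F j m ↔ ∀ τ : ℝ≥0, τ ≤ m * B' →
      tour N O (g r) τ ≠ H ((j : ℝ≥0) * (M * B') + τ) := fun j m r => Iff.rfl
    have hsumV : ∀ j, ∑ m ∈ Finset.range M, pm.toMeasure (F j m) ≤ ENNReal.ofReal V' := by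
      intro j
      have h1 := hguar (fun τ => H ((j : ℝ≥0) * (M * B') + τ))
        (hHc.comp (continuous_const.add continuous_id))
      rw [Finset.sum_congr rfl (fun m _ => hP0 (F j m)), ← ENNReal.ofReal_sum_of_nonneg]
      · exact ENNReal.ofReal_le_ofReal h1
      · intro m _
        exact Finset.sum_nonneg fun r _ => mul_nonneg (hp r) (by split_ifs <;> norm_num)
    have hM0 : (M : ℝ≥0∞) ≠ 0 := by exact_mod_cast hM.ne'
    have hone : ∀ j, pm.toMeasure (F j M) ≤ ENNReal.ofReal V' / M := by
      intro j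
      rw [ENNReal.le_div_iff_mul_le (Or.inl hM0) (Or.inl (ENNReal.natCast_ne_top M))]
      refine le_trans ?_ (hsumV j)
      calc pm.toMeasure (F j M) * M = ∑ m ∈ Finset.range M, pm.toMeasure (F j M) := by
            rw [Finset.sum_const, Finset.card_range, nsmul_eq_mul, mul_comm]
        _ ≤ _ := by
            refine Finset.sum_le_sum fun m hm => measure_mono ?_
            intro r hr τ hτ
            refine hr τ (hτ.trans ?_)
            have : (m : ℝ≥0) ≤ M := by exact_mod_cast (Finset.mem_range.1 hm).le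
            gcongr
    calc ∫⁻ ω, captureTime (tour N O (fun s => g (ω (s / (M * B'))) (s % (M * B')))) H
          ∂(Measure.infinitePi (fun _ : ℕ => pm.toMeasure))
        ≤ ∫⁻ ω, ∑' j : ℕ, ∑ m ∈ Finset.range M,
            ({ω : ℕ → R | (∀ i < j, ω i ∈ F i M) ∧ ω j ∈ F j m}.indicator
              (fun _ => (B' : ℝ≥0∞)) ω) ∂(Measure.infinitePi (fun _ : ℕ => pm.toMeasure)) :=
          lintegral_mono fun ω => IidRounds_capture hC g hM hB' H ω F hF
      _ = ∑' j : ℕ, ∑ m ∈ Finset.range M, (B' : ℝ≥0∞) *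
            ((∏ i ∈ Finset.range j, pm.toMeasure (F i M)) * pm.toMeasure (F j m)) := by
          rw [lintegral_tsum]
          · refine tsum_congr fun j => ?_
            rw [lintegral_finsetSum]
            · refine Finset.sum_congr rfl fun m _ => ?_
              obtain ⟨h1, h2⟩ := IidRounds_prob pm.toMeasure (fun i => F i M) (F j m) j
              rw [lintegral_indicator_const h1, h2]
            · intro m _
              exact measurable_const.indicator
                (IidRounds_prob pm.toMeasure (fun i => F i M) (F j m) j).1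
          · intro j
            refine (Finset.measurable_fun_sum _ fun m _ => ?_).aemeasurable
            exact measurable_const.indicator
              (IidRounds_prob pm.toMeasure (fun i => F i M) (F j m) j).1
      _ ≤ ∑' j : ℕ, (B' : ℝ≥0∞) * (ENNReal.ofReal V' * (ENNReal.ofReal V' / M) ^ j) := by
          refine ENNReal.tsum_le_tsum fun j => ?_
          rw [← Finset.mul_sum, ← Finset.mul_sum]
          refine mul_le_mul' le_rfl ?_
          rw [mul_comm]
          refine mul_le_mul' (hsumV j) ?_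
          calc ∏ i ∈ Finset.range j, pm.toMeasure (F i M)
              ≤ ∏ _i ∈ Finset.range j, (ENNReal.ofReal V' / M) :=
                Finset.prod_le_prod' fun i _ => hone i
            _ = _ := by rw [Finset.prod_const, Finset.card_range]
      _ = ENNReal.ofReal (B' * V' / (1 - V' / M)) := by
          rw [ENNReal.tsum_mul_left, ENNReal.tsum_mul_left, ENNReal.tsum_geometric]
          have hMr : (0 : ℝ) < M := by exact_mod_cast hM
          have h1 : (0 : ℝ) < 1 - V' / M := by
            rw [sub_pos, div_lt_one hMr]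
            exact hV
          rw [ENNReal.ofReal_div_of_pos h1, ENNReal.ofReal_sub _ (by positivity),
            ENNReal.ofReal_one, ENNReal.ofReal_div_of_pos hMr, ENNReal.ofReal_mul (by positivity),
            ENNReal.ofReal_natCast, ENNReal.ofReal_natCast, ← mul_assoc]
          rfl

end MPacf82c
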