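import Pool.Agent.Lib.MP_acf82c_lc.CloverRound
import Pool.Agent.Lib.MP_acf82c_lc.CutStars
import Pool.Agent.Lib.MP_acf82c_lc.IidRounds

/-!
# Upper bound for the clover

Combine `round_survival` (with `R = ι × (Fin M → Fin B')`, weights `p i / B'^M`),
`unrestricted_bound` and `iid_rounds`.
-/

namespace MPacf82c

open Set MeasureTheory
open scoped NNReal ENNReal

variable {Q : Type} [MetricSpace Q] {N : Network Q} {O : Q} {n : ℕ}

theorem clover_upper (hC : IsClover N O n) {B B' M K : ℕ} (hB : 0 < B) (hBB : B ≤ B')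
    (hM : 0 < M) {V : ℝ} (hV : SearcherVal n B M K V) (hV0 : 0 ≤ V)
    (hlt : V + M * ((B : ℝ) / B') ^ K < M) (w : ℝ≥0) :
    SearcherGuarantees w O (ENNReal.ofReal
      (B' * (V + M * ((B : ℝ) / B') ^ K) / (1 - (V + M * ((B : ℝ) / B') ^ K) / M))) := by
  classical
  obtain ⟨ι, hι, p, L, hp, hp1, hL, hval⟩ := hV
  have hB' : 0 < B' := hB.trans_le hBB
  have hBM : (0 : ℝ) < (B' : ℝ) ^ M := by positivity
  let eq : Fin n ≃ N.Arc := (Fintype.equivFinOfCardEq hC.card).symm
  let sh : (Fin M → Fin B') → ℕ → ℕ := fun c k => if h : k < M then (c ⟨k, h⟩ : ℕ) else 0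
  let g : ι × (Fin M → Fin B') → ℕ → Option N.Arc :=
    fun r s => (roundSeq (L r.1) B' (sh r.2) s).map eq
  let P : ι × (Fin M → Fin B') → ℝ := fun r => p r.1 / (B' : ℝ) ^ M
  have hP : ∀ r, 0 ≤ P r := fun r => div_nonneg (hp r.1) hBM.le
  have hP1 : ∑ r, P r = 1 := by
    rw [Fintype.sum_prod_type]
    have h1 : ∀ i, ∑ c : Fin M → Fin B', P (i, c) = p i := by
      intro i
      simp only [P, Finset.sum_const, Finset.card_univ, Fintype.card_fun, Fintype.card_fin,
        nsmul_eq_mul]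
      push_cast
      field_simp
    simp only [h1]
    exact hp1
  have hV'0 : 0 ≤ V + M * ((B : ℝ) / B') ^ K := by positivity
  refine iid_rounds hC hP hP1 g hM hB' hV'0 hlt ?_ w
  intro H hH
  obtain ⟨y, b, hyb, hsurv⟩ := round_survival (M := M) hC eq hB' hH
  have hLB' : ∀ i k, (L i k).card ≤ B' := fun i k => (hL i k).trans hBB
  have hmain := unrestricted_bound hB hBB hp hp1 hL hval y b (fun k _ => hyb k)
  refine le_trans ?_ hmain
  have h2 : ∑ i, p i * payoff B' M (L i) y b =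
      ∑ m ∈ Finset.range M, ∑ i, p i * surv B' (L i) y b m := by
    rw [Finset.sum_comm]
    refine Finset.sum_congr rfl fun i _ => ?_
    rw [payoff, Finset.mul_sum]
  rw [h2]
  refine Finset.sum_le_sum fun m hm => ?_
  rw [Fintype.sum_prod_type]
  refine Finset.sum_le_sum fun i _ => ?_
  have h3 : ∑ c : Fin M → Fin B', P (i, c) *
      (if ∀ τ : ℝ≥0, τ ≤ m * B' → tour N O (g (i, c)) τ ≠ H τ then (1 : ℝ) else 0) =
      p i * ((((Finset.univ : Finset (Fin M → Fin B')).filter fun c =>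
        ∀ τ : ℝ≥0, τ ≤ m * B' → tour N O (g (i, c)) τ ≠ H τ).card : ℝ) / (B' : ℝ) ^ M) := by
    have h4 : ∑ c : Fin M → Fin B',
        (if ∀ τ : ℝ≥0, τ ≤ m * B' → tour N O (g (i, c)) τ ≠ H τ then (1 : ℝ) else 0) =
        (((Finset.univ : Finset (Fin M → Fin B')).filter fun c =>
        ∀ τ : ℝ≥0, τ ≤ m * B' → tour N O (g (i, c)) τ ≠ H τ).card : ℝ) := by
      rw [Finset.sum_boole]
    rw [← h4, div_eq_mul_inv, Finset.sum_mul, Finset.mul_sum]
    refine Finset.sum_congr rfl fun c _ => ?_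
    simp only [P]
    ring
  rw [h3]
  exact mul_le_mul_of_nonneg_left
    (hsurv (L i) (hLB' i) m (Finset.mem_range.mp hm).le) (hp i)

end MPacf82c
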