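import Pool.Agent.Lib.MP_acf82c_lc.Defs

/-!
# Finite mixtures of hider strategies

`Ω = ι × Ω0` with `ι` discrete and the measure `∑ i, ofReal (q i) • (dirac i).prod (P i)`.
-/

namespace MPacf82c

open Set MeasureTheory
open scoped NNReal ENNReal

variable {Q : Type} [MetricSpace Q]

theorem mix_guarantee {w : ℝ≥0} {O : Q} {ι Ω0 : Type} [Fintype ι] [MeasurableSpace Ω0]
    {q : ι → ℝ} (hq : ∀ i, 0 ≤ q i) (hq1 : ∑ i, q i = 1) (P : ι → Measure Ω0)
    (hP : ∀ i, IsProbabilityMeasure (P i)) (H : ι → Ω0 → ℝ≥0 → Q)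
    (hlip : ∀ i ω, LipschitzWith w (H i ω))
    (hmeas : ∀ i t, @Measurable Ω0 Q _ (borel Q) fun ω => H i ω t) {v : ℝ≥0∞}
    (hv : ∀ S : ℝ≥0 → Q, S 0 = O → LipschitzWith 1 S →
      v ≤ ∑ i, ENNReal.ofReal (q i) * ∫⁻ ω, captureTime S (H i ω) ∂(P i)) :
    HiderGuarantees w O v := by
  classical
  let mι : MeasurableSpace ι := ⊤
  have : MeasurableSingletonClass ι := ⟨fun _ => trivial⟩
  have hmk : ∀ i : ι, Measurable (Prod.mk i : Ω0 → ι × Ω0) := fun i => measurable_prodMk_left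
  set μ : Measure (ι × Ω0) := ∑ i, ENNReal.ofReal (q i) • (P i).map (Prod.mk i) with hμ
  refine ⟨ι × Ω0, inferInstance, μ, fun p => H p.1 p.2, ?_, fun p => hlip p.1 p.2, ?_, ?_⟩
  · constructor
    rw [hμ, Measure.coe_finsetSum, Finset.sum_apply]
    have h1 : ∀ i, (ENNReal.ofReal (q i) • (P i).map (Prod.mk i)) (univ : Set (ι × Ω0)) =
        ENNReal.ofReal (q i) := by
      intro i
      have := hP i
      rw [Measure.smul_apply, Measure.map_apply (hmk i) MeasurableSet.univ, preimage_univ,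
        measure_univ, smul_eq_mul, mul_one]
    rw [Finset.sum_congr rfl fun i _ => h1 i, ← ENNReal.ofReal_sum_of_nonneg fun i _ => hq i, hq1,
      ENNReal.ofReal_one]
  · intro t
    let : MeasurableSpace Q := borel Q
    exact measurable_from_prod_countable_right fun i => hmeas i t
  · intro S hS0 hS
    refine (hv S hS0 hS).trans ?_
    have hg : ∀ i, ∃ g : Ω0 → ℝ≥0∞, Measurable g ∧ (∀ ω, g ω ≤ captureTime S (H i ω)) ∧
        ∫⁻ ω, captureTime S (H i ω) ∂(P i) = ∫⁻ ω, g ω ∂(P i) := by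
      intro i
      obtain ⟨g, h1, h2, h3⟩ := exists_measurable_le_lintegral_eq (P i)
        (fun ω => captureTime S (H i ω))
      exact ⟨g, h1, h2, h3⟩
    choose g hgm hgle hgint using hg
    have hG : Measurable fun p : ι × Ω0 => g p.1 p.2 :=
      measurable_from_prod_countable_right fun i => hgm i
    calc ∑ i, ENNReal.ofReal (q i) * ∫⁻ ω, captureTime S (H i ω) ∂(P i)
        = ∑ i, ENNReal.ofReal (q i) * ∫⁻ ω, g i ω ∂(P i) :=
          Finset.sum_congr rfl fun i _ => by rw [hgint i]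
      _ = ∫⁻ p, g p.1 p.2 ∂μ := by
          rw [hμ, lintegral_finsetSum_measure]
          refine Finset.sum_congr rfl fun i _ => ?_
          rw [lintegral_smul_measure, lintegral_map hG (hmk i), smul_eq_mul]
      _ ≤ ∫⁻ p, captureTime S (H p.1 p.2) ∂μ := lintegral_mono fun p => hgle p.1 p.2

end MPacf82c
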