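import Pool.Agent.Lib.MP_acf82c_lc.Notions

/-!
# Random relabelling
-/

namespace MPacf82c

open Finset

/-- Relabelling the hider is the same as relabelling the searcher by the inverse. -/
theorem payoff_perm {n : ℕ} (B M : ℕ) (π : Equiv.Perm (Fin n)) (L : ℕ → Finset (Fin n))
    (y : ℕ → Fin n) (b : ℕ → Bool) :
    payoff B M L (fun k => π (y k)) b =
      payoff B M (fun k => (L k).map π.symm.toEmbedding) y b := by
  unfold payoff surv
  apply Finset.sum_congr rfl
  intro m _
  apply Finset.prod_congr rfl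
  intro k _
  unfold fac
  rw [Finset.card_map]
  have h1 : y k ∈ (L k).map π.symm.toEmbedding ↔ π (y k) ∈ L k := by
    rw [Finset.mem_map_equiv, Equiv.symm_symm]
  simp only [h1]

/-- The number of permutations with a given image of one label does not depend on the image. -/
private theorem permAvg_count {n : ℕ} (i a a' : Fin n) :
    (univ.filter (fun π : Equiv.Perm (Fin n) => π i = a)).card =
      (univ.filter (fun π : Equiv.Perm (Fin n) => π i = a')).card := by
  apply Finset.card_bij' (fun π _ => Equiv.swap a a' * π) (fun π _ => Equiv.swap a a' * π)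
  · intro π hπ
    rw [Finset.mem_filter] at hπ ⊢
    refine ⟨Finset.mem_univ _, ?_⟩
    rw [Equiv.Perm.mul_apply, hπ.2, Equiv.swap_apply_left]
  · intro π hπ
    rw [Finset.mem_filter] at hπ ⊢
    refine ⟨Finset.mem_univ _, ?_⟩
    rw [Equiv.Perm.mul_apply, hπ.2, Equiv.swap_apply_right]
  · intro π _
    rw [← mul_assoc, Equiv.swap_mul_self, one_mul]
  · intro π _
    rw [← mul_assoc, Equiv.swap_mul_self, one_mul]

/-- The symmetric group is doubly transitive. -/
private theorem permAvg_two {n : ℕ} {a c a' c' : Fin n} (h : a ≠ c) (h' : a' ≠ c') :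
    ∃ σ : Equiv.Perm (Fin n), σ a = a' ∧ σ c = c' := by
  refine ⟨Equiv.swap (Equiv.swap a a' c) c' * Equiv.swap a a', ?_, ?_⟩
  · rw [Equiv.Perm.mul_apply, Equiv.swap_apply_left]
    apply Equiv.swap_apply_of_ne_of_ne _ h'
    intro h1
    apply h
    apply (Equiv.swap a a').injective
    rw [Equiv.swap_apply_left]
    exact h1
  · rw [Equiv.Perm.mul_apply, Equiv.swap_apply_left]

private theorem permAvg_count2 {n : ℕ} (i j : Fin n) {a c a' c' : Fin n} (h : a ≠ c)
    (h' : a' ≠ c') :
    (univ.filter (fun π : Equiv.Perm (Fin n) => π i = a ∧ π j = c)).card =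
      (univ.filter (fun π : Equiv.Perm (Fin n) => π i = a' ∧ π j = c')).card := by
  obtain ⟨σ, h1, h2⟩ := permAvg_two h h'
  apply Finset.card_bij' (fun π _ => σ * π) (fun π _ => σ⁻¹ * π)
  · intro π hπ
    rw [Finset.mem_filter] at hπ ⊢
    refine ⟨Finset.mem_univ _, ?_, ?_⟩
    · rw [Equiv.Perm.mul_apply, hπ.2.1, h1]
    · rw [Equiv.Perm.mul_apply, hπ.2.2, h2]
  · intro π hπ
    rw [Finset.mem_filter] at hπ ⊢
    refine ⟨Finset.mem_univ _, ?_, ?_⟩
    · rw [Equiv.Perm.mul_apply, hπ.2.1, ← h1, ← Equiv.Perm.mul_apply, inv_mul_cancel, Equiv.Perm.one_apply]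
    · rw [Equiv.Perm.mul_apply, hπ.2.2, ← h2, ← Equiv.Perm.mul_apply, inv_mul_cancel, Equiv.Perm.one_apply]
  · intro π _
    rw [inv_mul_cancel_left]
  · intro π _
    rw [mul_inv_cancel_left]

/-- Average over all permutations of a function of the image of one label. -/
theorem avg_single {n : ℕ} (z : Fin n → ℝ) (i : Fin n) :
    ∑ π : Equiv.Perm (Fin n), z (π i) = (n.factorial : ℝ) / n * ∑ a, z a := by
  have hn : (n : ℝ) ≠ 0 := by
    have : 0 < n := i.pos
    positivity
  have key : ∀ z : Fin n → ℝ, ∑ π : Equiv.Perm (Fin n), z (π i) =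
      ((univ.filter (fun π : Equiv.Perm (Fin n) => π i = i)).card : ℝ) * ∑ a, z a := by
    intro z
    rw [← Finset.sum_fiberwise univ (fun π : Equiv.Perm (Fin n) => π i), Finset.mul_sum]
    apply Finset.sum_congr rfl
    intro a _
    rw [← permAvg_count i a i]
    have h1 : ∀ π ∈ univ.filter (fun π : Equiv.Perm (Fin n) => π i = a), z (π i) = z a := by
      intro π hπ
      rw [(Finset.mem_filter.mp hπ).2]
    rw [Finset.sum_congr rfl h1, Finset.sum_const, nsmul_eq_mul]
  have h1 := key (fun _ => 1)
  rw [Finset.sum_const, Finset.sum_const, Finset.card_univ, Finset.card_univ, Fintype.card_perm,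
    Fintype.card_fin, nsmul_eq_mul, nsmul_eq_mul, mul_one, mul_one] at h1
  rw [key, h1]
  field_simp

/-- Average over all permutations of a function of the images of two distinct labels. -/
theorem avg_pair {n : ℕ} (z : Fin n → Fin n → ℝ) {i j : Fin n} (hij : i ≠ j) :
    ∑ π : Equiv.Perm (Fin n), z (π i) (π j) =
      (n.factorial : ℝ) / (n * (n - 1)) * ∑ a, ∑ c ∈ univ.filter (fun c => c ≠ a), z a c := by
  have hn : (n : ℝ) ≠ 0 := by
    have : 0 < n := i.pos
    positivity
  have hn1 : (n : ℝ) - 1 ≠ 0 := by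
    have h1 : 1 < n := by
      rcases Nat.lt_or_ge 1 n with h | h
      · exact h
      · exfalso
        apply hij
        apply Fin.ext
        have := i.isLt
        have := j.isLt
        omega
    have h2 : (1 : ℝ) < n := by exact_mod_cast h1
    linarith
  have key : ∀ z : Fin n → Fin n → ℝ, ∑ π : Equiv.Perm (Fin n), z (π i) (π j) =
      ((univ.filter (fun π : Equiv.Perm (Fin n) => π i = i ∧ π j = j)).card : ℝ) *
        ∑ a, ∑ c ∈ univ.filter (fun c => c ≠ a), z a c := by
    intro z
    rw [← Finset.sum_fiberwise univ (fun π : Equiv.Perm (Fin n) => π i), Finset.mul_sum]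
    apply Finset.sum_congr rfl
    intro a _
    have hmaps : ∀ π ∈ univ.filter (fun π : Equiv.Perm (Fin n) => π i = a),
        π j ∈ univ.filter (fun c => c ≠ a) := by
      intro π hπ
      rw [Finset.mem_filter] at hπ ⊢
      refine ⟨Finset.mem_univ _, fun h => hij ?_⟩
      apply π.injective
      rw [hπ.2, h]
    rw [← Finset.sum_fiberwise_of_maps_to hmaps, Finset.mul_sum]
    apply Finset.sum_congr rfl
    intro c hc
    have hca : a ≠ c := (Finset.mem_filter.mp hc).2.symm
    rw [← permAvg_count2 i j hca hij, Finset.filter_filter]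
    have h1 : ∀ π ∈ univ.filter (fun π : Equiv.Perm (Fin n) => π i = a ∧ π j = c),
        z (π i) (π j) = z a c := by
      intro π hπ
      obtain ⟨-, h1, h2⟩ := Finset.mem_filter.mp hπ
      rw [h1, h2]
    rw [Finset.sum_congr rfl h1, Finset.sum_const, nsmul_eq_mul]
  have h1 := key (fun _ _ => 1)
  have h2 : ∀ a : Fin n, (univ.filter (fun c : Fin n => c ≠ a)).card = n - 1 := by
    intro a
    rw [Finset.filter_ne', Finset.card_erase_of_mem (Finset.mem_univ _), Finset.card_univ,
      Fintype.card_fin]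
  simp only [Finset.sum_const, nsmul_eq_mul, mul_one, h2, Finset.card_univ, Fintype.card_perm,
    Fintype.card_fin] at h1
  rw [Nat.cast_sub i.pos, Nat.cast_one] at h1
  rw [key, h1]
  field_simp

end MPacf82c
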