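import Mathlib

/-!
# An elementary product inequality
-/

namespace MPacf82c

open Finset

/-- If `0 ≤ f k ≤ 1`, `0 ≤ s k`, and `f k - s k ≤ e k` with `e k ≥ 0`, then
`∏ f k - ∑ e k ≤ ∏ s k` over `k < m`. (Replace `s k` by `min (s k) (f k)`, telescope.) -/
theorem prod_sub_le (m : ℕ) (f s e : ℕ → ℝ) (hf0 : ∀ k < m, 0 ≤ f k) (hf1 : ∀ k < m, f k ≤ 1)
    (hs : ∀ k < m, 0 ≤ s k) (he : ∀ k < m, 0 ≤ e k) (hfs : ∀ k < m, f k - s k ≤ e k) :
    ∏ k ∈ range m, f k - ∑ k ∈ range m, e k ≤ ∏ k ∈ range m, s k := by
  induction m with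
  | zero => simp
  | succ m ih =>
    have ih' := ih (fun k hk => hf0 k (by omega)) (fun k hk => hf1 k (by omega))
      (fun k hk => hs k (by omega)) (fun k hk => he k (by omega)) (fun k hk => hfs k (by omega))
    rw [prod_range_succ, sum_range_succ, prod_range_succ]
    have hF0 : 0 ≤ ∏ k ∈ range m, f k :=
      prod_nonneg (fun k hk => hf0 k (by have := mem_range.1 hk; omega))
    have hF1 : ∏ k ∈ range m, f k ≤ 1 :=
      prod_le_one (fun k hk => hf0 k (by have := mem_range.1 hk; omega))
        (fun k hk => hf1 k (by have := mem_range.1 hk; omega))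
    have hS0 : 0 ≤ ∑ k ∈ range m, e k :=
      sum_nonneg (fun k hk => he k (by have := mem_range.1 hk; omega))
    have h1 := hf0 m (by omega)
    have h2 := hf1 m (by omega)
    have h3 := hs m (by omega)
    have h4 := he m (by omega)
    have h5 := hfs m (by omega)
    set F := ∏ k ∈ range m, f k
    set S := ∏ k ∈ range m, s k
    set T := ∑ k ∈ range m, e k
    have hS : 0 ≤ S := prod_nonneg (fun k hk => hs k (by have := mem_range.1 hk; omega))
    rcases le_total (f m) (s m) with h | h
    · have a1 : S * f m ≤ S * s m := mul_le_mul_of_nonneg_left h hS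
      have a2 : (F - T) * f m ≤ S * f m := mul_le_mul_of_nonneg_right ih' h1
      have a3 : T * f m ≤ T := mul_le_of_le_one_right hS0 h2
      nlinarith
    · have a1 : F * (f m - s m) ≤ f m - s m := mul_le_of_le_one_left (by linarith) hF1
      have a2 : (F - T) * s m ≤ S * s m := mul_le_mul_of_nonneg_right ih' h3
      have a3 : T * s m ≤ T := mul_le_of_le_one_right hS0 (by linarith)
      nlinarith

end MPacf82c
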