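import Pool.Agent.Lib.MP_acf82c_lc.GoodMoves
import Pool.Agent.Lib.MP_acf82c_lc.BlocksLower
import Pool.Agent.Lib.MP_acf82c_lc.HiderMix
import Pool.Agent.Lib.MP_acf82c_lc.PermAvg
import Pool.Agent.Lib.MP_acf82c_lc.ProdIneq

/-!
# The hider plays the block game in a space with good moves

Mixture over `(i, π) ∈ ι × Perm (Fin n)` with weights `q i / n!`; labels `π (y_i k)`, blocks from
`blocks_lower` with `P k = P (π (y k)) (π (y (k+1)))`. For a searcher path `S` (extended by
`S ∘ toNNReal` to `ℝ`) let `L k` be the visited labels in block `k` (`t0 = k T0`) and `z k` the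
errors. With `f k = fac B (L k) (π (y k)) (b k)` and `s k = 1 - P{caught in block k}`:
* `b k = false`: `y k = y (k+1)`, the hider stays, `s k = f k`;
* `b k = true`, `y k = y (k+1)`: `f k - s k ≤ [π (y k) ∈ L k]`;
* `b k = true`, `y k ≠ y (k+1)`: `f k - s k ≤ z k (π (y k)) (π (y (k+1))) + [π (y k) ∈ L k] +
  [π (y (k+1)) ∈ L k]`.
`prod_sub_le`, then the average over `π` (`avg_single`, `avg_pair`): every star costs at most
`err + 2B/n`; at most `K` stars. `∑_{m<M} surv (m+1) ≥ payoff - 1`. The average over `i`, `π` of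
the payoffs is at least `V` by `payoff_perm`.
-/

namespace MPacf82c

open Set MeasureTheory
open scoped NNReal ENNReal

variable {Q : Type} [MetricSpace Q]

/-- `fac` is nonnegative. -/
private theorem hs_fac_nonneg {n : ℕ} (B : ℕ) (L : Finset (Fin n)) (y : Fin n) (b : Bool) :
    0 ≤ fac B L y b := by
  unfold fac
  split_ifs <;> positivity

/-- `fac` is at most one. -/
private theorem hs_fac_le_one {n : ℕ} {B : ℕ} (hB : 0 < B) {L : Finset (Fin n)} (hL : L.card ≤ B)
    (y : Fin n) (b : Bool) : fac B L y b ≤ 1 := by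
  unfold fac
  have hB' : (0 : ℝ) < B := by exact_mod_cast hB
  split_ifs
  · rw [div_le_one hB']
    exact_mod_cast hL
  · norm_num
  · norm_num

/-- The error in block `k`. -/
private noncomputable def hsErr {n : ℕ} (L : Finset (Fin n)) (z : Fin n → Fin n → ℝ)
    (y y' : Fin n) (b : Bool) : ℝ :=
  if b then
    (if y = y' then (if y ∈ L then 1 else 0) else
      z y y' + (if y ∈ L then 1 else 0) + (if y' ∈ L then 1 else 0))
  else 0

private theorem hsErr_nonneg {n : ℕ} (L : Finset (Fin n)) (z : Fin n → Fin n → ℝ)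
    (hz : ∀ i j, 0 ≤ z i j) (y y' : Fin n) (b : Bool) : 0 ≤ hsErr L z y y' b := by
  unfold hsErr
  have := hz y y'
  split_ifs <;> linarith

/-- Lower bound of the payoff with shifted survival probabilities. -/
private theorem hs_payoff {n : ℕ} {B M : ℕ} (hB : 0 < B) (L : ℕ → Finset (Fin n))
    (hL : ∀ k, (L k).card ≤ B) (y : ℕ → Fin n) (b : ℕ → Bool) (s e : ℕ → ℝ)
    (hs : ∀ k < M, 0 ≤ s k) (he : ∀ k, 0 ≤ e k)
    (hfs : ∀ k < M, fac B (L k) (y k) (b k) - s k ≤ e k) :
    payoff B M L y b - 1 - M * ∑ k ∈ Finset.range M, e k ≤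
      ∑ m ∈ Finset.range M, ∏ k ∈ Finset.range (m + 1), s k := by
  have h1 : ∀ m ∈ Finset.range M, surv B L y b (m + 1) - ∑ k ∈ Finset.range M, e k ≤
      ∏ k ∈ Finset.range (m + 1), s k := by
    intro m hm
    rw [Finset.mem_range] at hm
    have h2 := prod_sub_le (m + 1) (fun k => fac B (L k) (y k) (b k)) s e
      (fun k _ => hs_fac_nonneg B (L k) (y k) (b k)) (fun k _ => hs_fac_le_one hB (hL k) _ _)
      (fun k hk => hs k (by omega)) (fun k _ => he k) (fun k hk => hfs k (by omega))
    have h3 : ∑ k ∈ Finset.range (m + 1), e k ≤ ∑ k ∈ Finset.range M, e k :=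
      Finset.sum_le_sum_of_subset_of_nonneg (Finset.range_subset_range.mpr (by omega))
        (fun k _ _ => he k)
    unfold surv
    linarith
  have h4 := Finset.sum_le_sum h1
  rw [Finset.sum_sub_distrib, Finset.sum_const, Finset.card_range, nsmul_eq_mul] at h4
  have h5 : payoff B M L y b - 1 ≤ ∑ m ∈ Finset.range M, surv B L y b (m + 1) := by
    have h6 := Finset.sum_range_succ' (fun m => surv B L y b m) M
    have h7 := Finset.sum_range_succ (fun m => surv B L y b m) M
    have h8 : surv B L y b 0 = 1 := by unfold surv; simp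
    have h9 : 0 ≤ surv B L y b M := by
      unfold surv
      exact Finset.prod_nonneg (fun k _ => hs_fac_nonneg B (L k) (y k) (b k))
    unfold payoff
    linarith
  linarith

/-- Average of the error of one block over all relabellings. -/
private theorem hs_avg_err {n B : ℕ} {err : ℝ} (hB : 0 < B) (hn : 2 ≤ n) (herr : 0 ≤ err)
    (L : Finset (Fin n)) (hL : L.card ≤ B) (z : Fin n → Fin n → ℝ)
    (hz : ∑ i, ∑ j ∈ Finset.univ.filter (fun j => j ≠ i), z i j ≤ (n * (n - 1) : ℝ) * err)
    (y y' : Fin n) (b : Bool) :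
    ∑ π : Equiv.Perm (Fin n), hsErr L z (π y) (π y') b ≤
      (n.factorial : ℝ) * (if b then (err + 2 * B / n) else 0) := by
  have hn0 : (0 : ℝ) < n := by
    have : 0 < n := by omega
    exact_mod_cast this
  have hn1 : (0 : ℝ) < (n : ℝ) - 1 := by
    have : (2 : ℝ) ≤ n := by exact_mod_cast hn
    linarith
  have hf0 : (0 : ℝ) < n.factorial := by exact_mod_cast Nat.factorial_pos n
  have hB0 : (0 : ℝ) < B := by exact_mod_cast hB
  have hLB : (L.card : ℝ) ≤ B := by exact_mod_cast hL
  have hcard : ∀ i : Fin n, ∑ π : Equiv.Perm (Fin n), (if π i ∈ L then (1 : ℝ) else 0) ≤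
      (n.factorial : ℝ) * (B / n) := by
    intro i
    rw [avg_single (fun a => if a ∈ L then (1 : ℝ) else 0) i, Finset.sum_ite_mem,
      Finset.univ_inter, Finset.sum_const, nsmul_eq_mul, mul_one, div_mul_eq_mul_div,
      mul_div_assoc]
    exact mul_le_mul_of_nonneg_left (div_le_div_of_nonneg_right hLB hn0.le) hf0.le
  cases b with
  | false => simp [hsErr]
  | true =>
    simp only [if_true]
    by_cases hyy : y = y'
    · have h1 : ∀ π : Equiv.Perm (Fin n), hsErr L z (π y) (π y') true =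
          if π y ∈ L then (1 : ℝ) else 0 := by
        intro π
        simp [hsErr, hyy]
      rw [Finset.sum_congr rfl (fun π _ => h1 π)]
      refine (hcard y).trans (mul_le_mul_of_nonneg_left ?_ hf0.le)
      have h2 : (B : ℝ) / n ≤ 2 * B / n := by
        apply div_le_div_of_nonneg_right _ hn0.le
        linarith
      linarith
    · have h1 : ∀ π : Equiv.Perm (Fin n), hsErr L z (π y) (π y') true =
          z (π y) (π y') + (if π y ∈ L then (1 : ℝ) else 0) +
            (if π y' ∈ L then (1 : ℝ) else 0) := by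
        intro π
        have h2 : π y ≠ π y' := fun h => hyy (π.injective h)
        simp [hsErr, h2]
      rw [Finset.sum_congr rfl (fun π _ => h1 π), Finset.sum_add_distrib,
        Finset.sum_add_distrib, avg_pair z hyy]
      have h3 : (n.factorial : ℝ) / (n * (n - 1)) *
          ∑ a, ∑ c ∈ Finset.univ.filter (fun c => c ≠ a), z a c ≤ (n.factorial : ℝ) * err := by
        have h4 : (0 : ℝ) < n * (n - 1) := mul_pos hn0 hn1
        calc (n.factorial : ℝ) / (n * (n - 1)) *
              ∑ a, ∑ c ∈ Finset.univ.filter (fun c => c ≠ a), z a c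
            ≤ (n.factorial : ℝ) / (n * (n - 1)) * ((n * (n - 1) : ℝ) * err) :=
              mul_le_mul_of_nonneg_left hz (div_nonneg hf0.le h4.le)
          _ = (n.factorial : ℝ) * err := by
              field_simp
      have h5 := hcard y
      have h6 := hcard y'
      have h7 : (n.factorial : ℝ) * (err + 2 * B / n) =
          (n.factorial : ℝ) * err + (n.factorial : ℝ) * (B / n) +
            (n.factorial : ℝ) * (B / n) := by ring
      rw [h7]
      linarith

theorem hider_strategy {n B M K : ℕ} {T0 err V : ℝ} (hT0 : 0 < T0) (hB : 0 < B) (hn : 2 ≤ n)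
    (herr : 0 ≤ err) (hG : GoodMoves Q n B T0 err) (hV : HiderVal n B M K V) {w : ℝ≥0}
    (hw : 1 ≤ w) (O : Q) :
    HiderGuarantees w O (ENNReal.ofReal (T0 * (V - 1 - M * K * (err + 2 * B / n)))) := by
  classical
  obtain ⟨x, P, mv, hP, hlip, h0, h1, hmeas, hstay, hgood⟩ := hG
  obtain ⟨ι, _, q, y, b, hq, hq1, hadm, hval⟩ := hV
  have hf0 : (0 : ℝ) < n.factorial := by exact_mod_cast Nat.factorial_pos n
  have hcardperm : (Fintype.card (Equiv.Perm (Fin n)) : ℝ) = n.factorial := by
    rw [Fintype.card_perm, Fintype.card_fin]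
  -- the blocks
  have hblocks : ∀ j : ι × Equiv.Perm (Fin n), ∃ H : (Fin M → ℕ × ℝ) → ℝ≥0 → Q,
      (∀ ω, LipschitzWith 1 (H ω)) ∧
      (∀ t, @Measurable (Fin M → ℕ × ℝ) Q _ (borel Q) fun ω => H ω t) ∧
      ∀ S : ℝ≥0 → Q, LipschitzWith 1 S →
        ENNReal.ofReal (T0 * ∑ m ∈ Finset.range M, ∏ k ∈ Finset.range (m + 1),
          (1 - (P (j.2 (y j.1 k)) (j.2 (y j.1 (k + 1))) {ω | ∃ t ∈ Icc (k * T0) (k * T0 + T0),
            S (Real.toNNReal t) =
              mv (j.2 (y j.1 k)) (j.2 (y j.1 (k + 1))) ω (t - k * T0)}).toReal)) ≤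
        ∫⁻ ω, captureTime S (H ω)
          ∂(Measure.pi fun k : Fin M => P (j.2 (y j.1 k)) (j.2 (y j.1 (k + 1)))) := by
    intro j
    exact blocks_lower hT0 M (fun k => x (j.2 (y j.1 k)))
      (fun k => P (j.2 (y j.1 k)) (j.2 (y j.1 (k + 1)))) (fun k => hP _ _)
      (fun k => mv (j.2 (y j.1 k)) (j.2 (y j.1 (k + 1)))) (fun k ω => hlip _ _ ω)
      (fun k ω t ht => h0 _ _ ω t ht) (fun k ω t ht => h1 _ _ ω t ht)
      (fun k t => hmeas _ _ t)
  choose H hHlip hHmeas hHcap using hblocks
  have hwt1 : ∑ j : ι × Equiv.Perm (Fin n), q j.1 / n.factorial = 1 := by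
    rw [Fintype.sum_prod_type]
    simp only [Finset.sum_const, Finset.card_univ, nsmul_eq_mul]
    rw [← Finset.mul_sum, ← Finset.sum_div, hq1, hcardperm]
    field_simp
  have hwt0 : ∀ j : ι × Equiv.Perm (Fin n), 0 ≤ q j.1 / n.factorial :=
    fun j => div_nonneg (hq j.1) hf0.le
  refine mix_guarantee (q := fun j : ι × Equiv.Perm (Fin n) => q j.1 / n.factorial) hwt0 hwt1
    (fun j => Measure.pi fun k : Fin M => P (j.2 (y j.1 k)) (j.2 (y j.1 (k + 1))))
    (fun j => by
      have : ∀ k : Fin M, IsProbabilityMeasure (P (j.2 (y j.1 k)) (j.2 (y j.1 (k + 1)))) :=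
        fun k => hP _ _
      infer_instance) H (fun j ω => (hHlip j ω).weaken hw) hHmeas ?_
  intro S _ hS
  -- the searcher
  set S' : ℝ → Q := fun t => S (Real.toNNReal t) with hS'
  have hS'lip : LipschitzWith 1 S' := by
    have h2 : LipschitzWith 1 Real.toNNReal := lipschitzWith_posPart
    have h3 := hS.comp h2
    rwa [one_mul] at h3
  have hsearch : ∀ k : ℕ, ∃ L : Finset (Fin n), L.card ≤ B ∧
      (∀ i, i ∈ L ↔ ∃ t ∈ Icc (k * T0) (k * T0 + T0), S' t = x i) ∧
      ∃ z : Fin n → Fin n → ℝ, (∀ i j, 0 ≤ z i j) ∧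
        ∑ i, ∑ j ∈ Finset.univ.filter (fun j => j ≠ i), z i j ≤ (n * (n - 1) : ℝ) * err ∧
        ∀ i j, i ≠ j →
          (P i j {ω | ∃ t ∈ Icc (k * T0) (k * T0 + T0), S' t = mv i j ω (t - k * T0)}).toReal ≤
            1 - (L.card : ℝ) / B + z i j + (if i ∈ L then 1 else 0) +
              (if j ∈ L then 1 else 0) := fun k => hgood S' hS'lip (k * T0)
  choose L hLcard hLmem z hz0 hzsum hzP using hsearch
  set s : ι × Equiv.Perm (Fin n) → ℕ → ℝ := fun j k =>
    1 - (P (j.2 (y j.1 k)) (j.2 (y j.1 (k + 1))) {ω | ∃ t ∈ Icc (k * T0) (k * T0 + T0),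
      S (Real.toNNReal t) =
        mv (j.2 (y j.1 k)) (j.2 (y j.1 (k + 1))) ω (t - k * T0)}).toReal with hs
  have hs0 : ∀ j k, 0 ≤ s j k := by
    intro j k
    have := hP (j.2 (y j.1 k)) (j.2 (y j.1 (k + 1)))
    have h2 : (P (j.2 (y j.1 k)) (j.2 (y j.1 (k + 1))) {ω | ∃ t ∈ Icc (k * T0) (k * T0 + T0),
      S (Real.toNNReal t) =
        mv (j.2 (y j.1 k)) (j.2 (y j.1 (k + 1))) ω (t - k * T0)}).toReal ≤ 1 := by
      have h3 := @measureReal_le_one _ _ (P (j.2 (y j.1 k)) (j.2 (y j.1 (k + 1)))) _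
        {ω | ∃ t ∈ Icc (k * T0) (k * T0 + T0), S (Real.toNNReal t) =
          mv (j.2 (y j.1 k)) (j.2 (y j.1 (k + 1))) ω (t - k * T0)}
      exact h3
    simp only [hs]
    linarith
  have hstep : ∀ (j : ι × Equiv.Perm (Fin n)) (k : ℕ), k < M →
      fac B (L k) (j.2 (y j.1 k)) (b j.1 k) - s j k ≤
        hsErr (L k) (z k) (j.2 (y j.1 k)) (j.2 (y j.1 (k + 1))) (b j.1 k) := by
    intro j k hk
    have := hP (j.2 (y j.1 k)) (j.2 (y j.1 (k + 1)))
    -- the hider stays
    have hstayP : y j.1 k = y j.1 (k + 1) →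
        (j.2 (y j.1 k) ∉ L k → s j k = 1) := by
      intro hyy hnot
      have h3 : {ω : ℕ × ℝ | ∃ t ∈ Icc (k * T0) (k * T0 + T0), S (Real.toNNReal t) =
          mv (j.2 (y j.1 k)) (j.2 (y j.1 (k + 1))) ω (t - k * T0)} = ∅ := by
        ext ω
        simp only [Set.mem_ofPred_eq, Set.mem_empty_iff_false, iff_false]
        rintro ⟨t, ht, hSt⟩
        rw [← hyy, hstay] at hSt
        exact hnot ((hLmem k _).mpr ⟨t, ht, hSt⟩)
      simp only [hs]
      rw [h3]
      simp
    cases hb : b j.1 k with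
    | false =>
      have hyy := (hadm j.1).1 k hk hb
      by_cases hmem : j.2 (y j.1 k) ∈ L k
      · have h4 : fac B (L k) (j.2 (y j.1 k)) false = 0 := by simp [fac, hmem]
        have h5 : hsErr (L k) (z k) (j.2 (y j.1 k)) (j.2 (y j.1 (k + 1))) false = 0 := by
          simp [hsErr]
        rw [h4, h5]
        linarith [hs0 j k]
      · have h4 : fac B (L k) (j.2 (y j.1 k)) false = 1 := by simp [fac, hmem]
        have h5 : hsErr (L k) (z k) (j.2 (y j.1 k)) (j.2 (y j.1 (k + 1))) false = 0 := by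
          simp [hsErr]
        rw [h4, h5, hstayP hyy hmem]
        norm_num
    | true =>
      have hfac1 : fac B (L k) (j.2 (y j.1 k)) true ≤ 1 := hs_fac_le_one hB (hLcard k) _ _
      by_cases hyy : y j.1 k = y j.1 (k + 1)
      · by_cases hmem : j.2 (y j.1 k) ∈ L k
        · have h5 : hsErr (L k) (z k) (j.2 (y j.1 k)) (j.2 (y j.1 (k + 1))) true = 1 := by
            simp [hsErr, ← hyy, hmem]
          rw [h5]
          linarith [hs0 j k]
        · have h5 : hsErr (L k) (z k) (j.2 (y j.1 k)) (j.2 (y j.1 (k + 1))) true = 0 := by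
            simp [hsErr, ← hyy, hmem]
          rw [h5, hstayP hyy hmem]
          linarith
      · have hne : j.2 (y j.1 k) ≠ j.2 (y j.1 (k + 1)) := fun h => hyy (j.2.injective h)
        have h5 : hsErr (L k) (z k) (j.2 (y j.1 k)) (j.2 (y j.1 (k + 1))) true =
            z k (j.2 (y j.1 k)) (j.2 (y j.1 (k + 1))) +
              (if j.2 (y j.1 k) ∈ L k then 1 else 0) +
              (if j.2 (y j.1 (k + 1)) ∈ L k then 1 else 0) := by
          simp [hsErr, hne]
        have h6 : fac B (L k) (j.2 (y j.1 k)) true = ((L k).card : ℝ) / B := by simp [fac]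
        have h7 := hzP k _ _ hne
        rw [h5, h6]
        simp only [hs]
        simp only [hS'] at h7
        linarith
  -- the lower bound for one pair
  have hpair : ∀ j : ι × Equiv.Perm (Fin n),
      payoff B M L (fun k => j.2 (y j.1 k)) (b j.1) - 1 - M * ∑ k ∈ Finset.range M,
        hsErr (L k) (z k) (j.2 (y j.1 k)) (j.2 (y j.1 (k + 1))) (b j.1 k) ≤
      ∑ m ∈ Finset.range M, ∏ k ∈ Finset.range (m + 1), s j k := by
    intro j
    exact hs_payoff hB L hLcard (fun k => j.2 (y j.1 k)) (b j.1) (s j)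
      (fun k => hsErr (L k) (z k) (j.2 (y j.1 k)) (j.2 (y j.1 (k + 1))) (b j.1 k))
      (fun k _ => hs0 j k) (fun k => hsErr_nonneg _ _ (hz0 k) _ _ _) (fun k hk => hstep j k hk)
  -- average of the payoffs
  have havg1 : V ≤ ∑ j : ι × Equiv.Perm (Fin n),
      q j.1 / n.factorial * payoff B M L (fun k => j.2 (y j.1 k)) (b j.1) := by
    rw [Fintype.sum_prod_type_right]
    have h2 : ∀ π : Equiv.Perm (Fin n), V / n.factorial ≤
        ∑ i : ι, q i / n.factorial * payoff B M L (fun k => π (y i k)) (b i) := by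
      intro π
      have h3 := hval (fun k => (L k).map π.symm.toEmbedding)
        (fun k => by rw [Finset.card_map]; exact hLcard k)
      have h4 : ∑ i : ι, q i / n.factorial * payoff B M L (fun k => π (y i k)) (b i) =
          (∑ i, q i * payoff B M (fun k => (L k).map π.symm.toEmbedding) (y i) (b i)) /
            n.factorial := by
        rw [Finset.sum_div]
        refine Finset.sum_congr rfl fun i _ => ?_
        rw [payoff_perm B M π L (y i) (b i)]
        ring
      rw [h4]
      exact div_le_div_of_nonneg_right h3 hf0.le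
    calc V = ∑ _π : Equiv.Perm (Fin n), V / n.factorial := by
          rw [Finset.sum_const, Finset.card_univ, nsmul_eq_mul, hcardperm]
          field_simp
      _ ≤ _ := Finset.sum_le_sum fun π _ => h2 π
  -- average of the errors
  have havg2 : ∑ j : ι × Equiv.Perm (Fin n), q j.1 / n.factorial * ∑ k ∈ Finset.range M,
      hsErr (L k) (z k) (j.2 (y j.1 k)) (j.2 (y j.1 (k + 1))) (b j.1 k) ≤
      K * (err + 2 * B / n) := by
    have hc0 : 0 ≤ err + 2 * (B : ℝ) / n := by positivity
    rw [Fintype.sum_prod_type]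
    have h2 : ∀ i : ι, ∑ π : Equiv.Perm (Fin n), q i / n.factorial * ∑ k ∈ Finset.range M,
        hsErr (L k) (z k) (π (y i k)) (π (y i (k + 1))) (b i k) ≤
        q i * (K * (err + 2 * B / n)) := by
      intro i
      rw [← Finset.mul_sum, Finset.sum_comm]
      have h3 : ∑ k ∈ Finset.range M, ∑ π : Equiv.Perm (Fin n),
          hsErr (L k) (z k) (π (y i k)) (π (y i (k + 1))) (b i k) ≤
          (n.factorial : ℝ) * (K * (err + 2 * B / n)) := by
        calc ∑ k ∈ Finset.range M, ∑ π : Equiv.Perm (Fin n),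
              hsErr (L k) (z k) (π (y i k)) (π (y i (k + 1))) (b i k)
            ≤ ∑ k ∈ Finset.range M,
              (n.factorial : ℝ) * (if b i k = true then (err + 2 * B / n) else 0) :=
              Finset.sum_le_sum fun k _ => hs_avg_err hB hn herr (L k) (hLcard k) (z k)
                (hzsum k) _ _ _
          _ = (n.factorial : ℝ) *
              ((((Finset.range M).filter fun k => b i k = true).card : ℝ) *
                (err + 2 * B / n)) := by
              rw [← Finset.mul_sum, ← Finset.sum_filter, Finset.sum_const, nsmul_eq_mul]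
          _ ≤ (n.factorial : ℝ) * (K * (err + 2 * B / n)) := by
              have h4 : (((Finset.range M).filter fun k => b i k = true).card : ℝ) ≤ K := by
                exact_mod_cast (hadm i).2
              exact mul_le_mul_of_nonneg_left (mul_le_mul_of_nonneg_right h4 hc0) hf0.le
      calc q i / n.factorial * ∑ k ∈ Finset.range M, ∑ π : Equiv.Perm (Fin n),
            hsErr (L k) (z k) (π (y i k)) (π (y i (k + 1))) (b i k)
          ≤ q i / n.factorial * ((n.factorial : ℝ) * (K * (err + 2 * B / n))) :=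
            mul_le_mul_of_nonneg_left h3 (div_nonneg (hq i) hf0.le)
        _ = q i * (K * (err + 2 * B / n)) := by
            field_simp
    calc ∑ i : ι, ∑ π : Equiv.Perm (Fin n), q i / n.factorial * ∑ k ∈ Finset.range M,
          hsErr (L k) (z k) (π (y i k)) (π (y i (k + 1))) (b i k)
        ≤ ∑ i : ι, q i * (K * (err + 2 * B / n)) := Finset.sum_le_sum fun i _ => h2 i
      _ = K * (err + 2 * B / n) := by rw [← Finset.sum_mul, hq1, one_mul]
  -- total
  have htotal : V - 1 - M * K * (err + 2 * B / n) ≤ ∑ j : ι × Equiv.Perm (Fin n),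
      q j.1 / n.factorial * ∑ m ∈ Finset.range M, ∏ k ∈ Finset.range (m + 1), s j k := by
    have h2 : ∑ j : ι × Equiv.Perm (Fin n), q j.1 / n.factorial *
        (payoff B M L (fun k => j.2 (y j.1 k)) (b j.1) - 1 - M * ∑ k ∈ Finset.range M,
          hsErr (L k) (z k) (j.2 (y j.1 k)) (j.2 (y j.1 (k + 1))) (b j.1 k)) ≤
        ∑ j : ι × Equiv.Perm (Fin n),
          q j.1 / n.factorial * ∑ m ∈ Finset.range M, ∏ k ∈ Finset.range (m + 1), s j k :=
      Finset.sum_le_sum fun j _ => mul_le_mul_of_nonneg_left (hpair j) (hwt0 j)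
    have h3 : ∑ j : ι × Equiv.Perm (Fin n), q j.1 / n.factorial *
        (payoff B M L (fun k => j.2 (y j.1 k)) (b j.1) - 1 - M * ∑ k ∈ Finset.range M,
          hsErr (L k) (z k) (j.2 (y j.1 k)) (j.2 (y j.1 (k + 1))) (b j.1 k)) =
        (∑ j : ι × Equiv.Perm (Fin n),
          q j.1 / n.factorial * payoff B M L (fun k => j.2 (y j.1 k)) (b j.1)) - 1 -
        M * ∑ j : ι × Equiv.Perm (Fin n), q j.1 / n.factorial * ∑ k ∈ Finset.range M,
          hsErr (L k) (z k) (j.2 (y j.1 k)) (j.2 (y j.1 (k + 1))) (b j.1 k) := by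
      have h4 : ∀ j : ι × Equiv.Perm (Fin n), q j.1 / n.factorial *
          (payoff B M L (fun k => j.2 (y j.1 k)) (b j.1) - 1 - M * ∑ k ∈ Finset.range M,
            hsErr (L k) (z k) (j.2 (y j.1 k)) (j.2 (y j.1 (k + 1))) (b j.1 k)) =
          q j.1 / n.factorial * payoff B M L (fun k => j.2 (y j.1 k)) (b j.1) -
          q j.1 / n.factorial -
          M * (q j.1 / n.factorial * ∑ k ∈ Finset.range M,
            hsErr (L k) (z k) (j.2 (y j.1 k)) (j.2 (y j.1 (k + 1))) (b j.1 k)) := by
        intro j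
        ring
      rw [Finset.sum_congr rfl (fun j _ => h4 j), Finset.sum_sub_distrib,
        Finset.sum_sub_distrib, hwt1, ← Finset.mul_sum]
    have h5 : (M : ℝ) * ∑ j : ι × Equiv.Perm (Fin n), q j.1 / n.factorial *
        ∑ k ∈ Finset.range M,
          hsErr (L k) (z k) (j.2 (y j.1 k)) (j.2 (y j.1 (k + 1))) (b j.1 k) ≤
        M * (K * (err + 2 * B / n)) :=
      mul_le_mul_of_nonneg_left havg2 (Nat.cast_nonneg M)
    rw [h3] at h2
    have h6 : (M : ℝ) * K * (err + 2 * B / n) = M * (K * (err + 2 * B / n)) := by ring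
    rw [h6]
    linarith
  -- back to the extended nonnegative reals
  have hA0 : ∀ j, 0 ≤ T0 * ∑ m ∈ Finset.range M, ∏ k ∈ Finset.range (m + 1), s j k := fun j =>
    mul_nonneg hT0.le (Finset.sum_nonneg fun m _ => Finset.prod_nonneg fun k _ => hs0 j k)
  calc ENNReal.ofReal (T0 * (V - 1 - M * K * (err + 2 * B / n)))
      ≤ ENNReal.ofReal (∑ j : ι × Equiv.Perm (Fin n), q j.1 / n.factorial *
          (T0 * ∑ m ∈ Finset.range M, ∏ k ∈ Finset.range (m + 1), s j k)) := by
        apply ENNReal.ofReal_le_ofReal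
        have h2 := mul_le_mul_of_nonneg_left htotal hT0.le
        rw [Finset.mul_sum] at h2
        refine h2.trans (le_of_eq (Finset.sum_congr rfl fun j _ => ?_))
        ring
    _ = ∑ j : ι × Equiv.Perm (Fin n), ENNReal.ofReal (q j.1 / n.factorial) *
          ENNReal.ofReal (T0 * ∑ m ∈ Finset.range M, ∏ k ∈ Finset.range (m + 1), s j k) := by
        rw [ENNReal.ofReal_sum_of_nonneg (fun j _ => mul_nonneg (hwt0 j) (hA0 j))]
        exact Finset.sum_congr rfl fun j _ => ENNReal.ofReal_mul (hwt0 j)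
    _ ≤ _ := Finset.sum_le_sum fun j _ => mul_le_mul_right (hHcap j S hS) _

end MPacf82c
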