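import Pool.Agent.Lib.MP_acf82c_lc.NetBasic

/-!
# Coverage: how many sample points can be visited in one block

`x i` are `h`-separated points, the balls of radius `h/2` around them lie in open arcs.
(1) In time `h * (B - 1)` at most `B` of them are visited (choose visiting times `τ_i`;
`|τ_i - τ_j| ≥ dist ≥ h`).
(2) If `x i` is visited at time `τ` in `[t0, t1]` and neither `S t0` nor `S t1` is in the ball
`B(x i, h/2)`, then `S` is in this ball during `(τ - h/2, τ + h/2) ⊆ [t0, t1]`. The balls are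
disjoint, so at most one of them contains `S t0` and at most one contains `S t1`. Hence for every
set `A` of arcs: `h * (#{visited i : arcOf i ∈ A} - 2) ≤ ∑_{e ∈ A} timeIn (openArc e)`.
(3) The times spent in the nodes and in the open arcs add up to `t1 - t0`.
-/

namespace MPacf82c

open Set MeasureTheory

variable {Q : Type} [MetricSpace Q] (N : Network Q)

omit N in
theorem visit_sep {h : ℝ} {x y : Q} (hxy : h ≤ dist x y) {S : ℝ → Q} (hS : LipschitzWith 1 S)
    {s t : ℝ} (hs : S s = x) (ht : S t = y) : h ≤ |s - t| := by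
  have h1 := hS.dist_le_mul s t
  rw [hs, ht, Real.dist_eq] at h1
  simpa using hxy.trans h1

theorem floor_eq_lt {a b : ℝ} (ha : 0 ≤ a) (hb : 0 ≤ b) (hab : ⌊a⌋₊ = ⌊b⌋₊) :
    |a - b| < 1 := by
  have h1 := Nat.floor_le ha
  have h2 := Nat.floor_le hb
  have h3 := Nat.lt_floor_add_one a
  have h4 := Nat.lt_floor_add_one b
  rw [hab] at h1 h3
  rw [abs_lt]
  constructor <;> linarith

open Classical in
theorem visited_card {n : ℕ} {h : ℝ} (hh : 0 < h) {x : Fin n → Q}
    (hsep : ∀ i j, i ≠ j → h ≤ dist (x i) (x j)) {S : ℝ → Q} (hS : LipschitzWith 1 S)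
    {B : ℕ} (hB : 1 ≤ B) (t0 : ℝ) :
    (Finset.univ.filter fun i => ∃ t ∈ Icc t0 (t0 + h * (B - 1)), S t = x i).card ≤ B := by
  have key : ∀ i : Fin n, ∃ t : ℝ, (∃ t ∈ Icc t0 (t0 + h * (B - 1)), S t = x i) →
      t ∈ Icc t0 (t0 + h * (B - 1)) ∧ S t = x i := by
    intro i
    by_cases hi : ∃ t ∈ Icc t0 (t0 + h * (B - 1)), S t = x i
    · obtain ⟨t, ht, hx⟩ := hi
      exact ⟨t, fun _ => ⟨ht, hx⟩⟩
    · exact ⟨0, fun h' => absurd h' hi⟩
  choose τ hτ using key
  have hcard : (Finset.univ.filter fun i => ∃ t ∈ Icc t0 (t0 + h * (B - 1)), S t = x i).card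
      ≤ (Finset.range B).card := by
    apply Finset.card_le_card_of_injOn (fun i => ⌊(τ i - t0) / h⌋₊)
    · intro i hi
      have hi' := (Finset.mem_filter.1 (Finset.mem_coe.1 hi)).2
      obtain ⟨⟨h1, h2⟩, h3⟩ := hτ i hi'
      simp only [Finset.coe_range, mem_Iio]
      rw [Nat.floor_lt (div_nonneg (by linarith) hh.le)]
      rw [div_lt_iff₀ hh]
      nlinarith
    · intro i hi j hj hij
      have hi' := (Finset.mem_filter.1 (Finset.mem_coe.1 hi)).2
      have hj' := (Finset.mem_filter.1 (Finset.mem_coe.1 hj)).2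
      obtain ⟨⟨h1, h2⟩, h3⟩ := hτ i hi'
      obtain ⟨⟨h4, h5⟩, h6⟩ := hτ j hj'
      by_contra hne
      have hd : h ≤ |τ i - τ j| := visit_sep (hsep i j hne) hS h3 h6
      simp only at hij
      have hlt := floor_eq_lt (div_nonneg (by linarith : 0 ≤ τ i - t0) hh.le)
        (div_nonneg (by linarith : 0 ≤ τ j - t0) hh.le) hij
      have : |(τ i - t0) / h - (τ j - t0) / h| = |τ i - τ j| / h := by
        rw [← sub_div, abs_div, abs_of_pos hh]
        congr 2
        ring
      rw [this, div_lt_iff₀ hh] at hlt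
      linarith
  simpa using hcard

open Classical in
theorem coverage_time {n : ℕ} {h : ℝ} (hh : 0 < h) {x : Fin n → Q} {arcOf : Fin n → N.Arc}
    (hsep : ∀ i j, i ≠ j → h ≤ dist (x i) (x j))
    (hball : ∀ i z, dist z (x i) < h / 2 → z ∈ N.openArc (arcOf i)) {S : ℝ → Q}
    (hS : LipschitzWith 1 S) {t0 t1 : ℝ} (ht : t0 ≤ t1) (A : Finset N.Arc) :
    h * (((Finset.univ.filter fun i => arcOf i ∈ A ∧ ∃ t ∈ Icc t0 t1, S t = x i).card : ℝ) - 2)
      ≤ ∑ e ∈ A, timeIn S t0 t1 (N.openArc e) := by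
  have key : ∀ i : Fin n, ∃ t : ℝ, (∃ t ∈ Icc t0 t1, S t = x i) →
      t ∈ Icc t0 t1 ∧ S t = x i := by
    intro i
    by_cases hi : ∃ t ∈ Icc t0 t1, S t = x i
    · obtain ⟨t, ht, hx⟩ := hi
      exact ⟨t, fun _ => ⟨ht, hx⟩⟩
    · exact ⟨0, fun h' => absurd h' hi⟩
  choose τ hτ using key
  set G := Finset.univ.filter fun i => arcOf i ∈ A ∧ ∃ t ∈ Icc t0 t1, S t = x i with hG
  set G' := G.filter fun i => ¬ dist (S t0) (x i) < h / 2 ∧ ¬ dist (S t1) (x i) < h / 2 with hG'
  have hGG : G.card ≤ G'.card + 2 := by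
    have h1 : G ⊆ G' ∪ ((Finset.univ.filter fun i => dist (S t0) (x i) < h / 2) ∪
        (Finset.univ.filter fun i => dist (S t1) (x i) < h / 2)) := by
      intro i hi
      simp only [Finset.mem_union, Finset.mem_filter, Finset.mem_univ, true_and, hG']
      by_cases ha : dist (S t0) (x i) < h / 2
      · exact Or.inr (Or.inl ha)
      · by_cases hb : dist (S t1) (x i) < h / 2
        · exact Or.inr (Or.inr hb)
        · exact Or.inl ⟨hi, ha, hb⟩
    have h2 := Finset.card_le_card h1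
    have h3 := Finset.card_union_le G' ((Finset.univ.filter fun i => dist (S t0) (x i) < h / 2) ∪
        (Finset.univ.filter fun i => dist (S t1) (x i) < h / 2))
    have h4 := Finset.card_union_le (Finset.univ.filter fun i => dist (S t0) (x i) < h / 2)
        (Finset.univ.filter fun i => dist (S t1) (x i) < h / 2)
    have h5 : ∀ z : Q, (Finset.univ.filter fun i => dist z (x i) < h / 2).card ≤ 1 := by
      intro z
      rw [Finset.card_le_one]
      intro i hi j hj
      by_contra hne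
      have hi' := (Finset.mem_filter.1 hi).2
      have hj' := (Finset.mem_filter.1 hj).2
      have h6 := hsep i j hne
      have h7 := dist_triangle_left (x i) (x j) z
      linarith
    have h6 := h5 (S t0)
    have h7 := h5 (S t1)
    omega
  have hfib : G'.card = ∑ e ∈ A, (G'.filter fun i => arcOf i = e).card := by
    apply Finset.card_eq_sum_card_fiberwise
    intro i hi
    have h1 := (Finset.mem_filter.1 (Finset.mem_coe.1 hi)).1
    exact (Finset.mem_filter.1 h1).2.1
  have hbound : ∀ e ∈ A, h * ((G'.filter fun i => arcOf i = e).card : ℝ)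
      ≤ timeIn S t0 t1 (N.openArc e) := by
    intro e he
    set E := G'.filter fun i => arcOf i = e with hE
    have hsub : (⋃ i ∈ E, Ioo (τ i - h / 2) (τ i + h / 2)) ⊆
        {t : ℝ | t ∈ Icc t0 t1 ∧ S t ∈ N.openArc e} := by
      intro t ht
      rw [mem_iUnion₂] at ht
      obtain ⟨i, hi, ht⟩ := ht
      obtain ⟨hi1, hi2⟩ := Finset.mem_filter.1 hi
      obtain ⟨hi3, hi4⟩ := Finset.mem_filter.1 hi1
      obtain ⟨hi5, hi6⟩ := Finset.mem_filter.1 hi3
      obtain ⟨⟨h1, h2⟩, h3⟩ := hτ i hi6.2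
      have h4 : h / 2 ≤ |t0 - τ i| := visit_sep (not_lt.1 hi4.1) hS rfl h3
      have h5 : h / 2 ≤ |t1 - τ i| := visit_sep (not_lt.1 hi4.2) hS rfl h3
      rw [abs_sub_comm, abs_of_nonneg (by linarith)] at h4
      rw [abs_of_nonneg (by linarith)] at h5
      obtain ⟨h6, h7⟩ := ht
      refine ⟨⟨by linarith, by linarith⟩, ?_⟩
      rw [← hi2]
      apply hball
      have h8 := hS.dist_le_mul t (τ i)
      rw [h3, Real.dist_eq] at h8
      have h9 : |t - τ i| < h / 2 := by
        rw [abs_lt]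
        constructor <;> linarith
      simp only [NNReal.coe_one, one_mul] at h8
      linarith
    have hvol : volume (⋃ i ∈ E, Ioo (τ i - h / 2) (τ i + h / 2)) = ENNReal.ofReal (h * E.card) := by
      rw [measure_biUnion_finset]
      · simp only [Real.volume_Ioo]
        rw [Finset.sum_congr rfl (g := fun _ => ENNReal.ofReal h)
          (fun i _ => by congr 1; ring)]
        rw [Finset.sum_const, nsmul_eq_mul, mul_comm h, ENNReal.ofReal_mul (Nat.cast_nonneg _),
          ENNReal.ofReal_natCast]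
      · intro i hi j hj hne
        rw [Function.onFun, Set.disjoint_left]
        intro t ht1 ht2
        obtain ⟨hi1, hi2⟩ := Finset.mem_filter.1 (Finset.mem_coe.1 hi)
        obtain ⟨hi3, hi4⟩ := Finset.mem_filter.1 hi1
        obtain ⟨hi5, hi6⟩ := Finset.mem_filter.1 hi3
        obtain ⟨hj1, hj2⟩ := Finset.mem_filter.1 (Finset.mem_coe.1 hj)
        obtain ⟨hj3, hj4⟩ := Finset.mem_filter.1 hj1
        obtain ⟨hj5, hj6⟩ := Finset.mem_filter.1 hj3
        have h1 : h ≤ |τ i - τ j| := visit_sep (hsep i j hne) hS (hτ i hi6.2).2 (hτ j hj6.2).2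
        have h2 : |τ i - τ j| < h := by
          rw [abs_lt]
          constructor <;> linarith [ht1.1, ht1.2, ht2.1, ht2.2]
        linarith
      · intro i _
        exact measurableSet_Ioo
    have hfin : volume {t : ℝ | t ∈ Icc t0 t1 ∧ S t ∈ N.openArc e} ≠ ⊤ := by
      have h0 : volume (Icc t0 t1) ≠ ⊤ := by
        rw [Real.volume_Icc]
        exact ENNReal.ofReal_ne_top
      exact ne_top_of_le_ne_top h0 (measure_mono (fun t ht => ht.1))
    have h1 := ENNReal.toReal_mono hfin (measure_mono hsub)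
    rw [hvol, ENNReal.toReal_ofReal (by positivity)] at h1
    exact h1
  calc h * ((G.card : ℝ) - 2) ≤ h * (G'.card : ℝ) := by
        apply mul_le_mul_of_nonneg_left _ hh.le
        have : (G.card : ℝ) ≤ G'.card + 2 := by exact_mod_cast hGG
        linarith
    _ = ∑ e ∈ A, h * ((G'.filter fun i => arcOf i = e).card : ℝ) := by
        rw [hfib, ← Finset.mul_sum]
        push_cast
        rfl
    _ ≤ ∑ e ∈ A, timeIn S t0 t1 (N.openArc e) := Finset.sum_le_sum hbound

theorem timeIn_total {S : ℝ → Q} (hS : LipschitzWith 1 S) {t0 t1 : ℝ} (ht : t0 ≤ t1) :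
    timeIn S t0 t1 N.nodes + ∑ e, timeIn S t0 t1 (N.openArc e) = t1 - t0 := by
  have hfin : ∀ A : Set Q, volume {t : ℝ | t ∈ Icc t0 t1 ∧ S t ∈ A} ≠ ⊤ := by
    intro A
    have h0 : volume (Icc t0 t1) ≠ ⊤ := by
      rw [Real.volume_Icc]
      exact ENNReal.ofReal_ne_top
    exact ne_top_of_le_ne_top h0 (measure_mono (fun t ht => ht.1))
  have hm1 : MeasurableSet {t : ℝ | t ∈ Icc t0 t1 ∧ S t ∈ N.nodes} :=
    (isClosed_Icc.inter (IsClosed.preimage hS.continuous (nodes_finite N).isClosed)).measurableSet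
  have hm2 : ∀ e, MeasurableSet {t : ℝ | t ∈ Icc t0 t1 ∧ S t ∈ N.openArc e} := fun e =>
    measurableSet_Icc.inter (IsOpen.preimage hS.continuous (isOpen_openArc N e)).measurableSet
  have hun : Icc t0 t1 = {t : ℝ | t ∈ Icc t0 t1 ∧ S t ∈ N.nodes} ∪
      ⋃ e ∈ (Finset.univ : Finset N.Arc), {t : ℝ | t ∈ Icc t0 t1 ∧ S t ∈ N.openArc e} := by
    ext t
    simp only [mem_union, mem_iUnion, Finset.mem_univ, mem_ofPred_eq, exists_prop, true_and]
    constructor
    · intro h
      rcases node_or_openArc N (S t) with h1 | ⟨e, h1⟩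
      · exact Or.inl ⟨h, h1⟩
      · exact Or.inr ⟨e, h, h1⟩
    · rintro (h | ⟨e, h⟩)
      · exact h.1
      · exact h.1
  have hdisj : Disjoint {t : ℝ | t ∈ Icc t0 t1 ∧ S t ∈ N.nodes}
      (⋃ e ∈ (Finset.univ : Finset N.Arc), {t : ℝ | t ∈ Icc t0 t1 ∧ S t ∈ N.openArc e}) := by
    rw [Set.disjoint_left]
    intro t h1 h2
    simp only [mem_iUnion, Finset.mem_univ, mem_ofPred_eq, exists_prop, true_and] at h2
    obtain ⟨e, h2⟩ := h2
    exact notMem_nodes_of_mem_openArc N h2.2 h1.2
  have hpd : (↑(Finset.univ : Finset N.Arc) : Set N.Arc).PairwiseDisjoint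
      (fun e => {t : ℝ | t ∈ Icc t0 t1 ∧ S t ∈ N.openArc e}) := by
    intro e _ e' _ hne
    rw [Function.onFun, Set.disjoint_left]
    intro t h1 h2
    exact hne (openArc_unique N h1.2 h2.2)
  have hv : volume (Icc t0 t1) = volume {t : ℝ | t ∈ Icc t0 t1 ∧ S t ∈ N.nodes} +
      ∑ e, volume {t : ℝ | t ∈ Icc t0 t1 ∧ S t ∈ N.openArc e} := by
    conv_lhs => rw [hun]
    rw [measure_union hdisj (Finset.measurableSet_biUnion _ (fun e _ => hm2 e)),
      measure_biUnion_finset hpd (fun e _ => hm2 e)]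
  unfold timeIn
  rw [← ENNReal.toReal_sum (fun e _ => hfin _), ← ENNReal.toReal_add (hfin _)
    (ENNReal.sum_ne_top.2 fun e _ => hfin _), ← hv, Real.volume_Icc,
    ENNReal.toReal_ofReal (by linarith)]

end MPacf82c
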