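import Mathlib

/-!
# Hubs: pure finite averaging

`E` the arcs with lengths `len`, `u e` the time spent by the searcher in the open arc `e` during
a block of duration `T0`, `z0` the time spent in nodes; `F i j e ∈ [0,1]` the current through `e`
used for the trip `i → j`; `cnt` = number `c` of labels visited in the block; `Rt = √(μ D)`.

`β e` := average of `F i j e` over the ordered pairs `i ≠ j`; `∑ len e * β e ≤ Rt`; hub arcs: `β e
≥ β`; `∑_{hub} len e ≤ Rt / β`, so at most `Rt/(β h)` labels lie on hub arcs, and with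
`hcov` for `A` = non-hub arcs, `h (c - Rt/(β h) - 2) ≤ ∑_{nonhub} u e`, so
`z0 + ∑_{hub} u e ≤ T0 - h c + Rt/β + 2h = h B (1 - c/B) - h + Rt/β + 2h`.
Take `z i j := (h + Γ)/(T0-Γ) + (Rt/β + 2h + D)/(T0-Γ) + (Rt + 2D)/Γ +
  (∑_{nonhub} F i j e * u e + 2 u (arcOf i) + 2 u (arcOf j))/(T0-Γ)`,
use `h B (1-c/B)/(T0-Γ) ≤ (1 - c/B) + (h+Γ)/(T0-Γ)` (as `h B - (T0 - Γ) = h + Γ`), and for the sum
`∑_{i≠j} ∑_{nonhub} F i j e u e ≤ n(n-1) β T0`, `∑_{i≠j} (2 u(arcOf i) + 2 u(arcOf j)) =
4 (n-1) ∑_i u (arcOf i) ≤ 4 (n-1) (2D/h) T0` (each arc carries at most `len e/h ≤ 2D/h` labels).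
-/

namespace MPacf82c

open Finset

private lemma pair_const_sum {n : ℕ} (hn : 2 ≤ n) (c : ℝ) :
    ∑ i : Fin n, ∑ _j ∈ univ.filter (fun j => j ≠ i), c = (n * (n - 1) : ℝ) * c := by
  have h1 : ∀ i : Fin n, ∑ _j ∈ univ.filter (fun j => j ≠ i), c = ((n : ℝ) - 1) * c := by
    intro i
    rw [sum_const, nsmul_eq_mul]
    congr 1
    have : (univ.filter (fun j : Fin n => j ≠ i)).card = n - 1 := by
      rw [filter_ne', card_erase_of_mem (mem_univ i), card_univ, Fintype.card_fin]
    rw [this, Nat.cast_sub (by omega)]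
    simp
  rw [sum_congr rfl (fun i _ => h1 i), sum_const, nsmul_eq_mul, card_univ, Fintype.card_fin]
  ring

private lemma pair_sum_left {n : ℕ} (hn : 2 ≤ n) (g : Fin n → ℝ) :
    ∑ i : Fin n, ∑ _j ∈ univ.filter (fun j => j ≠ i), g i = ((n : ℝ) - 1) * ∑ i, g i := by
  rw [mul_sum]
  refine sum_congr rfl fun i _ => ?_
  rw [sum_const, nsmul_eq_mul]
  congr 1
  have : (univ.filter (fun j : Fin n => j ≠ i)).card = n - 1 := by
    rw [filter_ne', card_erase_of_mem (mem_univ i), card_univ, Fintype.card_fin]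
  rw [this, Nat.cast_sub (by omega)]
  simp

private lemma pair_sum_right {n : ℕ} (g : Fin n → ℝ) :
    ∑ i : Fin n, ∑ j ∈ univ.filter (fun j => j ≠ i), g j = ((n : ℝ) - 1) * ∑ i, g i := by
  have h1 : ∀ i : Fin n, ∑ j ∈ univ.filter (fun j => j ≠ i), g j = (∑ j, g j) - g i := by
    intro i
    rw [filter_ne', ← sum_erase_add univ g (mem_univ i)]
    ring
  rw [sum_congr rfl (fun i _ => h1 i), sum_sub_distrib, sum_const, nsmul_eq_mul, card_univ,
    Fintype.card_fin]
  ring

open Classical in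
theorem hub_bound {E : Type} [Fintype E] {n : ℕ} (hn : 2 ≤ n) {len u : E → ℝ} {z0 D h β Γ Rt : ℝ}
    {B : ℕ} {T0 : ℝ} (hT0 : T0 = h * (B - 1)) (hh : 0 < h) (hβ : 0 < β) (hΓ : 0 < Γ)
    (hΓT : Γ < T0) (hB : 1 ≤ B) (hD : 0 ≤ D) (hRt : 0 ≤ Rt)
    (hlen : ∀ e, 0 < len e) (hlenD : ∀ e, len e ≤ 2 * D) (hu : ∀ e, 0 ≤ u e) (hz0 : 0 ≤ z0)
    (htot : z0 + ∑ e, u e = T0) {arcOf : Fin n → E}
    (hcnt : ∀ e, ((univ.filter fun i => arcOf i = e).card : ℝ) * h ≤ len e)
    {F : Fin n → Fin n → E → ℝ} (hF0 : ∀ i j e, 0 ≤ F i j e) (hF1 : ∀ i j e, F i j e ≤ 1)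
    (hFl : ∀ i j, ∑ e, len e * F i j e ≤ Rt) {L : Finset (Fin n)} (hL : L.card ≤ B)
    (hcov : ∀ A : Finset E, h * (((L.filter fun i => arcOf i ∈ A).card : ℝ) - 2) ≤
      ∑ e ∈ A, u e) :
    ∃ z : Fin n → Fin n → ℝ, (∀ i j, 0 ≤ z i j) ∧
      ∑ i, ∑ j ∈ univ.filter (fun j => j ≠ i), z i j ≤ (n * (n - 1) : ℝ) *
        ((Γ + 3 * h + D + Rt / β) / (T0 - Γ) + (Rt + 2 * D) / Γ +
          (β * T0 + 8 * D * T0 / (n * h)) / (T0 - Γ)) ∧
      ∀ i j, i ≠ j → (z0 + ∑ e, F i j e * u e + D + 2 * u (arcOf i) + 2 * u (arcOf j)) /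
          (T0 - Γ) + (Rt + 2 * D) / Γ ≤ 1 - (L.card : ℝ) / B + z i j := by
  have hTG : 0 < T0 - Γ := by linarith
  have hn' : (2 : ℝ) ≤ n := by exact_mod_cast hn
  have hN : (0 : ℝ) < (n : ℝ) * (n - 1) := by
    apply mul_pos <;> linarith
  have hB' : (1 : ℝ) ≤ B := by exact_mod_cast hB
  have hB0 : (0 : ℝ) < B := by linarith
  have hL' : (L.card : ℝ) ≤ B := by exact_mod_cast hL
  -- sums of currents
  set S : E → ℝ := fun e => ∑ i, ∑ j ∈ univ.filter (fun j => j ≠ i), F i j e with hS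
  have hSl : ∑ e, len e * S e ≤ (n * (n - 1) : ℝ) * Rt := by
    have h1 : ∑ e, len e * S e
        = ∑ i, ∑ j ∈ univ.filter (fun j => j ≠ i), ∑ e, len e * F i j e := by
      simp only [hS, mul_sum]
      rw [sum_comm]
      refine sum_congr rfl fun i _ => ?_
      rw [sum_comm]
    rw [h1, ← pair_const_sum hn Rt]
    exact sum_le_sum fun i _ => sum_le_sum fun j _ => hFl i j
  have hS0 : ∀ e, 0 ≤ S e := fun e => sum_nonneg fun i _ => sum_nonneg fun j _ => hF0 i j e
  set hub : Finset E := univ.filter (fun e => β * (n * (n - 1)) ≤ S e) with hhub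
  set non : Finset E := univ.filter (fun e => ¬ β * (n * (n - 1)) ≤ S e) with hnon
  have hsplit : ∀ f : E → ℝ, ∑ e, f e = ∑ e ∈ hub, f e + ∑ e ∈ non, f e := fun f =>
    (sum_filter_add_sum_filter_not univ _ f).symm
  have hhublen : ∑ e ∈ hub, len e ≤ Rt / β := by
    rw [le_div_iff₀ hβ]
    have h1 : (∑ e ∈ hub, len e) * (β * (n * (n - 1))) ≤ (n * (n - 1) : ℝ) * Rt := by
      rw [sum_mul]
      refine le_trans ?_ hSl
      rw [hsplit (fun e => len e * S e)]
      have h2 : 0 ≤ ∑ e ∈ non, len e * S e :=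
        sum_nonneg fun e _ => mul_nonneg (hlen e).le (hS0 e)
      have h3 : ∑ e ∈ hub, len e * (β * (n * (n - 1))) ≤ ∑ e ∈ hub, len e * S e := by
        refine sum_le_sum fun e he => ?_
        exact mul_le_mul_of_nonneg_left (mem_filter.mp he).2 (hlen e).le
      linarith
    have h4 : ((∑ e ∈ hub, len e) * β) * ((n : ℝ) * (n - 1)) ≤ Rt * (n * (n - 1)) := by
      nlinarith [h1]
    exact le_of_mul_le_mul_right h4 hN
  -- labels on hub arcs
  have hlab : h * ((L.filter fun i => arcOf i ∈ hub).card : ℝ) ≤ Rt / β := by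
    refine le_trans ?_ hhublen
    have h1 : ((L.filter fun i => arcOf i ∈ hub).card : ℝ)
        ≤ ∑ e ∈ hub, ((univ.filter fun i => arcOf i = e).card : ℝ) := by
      have h2 : (L.filter fun i => arcOf i ∈ hub).card
          ≤ ∑ e ∈ hub, (univ.filter fun i => arcOf i = e).card := by
        calc (L.filter fun i => arcOf i ∈ hub).card
            ≤ (hub.biUnion fun e => univ.filter fun i => arcOf i = e).card := by
              apply card_le_card
              intro i hi
              simp only [mem_filter, mem_biUnion, mem_univ, true_and] at hi ⊢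
              exact ⟨arcOf i, hi.2, rfl⟩
          _ ≤ _ := card_biUnion_le
      exact_mod_cast h2
    calc h * ((L.filter fun i => arcOf i ∈ hub).card : ℝ)
        ≤ h * ∑ e ∈ hub, ((univ.filter fun i => arcOf i = e).card : ℝ) :=
          mul_le_mul_of_nonneg_left h1 hh.le
      _ = ∑ e ∈ hub, ((univ.filter fun i => arcOf i = e).card : ℝ) * h := by
          rw [mul_sum]
          exact sum_congr rfl fun e _ => mul_comm _ _
      _ ≤ ∑ e ∈ hub, len e := sum_le_sum fun e _ => hcnt e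
  have hcardsplit : (L.card : ℝ) = ((L.filter fun i => arcOf i ∈ hub).card : ℝ)
      + ((L.filter fun i => arcOf i ∈ non).card : ℝ) := by
    have h1 : (L.filter fun i => arcOf i ∈ hub).card
        + (L.filter fun i => ¬ arcOf i ∈ hub).card = L.card :=
      card_filter_add_card_filter_not _
    have h2 : (L.filter fun i => ¬ arcOf i ∈ hub) = (L.filter fun i => arcOf i ∈ non) := by
      apply filter_congr
      intro i _
      simp [hhub, hnon]
    rw [h2] at h1
    exact_mod_cast h1.symm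
  have hnonu : h * (L.card : ℝ) - Rt / β - 2 * h ≤ ∑ e ∈ non, u e := by
    have h1 := hcov non
    rw [hcardsplit]
    nlinarith [h1, hlab]
  have hutot : z0 + (∑ e ∈ hub, u e + ∑ e ∈ non, u e) = T0 := by
    rw [← hsplit u]; exact htot
  have hut : ∑ e, u e ≤ T0 := by linarith
  have hT0' : T0 = h * B - h := by rw [hT0]; ring
  have hT0pos : 0 ≤ T0 := by linarith
  refine ⟨fun i j => (Γ + 3 * h + D + Rt / β) / (T0 - Γ) + (Rt + 2 * D) / Γ +
    (∑ e ∈ non, F i j e * u e + (2 * u (arcOf i) + 2 * u (arcOf j))) / (T0 - Γ), ?_, ?_, ?_⟩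
  · intro i j
    have h1 : 0 ≤ ∑ e ∈ non, F i j e * u e :=
      sum_nonneg fun e _ => mul_nonneg (hF0 i j e) (hu e)
    have h2 := hu (arcOf i)
    have h3 := hu (arcOf j)
    have h4 : 0 ≤ Rt / β := div_nonneg hRt hβ.le
    have h5 : 0 ≤ (Γ + 3 * h + D + Rt / β) / (T0 - Γ) := div_nonneg (by linarith) hTG.le
    have h6 : 0 ≤ (Rt + 2 * D) / Γ := div_nonneg (by linarith) hΓ.le
    have h7 : 0 ≤ (∑ e ∈ non, F i j e * u e + (2 * u (arcOf i) + 2 * u (arcOf j))) / (T0 - Γ) :=
      div_nonneg (by linarith) hTG.le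
    linarith
  · have hsum : ∑ i, ∑ j ∈ univ.filter (fun j => j ≠ i),
        (((Γ + 3 * h + D + Rt / β) / (T0 - Γ) + (Rt + 2 * D) / Γ) +
        (∑ e ∈ non, F i j e * u e + (2 * u (arcOf i) + 2 * u (arcOf j))) / (T0 - Γ))
        = (n * (n - 1) : ℝ) * ((Γ + 3 * h + D + Rt / β) / (T0 - Γ) + (Rt + 2 * D) / Γ)
          + (∑ i, ∑ j ∈ univ.filter (fun j => j ≠ i),
            (∑ e ∈ non, F i j e * u e + (2 * u (arcOf i) + 2 * u (arcOf j)))) / (T0 - Γ) := by
      rw [← pair_const_sum hn, sum_div, ← sum_add_distrib]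
      refine sum_congr rfl fun i _ => ?_
      rw [sum_div, ← sum_add_distrib]
    rw [hsum]
    -- the two contributions
    have hA : ∑ i, ∑ j ∈ univ.filter (fun j => j ≠ i), ∑ e ∈ non, F i j e * u e
        ≤ (n * (n - 1) : ℝ) * (β * T0) := by
      have h1 : ∑ i, ∑ j ∈ univ.filter (fun j => j ≠ i), ∑ e ∈ non, F i j e * u e
          = ∑ e ∈ non, S e * u e := by
        simp only [hS, sum_mul]
        rw [sum_comm]
        have h2 : ∀ i : Fin n, ∑ j ∈ univ.filter (fun j => j ≠ i), ∑ e ∈ non, F i j e * u e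
            = ∑ e ∈ non, ∑ j ∈ univ.filter (fun j => j ≠ i), F i j e * u e := by
          intro i
          exact sum_comm
        rw [sum_comm, sum_congr rfl (fun i _ => h2 i), sum_comm]
      rw [h1]
      calc ∑ e ∈ non, S e * u e ≤ ∑ e ∈ non, (β * (n * (n - 1))) * u e := by
            refine sum_le_sum fun e he => ?_
            exact mul_le_mul_of_nonneg_right (not_le.mp (mem_filter.mp he).2).le (hu e)
        _ = (β * (n * (n - 1))) * ∑ e ∈ non, u e := by rw [mul_sum]
        _ ≤ (β * (n * (n - 1))) * T0 := by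
            apply mul_le_mul_of_nonneg_left _ (mul_nonneg hβ.le hN.le)
            have : 0 ≤ ∑ e ∈ hub, u e := sum_nonneg fun e _ => hu e
            linarith
        _ = (n * (n - 1) : ℝ) * (β * T0) := by ring
    have hU : ∑ i, u (arcOf i) ≤ 2 * D / h * T0 := by
      have h1 : ∑ i, u (arcOf i)
          = ∑ e, ((univ.filter fun i => arcOf i = e).card : ℝ) * u e := by
        rw [← sum_fiberwise_of_maps_to (s := univ) (t := univ) (g := arcOf)
          (fun i _ => mem_univ _)]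
        refine sum_congr rfl fun e _ => ?_
        rw [sum_congr rfl (fun i hi => by rw [(mem_filter.mp hi).2])
          (g := fun _ => u e), sum_const, nsmul_eq_mul]
      rw [h1]
      calc ∑ e, ((univ.filter fun i => arcOf i = e).card : ℝ) * u e
          ≤ ∑ e, (2 * D / h) * u e := by
            refine sum_le_sum fun e _ => mul_le_mul_of_nonneg_right ?_ (hu e)
            rw [le_div_iff₀ hh]
            exact le_trans (hcnt e) (hlenD e)
        _ = (2 * D / h) * ∑ e, u e := by rw [mul_sum]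
        _ ≤ 2 * D / h * T0 :=
            mul_le_mul_of_nonneg_left hut (div_nonneg (by linarith) hh.le)
    have hC : ∑ i, ∑ j ∈ univ.filter (fun j => j ≠ i), (2 * u (arcOf i) + 2 * u (arcOf j))
        ≤ (n * (n - 1) : ℝ) * (8 * D * T0 / (n * h)) := by
      have h1 : ∑ i, ∑ j ∈ univ.filter (fun j => j ≠ i), (2 * u (arcOf i) + 2 * u (arcOf j))
          = 4 * (((n : ℝ) - 1) * ∑ i, u (arcOf i)) := by
        simp only [sum_add_distrib]
        rw [pair_sum_left hn (fun i => 2 * u (arcOf i)),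
          pair_sum_right (fun i => 2 * u (arcOf i)), ← mul_sum]
        ring
      rw [h1]
      have h2 : (n * (n - 1) : ℝ) * (8 * D * T0 / (n * h))
          = 4 * (((n : ℝ) - 1) * (2 * D / h * T0)) := by
        have : (n : ℝ) ≠ 0 := by linarith
        field_simp
        ring
      rw [h2]
      have h3 : (0 : ℝ) ≤ (n : ℝ) - 1 := by linarith
      have h4 := mul_le_mul_of_nonneg_left hU h3
      linarith
    have hAC : (∑ i, ∑ j ∈ univ.filter (fun j => j ≠ i),
        (∑ e ∈ non, F i j e * u e + (2 * u (arcOf i) + 2 * u (arcOf j)))) / (T0 - Γ)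
        ≤ (n * (n - 1) : ℝ) * ((β * T0 + 8 * D * T0 / (n * h)) / (T0 - Γ)) := by
      rw [← mul_div_assoc]
      apply div_le_div_of_nonneg_right _ hTG.le
      rw [mul_add]
      simp only [sum_add_distrib] at hA hC ⊢
      linarith
    calc _ ≤ (n * (n - 1) : ℝ) * ((Γ + 3 * h + D + Rt / β) / (T0 - Γ) + (Rt + 2 * D) / Γ)
          + (n * (n - 1) : ℝ) * ((β * T0 + 8 * D * T0 / (n * h)) / (T0 - Γ)) := by linarith
      _ = _ := by ring
  · intro i j _
    have h1 : ∑ e, F i j e * u e ≤ ∑ e ∈ hub, u e + ∑ e ∈ non, F i j e * u e := by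
      rw [hsplit (fun e => F i j e * u e)]
      have : ∑ e ∈ hub, F i j e * u e ≤ ∑ e ∈ hub, u e := by
        refine sum_le_sum fun e _ => ?_
        have := mul_le_mul_of_nonneg_right (hF1 i j e) (hu e)
        linarith
      linarith
    have h2 : z0 + ∑ e ∈ hub, u e ≤ (T0 - Γ) * (1 - (L.card : ℝ) / B) + (Γ + 2 * h)
        + Rt / β := by
      have h3 : z0 + ∑ e ∈ hub, u e ≤ h * B - h * L.card + h + Rt / β := by linarith
      have h4 : h * B - h * L.card = h * B * (1 - (L.card : ℝ) / B) := by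
        field_simp
      have h5 : h * B * (1 - (L.card : ℝ) / B) = (T0 - Γ) * (1 - (L.card : ℝ) / B)
          + (h + Γ) * (1 - (L.card : ℝ) / B) := by
        rw [hT0']; ring
      have h6 : (h + Γ) * (1 - (L.card : ℝ) / B) ≤ (h + Γ) * 1 := by
        apply mul_le_mul_of_nonneg_left _ (by linarith)
        have : 0 ≤ (L.card : ℝ) / B := by positivity
        linarith
      linarith
    have h7 : (z0 + ∑ e, F i j e * u e + D + 2 * u (arcOf i) + 2 * u (arcOf j)) / (T0 - Γ)
        ≤ (1 - (L.card : ℝ) / B) + (Γ + 3 * h + D + Rt / β) / (T0 - Γ)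
          + (∑ e ∈ non, F i j e * u e + (2 * u (arcOf i) + 2 * u (arcOf j))) / (T0 - Γ) := by
      have h8 : (1 - (L.card : ℝ) / B) + (Γ + 3 * h + D + Rt / β) / (T0 - Γ)
          + (∑ e ∈ non, F i j e * u e + (2 * u (arcOf i) + 2 * u (arcOf j))) / (T0 - Γ)
          = ((T0 - Γ) * (1 - (L.card : ℝ) / B) + (Γ + 3 * h + D + Rt / β) +
            (∑ e ∈ non, F i j e * u e + (2 * u (arcOf i) + 2 * u (arcOf j)))) / (T0 - Γ) := by
        field_simp
      rw [h8]
      apply div_le_div_of_nonneg_right _ hTG.le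
      linarith
    linarith

end MPacf82c
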