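import Pool.Agent.Lib.MP_acf82c_lc.TripRoutes

/-!
# The random move from one sample point to another inside one block

Block duration `T0`, cap `Γ` on the duration of the trip, `0 < Γ < T0`. On `ℕ × ℝ` take
`P = ∑ i, lam i • (dirac i).prod (uniform on [0, T0 - Γ])` (normalised restriction of `volume`)
and `mv (i, θ) t = r i (t - θ)` if `T i ≤ Γ`, and if `T i > Γ` (or `i ≥ m`) the path which waits
at the start and then goes ... any 1-Lipschitz path with the right end points that fits into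
`[0, T0]`. To keep it simple, use for the long routes `i` some fixed short route, e.g. a route
`i₀` with `T i₀ ≤ Γ` (exists because the mean of `T` is `≤ √(μD)+2D < Γ`, assumption `hΓ`).
`P{caught} ≤ ∑_{T i ≤ Γ} lam i * |bad_i| / (T0 - Γ) + P(T i > Γ) + [S visits the start in the
block] + [S visits the end in the block]`, and `P(T i > Γ) ≤ (√(μD) + 2D)/Γ` (Markov).
The caught set is closed in `θ`; one can also work with outer measure only.
-/

namespace MPacf82c

open Set MeasureTheory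

variable {Q : Type} [MetricSpace Q] (N : Network Q)

lemma moveOne_timeIn_nonneg (S : ℝ → Q) (t0 t1 : ℝ) (A : Set Q) : 0 ≤ timeIn S t0 t1 A :=
  ENNReal.toReal_nonneg

/-- The uniform distribution on `[0, c]`. -/
noncomputable def moveOneUnif (c : ℝ) : Measure ℝ :=
  ENNReal.ofReal c⁻¹ • (volume : Measure ℝ).restrict (Icc 0 c)

lemma moveOneUnif_apply {c : ℝ} (A : Set ℝ) :
    moveOneUnif c A = ENNReal.ofReal c⁻¹ * (volume : Measure ℝ) (A ∩ Icc 0 c) := by
  rw [moveOneUnif, Measure.smul_apply, Measure.restrict_apply' measurableSet_Icc, smul_eq_mul]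

lemma moveOneUnif_univ {c : ℝ} (hc : 0 < c) : moveOneUnif c univ = 1 := by
  rw [moveOneUnif_apply, univ_inter, Real.volume_Icc, sub_zero, ← ENNReal.ofReal_mul (inv_nonneg.2 hc.le),
    inv_mul_cancel₀ hc.ne', ENNReal.ofReal_one]

lemma moveOneUnif_le_one {c : ℝ} (hc : 0 < c) (A : Set ℝ) : moveOneUnif c A ≤ 1 :=
  (measure_mono (subset_univ A)).trans (moveOneUnif_univ hc).le

open Classical in
theorem move_one {D : ℝ} (hD : ∀ x y : Q, dist x y ≤ D) {e e' : N.Arc} {s s' : ℝ}
    (hs : s ∈ Ioo 0 (N.len e)) (hs' : s' ∈ Ioo 0 (N.len e')) {T0 Γ : ℝ} (hΓ0 : 0 < Γ)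
    (hΓ : Real.sqrt (N.length * D) + 2 * D < Γ) (hΓT : Γ < T0) :
    ∃ (P : Measure (ℕ × ℝ)) (mv : ℕ × ℝ → ℝ → Q) (F : N.Arc → ℝ),
      IsProbabilityMeasure P ∧ (∀ ω, LipschitzWith 1 (mv ω)) ∧
      (∀ ω, ∀ t ≤ 0, mv ω t = N.pt e s) ∧ (∀ ω t, T0 ≤ t → mv ω t = N.pt e' s') ∧
      (∀ t, @Measurable (ℕ × ℝ) Q _ (borel Q) fun ω => mv ω t) ∧
      (∀ c, 0 ≤ F c) ∧ (∀ c, F c ≤ 1) ∧
      ∑ c, N.len c * F c ≤ Real.sqrt (N.length * D) ∧
      ∀ S : ℝ → Q, LipschitzWith 1 S → ∀ t0 : ℝ,
        (P {ω | ∃ t ∈ Icc t0 (t0 + T0), S t = mv ω (t - t0)}).toReal ≤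
          (timeIn S t0 (t0 + T0) N.nodes + ∑ c, F c * timeIn S t0 (t0 + T0) (N.openArc c) + D +
            2 * timeIn S t0 (t0 + T0) (N.openArc e) +
            2 * timeIn S t0 (t0 + T0) (N.openArc e')) / (T0 - Γ) +
          (Real.sqrt (N.length * D) + 2 * D) / Γ +
          (if ∃ t ∈ Icc t0 (t0 + T0), S t = N.pt e s then 1 else 0) +
          (if ∃ t ∈ Icc t0 (t0 + T0), S t = N.pt e' s' then 1 else 0) := by
  obtain ⟨m, lam, T, r, F, hlam, hsum, hT, hr, hr0, hr1, hF0, hF1, hFs, hTs, hmeet⟩ :=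
    trip_routes N hD hs hs'
  have hD0 : 0 ≤ D := by
    have := hD (N.pt e s) (N.pt e s)
    rwa [dist_self] at this
  have hTG : 0 < T0 - Γ := sub_pos.2 hΓT
  obtain ⟨i₀, hi₀⟩ : ∃ i₀, T i₀ ≤ Γ := by
    by_contra hcon
    push Not at hcon
    have h1 : Γ ≤ ∑ i, lam i * T i := by
      calc Γ = ∑ i, lam i * Γ := by rw [← Finset.sum_mul, hsum, one_mul]
        _ ≤ ∑ i, lam i * T i :=
          Finset.sum_le_sum fun i _ => mul_le_mul_of_nonneg_left (hcon i).le (hlam i)
    linarith
  let ρ : ℕ → Fin m := fun n => if h : n < m then (if T ⟨n, h⟩ ≤ Γ then ⟨n, h⟩ else i₀) else i₀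
  have hρ : ∀ n, T (ρ n) ≤ Γ := by
    intro n
    simp only [ρ]
    split_ifs with h1 h2
    · exact h2
    · exact hi₀
    · exact hi₀
  have hρ' : ∀ i : Fin m, T i ≤ Γ → ρ i = i := by
    intro i hi
    simp [ρ, hi]
  let cl : ℝ → ℝ := fun θ => max 0 (min θ (T0 - Γ))
  have hcl0 : ∀ θ, 0 ≤ cl θ := fun θ => le_max_left _ _
  have hcl1 : ∀ θ, cl θ ≤ T0 - Γ := fun θ => max_le hTG.le (min_le_right _ _)
  have hcl : ∀ θ ∈ Icc 0 (T0 - Γ), cl θ = θ := by
    intro θ hθ
    simp only [cl]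
    rw [min_eq_left hθ.2, max_eq_right hθ.1]
  have hclc : Continuous cl := continuous_const.max (continuous_id.min continuous_const)
  have hemb : ∀ i : Fin m, MeasurableEmbedding (Prod.mk (i : ℕ) : ℝ → ℕ × ℝ) :=
    fun i => measurableEmbedding_prodMk_left _
  let P : Measure (ℕ × ℝ) :=
    ∑ i : Fin m, ENNReal.ofReal (lam i) • (moveOneUnif (T0 - Γ)).map (Prod.mk (i : ℕ))
  have hP : ∀ A : Set (ℕ × ℝ), P A =
      ∑ i : Fin m, ENNReal.ofReal (lam i) * moveOneUnif (T0 - Γ) (Prod.mk (i : ℕ) ⁻¹' A) := by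
    intro A
    simp only [P, Measure.coe_finsetSum, Finset.sum_apply, Measure.smul_apply, smul_eq_mul]
    refine Finset.sum_congr rfl fun i _ => ?_
    rw [(hemb i).map_apply]
  have hPuniv : P univ = 1 := by
    rw [hP]
    simp only [preimage_univ, moveOneUnif_univ hTG, mul_one]
    rw [← ENNReal.ofReal_sum_of_nonneg fun i _ => hlam i, hsum, ENNReal.ofReal_one]
  refine ⟨P, fun ω t => r (ρ ω.1) (t - cl ω.2), F, ⟨hPuniv⟩, ?_, ?_, ?_, ?_, hF0, hF1, hFs, ?_⟩
  · intro ω
    refine LipschitzWith.of_dist_le_mul fun a b => ?_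
    have := (hr (ρ ω.1)).dist_le_mul (a - cl ω.2) (b - cl ω.2)
    rwa [dist_sub_right] at this
  · intro ω t ht
    exact hr0 _ _ (by linarith [hcl0 ω.2])
  · intro ω t ht
    exact hr1 _ _ (by linarith [hcl1 ω.2, hρ ω.1])
  · intro t
    letI : MeasurableSpace Q := borel Q
    haveI : BorelSpace Q := ⟨rfl⟩
    refine measurable_from_prod_countable_right fun i => ?_
    exact ((hr (ρ i)).continuous.comp (continuous_const.sub hclc)).measurable
  · intro S hS t0
    have hT0 : t0 ≤ t0 + T0 := by linarith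
    set A : Set (ℕ × ℝ) :=
      {ω | ∃ t ∈ Icc t0 (t0 + T0), S t = r (ρ ω.1) (t - t0 - cl ω.2)} with hA
    set X : ℝ := timeIn S t0 (t0 + T0) N.nodes +
      ∑ c, F c * timeIn S t0 (t0 + T0) (N.openArc c) + D +
            2 * timeIn S t0 (t0 + T0) (N.openArc e) +
            2 * timeIn S t0 (t0 + T0) (N.openArc e') with hX
    have hX0 : 0 ≤ X := by
      have h1 : 0 ≤ ∑ c, F c * timeIn S t0 (t0 + T0) (N.openArc c) :=
        Finset.sum_nonneg fun c _ => mul_nonneg (hF0 c) (moveOne_timeIn_nonneg _ _ _ _)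
      have h2 := moveOne_timeIn_nonneg S t0 (t0 + T0) N.nodes
      have h3 := moveOne_timeIn_nonneg S t0 (t0 + T0) (N.openArc e)
      have h4 := moveOne_timeIn_nonneg S t0 (t0 + T0) (N.openArc e')
      rw [hX]
      linarith
    have hY0 : 0 ≤ (Real.sqrt (N.length * D) + 2 * D) / Γ :=
      div_nonneg (by linarith [Real.sqrt_nonneg (N.length * D)]) hΓ0.le
    have hXT : 0 ≤ X / (T0 - Γ) := div_nonneg hX0 hTG.le
    by_cases hC : (∃ t ∈ Icc t0 (t0 + T0), S t = N.pt e s) ∨
        (∃ t ∈ Icc t0 (t0 + T0), S t = N.pt e' s')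
    · have h1 : (P A).toReal ≤ 1 := by
        have h2 : P A ≤ 1 := (measure_mono (subset_univ A)).trans hPuniv.le
        have := ENNReal.toReal_mono ENNReal.one_ne_top h2
        simpa using this
      have h2 : (1 : ℝ) ≤ (if ∃ t ∈ Icc t0 (t0 + T0), S t = N.pt e s then 1 else 0) +
          (if ∃ t ∈ Icc t0 (t0 + T0), S t = N.pt e' s' then 1 else 0) := by
        rcases hC with hC | hC
        · rw [if_pos hC]
          have : (0 : ℝ) ≤ (if ∃ t ∈ Icc t0 (t0 + T0), S t = N.pt e' s' then 1 else 0) := by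
            split_ifs <;> norm_num
          linarith
        · rw [if_pos hC]
          have : (0 : ℝ) ≤ (if ∃ t ∈ Icc t0 (t0 + T0), S t = N.pt e s then 1 else 0) := by
            split_ifs <;> norm_num
          linarith
      linarith
    · push Not at hC
      obtain ⟨hC1, hC2⟩ := hC
      have hn1 : ¬ ∃ t ∈ Icc t0 (t0 + T0), S t = N.pt e s := by
        rintro ⟨t, ht, h⟩
        exact hC1 t ht h
      have hn2 : ¬ ∃ t ∈ Icc t0 (t0 + T0), S t = N.pt e' s' := by
        rintro ⟨t, ht, h⟩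
        exact hC2 t ht h
      rw [if_neg hn1, if_neg hn2, add_zero, add_zero]
      let Bad : Fin m → Set ℝ := fun i => {θ : ℝ | ∃ t ∈ Icc t0 (t0 + T0), θ ≤ t ∧
        t ≤ θ + T i ∧ S t = r i (t - θ)}
      have hBadfin : ∀ i, volume (Bad i) ≠ ⊤ := by
        intro i
        have h1 : Bad i ⊆ Icc (t0 - T i) (t0 + T0) := by
          rintro θ ⟨t, ht, h1, h2, _⟩
          exact ⟨by linarith [ht.1], by linarith [ht.2]⟩
        exact ne_top_of_le_ne_top (by rw [Real.volume_Icc]; exact ENNReal.ofReal_ne_top)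
          (measure_mono h1)
      have hUA : ∀ i : Fin m, T i ≤ Γ →
          moveOneUnif (T0 - Γ) (Prod.mk (i : ℕ) ⁻¹' A) ≤
            ENNReal.ofReal (T0 - Γ)⁻¹ * volume (Bad i) := by
        intro i hi
        rw [moveOneUnif_apply]
        refine mul_le_mul_right ?_ _
        have h1 : Prod.mk (i : ℕ) ⁻¹' A ∩ Icc 0 (T0 - Γ) ⊆ (fun θ => t0 + θ) ⁻¹' Bad i := by
          rintro θ ⟨⟨t, ht, h⟩, hθ⟩
          simp only at h
          rw [hρ' i hi, hcl θ hθ] at h
          refine ⟨t, ht, ?_, ?_, ?_⟩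
          · by_contra hlt
            push Not at hlt
            have h2 := hr0 i (t - t0 - θ) (by linarith)
            rw [h2] at h
            exact hC1 t ht h
          · by_contra hlt
            push Not at hlt
            have h2 := hr1 i (t - t0 - θ) (by linarith)
            rw [h2] at h
            exact hC2 t ht h
          · rw [h]
            congr 1
            ring
        calc volume (Prod.mk (i : ℕ) ⁻¹' A ∩ Icc 0 (T0 - Γ))
            ≤ volume ((fun θ => t0 + θ) ⁻¹' Bad i) := measure_mono h1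
          _ = volume (Bad i) := measure_preimage_add _ _ _
      have hterm : ∀ i : Fin m,
          (moveOneUnif (T0 - Γ) (Prod.mk (i : ℕ) ⁻¹' A)).toReal ≤
            (volume (Bad i)).toReal / (T0 - Γ) + T i / Γ := by
        intro i
        by_cases hi : T i ≤ Γ
        · have h1 := ENNReal.toReal_mono (ENNReal.mul_ne_top ENNReal.ofReal_ne_top (hBadfin i))
            (hUA i hi)
          rw [ENNReal.toReal_mul, ENNReal.toReal_ofReal (inv_nonneg.2 hTG.le)] at h1
          have h2 : 0 ≤ T i / Γ := div_nonneg (hT i) hΓ0.le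
          have h3 : (volume (Bad i)).toReal / (T0 - Γ) =
            (T0 - Γ)⁻¹ * (volume (Bad i)).toReal := by rw [div_eq_inv_mul]
          linarith
        · have h1 := ENNReal.toReal_mono ENNReal.one_ne_top
            (moveOneUnif_le_one hTG (Prod.mk (i : ℕ) ⁻¹' A))
          rw [ENNReal.toReal_one] at h1
          have h2 : 1 ≤ T i / Γ := by
            rw [le_div_iff₀ hΓ0]
            push Not at hi
            linarith
          have h3 : 0 ≤ (volume (Bad i)).toReal / (T0 - Γ) :=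
            div_nonneg ENNReal.toReal_nonneg hTG.le
          linarith
      have hsumR : (P A).toReal = ∑ i : Fin m, lam i *
          (moveOneUnif (T0 - Γ) (Prod.mk (i : ℕ) ⁻¹' A)).toReal := by
        rw [hP, ENNReal.toReal_sum]
        · refine Finset.sum_congr rfl fun i _ => ?_
          rw [ENNReal.toReal_mul, ENNReal.toReal_ofReal (hlam i)]
        · intro i _
          exact ENNReal.mul_ne_top ENNReal.ofReal_ne_top
            (ne_top_of_le_ne_top ENNReal.one_ne_top (moveOneUnif_le_one hTG _))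
      have hm := hmeet S hS t0 (t0 + T0) hT0
      calc (P A).toReal = ∑ i : Fin m, lam i *
          (moveOneUnif (T0 - Γ) (Prod.mk (i : ℕ) ⁻¹' A)).toReal := hsumR
        _ ≤ ∑ i : Fin m, lam i * ((volume (Bad i)).toReal / (T0 - Γ) + T i / Γ) :=
          Finset.sum_le_sum fun i _ => mul_le_mul_of_nonneg_left (hterm i) (hlam i)
        _ = (∑ i : Fin m, lam i * (volume (Bad i)).toReal) / (T0 - Γ) +
            (∑ i : Fin m, lam i * T i) / Γ := by
          rw [Finset.sum_div, Finset.sum_div, ← Finset.sum_add_distrib]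
          refine Finset.sum_congr rfl fun i _ => ?_
          ring
        _ ≤ X / (T0 - Γ) + (Real.sqrt (N.length * D) + 2 * D) / Γ := by
          refine add_le_add ?_ ?_
          · exact div_le_div_of_nonneg_right hm hTG.le
          · exact div_le_div_of_nonneg_right hTs hΓ0.le

end MPacf82c
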