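import Pool.Agent.Lib.MP_acf82c_lc.NetBasic

/-!
# Sample points

On the arc `e` the `m_e = ⌊len e / h⌋₊ ≥ 1` points at the positions `(k + 1/2) * len e / m_e`,
`k < m_e` (`len e / m_e ≥ h`). Distances: `dist_same_arc`, `dist_diff_arc`,
`dist_ge_of_notMem` (each position is at distance at least `h/2` from both ends of the arc).
-/

namespace MPacf82c

open Set MeasureTheory

variable {Q : Type} [MetricSpace Q] (N : Network Q)

/-- position arithmetic on one arc -/
theorem samples_pos {h l : ℝ} (hh : 0 < h) (hl : h ≤ l) {m k : ℕ} (hm : m = ⌊l / h⌋₊)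
    (hk : k < m) :
    h / 2 ≤ ((k : ℝ) + 1 / 2) * (l / m) ∧ h / 2 ≤ l - ((k : ℝ) + 1 / 2) * (l / m) ∧
      h ≤ l / m := by
  have hm0 : 0 < m := by omega
  have hmR : (0 : ℝ) < m := by exact_mod_cast hm0
  have hl0 : 0 < l := lt_of_lt_of_le hh hl
  have h1 : (m : ℝ) ≤ l / h := by
    rw [hm]
    exact Nat.floor_le (by positivity)
  have h2 : (m : ℝ) * h ≤ l := by
    rwa [le_div_iff₀ hh] at h1
  have h3 : h ≤ l / m := by
    rw [le_div_iff₀ hmR]
    linarith
  have h4 : (m : ℝ) * (l / m) = l := by field_simp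
  have hkR : (k : ℝ) + 1 ≤ m := by exact_mod_cast hk
  have hk0 : (0 : ℝ) ≤ k := Nat.cast_nonneg k
  set a := l / m with ha
  have ha0 : 0 < a := lt_of_lt_of_le hh h3
  refine ⟨?_, ?_, h3⟩
  · have : 0 ≤ (k : ℝ) * a := by positivity
    nlinarith
  · have h5 : ((k : ℝ) + 1) * a ≤ m * a := mul_le_mul_of_nonneg_right hkR ha0.le
    rw [h4] at h5
    nlinarith

open Classical in
theorem samples {h : ℝ} (hh : 0 < h) (hle : ∀ e, h ≤ N.len e) {n : ℕ}
    (hn : n = ∑ e, ⌊N.len e / h⌋₊) :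
    ∃ (arcOf : Fin n → N.Arc) (pos : Fin n → ℝ),
      (∀ i, pos i ∈ Ioo 0 (N.len (arcOf i))) ∧
      (∀ i j, i ≠ j → h ≤ dist (N.pt (arcOf i) (pos i)) (N.pt (arcOf j) (pos j))) ∧
      (∀ i z, dist z (N.pt (arcOf i) (pos i)) < h / 2 → z ∈ N.openArc (arcOf i)) ∧
      ∀ e, ((Finset.univ.filter fun i => arcOf i = e).card : ℝ) * h ≤ N.len e := by
  have hcard : Fintype.card (Fin n) = Fintype.card (Σ e : N.Arc, Fin ⌊N.len e / h⌋₊) := by
    rw [Fintype.card_fin, Fintype.card_sigma, hn]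
    simp
  let φ : Fin n ≃ (Σ e : N.Arc, Fin ⌊N.len e / h⌋₊) := Fintype.equivOfCardEq hcard
  let posn : (Σ e : N.Arc, Fin ⌊N.len e / h⌋₊) → ℝ := fun x =>
    (((x.2 : ℕ) : ℝ) + 1 / 2) * (N.len x.1 / (⌊N.len x.1 / h⌋₊ : ℕ))
  have hp : ∀ x, h / 2 ≤ posn x ∧ h / 2 ≤ N.len x.1 - posn x ∧
      h ≤ N.len x.1 / (⌊N.len x.1 / h⌋₊ : ℕ) :=
    fun x => samples_pos hh (hle x.1) rfl x.2.2
  have hmem : ∀ x, posn x ∈ Icc 0 (N.len x.1) := by
    intro x
    obtain ⟨a, b, _⟩ := hp x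
    exact ⟨by linarith, by linarith⟩
  have hmin : ∀ x, h / 2 ≤ min (posn x) (N.len x.1 - posn x) :=
    fun x => le_min (hp x).1 (hp x).2.1
  have hdist : ∀ x y, x ≠ y → h ≤ dist (N.pt x.1 (posn x)) (N.pt y.1 (posn y)) := by
    rintro ⟨e, k⟩ ⟨e', k'⟩ hxy
    by_cases hee : e = e'
    · subst hee
      have hkk : k ≠ k' := by
        rintro rfl
        exact hxy rfl
      have h1 := dist_same_arc N e (hmem ⟨e, k⟩) (hmem ⟨e, k'⟩)
      refine le_trans (le_min ?_ ?_) h1
      · have h2 : posn ⟨e, k⟩ - posn ⟨e, k'⟩ =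
            (((k : ℕ) : ℝ) - ((k' : ℕ) : ℝ)) * (N.len e / (⌊N.len e / h⌋₊ : ℕ)) := by
          simp only [posn]
          ring
        have h3 := (hp ⟨e, k⟩).2.2
        have h4 : (1 : ℝ) ≤ |(((k : ℕ) : ℝ) - ((k' : ℕ) : ℝ))| := by
          have h5 : ((k : ℕ) : ℤ) - ((k' : ℕ) : ℤ) ≠ 0 := by
            intro h6
            apply hkk
            apply Fin.ext
            omega
          have h6 : (1 : ℤ) ≤ |((k : ℕ) : ℤ) - ((k' : ℕ) : ℤ)| := Int.one_le_abs h5
          exact_mod_cast h6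
        rw [h2, abs_mul]
        have h7 : 0 < N.len e / (⌊N.len e / h⌋₊ : ℕ) := lt_of_lt_of_le hh h3
        rw [abs_of_pos h7]
        nlinarith
      · have a := hmin ⟨e, k⟩
        have b := hmin ⟨e, k'⟩
        linarith
    · have h1 := dist_diff_arc N hee (hmem ⟨e, k⟩) (hmem ⟨e', k'⟩)
      have a := hmin ⟨e, k⟩
      have b := hmin ⟨e', k'⟩
      dsimp only at h1 a b ⊢
      linarith
  refine ⟨fun i => (φ i).1, fun i => posn (φ i), ?_, ?_, ?_, ?_⟩
  · intro i
    obtain ⟨a, b, _⟩ := hp (φ i)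
    exact ⟨by linarith, by linarith⟩
  · intro i j hij
    exact hdist _ _ (fun hc => hij (φ.injective hc))
  · intro i z hz
    by_contra hcon
    have h1 := dist_ge_of_notMem N (φ i).1 (hmem (φ i)) hcon
    have h2 := hmin (φ i)
    rw [dist_comm] at hz
    linarith
  · intro e
    have h1 : (Finset.univ.filter fun i => (φ i).1 = e).card = ⌊N.len e / h⌋₊ := by
      have h2 : (Finset.univ.filter fun i => (φ i).1 = e).card =
          (Finset.univ.image (fun k : Fin ⌊N.len e / h⌋₊ => φ.symm ⟨e, k⟩)).card := by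
        congr 1
        ext i
        simp only [Finset.mem_filter, Finset.mem_univ, true_and, Finset.mem_image]
        constructor
        · intro hi
          refine ⟨hi ▸ (φ i).2, ?_⟩
          rw [Equiv.symm_apply_eq]
          subst hi
          rfl
        · rintro ⟨k, rfl⟩
          simp
      rw [h2, Finset.card_image_of_injective, Finset.card_univ, Fintype.card_fin]
      intro k k' hk
      have h3 := φ.symm.injective hk
      simpa using h3
    rw [h1]
    have h2 : (⌊N.len e / h⌋₊ : ℝ) ≤ N.len e / h :=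
      Nat.floor_le (div_nonneg (N.len_pos e).le hh.le)
    rwa [le_div_iff₀ hh] at h2

end MPacf82c
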