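import Pool.Agent.Lib.MP_acf82c_lc.GoodMoves
import Pool.Agent.Lib.MP_acf82c_lc.MoveOne
import Pool.Agent.Lib.MP_acf82c_lc.Samples
import Pool.Agent.Lib.MP_acf82c_lc.Coverage
import Pool.Agent.Lib.MP_acf82c_lc.HubBound

/-!
# Good moves in a network

Combine `samples`, `move_one` (for `i ≠ j`; for `i = j` the constant path and any probability
measure), `visited_card`, `coverage_time`, `timeIn_total`, `len_le_two_diam` and `hub_bound`
(with `F i j := 0` for `i = j`, `Rt = √(μ D)`).
-/

namespace MPacf82c

open Set MeasureTheory

variable {Q : Type} [MetricSpace Q] (N : Network Q)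

theorem net_moves {D : ℝ} (hD : ∀ x y : Q, dist x y ≤ D) {h β Γ : ℝ} (hh : 0 < h)
    (hle : ∀ e, h ≤ N.len e) (hβ : 0 < β) (hΓ : Real.sqrt (N.length * D) + 2 * D < Γ) {n B : ℕ}
    (hn : n = ∑ e, ⌊N.len e / h⌋₊) (hn2 : 2 ≤ n) (hB : 1 ≤ B) (hΓT : Γ < h * (B - 1)) :
    GoodMoves Q n B (h * (B - 1))
      (errN n (h * (B - 1)) h β Γ D (Real.sqrt (N.length * D))) := by
  classical
  obtain ⟨arcOf, pos, hpos, hsep, hball, hcnt⟩ := samples N hh hle hn
  set T0 : ℝ := h * (B - 1) with hT0
  set Rt : ℝ := Real.sqrt (N.length * D) with hRt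
  set x : Fin n → Q := fun i => N.pt (arcOf i) (pos i) with hx
  have hD0 : 0 ≤ D := by
    have h1 := hD (x ⟨0, by omega⟩) (x ⟨0, by omega⟩)
    rwa [dist_self] at h1
  have hRt0 : 0 ≤ Rt := Real.sqrt_nonneg _
  have hΓ0 : 0 < Γ := by linarith
  have hT00 : 0 < T0 := by linarith
  have hmove := fun i j : Fin n => move_one N hD (hpos i) (hpos j) hΓ0 hΓ hΓT
  choose P' mv' F' hP' hmvL hmv0 hmvT hmvm hF0 hF1 hFl hcatch using hmove
  refine ⟨x, fun i j => if i = j then Measure.dirac (0, 0) else P' i j,
    fun i j => if i = j then fun _ _ => x i else mv' i j, ?_, ?_, ?_, ?_, ?_, ?_, ?_⟩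
  · intro i j
    by_cases hij : i = j
    · simp only [hij, if_true]
      infer_instance
    · simp only [hij, if_false]
      exact hP' i j
  · intro i j ω
    by_cases hij : i = j
    · simp only [hij, if_true]
      exact LipschitzWith.const' _
    · simp only [hij, if_false]
      exact hmvL i j ω
  · intro i j ω t ht
    by_cases hij : i = j
    · simp only [hij, if_true]
    · simp only [hij, if_false]
      exact hmv0 i j ω t ht
  · intro i j ω t ht
    by_cases hij : i = j
    · simp only [hij, if_true]
    · simp only [hij, if_false]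
      exact hmvT i j ω t ht
  · intro i j t
    by_cases hij : i = j
    · simp only [hij, if_true]
      exact @measurable_const _ _ (borel Q) _ _
    · simp only [hij, if_false]
      exact hmvm i j t
  · intro i ω t
    simp only [if_true]
  · intro S hS t0
    set L : Finset (Fin n) := Finset.univ.filter fun i => ∃ t ∈ Icc t0 (t0 + T0), S t = x i
      with hL
    have hLcard : L.card ≤ B := by
      have := visited_card hh hsep hS hB t0
      convert this using 2
    refine ⟨L, hLcard, fun i => by simp [hL], ?_⟩
    have ht01 : t0 ≤ t0 + T0 := by linarith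
    have hcov : ∀ A : Finset N.Arc, h * (((L.filter fun i => arcOf i ∈ A).card : ℝ) - 2) ≤
        ∑ e ∈ A, timeIn S t0 (t0 + T0) (N.openArc e) := by
      intro A
      have h1 := coverage_time N hh hsep hball hS ht01 A
      have h2 : (L.filter fun i => arcOf i ∈ A) =
          (Finset.univ.filter fun i => arcOf i ∈ A ∧ ∃ t ∈ Icc t0 (t0 + T0), S t = x i) := by
        ext i
        simp only [hL, Finset.mem_filter, Finset.mem_univ, true_and]
        exact and_comm
      rw [h2]
      convert h1 using 5
    have htot : timeIn S t0 (t0 + T0) N.nodes + ∑ e, timeIn S t0 (t0 + T0) (N.openArc e) = T0 := by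
      rw [timeIn_total N hS ht01]
      ring
    set F : Fin n → Fin n → N.Arc → ℝ := fun i j e => if i = j then 0 else F' i j e with hF
    have hhub := hub_bound (E := N.Arc) hn2 (len := N.len)
      (u := fun e => timeIn S t0 (t0 + T0) (N.openArc e)) (z0 := timeIn S t0 (t0 + T0) N.nodes)
      (D := D) (h := h) (β := β) (Γ := Γ) (Rt := Rt) (B := B) (T0 := T0) hT0 hh hβ hΓ0 hΓT hB hD0
      hRt0 N.len_pos (len_le_two_diam N hD) (fun e => ENNReal.toReal_nonneg)
      ENNReal.toReal_nonneg htot (arcOf := arcOf)
      (by
        intro e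
        convert hcnt e using 4)
      (F := F)
      (by
        intro i j e
        simp only [hF]
        split_ifs
        · exact le_rfl
        · exact hF0 i j e)
      (by
        intro i j e
        simp only [hF]
        split_ifs
        · exact zero_le_one
        · exact hF1 i j e)
      (by
        intro i j
        by_cases hij : i = j
        · simp only [hF, hij, if_true, mul_zero, Finset.sum_const_zero]
          exact hRt0
        · simp only [hF, hij, if_false]
          exact hFl i j)
      (L := L) hLcard
      (by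
        intro A
        convert hcov A using 5)
    obtain ⟨z, hz0, hzsum, hz⟩ := hhub
    refine ⟨z, hz0, ?_, ?_⟩
    · unfold errN
      convert hzsum using 3
    · intro i j hij
      have h1 := hcatch i j S hS t0
      have h2 := hz i j hij
      simp only [hij, if_false]
      simp only [hF, hij, if_false] at h2
      have h3 : ∀ k : Fin n, (if ∃ t ∈ Icc t0 (t0 + T0), S t = N.pt (arcOf k) (pos k)
          then (1 : ℝ) else 0) = if k ∈ L then 1 else 0 := by
        intro k
        have : k ∈ L ↔ ∃ t ∈ Icc t0 (t0 + T0), S t = N.pt (arcOf k) (pos k) := by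
          simp [hL, hx]
        by_cases hk : k ∈ L
        · rw [if_pos hk, if_pos (this.mp hk)]
        · rw [if_neg hk, if_neg (fun h' => hk (this.mpr h'))]
      have h4 : (P' i j {ω | ∃ t ∈ Icc t0 (t0 + T0), S t = mv' i j ω (t - t0)}).toReal ≤
          (timeIn S t0 (t0 + T0) N.nodes +
            ∑ c, F' i j c * timeIn S t0 (t0 + T0) (N.openArc c) + D +
            2 * timeIn S t0 (t0 + T0) (N.openArc (arcOf i)) +
            2 * timeIn S t0 (t0 + T0) (N.openArc (arcOf j))) / (T0 - Γ) +
          (Rt + 2 * D) / Γ + (if i ∈ L then 1 else 0) + (if j ∈ L then 1 else 0) := by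
        rw [← h3 i, ← h3 j]
        convert h1 using 2
      linarith

end MPacf82c
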