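import Pool.Agent.Lib.MP_acf82c_lc.Notions

/-!
# The stationary hider in the block game

Uniform label `y`, no stars: `surv B L y (fun _ => false) m = 1` iff `y ∉ ⋃_{k<m} L k`, whose
complement has at least `n - m B` elements. With `q = n / B` (natural division, `q ≤ M`),
`∑_{m<q} (1 - m B/n) = q - (B/n) q (q-1)/2 ≥ q - (q-1)/2 = (q+1)/2 ≥ n/(2B)`.
-/

namespace MPacf82c

private theorem stationary_surv_nonneg {n : ℕ} (B : ℕ) (L : ℕ → Finset (Fin n)) (y : Fin n)
    (m : ℕ) : 0 ≤ surv B L (fun _ => y) (fun _ => false) m := by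
  unfold surv
  refine Finset.prod_nonneg fun k _ => ?_
  unfold fac
  simp only [Bool.false_eq_true, if_false]
  split_ifs <;> norm_num

private theorem stationary_sum {n : ℕ} (B : ℕ) (L : ℕ → Finset (Fin n))
    (hL : ∀ k, (L k).card ≤ B) (m : ℕ) :
    (n : ℝ) - m * B ≤ ∑ y : Fin n, surv B L (fun _ => y) (fun _ => false) m := by
  classical
  set U : Finset (Fin n) := (Finset.range m).biUnion L with hU
  have hUcard : U.card ≤ m * B := by
    have h1 := Finset.card_biUnion_le (s := Finset.range m) (t := L)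
    refine h1.trans ((Finset.sum_le_sum fun k _ => hL k).trans ?_)
    simp
  have h2 : ∀ y : Fin n, (if y ∈ U then (0 : ℝ) else 1) ≤
      surv B L (fun _ => y) (fun _ => false) m := by
    intro y
    split_ifs with hy
    · exact stationary_surv_nonneg B L y m
    · unfold surv
      rw [Finset.prod_eq_one]
      intro k hk
      unfold fac
      have : y ∉ L k := fun h => hy (Finset.mem_biUnion.mpr ⟨k, hk, h⟩)
      simp [this]
  have h3 : ∑ y : Fin n, (if y ∈ U then (0 : ℝ) else 1) = (n : ℝ) - U.card := by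
    have h4 : ∀ y : Fin n, (if y ∈ U then (0 : ℝ) else 1) = 1 - (if y ∈ U then (1 : ℝ) else 0) := by
      intro y
      split_ifs <;> norm_num
    rw [Finset.sum_congr rfl fun y _ => h4 y, Finset.sum_sub_distrib]
    simp
  have h5 : (U.card : ℝ) ≤ m * B := by exact_mod_cast hUcard
  calc (n : ℝ) - m * B ≤ (n : ℝ) - U.card := by linarith
    _ = ∑ y : Fin n, (if y ∈ U then (0 : ℝ) else 1) := h3.symm
    _ ≤ _ := Finset.sum_le_sum fun y _ => h2 y

private theorem stationary_gauss (n B q : ℕ) :
    ∑ m ∈ Finset.range q, ((n : ℝ) - m * B) = q * n - B * (q * (q - 1)) / 2 := by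
  induction q with
  | zero => simp
  | succ q ih =>
    rw [Finset.sum_range_succ, ih]
    push_cast
    ring

theorem stationary {n B M K : ℕ} (hB : 0 < B) (hBn : B ≤ n) (hM : n ≤ M * B) {V : ℝ}
    (hV : SearcherVal n B M K V) : (n : ℝ) / (2 * B) ≤ V := by
  obtain ⟨ι, _, p, L, hp0, hp1, hLB, hval⟩ := hV
  have hn : 0 < n := by omega
  have hn0 : (0 : ℝ) < n := by exact_mod_cast hn
  have hB0 : (0 : ℝ) < B := by exact_mod_cast hB
  set q : ℕ := n / B with hq
  have hqM : q ≤ M := by
    rw [hq]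
    exact Nat.div_le_of_le_mul (by rw [mul_comm]; exact hM)
  have hq1 : 1 ≤ q := (Nat.one_le_div_iff hB).mpr hBn
  have hqB : q * B ≤ n := Nat.div_mul_le_self n B
  have hqB' : n < (q + 1) * B := by
    have := Nat.lt_mul_div_succ n hB
    rw [mul_comm]
    exact this
  -- the value against a stationary hider
  have h1 : ∀ y : Fin n, ∑ i, p i * payoff B M (L i) (fun _ => y) (fun _ => false) ≤ V := by
    intro y
    apply hval
    refine ⟨fun k _ _ => rfl, ?_⟩
    simp
  have h2 : ∑ y : Fin n, ∑ i, p i * payoff B M (L i) (fun _ => y) (fun _ => false) ≤ n * V := by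
    have := Finset.sum_le_sum fun (y : Fin n) (_ : y ∈ Finset.univ) => h1 y
    simpa using this
  have h3 : ∀ i, (q * n - B * (q * (q - 1)) / 2 : ℝ) ≤
      ∑ y : Fin n, payoff B M (L i) (fun _ => y) (fun _ => false) := by
    intro i
    unfold payoff
    rw [Finset.sum_comm, ← stationary_gauss]
    calc ∑ m ∈ Finset.range q, ((n : ℝ) - m * B)
        ≤ ∑ m ∈ Finset.range q, ∑ y : Fin n, surv B (L i) (fun _ => y) (fun _ => false) m :=
          Finset.sum_le_sum fun m _ => stationary_sum B (L i) (hLB i) m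
      _ ≤ ∑ m ∈ Finset.range M, ∑ y : Fin n, surv B (L i) (fun _ => y) (fun _ => false) m :=
          Finset.sum_le_sum_of_subset_of_nonneg (Finset.range_subset_range.mpr hqM)
            fun m _ _ => Finset.sum_nonneg fun y _ => stationary_surv_nonneg B (L i) y m
  have h4 : (q * n - B * (q * (q - 1)) / 2 : ℝ) ≤ n * V := by
    calc (q * n - B * (q * (q - 1)) / 2 : ℝ)
        = ∑ i, p i * (q * n - B * (q * (q - 1)) / 2 : ℝ) := by
          rw [← Finset.sum_mul, hp1, one_mul]
      _ ≤ ∑ i, p i * ∑ y : Fin n, payoff B M (L i) (fun _ => y) (fun _ => false) :=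
          Finset.sum_le_sum fun i _ => mul_le_mul_of_nonneg_left (h3 i) (hp0 i)
      _ = ∑ y : Fin n, ∑ i, p i * payoff B M (L i) (fun _ => y) (fun _ => false) := by
          rw [Finset.sum_comm]
          exact Finset.sum_congr rfl fun i _ => Finset.mul_sum _ _ _
      _ ≤ n * V := h2
  -- the elementary inequality
  have hq1' : (1 : ℝ) ≤ q := by exact_mod_cast hq1
  have hqBr : (q : ℝ) * B ≤ n := by exact_mod_cast hqB
  have hqBr' : (n : ℝ) ≤ ((q : ℝ) + 1) * B := by exact_mod_cast hqB'.le
  have h5 : (n : ℝ) * ((q + 1) / 2) ≤ n * V := by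
    refine le_trans ?_ h4
    have : (B : ℝ) * (q * (q - 1)) ≤ n * (q - 1) := by nlinarith
    nlinarith
  have h6 : ((q : ℝ) + 1) / 2 ≤ V := le_of_mul_le_mul_left h5 hn0
  refine le_trans ?_ h6
  rw [div_le_div_iff₀ (by positivity) (by norm_num)]
  nlinarith

end MPacf82c
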