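import Pool.Agent.Lib.MP_acf82c_lc.BlockGame
import Pool.Agent.Lib.MP_acf82c_lc.Stationary
import Pool.Agent.Lib.MP_acf82c_lc.CloverUpper
import Pool.Agent.Lib.MP_acf82c_lc.NetMoves
import Pool.Agent.Lib.MP_acf82c_lc.HiderStrategy
import Pool.Agent.Lib.MP_acf82c_lc.Arith

/-!
# Two-sided bound with the value of the block game
-/

namespace MPacf82c

open Set MeasureTheory
open scoped NNReal ENNReal

/-- `v_w(C_n) ≤ x n` for all clovers with `n` leaves and all `w ≥ 1`. -/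
def Upper (n : ℕ) (x : ℝ) : Prop :=
  ∀ (Q : Type) [MetricSpace Q] (N : Network Q) (O : Q), IsClover N O n → ∀ w : ℝ≥0, 1 ≤ w →
    SearcherGuarantees w O (ENNReal.ofReal (x * n))

/-- `v_w(Q, O) ≥ x μ(Q)` for all `O` and all `w ≥ 1`. -/
def Lower {Q : Type} [MetricSpace Q] (N : Network Q) (x : ℝ) : Prop :=
  ∀ (O : Q) (w : ℝ≥0), 1 ≤ w → HiderGuarantees w O (ENNReal.ofReal (x * N.length))

theorem two_sided_aux {ε : ℝ} (hε : 0 < ε) (hε1 : ε ≤ 1) :
    ∃ δ > 0, ∀ (Q : Type) [MetricSpace Q] (N : Network Q),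
      (∀ x y : Q, dist x y ≤ δ * N.length) → 0 < N.length →
      ∃ h0 > 0, ∀ h : ℝ, 0 < h → h ≤ h0 → ∃ x : ℝ, 1 / 2 ≤ x ∧ x ≤ 2 ∧
        Upper (∑ e, ⌊N.len e / h⌋₊) (x + ε) ∧ Lower N (x - ε) := by
  -- parameters
  obtain ⟨η, hη⟩ : ∃ η : ℝ, η = ε / 12 := ⟨_, rfl⟩
  have hη0 : 0 < η := by rw [hη]; positivity
  obtain ⟨L, hL⟩ := exists_nat_ge (30 / ε)
  have hL30 : (30 : ℝ) ≤ L := by
    refine le_trans ?_ hL
    rw [le_div_iff₀ hε]; nlinarith
  have hL0 : (0 : ℝ) < L := by linarith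
  obtain ⟨K, hK1, hK⟩ : ∃ K : ℕ, 1 ≤ K ∧ (1 / (1 + η)) ^ K ≤ η / L := by
    have h1 : 1 / (1 + η) < 1 := by rw [div_lt_one (by linarith)]; linarith
    obtain ⟨k, hk⟩ := exists_pow_lt_of_lt_one (show (0 : ℝ) < η / L by positivity) h1
    refine ⟨k + 1, by omega, ?_⟩
    rw [pow_succ]
    have h2 : (0 : ℝ) ≤ (1 / (1 + η)) ^ k := by positivity
    nlinarith [h1, h2, hk]
  have hK1' : (1 : ℝ) ≤ K := by exact_mod_cast hK1
  obtain ⟨R, hR⟩ := exists_nat_ge (3 * (1 + 2 * ((L : ℝ) * K)) / ε)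
  have hR3 : (3 : ℝ) ≤ R := by
    refine le_trans ?_ hR
    rw [le_div_iff₀ hε]
    have : 0 ≤ (L : ℝ) * K := by positivity
    nlinarith
  have hR0 : (0 : ℝ) < R := by linarith
  obtain ⟨γ, hγ⟩ : ∃ γ : ℝ, γ = min (1 / (4 * (R : ℝ))) (ε / (261 * R * (L * K))) := ⟨_, rfl⟩
  have hLK : (0 : ℝ) < L * K := by positivity
  have hγ0 : 0 < γ := by rw [hγ]; positivity
  have hγR : γ ≤ 1 / (4 * R) := by rw [hγ]; exact min_le_left _ _
  have hγ2 : γ ≤ ε / (261 * R * (L * K)) := by rw [hγ]; exact min_le_right _ _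
  refine ⟨γ ^ 4, by positivity, ?_⟩
  intro Q _ N hD hμ
  set μ := N.length with hμdef
  obtain ⟨n1, hn1⟩ := exists_nat_ge (2 * (R : ℝ) * (3 + 1 / η))
  -- smallness of h
  obtain ⟨lmin, hlmin0, hlmin⟩ : ∃ l > 0, ∀ e, l ≤ N.len e := by
    by_cases hne : Nonempty N.Arc
    · obtain ⟨e0, he0⟩ := Finite.exists_min N.len
      exact ⟨N.len e0, N.len_pos e0, he0⟩
    · exact ⟨1, one_pos, fun e => absurd ⟨e⟩ hne⟩
  obtain ⟨c, hc⟩ : ∃ c : ℝ, c = Fintype.card N.Arc := ⟨_, rfl⟩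
  have hc0 : 0 ≤ c := by rw [hc]; positivity
  refine ⟨min lmin (min (μ / (n1 + c)) (min (ε * μ / (3 * (2 * c + 4 * R)))
    (min (μ / (2 * (c + 2 * R))) (γ * μ / 3)))), ?_, ?_⟩
  · have h0 : (0 : ℝ) < n1 := by
      refine lt_of_lt_of_le ?_ hn1
      positivity
    refine lt_min hlmin0 (lt_min (by positivity) (lt_min (by positivity)
      (lt_min (by positivity) (by positivity))))
  intro h hh hle
  have hl1 : h ≤ lmin := hle.trans (min_le_left _ _)
  have hl2 : h ≤ μ / (n1 + c) := hle.trans ((min_le_right _ _).trans (min_le_left _ _))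
  have hl3 : h ≤ ε * μ / (3 * (2 * c + 4 * R)) :=
    hle.trans ((min_le_right _ _).trans ((min_le_right _ _).trans (min_le_left _ _)))
  have hl4 : h ≤ μ / (2 * (c + 2 * R)) :=
    hle.trans ((min_le_right _ _).trans ((min_le_right _ _).trans
      ((min_le_right _ _).trans (min_le_left _ _))))
  have hl5 : h ≤ γ * μ / 3 :=
    hle.trans ((min_le_right _ _).trans ((min_le_right _ _).trans
      ((min_le_right _ _).trans (min_le_right _ _))))
  obtain ⟨n, hn⟩ : ∃ n : ℕ, n = ∑ e, ⌊N.len e / h⌋₊ := ⟨_, rfl⟩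
  obtain ⟨hc1, hc2⟩ := samples_count N hh
  rw [← hn] at hc1 hc2
  rw [← hn]
  rw [← hμdef, ← hc] at *
  have hn1c : (0 : ℝ) < n1 + c := by
    have h0 : (0 : ℝ) < n1 := lt_of_lt_of_le (by positivity) hn1
    linarith
  have hnn1 : (n1 : ℝ) ≤ n := by
    rw [le_div_iff₀ hn1c] at hl2
    by_contra hcon
    push Not at hcon
    nlinarith
  have hnbig : 2 * (R : ℝ) * (3 + 1 / η) ≤ n := hn1.trans hnn1
  have hn0 : (0 : ℝ) < n := lt_of_lt_of_le (by positivity) hnbig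
  have hn6 : 6 * (R : ℝ) ≤ n := by
    have : 0 ≤ 2 * (R : ℝ) * (1 / η) := by positivity
    nlinarith
  -- B
  obtain ⟨B, hB⟩ : ∃ B : ℕ, B = n / R := ⟨_, rfl⟩
  have hRn : 0 < R := by exact_mod_cast hR0
  have hBR : B * R ≤ n := by rw [hB]; exact Nat.div_mul_le_self _ _
  have hBR' : n < (B + 1) * R := by
    rw [hB]; have := Nat.lt_div_mul_add (a := n) hRn; nlinarith
  have hBRr : (B : ℝ) * R ≤ n := by exact_mod_cast hBR
  have hBRr' : (n : ℝ) < (B + 1) * R := by exact_mod_cast hBR'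
  have hB5 : (5 : ℝ) < B + 0 := by nlinarith
  have hBη : 1 / η ≤ B := by
    have : 2 * (3 + 1 / η) < (B + 1 : ℝ) := by
      by_contra hcon
      push Not at hcon
      nlinarith
    have : 0 < 1 / η := by positivity
    linarith
  have hB2 : 2 ≤ B := by
    have : (2 : ℝ) ≤ B := by linarith
    exact_mod_cast this
  have hB0 : (0 : ℝ) < B := by linarith
  have hnB2 : (n : ℝ) ≤ 2 * R * B := by nlinarith
  have hBn1 : (B : ℝ) / n ≤ 1 / R := by
    rw [div_le_div_iff₀ hn0 hR0]; linarith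
  have h2Bn : 2 * B ≤ n := by
    have : (2 * B : ℝ) ≤ n := by nlinarith
    exact_mod_cast this
  obtain ⟨M, hM⟩ : ∃ M : ℕ, M = L * R := ⟨_, rfl⟩
  have hMr : (M : ℝ) = L * R := by rw [hM]; push_cast; ring
  have hM0 : 0 < M := by
    have : (0 : ℝ) < M := by rw [hMr]; positivity
    exact_mod_cast this
  have hnMB : n ≤ M * B := by
    have : (n : ℝ) ≤ M * B := by rw [hMr]; nlinarith
    exact_mod_cast this
  obtain ⟨V, hV1, hVn, hSV, hHV⟩ := block_game n B M K hB2 h2Bn hM0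
  have hstat := stationary (by omega) (by omega) hnMB hSV
  obtain ⟨x, hx⟩ : ∃ x : ℝ, x = B / n * V := ⟨_, rfl⟩
  have hx2 : x ≤ 2 := by
    rw [hx]
    calc (B : ℝ) / n * V ≤ B / n * (2 * n / B) := by gcongr
      _ = 2 := by field_simp
  have hxh : 1 / 2 ≤ x := by
    rw [hx]
    calc (1 : ℝ) / 2 = B / n * (n / (2 * B)) := by field_simp
      _ ≤ B / n * V := by gcongr
  have hV4 : V ≤ 4 * R := by
    refine hVn.trans ?_
    rw [div_le_iff₀ hB0]; nlinarith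
  refine ⟨x, hxh, hx2, ?_, ?_⟩
  · -- upper bound
    intro Q' _ N' O' hC w hw
    obtain ⟨B', hB'⟩ : ∃ B' : ℕ, B' = B + ⌈η * B⌉₊ := ⟨_, rfl⟩
    have hceil : (⌈η * B⌉₊ : ℝ) < η * B + 1 := Nat.ceil_lt_add_one (by positivity)
    have hceil' : η * B ≤ (⌈η * B⌉₊ : ℝ) := Nat.le_ceil _
    have hB'r : (B' : ℝ) = B + ⌈η * B⌉₊ := by rw [hB']; push_cast; ring
    have hBB' : (B' : ℝ) ≤ (1 + 2 * η) * B := by
      rw [div_le_iff₀ hη0] at hBη
      rw [hB'r]; linarith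
    have hBB'' : (1 + η) * B ≤ (B' : ℝ) := by rw [hB'r]; linarith
    have hB'0 : (0 : ℝ) < B' := lt_of_lt_of_le (by positivity) hBB''
    have hκ : (B : ℝ) / B' ≤ 1 / (1 + η) := by
      rw [div_le_div_iff₀ hB'0 (by linarith)]; linarith
    have hq : ((B : ℝ) / B') ^ K ≤ η / L := (pow_le_pow_left₀ (by positivity) hκ K).trans hK
    have hq0 : 0 ≤ ((B : ℝ) / B') ^ K := by positivity
    have hη1 : η ≤ 1 / 12 := by rw [hη]; linarith
    have hVM : (V + M * ((B : ℝ) / B') ^ K) / M ≤ 5 / L := by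
      have hMr0 : (0 : ℝ) < M := by exact_mod_cast hM0
      rw [div_le_iff₀ hMr0]
      have : (M : ℝ) * ((B : ℝ) / B') ^ K ≤ M * (1 / L) := by
        have : η / L ≤ 1 / L := by gcongr; linarith
        gcongr; exact hq.trans this
      have h5 : 5 / (L : ℝ) * M = 5 * R := by rw [hMr]; field_simp
      have h6 : (M : ℝ) * (1 / L) = R := by rw [hMr]; field_simp
      rw [h5]; linarith
    have hlt : V + M * ((B : ℝ) / B') ^ K < M := by
      have hMr0 : (0 : ℝ) < M := by exact_mod_cast hM0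
      rw [div_le_iff₀ hMr0] at hVM
      have h5 : 5 / (L : ℝ) * M = 5 * R := by rw [hMr]; field_simp
      rw [h5] at hVM
      rw [hMr] at hVM ⊢
      nlinarith
    have hup := clover_upper hC (B' := B') (by omega) (by omega) hM0 hSV (by linarith) hlt w
    have harith := upper_arith (L := L) (q := ((B : ℝ) / B') ^ K) hε hε1 hη hL hn0 hB0
      hB'0.le hBB' (by linarith : (0 : ℝ) ≤ V) hx hx2 hq0 ?_ (by exact_mod_cast hM0) hVM
    · obtain ⟨Ω, m1, P, S, hP, hS0, hS1, hS2, hS3⟩ := hup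
      exact ⟨Ω, m1, P, S, hP, hS0, hS1, hS2, fun H hH =>
        (hS3 H hH).trans (ENNReal.ofReal_le_ofReal harith)⟩
    · calc (B : ℝ) / n * (M * ((B : ℝ) / B') ^ K) ≤ 1 / R * (L * R * (η / L)) := by
            rw [hMr]; gcongr
        _ = η := by field_simp
  · -- lower bound
    intro O w hw
    have hD' : ∀ x y : Q, dist x y ≤ γ ^ 4 * μ := hD
    have hsq : Real.sqrt (N.length * (γ ^ 4 * μ)) = γ ^ 2 * μ := by
      rw [← hμdef, show μ * (γ ^ 4 * μ) = (γ ^ 2 * μ) ^ 2 by ring]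
      exact Real.sqrt_sq (by positivity)
    have hhB1 : μ / (2 * R) ≤ h * (B - 1) := by
      have t1 : h * (2 * (c + 2 * R)) ≤ μ := by
        rwa [le_div_iff₀ (by positivity)] at hl4
      rw [div_le_iff₀ (by positivity)]
      have t2 : (n : ℝ) * h ≤ ((B + 1) * R) * h := by gcongr
      nlinarith
    have hhB2 : h * (B - 1) ≤ μ / R := by
      rw [le_div_iff₀ hR0]
      nlinarith
    have hnh2 : μ / 2 ≤ n * h := by
      have t1 : h * (2 * (c + 2 * R)) ≤ μ := by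
        rwa [le_div_iff₀ (by positivity)] at hl4
      nlinarith [mul_pos hR0 hh]
    have h3 : 3 * h ≤ γ * μ := by linarith
    have hγ14 : γ ≤ 1 / 12 := by
      refine hγR.trans ?_
      rw [div_le_div_iff₀ (by positivity) (by norm_num)]; linarith
    have herr0 := err_arith (T0 := h * (B - 1)) hμ hh (by linarith : (1 : ℝ) ≤ R) hγ0 hγR
      hhB1 hhB2 h3 hnh2 hn0
    have hT0 : 0 < h * ((B : ℝ) - 1) := by
      have : (0 : ℝ) < B - 1 := by linarith
      positivity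
    have hΓT : γ * μ < h * ((B : ℝ) - 1) := by
      refine lt_of_lt_of_le ?_ hhB1
      calc γ * μ ≤ 1 / (4 * R) * μ := by gcongr
        _ < μ / (2 * R) := by
          rw [div_mul_eq_mul_div, one_mul, div_lt_div_iff₀ (by positivity) (by positivity)]
          nlinarith [mul_pos hμ hR0]
    have hG := net_moves N hD' (h := h) (β := γ) (Γ := γ * μ) (n := n) (B := B) hh
      (fun e => hl1.trans (hlmin e)) hγ0
      (by
        rw [hsq]
        have g1 : γ ^ 2 * μ ≤ γ * (1 / 12) * μ := by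
          have : γ ^ 2 ≤ γ * (1 / 12) := by nlinarith
          gcongr
        have g2 : γ ^ 4 * μ ≤ γ * (1 / 12) * μ := by
          have : γ ^ 4 ≤ γ * (1 / 12) := by
            have e1 : γ ^ 3 ≤ 1 / 12 := by
              calc γ ^ 3 ≤ (1 / 12) ^ 3 := by gcongr
                _ ≤ 1 / 12 := by norm_num
            calc γ ^ 4 = γ * γ ^ 3 := by ring
              _ ≤ γ * (1 / 12) := by gcongr
          gcongr
        nlinarith [mul_pos hγ0 hμ]) hn (by omega) (by omega) hΓT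
    rw [hsq] at hG
    have herr1 : errN n (h * (B - 1)) h γ (γ * μ) (γ ^ 4 * μ) (γ ^ 2 * μ) ≤ 87 * R * γ := by
      unfold errN
      exact herr0
    have herrnn : 0 ≤ errN n (h * (B - 1)) h γ (γ * μ) (γ ^ 4 * μ) (γ ^ 2 * μ) := by
      unfold errN
      have : 0 < h * ((B : ℝ) - 1) - γ * μ := by linarith
      positivity
    have hst := hider_strategy hT0 (by omega : 0 < B) (by omega : 2 ≤ n) herrnn hG hHV hw O
    have hlow := lower_arith (L := L) (K := K) (c := c) (x := x)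
      (err := errN n (h * (B - 1)) h γ (γ * μ) (γ ^ 4 * μ) (γ ^ 2 * μ)) hε hμ hh
      (by linarith : (1 : ℝ) ≤ R) (by linarith) hK1' hc0 hn0 (by linarith : (1 : ℝ) ≤ B) hBn1
      hc1 hc2 hx hx2 hV1 hV4 herrnn
      (by
        rw [div_le_iff₀ hR0]
        rw [div_le_iff₀ hε] at hR
        linarith)
      (by
        calc (L : ℝ) * K * errN n (h * (B - 1)) h γ (γ * μ) (γ ^ 4 * μ) (γ ^ 2 * μ)
            ≤ L * K * (87 * R * γ) := by gcongr
          _ ≤ L * K * (87 * R * (ε / (261 * R * (L * K)))) := by gcongr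
          _ = ε / 3 := by field_simp; norm_num)
      (by
        rw [le_div_iff₀ (by positivity)] at hl3
        linarith)
    obtain ⟨Ω, m1, P, H, hP, hH1, hH2, hH3⟩ := hst
    refine ⟨Ω, m1, P, H, hP, hH1, hH2, fun S hS0 hS => le_trans ?_ (hH3 S hS0 hS)⟩
    apply ENNReal.ofReal_le_ofReal
    rw [hMr]
    refine hlow.trans (le_of_eq ?_)
    ring

theorem Upper.mono {n : ℕ} {x x' : ℝ} (h : Upper n x) (hx : x ≤ x') : Upper n x' := by
  intro Q _ N O hC w hw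
  obtain ⟨Ω, m1, P, S, hP, hS0, hS1, hS2, hS3⟩ := h Q N O hC w hw
  refine ⟨Ω, m1, P, S, hP, hS0, hS1, hS2, fun H hH =>
    (hS3 H hH).trans (ENNReal.ofReal_le_ofReal ?_)⟩
  gcongr

theorem length_nonneg {Q : Type} [MetricSpace Q] (N : Network Q) : 0 ≤ N.length :=
  Finset.sum_nonneg fun e _ => (N.len_pos e).le

theorem Lower.mono {Q : Type} [MetricSpace Q] {N : Network Q} {x x' : ℝ} (h : Lower N x')
    (hx : x ≤ x') : Lower N x := by
  intro O w hw
  obtain ⟨Ω, m1, P, H, hP, hH1, hH2, hH3⟩ := h O w hw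
  refine ⟨Ω, m1, P, H, hP, hH1, hH2, fun S hS0 hS =>
    (ENNReal.ofReal_le_ofReal ?_).trans (hH3 S hS0 hS)⟩
  have := length_nonneg N
  gcongr

theorem length_pos {Q : Type} [MetricSpace Q] (N : Network Q) (z : Q) : 0 < N.length := by
  obtain ⟨e, s, hs, -⟩ := N.cover z
  exact Finset.sum_pos (fun e _ => N.len_pos e) ⟨e, Finset.mem_univ e⟩

/-- The two-sided bound for every `ε`. -/
theorem two_sided {ε : ℝ} (hε : 0 < ε) :
    ∃ δ > 0, ∀ (Q : Type) [MetricSpace Q] (N : Network Q),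
      (∀ x y : Q, dist x y ≤ δ * N.length) → 0 < N.length →
      ∃ h0 > 0, ∀ h : ℝ, 0 < h → h ≤ h0 → ∃ x : ℝ, 1 / 2 ≤ x ∧ x ≤ 2 ∧
        Upper (∑ e, ⌊N.len e / h⌋₊) (x + ε) ∧ Lower N (x - ε) := by
  obtain ⟨δ, hδ, H⟩ := two_sided_aux (ε := min ε 1) (lt_min hε one_pos) (min_le_right _ _)
  refine ⟨δ, hδ, fun Q _ N hD hμ => ?_⟩
  obtain ⟨h0, hh0, H'⟩ := H Q N hD hμ
  refine ⟨h0, hh0, fun h hh hle => ?_⟩
  obtain ⟨x, hx1, hx2, hU, hL⟩ := H' h hh hle
  exact ⟨x, hx1, hx2, hU.mono (by linarith [min_le_left ε 1]),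
    hL.mono (by linarith [min_le_left ε 1])⟩

end MPacf82c
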