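import Pool.Agent.Lib.MP_acf82c_lc.Defs

/-!
# Clovers exist

Model: `Q = Option (Fin n × Ioo (0:ℝ) 1)` with `none = O` and distances
`d none (i,s) = min s (1-s)`, `d (i,s) (i,t) = min |s-t| (1-|s-t|)`,
`d (i,s) (j,t) = min s (1-s) + min t (1-t)` for `i ≠ j`; for `n ≥ 1`. (Any other model is fine.)

Model used here: the separation quotient of `Fin n × [0,1]` with the pseudometric
`min (|s-t| + 2 [i ≠ j]) (r s + r t)`, `r s = min s (1-s)`.
-/

namespace MPacf82c

open Set MeasureTheory
open scoped NNReal ENNReal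

namespace CloverModel

/-- distance to the end points -/
noncomputable def r (s : ℝ) : ℝ := min s (1 - s)

lemma r_nonneg {s : ℝ} (hs : s ∈ Icc (0 : ℝ) 1) : 0 ≤ r s :=
  le_min hs.1 (by linarith [hs.2])

lemma r_pos {s : ℝ} (hs : s ∈ Ioo (0 : ℝ) 1) : 0 < r s :=
  lt_min hs.1 (by linarith [hs.2])

lemma r_le_half (s : ℝ) : r s ≤ 1 / 2 := by
  unfold r
  rcases le_total s (1 / 2) with h | h
  · exact (min_le_left _ _).trans h
  · exact (min_le_right _ _).trans (by linarith)

lemma r_zero : r 0 = 0 := by unfold r; norm_num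

lemma r_one : r 1 = 0 := by unfold r; norm_num

lemma r_lip (s t : ℝ) : r s ≤ r t + |s - t| := by
  unfold r
  have h1 := le_abs_self (s - t)
  have h2 := neg_abs_le (s - t)
  rcases le_total t (1 - t) with h | h
  · rw [min_eq_left h]
    exact (min_le_left _ _).trans (by linarith)
  · rw [min_eq_right h]
    exact (min_le_right _ _).trans (by linarith)

/-- the nearest end point -/
lemma exists_end {s : ℝ} (hs : s ∈ Icc (0 : ℝ) 1) : ∃ a : ℝ, (a = 0 ∨ a = 1) ∧ |s - a| = r s := by
  unfold r
  rcases le_total s (1 - s) with h | h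
  · exact ⟨0, Or.inl rfl, by rw [sub_zero, abs_of_nonneg hs.1, min_eq_left h]⟩
  · refine ⟨1, Or.inr rfl, ?_⟩
    rw [abs_of_nonpos (by linarith [hs.2]), min_eq_right h]
    ring

/-- the arcs before the identification of the end points -/
def Pre (n : ℕ) : Type := Fin n × Icc (0 : ℝ) 1

variable {n : ℕ}

open Classical in
/-- distance without passing the centre -/
noncomputable def A (z w : Pre n) : ℝ :=
  |(z.2 : ℝ) - (w.2 : ℝ)| + (if z.1 = w.1 then 0 else 2)

lemma A_nonneg (z w : Pre n) : 0 ≤ A z w := by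
  unfold A
  split_ifs <;> positivity

lemma A_self (z : Pre n) : A z z = 0 := by simp [A]

lemma A_comm (z w : Pre n) : A z w = A w z := by
  unfold A
  rw [abs_sub_comm]
  by_cases h : z.1 = w.1
  · rw [if_pos h, if_pos h.symm]
  · rw [if_neg h, if_neg (fun h' => h h'.symm)]

lemma A_triangle (x y z : Pre n) : A x z ≤ A x y + A y z := by
  unfold A
  have h := abs_sub_le (x.2 : ℝ) (y.2 : ℝ) (z.2 : ℝ)
  by_cases h1 : x.1 = y.1
  · by_cases h2 : y.1 = z.1
    · rw [if_pos h1, if_pos h2, if_pos (h1.trans h2)]; linarith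
    · rw [if_pos h1, if_neg h2, if_neg (fun h3 => h2 (h1.symm.trans h3))]; linarith
  · by_cases h2 : y.1 = z.1
    · rw [if_neg h1, if_pos h2, if_neg (fun h3 => h1 (h3.trans h2.symm))]; linarith
    · rw [if_neg h1, if_neg h2]
      split_ifs <;> linarith

lemma r_le_A (x y : Pre n) : r x.2 ≤ r y.2 + A x y := by
  have h := r_lip (x.2 : ℝ) (y.2 : ℝ)
  have h2 : |(x.2 : ℝ) - (y.2 : ℝ)| ≤ A x y := by
    unfold A
    split_ifs <;> linarith
  linarith

noncomputable instance : PseudoMetricSpace (Pre n) where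
  dist z w := min (A z w) (r z.2 + r w.2)
  dist_self z := by
    show min (A z z) _ = 0
    rw [A_self, min_eq_left]
    exact add_nonneg (r_nonneg z.2.2) (r_nonneg z.2.2)
  dist_comm z w := by
    show min (A z w) (r z.2 + r w.2) = min (A w z) (r w.2 + r z.2)
    rw [A_comm, add_comm]
  dist_triangle x y z := by
    show min (A x z) (r x.2 + r z.2) ≤ min (A x y) (r x.2 + r y.2) + min (A y z) (r y.2 + r z.2)
    have h1 := A_triangle x y z
    have h2 := r_le_A x y
    have h3 := r_le_A z y
    rw [A_comm z y] at h3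
    have hy := r_nonneg y.2.2
    rcases min_choice (A x y) (r x.2 + r y.2) with e1 | e1 <;>
      rcases min_choice (A y z) (r y.2 + r z.2) with e2 | e2 <;> rw [e1, e2]
    · exact (min_le_left _ _).trans h1
    · exact (min_le_right _ _).trans (by linarith)
    · exact (min_le_right _ _).trans (by linarith)
    · exact (min_le_right _ _).trans (by linarith)

lemma dist_def (z w : Pre n) : dist z w = min (A z w) (r z.2 + r w.2) := rfl

/-- the clover -/
abbrev Q (n : ℕ) : Type := SeparationQuotient (Pre n)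

/-- the parametrisations of the arcs -/
noncomputable def pt (e : Fin n) (s : ℝ) : Q n :=
  SeparationQuotient.mk ((e, projIcc 0 1 zero_le_one s) : Fin n × Icc (0 : ℝ) 1)

lemma dist_pt {e e' : Fin n} {s t : ℝ} (hs : s ∈ Icc (0 : ℝ) 1) (ht : t ∈ Icc (0 : ℝ) 1) :
    dist (pt e s) (pt e' t) = min (|s - t| + (if e = e' then 0 else 2)) (r s + r t) := by
  unfold pt
  rw [SeparationQuotient.dist_mk, dist_def]
  unfold A
  simp only [projIcc_of_mem zero_le_one hs, projIcc_of_mem zero_le_one ht]

lemma pt_end {e e' : Fin n} {a b : ℝ} (ha : a = 0 ∨ a = 1) (hb : b = 0 ∨ b = 1) :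
    pt e a = pt e' b := by
  have hI : ∀ {a : ℝ}, a = 0 ∨ a = 1 → a ∈ Icc (0 : ℝ) 1 ∧ r a = 0 := by
    rintro a (rfl | rfl)
    · exact ⟨by norm_num, r_zero⟩
    · exact ⟨by norm_num, r_one⟩
  rw [← dist_eq_zero, dist_pt (hI ha).1 (hI hb).1, (hI ha).2, (hI hb).2, add_zero]
  refine min_eq_right ?_
  split_ifs <;> positivity

lemma exists_pt (z : Q n) : ∃ e : Fin n, ∃ s ∈ Icc (0 : ℝ) 1, pt e s = z := by
  obtain ⟨z, rfl⟩ := SeparationQuotient.surjective_mk z
  refine ⟨z.1, z.2, z.2.2, ?_⟩
  unfold pt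
  rw [projIcc_val]
  rfl

/-- the clover as a network -/
noncomputable def net (n : ℕ) : Network (Q n) where
  Arc := Fin n
  fin := inferInstance
  len := fun _ => 1
  len_pos := fun _ => one_pos
  pt := pt
  cover := exists_pt
  simple := by
    intro e e' s s' hs hs' h
    have hs0 : s ∈ Icc (0 : ℝ) 1 := Ioo_subset_Icc_self hs
    rw [← dist_eq_zero, dist_pt hs0 hs'] at h
    have hr : 0 < r s + r s' := add_pos_of_pos_of_nonneg (r_pos hs) (r_nonneg hs')
    rcases min_choice (|s - s'| + (if e = e' then (0 : ℝ) else 2)) (r s + r s') with h1 | h1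
    · rw [h1] at h
      have h0 := abs_nonneg (s - s')
      by_cases he : e = e'
      · rw [if_pos he, add_zero] at h
        exact ⟨he, sub_eq_zero.1 (abs_eq_zero.1 h)⟩
      · rw [if_neg he] at h
        linarith
    · rw [h1] at h
      exact absurd h hr.ne'
  dist_le := by
    intro e s hs t ht
    rw [dist_pt hs ht, if_pos rfl, add_zero]
    exact min_le_left _ _
  walk := by
    intro x y
    obtain ⟨e, s, hs, rfl⟩ := exists_pt x
    obtain ⟨e', t, ht, rfl⟩ := exists_pt y
    rw [dist_pt hs ht]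
    by_cases h : e = e' ∧ |s - t| ≤ r s + r t
    · obtain ⟨rfl, h⟩ := h
      rw [if_pos rfl, add_zero, min_eq_left h, ← add_zero |s - t|]
      exact Walk.cons e s t hs ht _ 0 (Walk.nil _)
    · have hmin : min (|s - t| + (if e = e' then (0 : ℝ) else 2)) (r s + r t) = r s + r t := by
        refine min_eq_right ?_
        by_cases he : e = e'
        · rw [if_pos he, add_zero]
          by_contra hc
          exact h ⟨he, (not_le.1 hc).le⟩
        · rw [if_neg he]
          have h1 := r_le_half s
          have h2 := r_le_half t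
          have h3 := abs_nonneg (s - t)
          linarith
      rw [hmin]
      obtain ⟨a, ha, ha'⟩ := exists_end hs
      obtain ⟨b, hb, hb'⟩ := exists_end ht
      have hI : ∀ {a : ℝ}, a = 0 ∨ a = 1 → a ∈ Icc (0 : ℝ) 1 := by
        rintro a (rfl | rfl) <;> norm_num
      have h2 : Walk (fun _ : Fin n => (1 : ℝ)) pt (pt e a) (pt e' t) (|b - t| + 0) := by
        rw [pt_end (e := e) (e' := e') ha hb]
        exact Walk.cons e' b t (hI hb) ht _ 0 (Walk.nil _)
      have h3 := Walk.cons (len := fun _ : Fin n => (1 : ℝ)) (pt := pt) e s a hs (hI ha) _ _ h2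
      have e1 : |s - a| + (|b - t| + 0) = r s + r t := by
        rw [ha', abs_sub_comm b t, hb', add_zero]
      rw [e1] at h3
      exact h3

end CloverModel

theorem exists_clover (n : ℕ) (hn : 1 ≤ n) :
    ∃ (Q : Type) (_ : MetricSpace Q) (N : Network Q) (O : Q), IsClover N O n := by
  refine ⟨CloverModel.Q n, inferInstance, CloverModel.net n, CloverModel.pt ⟨0, hn⟩ 0, ?_⟩
  exact
    { card := Fintype.card_fin n
      len := fun _ => rfl
      left := fun _ => CloverModel.pt_end (Or.inl rfl) (Or.inl rfl)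
      right := fun _ => CloverModel.pt_end (Or.inr rfl) (Or.inl rfl) }

end MPacf82c
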