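import Pool.Agent.Lib.MP_acf82c_lc.NetBasic

/-!
# Topology of the clover

Outside `O` the clover is the disjoint union of its open arcs, which are open sets
(`isOpen_openArc`). A continuous path which avoids `O` on an interval stays in one open arc.
-/

namespace MPacf82c

open Set MeasureTheory
open scoped NNReal ENNReal

variable {Q : Type} [MetricSpace Q] {N : Network Q} {O : Q} {n : ℕ}

theorem clover_cover (hC : IsClover N O n) (z : Q) : z = O ∨ ∃ e, z ∈ N.openArc e := by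
  obtain ⟨e, s, hs, hz⟩ := N.cover z
  rcases eq_or_lt_of_le hs.1 with h0 | h0
  · left
    rw [← hz, ← h0, hC.left e]
  · rcases eq_or_lt_of_le hs.2 with h1 | h1
    · left
      rw [← hz, h1, hC.len e, hC.right e]
    · right
      exact ⟨e, s, ⟨h0, h1⟩, hz⟩

theorem clover_O_notMem (hC : IsClover N O n) (e : N.Arc) : O ∉ N.openArc e := by
  rintro ⟨s, hs, hsO⟩
  have h0 : (0 : ℝ) ∈ Icc 0 (N.len e) := ⟨le_rfl, (N.len_pos e).le⟩
  have h1 := (N.simple e e s 0 hs h0 (by rw [hsO, hC.left e])).2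
  exact absurd hs.1 (by rw [h1]; exact lt_irrefl _)

/-- On a closed time interval a path either passes through `O` or stays in one open arc. -/
theorem clover_stay_or_star (hC : IsClover N O n) {H : ℝ≥0 → Q} (hH : Continuous H)
    {s t : ℝ≥0} (hst : s ≤ t) :
    (∃ τ ∈ Icc s t, H τ = O) ∨ ∃ e, ∀ τ ∈ Icc s t, H τ ∈ N.openArc e := by
  by_cases hO : ∃ τ ∈ Icc s t, H τ = O
  · exact Or.inl hO
  right
  push Not at hO
  have hs : s ∈ Icc s t := ⟨le_rfl, hst⟩
  rcases clover_cover hC (H s) with h | ⟨e, he⟩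
  · exact absurd h (hO s hs)
  refine ⟨e, ?_⟩
  have hpre : IsPreconnected (H '' Icc s t) := isPreconnected_Icc.image H hH.continuousOn
  have hu : IsOpen (N.openArc e) := isOpen_openArc N e
  have hv : IsOpen (⋃ e' : {e' : N.Arc // e' ≠ e}, N.openArc e'.1) :=
    isOpen_iUnion (fun e' => isOpen_openArc N e'.1)
  have hd : Disjoint (N.openArc e) (⋃ e' : {e' : N.Arc // e' ≠ e}, N.openArc e'.1) := by
    rw [Set.disjoint_left]
    intro z hz hz'
    rw [Set.mem_iUnion] at hz'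
    obtain ⟨e', he'⟩ := hz'
    exact e'.2 (openArc_unique N he' hz)
  have hsub : H '' Icc s t ⊆ N.openArc e ∪ ⋃ e' : {e' : N.Arc // e' ≠ e}, N.openArc e'.1 := by
    rintro _ ⟨τ, hτ, rfl⟩
    rcases clover_cover hC (H τ) with h | ⟨e', he'⟩
    · exact absurd h (hO τ hτ)
    · by_cases hee : e' = e
      · left
        rw [← hee]
        exact he'
      · right
        rw [Set.mem_iUnion]
        exact ⟨⟨e', hee⟩, he'⟩
  have hfin := hpre.subset_left_of_subset_union hu hv hd hsub ⟨H s, ⟨s, hs, rfl⟩, he⟩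
  intro τ hτ
  exact hfin ⟨τ, hτ, rfl⟩

/-- The coordinate of a path staying in one open arc is continuous. -/
theorem clover_coord (hC : IsClover N O n) {H : ℝ≥0 → Q} (hH : Continuous H) {s t : ℝ≥0}
    {e : N.Arc} (h : ∀ τ ∈ Icc s t, H τ ∈ N.openArc e) :
    ∃ y : ℝ≥0 → ℝ, ContinuousOn y (Icc s t) ∧
      ∀ τ ∈ Icc s t, y τ ∈ Ioo (0 : ℝ) 1 ∧ H τ = N.pt e (y τ) := by
  classical
  have hex : ∀ τ, ∃ a : ℝ, τ ∈ Icc s t → a ∈ Ioo (0 : ℝ) 1 ∧ H τ = N.pt e a := by
    intro τ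
    by_cases hτ : τ ∈ Icc s t
    · obtain ⟨a, ha, hpa⟩ := h τ hτ
      rw [hC.len e] at ha
      exact ⟨a, fun _ => ⟨ha, hpa.symm⟩⟩
    · exact ⟨0, fun h' => absurd h' hτ⟩
  choose y hy using hex
  refine ⟨y, ?_, hy⟩
  rw [Metric.continuousOn_iff]
  intro τ₀ hτ₀ ε hε
  obtain ⟨hy0, hH0⟩ := hy τ₀ hτ₀
  set m0 := min (y τ₀) (1 - y τ₀) with hm0
  have hm0p : 0 < m0 := lt_min hy0.1 (by linarith [hy0.2])
  obtain ⟨δ, hδ, hδ'⟩ := Metric.continuous_iff.1 hH τ₀ (min ε m0) (lt_min hε hm0p)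
  refine ⟨δ, hδ, ?_⟩
  intro τ hτ hdist
  obtain ⟨hy1, hH1⟩ := hy τ hτ
  have h1 := hδ' τ hdist
  rw [hH0, hH1] at h1
  have h2 := dist_same_arc N e (s := y τ) (t := y τ₀)
    (by rw [hC.len e]; exact ⟨hy1.1.le, hy1.2.le⟩)
    (by rw [hC.len e]; exact ⟨hy0.1.le, hy0.2.le⟩)
  rw [hC.len e] at h2
  have h3 := lt_of_le_of_lt h2 h1
  have h4 : 0 ≤ min (y τ) (1 - y τ) := le_min hy1.1.le (by linarith [hy1.2])
  rcases min_lt_iff.1 h3 with h5 | h5
  · rw [Real.dist_eq]
    exact lt_of_lt_of_le h5 (min_le_left _ _)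
  · exfalso
    have h6 : min ε m0 ≤ m0 := min_le_right _ _
    linarith

/-- All distances in a clover are at most `1`. -/
theorem clover_dist_le (hC : IsClover N O n) (x y : Q) : dist x y ≤ 1 := by
  have key : ∀ z : Q, dist z O ≤ 1 / 2 := by
    intro z
    obtain ⟨e, s, hs, rfl⟩ := N.cover z
    have h0 : (0 : ℝ) ∈ Icc 0 (N.len e) := ⟨le_rfl, (N.len_pos e).le⟩
    have h1 : (1 : ℝ) ∈ Icc 0 (N.len e) := by
      rw [hC.len e]; exact ⟨zero_le_one, le_rfl⟩
    have a0 := N.dist_le e s hs 0 h0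
    have a1 := N.dist_le e s hs 1 h1
    rw [hC.left e, sub_zero, abs_of_nonneg hs.1] at a0
    have hs1 : s ≤ 1 := by rw [← hC.len e]; exact hs.2
    rw [hC.right e, abs_of_nonpos (by linarith)] at a1
    linarith
  have h1 := key x
  have h2 := key y
  have h3 := dist_triangle_right x y O
  linarith

theorem clover_length (hC : IsClover N O n) : N.length = n := by
  unfold Network.length
  rw [Finset.sum_congr rfl (fun e _ => hC.len e), Finset.sum_const, Finset.card_univ, hC.card]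
  simp

end MPacf82c
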