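import Pool.Agent.Lib.MP_acf82c_lc.Defs

/-!
# Weak duality

The capture time of `S ω` and `H ω'` is jointly measurable: for continuous paths
`{T ≤ t} = {∀ k, ∃ rational s ≤ t with dist (S s) (H s) < 1/k}` up to compactness of `[0, t]`
(careful with the right end point `t`: use rationals in `[0, t]` together with `t` itself), and
`(ω, ω') ↦ dist (S ω s) (H ω' s)` is measurable if the ranges are separable; every network is
compact, hence second countable: use `cover`, `dist_le` (the network is a finite union of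
Lipschitz images of intervals). Alternatively prove `ω ↦ captureTime` measurable on the product
through `Metric.infDist`-free countable descriptions. Then Tonelli (`lintegral_lintegral_swap`).
-/

namespace MPacf82c

open Set MeasureTheory
open scoped NNReal ENNReal

variable {Q : Type} [MetricSpace Q]

theorem network_compact (N : Network Q) : CompactSpace Q := by
  classical
  rw [← isCompact_univ_iff]
  have h1 : (Set.univ : Set Q) = ⋃ e : N.Arc, N.pt e '' Icc 0 (N.len e) := by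
    refine (Set.eq_univ_of_forall fun z => ?_).symm
    obtain ⟨e, s, hs, hz⟩ := N.cover z
    exact Set.mem_iUnion.2 ⟨e, s, hs, hz⟩
  rw [h1]
  refine isCompact_iUnion fun e => isCompact_Icc.image_of_continuousOn ?_
  have h2 : LipschitzOnWith 1 (N.pt e) (Icc 0 (N.len e)) := by
    refine LipschitzOnWith.of_dist_le_mul fun s hs t ht => ?_
    rw [NNReal.coe_one, one_mul, Real.dist_eq]
    exact N.dist_le e s hs t ht
  exact h2.continuousOn

private instance WeakDuality_ne (q : ℝ≥0) : Nonempty (Icc (0 : ℝ≥0) q) :=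
  ⟨⟨0, le_rfl, zero_le⟩⟩

/-- A zero in `[0, q]` of a continuous function is seen on a dense sequence. -/
private theorem WeakDuality_zero {d : ℝ≥0 → ℝ} (hd : Continuous d) (hd0 : ∀ s, 0 ≤ d s) (q : ℝ≥0) :
    (∃ s ≤ q, d s = 0) ↔
      ∀ k : ℕ, ∃ i : ℕ, d (TopologicalSpace.denseSeq (Icc (0 : ℝ≥0) q) i) < 1 / ((k : ℝ) + 1) := by
  have hd' : Continuous fun x : Icc (0 : ℝ≥0) q => d x := hd.comp continuous_subtype_val
  constructor
  · rintro ⟨s, hs, h0⟩ k
    have ho : IsOpen {x : Icc (0 : ℝ≥0) q | d x < 1 / ((k : ℝ) + 1)} :=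
      isOpen_lt hd' continuous_const
    have hne : {x : Icc (0 : ℝ≥0) q | d x < 1 / ((k : ℝ) + 1)}.Nonempty := by
      refine ⟨⟨s, zero_le, hs⟩, ?_⟩
      change d s < _
      rw [h0]
      positivity
    obtain ⟨i, hi⟩ := (TopologicalSpace.denseRange_denseSeq (Icc (0 : ℝ≥0) q)).exists_mem_open
      ho hne
    exact ⟨i, hi⟩
  · intro h
    obtain ⟨x0, -, hx0⟩ := isCompact_univ.exists_isMinOn
      (Set.univ_nonempty (α := Icc (0 : ℝ≥0) q)) hd'.continuousOn
    refine ⟨x0, x0.2.2, le_antisymm ?_ (hd0 _)⟩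
    refine le_of_forall_pos_lt_add fun ε hε => ?_
    obtain ⟨k, hk⟩ := exists_nat_one_div_lt hε
    obtain ⟨i, hi⟩ := h k
    have h1 : d x0 ≤ d (TopologicalSpace.denseSeq (Icc (0 : ℝ≥0) q) i) := hx0 (Set.mem_univ _)
    linarith

/-- The capture time is jointly measurable. -/
private theorem WeakDuality_meas [SecondCountableTopology Q] {Ω Ω' : Type} [MeasurableSpace Ω]
    [MeasurableSpace Ω'] (S : Ω → ℝ≥0 → Q) (H : Ω' → ℝ≥0 → Q) (hS : ∀ ω, Continuous (S ω))
    (hH : ∀ ω, Continuous (H ω)) (hSm : ∀ t, @Measurable Ω Q _ (borel Q) fun ω => S ω t)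
    (hHm : ∀ t, @Measurable Ω' Q _ (borel Q) fun ω => H ω t) :
    Measurable fun z : Ω × Ω' => captureTime (S z.1) (H z.2) := by
  let mQ : MeasurableSpace Q := borel Q
  have hbor : BorelSpace Q := ⟨rfl⟩
  have hdm : ∀ t, Measurable fun z : Ω × Ω' => dist (S z.1 t) (H z.2 t) := fun t =>
    ((hSm t).comp measurable_fst).dist ((hHm t).comp measurable_snd)
  refine measurable_of_Iio fun a => ?_
  have h1 : (fun z : Ω × Ω' => captureTime (S z.1) (H z.2)) ⁻¹' Iio a =
      ⋃ (q : ℚ≥0) (_ : ((q : ℝ≥0) : ℝ≥0∞) < a), ⋂ k : ℕ, ⋃ i : ℕ, {z : Ω × Ω' |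
        dist (S z.1 (TopologicalSpace.denseSeq (Icc (0 : ℝ≥0) (q : ℝ≥0)) i))
          (H z.2 (TopologicalSpace.denseSeq (Icc (0 : ℝ≥0) (q : ℝ≥0)) i)) < 1 / ((k : ℝ) + 1)} := by
    ext z
    have hc : Continuous fun t => dist (S z.1 t) (H z.2 t) := (hS _).dist (hH _)
    simp only [Set.mem_preimage, Set.mem_Iio, Set.mem_iUnion, Set.mem_iInter, Set.mem_ofPred_eq]
    constructor
    · intro h
      rw [captureTime, iInf_lt_iff] at h
      obtain ⟨s, h⟩ := h
      rw [iInf_lt_iff] at h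
      obtain ⟨h2, h3⟩ := h
      obtain ⟨b, hb1, hb2⟩ := ENNReal.lt_iff_exists_nnreal_btwn.1 h3
      obtain ⟨q, hq1, hq2⟩ := exists_rat_btwn (show (s : ℝ) < b by exact_mod_cast hb1)
      have hq0 : (0 : ℚ) ≤ q := by
        have : (0 : ℝ) < q := lt_of_le_of_lt s.2 hq1
        exact_mod_cast this.le
      let q' : ℚ≥0 := ⟨q, hq0⟩
      have hcast : ((q' : ℝ≥0) : ℝ) = (q : ℝ) := by
        rfl
      refine ⟨q', ?_, ?_⟩
      · refine lt_trans ?_ hb2
        rw [ENNReal.coe_lt_coe, ← NNReal.coe_lt_coe, hcast]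
        exact hq2
      · refine (WeakDuality_zero hc (fun _ => dist_nonneg) _).1 ⟨s, ?_, ?_⟩
        · rw [← NNReal.coe_le_coe, hcast]
          exact hq1.le
        · rw [h2, dist_self]
    · rintro ⟨q, hq, h⟩
      obtain ⟨s, hs, h0⟩ := (WeakDuality_zero hc (fun _ => dist_nonneg) _).2 h
      refine lt_of_le_of_lt ?_ hq
      calc captureTime (S z.1) (H z.2) ≤ (s : ℝ≥0∞) :=
            iInf₂_le (f := fun (t : ℝ≥0) (_ : S z.1 t = H z.2 t) => (t : ℝ≥0∞)) s
              (dist_eq_zero.1 h0)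
        _ ≤ _ := ENNReal.coe_le_coe.2 hs
  rw [h1]
  refine MeasurableSet.iUnion fun q => MeasurableSet.iUnion fun _ => MeasurableSet.iInter fun k =>
    MeasurableSet.iUnion fun i => ?_
  exact measurableSet_lt (hdm _) measurable_const

theorem weak_duality (N : Network Q) {w : ℝ≥0} {O : Q} {v v' : ℝ≥0∞}
    (h : HiderGuarantees w O v) (h' : SearcherGuarantees w O v') : v ≤ v' := by
  have hcomp := network_compact N
  obtain ⟨Ω', mΩ', P', H, hP', hHl, hHm, hH⟩ := h
  obtain ⟨Ω, mΩ, P, S, hP, hS0, hSl, hSm, hS⟩ := h'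
  have hmeas := WeakDuality_meas S H (fun ω => (hSl ω).continuous) (fun ω => (hHl ω).continuous)
    hSm hHm
  calc v = ∫⁻ _ω, v ∂P := by rw [lintegral_const, measure_univ, mul_one]
    _ ≤ ∫⁻ ω, ∫⁻ ω', captureTime (S ω) (H ω') ∂P' ∂P :=
        lintegral_mono fun ω => hH (S ω) (hS0 ω) (hSl ω)
    _ = ∫⁻ ω', ∫⁻ ω, captureTime (S ω) (H ω') ∂P ∂P' :=
        lintegral_lintegral_swap (f := fun ω ω' => captureTime (S ω) (H ω')) hmeas.aemeasurable
    _ ≤ ∫⁻ _ω', v' ∂P' := lintegral_mono fun ω' => hS (H ω') (hHl ω')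
    _ = v' := by rw [lintegral_const, measure_univ, mul_one]

end MPacf82c
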