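import Pool.Agent.Lib.MP_acf82c_lc.Notions

/-!
# The interface between the network and the block game
-/

namespace MPacf82c

open Set MeasureTheory

/-- `n` positions `x i` in `Q`, random moves `mv i j` of duration `T0` from `x i` to `x j`, such
that for every searcher path and every block at most `B` positions are visited and the moves are
detected with probability at most `1 - (visited)/B` up to an error of average `err`. -/
def GoodMoves (Q : Type) [MetricSpace Q] (n B : ℕ) (T0 err : ℝ) : Prop :=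
  ∃ (x : Fin n → Q) (P : Fin n → Fin n → Measure (ℕ × ℝ))
    (mv : Fin n → Fin n → ℕ × ℝ → ℝ → Q),
    (∀ i j, IsProbabilityMeasure (P i j)) ∧ (∀ i j ω, LipschitzWith 1 (mv i j ω)) ∧
    (∀ i j ω, ∀ t ≤ 0, mv i j ω t = x i) ∧ (∀ i j ω t, T0 ≤ t → mv i j ω t = x j) ∧
    (∀ i j t, @Measurable (ℕ × ℝ) Q _ (borel Q) fun ω => mv i j ω t) ∧
    (∀ i ω t, mv i i ω t = x i) ∧
    ∀ S : ℝ → Q, LipschitzWith 1 S → ∀ t0 : ℝ, ∃ L : Finset (Fin n), L.card ≤ B ∧
      (∀ i, i ∈ L ↔ ∃ t ∈ Icc t0 (t0 + T0), S t = x i) ∧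
      ∃ z : Fin n → Fin n → ℝ, (∀ i j, 0 ≤ z i j) ∧
        ∑ i, ∑ j ∈ Finset.univ.filter (fun j => j ≠ i), z i j ≤ (n * (n - 1) : ℝ) * err ∧
        ∀ i j, i ≠ j →
          (P i j {ω | ∃ t ∈ Icc t0 (t0 + T0), S t = mv i j ω (t - t0)}).toReal ≤
            1 - (L.card : ℝ) / B + z i j + (if i ∈ L then 1 else 0) +
              (if j ∈ L then 1 else 0)

/-- The error of the moves. -/
noncomputable def errN (n : ℕ) (T0 h β Γ D Rt : ℝ) : ℝ :=
  (Γ + 3 * h + D + Rt / β) / (T0 - Γ) + (Rt + 2 * D) / Γ +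
    (β * T0 + 8 * D * T0 / (n * h)) / (T0 - Γ)

end MPacf82c
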