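import Mathlib

/-!
# Real analysis for the meeting measure
-/

namespace MPacf82c

open Set MeasureTheory Filter Topology

/-- Fundamental theorem of calculus for Lipschitz functions. (Mathlib has absolutely continuous
functions: `MeasureTheory/Integral/IntervalIntegral/AbsolutelyContinuousFun.lean`.) -/
theorem integral_deriv_lip {f : ℝ → ℝ} (hf : LipschitzWith 1 f) {t0 t1 : ℝ} (h : t0 ≤ t1) :
    ∫ t in Icc t0 t1, deriv f t = f t1 - f t0 := by
  rw [integral_Icc_eq_integral_Ioc, ← intervalIntegral.integral_of_le h]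
  exact (hf.lipschitzOnWith (s := uIcc t0 t1)).absolutelyContinuousOnInterval.integral_deriv_eq_sub

/-- The derivative vanishes almost everywhere on a set with countable image. (A point of
`f ⁻¹' {c}` is isolated in it, which happens countably often, or it is an accumulation point and
then the derivative, if it exists, is zero.) -/
theorem deriv_zero_of_countable_image {f : ℝ → ℝ} (hf : LipschitzWith 1 f) {Z : Set ℝ}
    (hZ : (f '' Z).Countable) : ∀ᵐ t, t ∈ Z → deriv f t = 0 := by
  have _ := hf
  have hIc : (⋃ c ∈ f '' Z, {x ∈ f ⁻¹' {c} | 𝓝[f ⁻¹' {c} ∩ Ioi x] x = ⊥}).Countable :=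
    hZ.biUnion fun c _ => countable_setOfPred_isolated_right_within
  have h0 := hIc.measure_zero (volume : Measure ℝ)
  filter_upwards [compl_mem_ae_iff.mpr h0] with t ht htZ
  have hne : (𝓝[f ⁻¹' {f t} ∩ Ioi t] t).NeBot := by
    rw [neBot_iff]
    intro hbot
    exact ht (mem_biUnion (mem_image_of_mem f htZ) ⟨rfl, hbot⟩)
  by_cases hd : DifferentiableAt ℝ f t
  · have h1 := hasDerivAt_iff_tendsto_slope.mp hd.hasDerivAt
    have h2 : Tendsto (slope f t) (𝓝[f ⁻¹' {f t} ∩ Ioi t] t) (𝓝 (deriv f t)) :=
      h1.mono_left (nhdsWithin_mono _ (fun x hx => ne_of_gt hx.2))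
    have h3 : Tendsto (slope f t) (𝓝[f ⁻¹' {f t} ∩ Ioi t] t) (𝓝 0) := by
      refine tendsto_const_nhds.congr' ?_
      filter_upwards [self_mem_nhdsWithin] with x hx
      have : f x = f t := hx.1
      simp [slope_def_field, this]
    exact tendsto_nhds_unique h2 h3
  · exact deriv_zero_of_not_differentiableAt hd

/-- Measure of the image of a set where the derivative is known, for a Lipschitz function. -/
theorem image_measure_le {f : ℝ → ℝ} (hf : LipschitzWith 1 f) {F : ℝ} (hF : 0 < F)
    {U : Set ℝ} (hU : MeasurableSet U) (hb : volume U ≠ ⊤)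
    (hd : ∀ᵐ t, t ∈ U → |deriv f t| ≤ F) :
    (volume ((fun t => t + f t / F) '' U)).toReal ≤ ∫ t in U, (1 + deriv f t / F) := by
  set g : ℝ → ℝ := fun t => t + f t / F with hg
  -- `g` is Lipschitz
  have hK : LipschitzWith (Real.toNNReal (1 + 1 / F)) g := by
    refine LipschitzWith.of_dist_le' fun x y => ?_
    have h1 : |f x - f y| ≤ |x - y| := by
      have := hf.dist_le_mul x y
      simpa [Real.dist_eq] using this
    rw [Real.dist_eq, Real.dist_eq]
    have h2 : g x - g y = (x - y) + (f x - f y) / F := by simp only [hg]; ring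
    rw [h2]
    calc |x - y + (f x - f y) / F| ≤ |x - y| + |(f x - f y) / F| := abs_add_le _ _
      _ = |x - y| + |f x - f y| / F := by rw [abs_div, abs_of_pos hF]
      _ ≤ |x - y| + |x - y| / F := by gcongr
      _ = (1 + 1 / F) * |x - y| := by ring
  have hDm : MeasurableSet {t | DifferentiableAt ℝ f t} := measurableSet_of_differentiableAt ℝ f
  have hDn : volume {t | DifferentiableAt ℝ f t}ᶜ = 0 := hf.ae_differentiableAt_of_real
  have hN : volume (g '' (U \ {t | DifferentiableAt ℝ f t})) = 0 := by
    have h1 := hK.hausdorffMeasure_image_le (d := 1) zero_le_one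
      (U \ {t | DifferentiableAt ℝ f t})
    rw [hausdorffMeasure_real] at h1
    have h2 : volume (U \ {t | DifferentiableAt ℝ f t}) = 0 :=
      measure_mono_null (fun x hx => hx.2) hDn
    rw [h2, mul_zero] at h1
    exact le_antisymm h1 bot_le
  have h1 : volume (g '' U) ≤ volume (g '' (U ∩ {t | DifferentiableAt ℝ f t})) := by
    calc volume (g '' U) = volume (g '' (U ∩ {t | DifferentiableAt ℝ f t}) ∪
          g '' (U \ {t | DifferentiableAt ℝ f t})) := by
          rw [← image_union, inter_union_sdiff]
      _ ≤ _ := measure_union_le _ _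
      _ = _ := by rw [hN, add_zero]
  have h2 : volume (g '' (U ∩ {t | DifferentiableAt ℝ f t})) ≤
      ∫⁻ t in U ∩ {t | DifferentiableAt ℝ f t}, ENNReal.ofReal |1 + deriv f t / F| := by
    have key := addHaar_image_le_lintegral_abs_det_fderiv volume (hU.inter hDm) (f := g)
      (f' := fun t => ContinuousLinearMap.toSpanSingleton ℝ (1 + deriv f t / F)) (by
        intro x hx
        have hx2 : DifferentiableAt ℝ f x := hx.2
        have h3 : HasDerivAt g (1 + deriv f x / F) x :=
          (hasDerivAt_id x).add (hx2.hasDerivAt.div_const F)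
        exact h3.hasFDerivAt.hasFDerivWithinAt)
    simpa using key
  have h3 : ∫⁻ t in U ∩ {t | DifferentiableAt ℝ f t}, ENNReal.ofReal |1 + deriv f t / F| ≤
      ∫⁻ t in U, ENNReal.ofReal |1 + deriv f t / F| := lintegral_mono_set inter_subset_left
  have hpos : ∀ᵐ t ∂(volume.restrict U), 0 ≤ 1 + deriv f t / F := by
    rw [ae_restrict_iff' hU]
    filter_upwards [hd] with t ht htU
    have h4 := ht htU
    have h5 : -1 ≤ deriv f t / F := by
      rw [le_div_iff₀ hF]
      have := neg_le_of_abs_le h4
      linarith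
    linarith
  have hint : Integrable (fun t => 1 + deriv f t / F) (volume.restrict U) := by
    refine Measure.integrableOn_of_bounded (M := 2) hb ?_ ?_
    · exact (measurable_const.add ((measurable_deriv f).div_const F)).aestronglyMeasurable
    · rw [ae_restrict_iff' hU]
      filter_upwards [hd] with t ht htU
      have h4 := ht htU
      have h5 : |deriv f t / F| ≤ 1 := by
        rw [abs_div, abs_of_pos hF]
        exact (div_le_one hF).mpr h4
      calc ‖1 + deriv f t / F‖ ≤ |(1 : ℝ)| + |deriv f t / F| := abs_add_le _ _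
        _ ≤ 1 + 1 := by rw [abs_one]; gcongr
        _ = 2 := by norm_num
  have h4 : ∫⁻ t in U, ENNReal.ofReal |1 + deriv f t / F| =
      ENNReal.ofReal (∫ t in U, (1 + deriv f t / F)) := by
    rw [ofReal_integral_eq_lintegral_ofReal hint hpos]
    refine lintegral_congr_ae ?_
    filter_upwards [hpos] with t ht
    rw [abs_of_nonneg ht]
  refine ENNReal.toReal_le_of_le_ofReal (integral_nonneg_of_ae hpos) ?_
  calc volume (g '' U) ≤ _ := h1
    _ ≤ _ := h2
    _ ≤ _ := h3
    _ = _ := h4

end MPacf82c
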