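import Pool.Agent.Lib.MP_acf82c_lc.NetBasic

/-!
# Travelling along a directed path at unit speed

Induction on `DirPath`. In the last property, `s` is determined by the position: at a node by the
node (`u`), inside the arc `e` (traversed once) by `s = c e - (ψ-value)/|F e|`, where the
`ψ`-value at `pt e x` is `φ (pt e 0) - F e * x`. (`ψ` decreases at the rate `|F e|` along the
route.) The sign condition `hsign` says that `F e > 0` on arcs traversed forwards and `F e < 0`
on arcs traversed backwards; it follows from `hF` and `DirPath`.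
-/

namespace MPacf82c

open Set MeasureTheory

namespace RouteReal

variable {Q : Type} [MetricSpace Q] (N : Network Q)

/-- Gluing of two `1`-Lipschitz maps. -/
theorem glue {g h : ℝ → Q} (hg : LipschitzWith 1 g) (hh : LipschitzWith 1 h) (p : ℝ)
    (hp : g p = h p) : LipschitzWith 1 (fun s => if s ≤ p then g s else h s) := by
  have key : ∀ s t : ℝ, s ≤ t →
      dist (if s ≤ p then g s else h s) (if t ≤ p then g t else h t) ≤ t - s := by
    intro s t hst
    have e1 : ∀ x y : ℝ, dist (g x) (g y) ≤ |x - y| := fun x y => by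
      have := hg.dist_le_mul x y
      rwa [Real.dist_eq, NNReal.coe_one, one_mul] at this
    have e2 : ∀ x y : ℝ, dist (h x) (h y) ≤ |x - y| := fun x y => by
      have := hh.dist_le_mul x y
      rwa [Real.dist_eq, NNReal.coe_one, one_mul] at this
    by_cases h1 : s ≤ p
    · by_cases h2 : t ≤ p
      · rw [if_pos h1, if_pos h2]
        have := e1 s t
        rw [abs_of_nonpos (by linarith)] at this
        linarith
      · rw [if_pos h1, if_neg h2]
        push Not at h2
        have a1 := e1 s p
        have a2 := e2 p t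
        rw [abs_of_nonpos (by linarith)] at a1 a2
        calc dist (g s) (h t) ≤ dist (g s) (g p) + dist (g p) (h t) := dist_triangle _ _ _
          _ = dist (g s) (g p) + dist (h p) (h t) := by rw [hp]
          _ ≤ t - s := by linarith
    · have h2 : ¬ t ≤ p := by
        push Not at h1 ⊢
        linarith
      rw [if_neg h1, if_neg h2]
      have := e2 s t
      rw [abs_of_nonpos (by linarith)] at this
      linarith
  refine LipschitzWith.of_dist_le_mul ?_
  intro s t
  rw [NNReal.coe_one, one_mul, Real.dist_eq]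
  rcases le_total s t with hst | hst
  · have := key s t hst
    rw [abs_of_nonpos (by linarith)]
    linarith
  · have := key t s hst
    rw [dist_comm, abs_of_nonneg (by linarith)]
    linarith

/-- The arc traversed forwards, constant outside of the parameter interval. -/
noncomputable def gam (e : N.Arc) (s : ℝ) : Q := N.pt e (max 0 (min s (N.len e)))

theorem clamp_mem (e : N.Arc) (s : ℝ) : max 0 (min s (N.len e)) ∈ Icc 0 (N.len e) :=
  ⟨le_max_left _ _, max_le (N.len_pos e).le (min_le_right _ _)⟩

theorem gam_lip (e : N.Arc) : LipschitzWith 1 (gam N e) := by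
  refine LipschitzWith.of_dist_le_mul ?_
  intro s t
  rw [NNReal.coe_one, one_mul, Real.dist_eq]
  refine (N.dist_le e _ (clamp_mem N e s) _ (clamp_mem N e t)).trans ?_
  have h1 := abs_max_sub_max_le_abs (min s (N.len e)) (min t (N.len e)) 0
  rw [max_comm _ (0 : ℝ), max_comm _ (0 : ℝ)] at h1
  refine h1.trans ?_
  have h2 := abs_min_sub_min_le_max s (N.len e) t (N.len e)
  refine h2.trans ?_
  simp

theorem gam_rev_lip (e : N.Arc) : LipschitzWith 1 (fun s => gam N e (N.len e - s)) := by
  refine LipschitzWith.of_dist_le_mul ?_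
  intro s t
  have := (gam_lip N e).dist_le_mul (N.len e - s) (N.len e - t)
  refine this.trans ?_
  rw [NNReal.coe_one, one_mul, one_mul, Real.dist_eq, Real.dist_eq]
  rw [show N.len e - s - (N.len e - t) = -(s - t) by ring, abs_neg]

theorem gam_of_mem (e : N.Arc) {s : ℝ} (h0 : 0 ≤ s) (h1 : s ≤ N.len e) :
    gam N e s = N.pt e s := by
  unfold gam
  rw [min_eq_left h1, max_eq_right h0]

theorem gam_of_nonpos (e : N.Arc) {s : ℝ} (h0 : s ≤ 0) : gam N e s = N.pt e 0 := by
  unfold gam
  rw [min_eq_left (h0.trans (N.len_pos e).le), max_eq_left h0]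

theorem gam_of_ge (e : N.Arc) {s : ℝ} (h1 : N.len e ≤ s) : gam N e s = N.pt e (N.len e) := by
  unfold gam
  rw [min_eq_right h1, max_eq_right (N.len_pos e).le]

/-- Along a directed path all arcs have lower end points than the initial point. -/
theorem arcs_low {V E : Type} {t h : E → V} {φ : V → ℝ} {a b : V} {l : List (E × Bool)}
    (hl : DirPath t h φ a b l) : ∀ e ∈ l.map Prod.fst, φ (t e) ≤ φ a ∧ φ (h e) ≤ φ a := by
  induction hl with
  | nil v => simp
  | fwd e b l hφ hl ih =>
    intro e' he'
    rw [List.map_cons, List.mem_cons] at he'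
    rcases he' with rfl | he'
    · exact ⟨le_rfl, hφ.le⟩
    · exact ⟨(ih e' he').1.trans hφ.le, (ih e' he').2.trans hφ.le⟩
  | bwd e b l hφ hl ih =>
    intro e' he'
    rw [List.map_cons, List.mem_cons] at he'
    rcases he' with rfl | he'
    · exact ⟨hφ.le, le_rfl⟩
    · exact ⟨(ih e' he').1.trans hφ.le, (ih e' he').2.trans hφ.le⟩

/-- The statement proved by induction. -/
def Good (φ : Q → ℝ) (F : N.Arc → ℝ) (a b : Q) (l : List (N.Arc × Bool)) : Prop :=
  ∃ (r : ℝ → Q), LipschitzWith 1 r ∧ (∀ s ≤ 0, r s = a) ∧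
    (∀ s, (l.map fun p => N.len p.1).sum ≤ s → r s = b) ∧
    ∃ (c : N.Arc → ℝ) (u : Q → ℝ), ∀ s ∈ Icc 0 (l.map fun p => N.len p.1).sum,
      (r s ∈ N.nodes ∧ s = u (r s) ∧ φ (r s) ≤ φ a) ∨
      ∃ e ∈ l.map Prod.fst, ∃ x ∈ Ioo 0 (N.len e), r s = N.pt e x ∧
        s = c e - (φ (N.pt e 0) - F e * x) / |F e|

/-- The inductive step, for an abstract first piece `g` of the route. -/
theorem step (φ : Q → ℝ) (F : N.Arc → ℝ) (a a' b : Q) (l : List (N.Arc × Bool)) (e : N.Arc)
    (o : Bool) (ha : a ∈ N.nodes) (hφ : φ a' < φ a)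
    (hG : Good N φ F a' b l) (hnot : e ∉ l.map Prod.fst)
    (g : ℝ → Q) (hg : LipschitzWith 1 g) (hg0 : ∀ s ≤ 0, g s = a) (hg1 : g (N.len e) = a')
    (ce : ℝ) (hin : ∀ s, 0 < s → s < N.len e → ∃ x ∈ Ioo 0 (N.len e), g s = N.pt e x ∧
      s = ce - (φ (N.pt e 0) - F e * x) / |F e|) :
    Good N φ F a b ((e, o) :: l) := by
  classical
  obtain ⟨r', hr', h0', h1', c', u', hs'⟩ := hG
  have hpos := N.len_pos e
  have hsum : (((e, o) :: l).map fun p => N.len p.1).sum
      = N.len e + (l.map fun p => N.len p.1).sum := by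
    rw [List.map_cons, List.sum_cons]
  have hnn : 0 ≤ (l.map fun p => N.len p.1).sum := by
    apply List.sum_nonneg
    intro x hx
    rw [List.mem_map] at hx
    obtain ⟨p, -, rfl⟩ := hx
    exact (N.len_pos _).le
  have hr'' : LipschitzWith 1 (fun s => r' (s - N.len e)) := by
    refine LipschitzWith.of_dist_le_mul ?_
    intro s t
    have := hr'.dist_le_mul (s - N.len e) (t - N.len e)
    refine this.trans ?_
    rw [Real.dist_eq, Real.dist_eq, show s - N.len e - (t - N.len e) = s - t by ring]
  refine ⟨fun s => if s ≤ N.len e then g s else r' (s - N.len e), ?_, ?_, ?_,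
    fun e' => if e' = e then ce else c' e' + N.len e,
    fun z => if z = a then 0 else u' z + N.len e, ?_⟩
  · apply glue hg hr'' (N.len e)
    show g (N.len e) = r' (N.len e - N.len e)
    rw [hg1, sub_self, h0' 0 le_rfl]
  · intro s hs
    show (if s ≤ N.len e then g s else r' (s - N.len e)) = a
    rw [if_pos (hs.trans hpos.le), hg0 s hs]
  · intro s hs
    show (if s ≤ N.len e then g s else r' (s - N.len e)) = b
    rw [hsum] at hs
    by_cases h : s ≤ N.len e
    · rw [if_pos h]
      have h2 : s = N.len e := by linarith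
      have h3 : (l.map fun p => N.len p.1).sum ≤ 0 := by linarith
      rw [h2, hg1, ← h0' 0 le_rfl]
      exact h1' 0 h3
    · rw [if_neg h]
      exact h1' _ (by linarith)
  · intro s hs
    rw [hsum] at hs
    show ((if s ≤ N.len e then g s else r' (s - N.len e)) ∈ N.nodes ∧
        s = (if (if s ≤ N.len e then g s else r' (s - N.len e)) = a then 0
          else u' (if s ≤ N.len e then g s else r' (s - N.len e)) + N.len e) ∧
        φ (if s ≤ N.len e then g s else r' (s - N.len e)) ≤ φ a) ∨
      ∃ e' ∈ ((e, o) :: l).map Prod.fst, ∃ x ∈ Ioo 0 (N.len e'),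
        (if s ≤ N.len e then g s else r' (s - N.len e)) = N.pt e' x ∧
        s = (if e' = e then ce else c' e' + N.len e) - (φ (N.pt e' 0) - F e' * x) / |F e'|
    by_cases h : s < N.len e
    · rw [if_pos h.le]
      rcases hs.1.eq_or_lt with h0 | h0
      · left
        rw [← h0, hg0 0 le_rfl, if_pos rfl]
        exact ⟨ha, rfl, le_rfl⟩
      · right
        obtain ⟨x, hx, hx1, hx2⟩ := hin s h0 h
        refine ⟨e, ?_, x, hx, hx1, ?_⟩
        · rw [List.map_cons]
          exact List.mem_cons_self
        · rw [if_pos rfl]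
          exact hx2
    · push Not at h
      have hval : (if s ≤ N.len e then g s else r' (s - N.len e)) = r' (s - N.len e) := by
        by_cases h2 : s ≤ N.len e
        · rw [if_pos h2]
          have h3 : s = N.len e := le_antisymm h2 h
          rw [h3, hg1, sub_self, h0' 0 le_rfl]
        · rw [if_neg h2]
      rw [hval]
      rcases hs' (s - N.len e) ⟨by linarith, by linarith [hs.2]⟩ with h3 | h3
      · left
        obtain ⟨h4, h5, h6⟩ := h3
        have hne : r' (s - N.len e) ≠ a := by
          intro h7
          rw [h7] at h6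
          linarith
        refine ⟨h4, ?_, h6.trans hφ.le⟩
        rw [if_neg hne, ← h5]
        ring
      · right
        obtain ⟨e', he', x, hx, hx1, hx2⟩ := h3
        refine ⟨e', ?_, x, hx, hx1, ?_⟩
        · rw [List.map_cons]
          exact List.mem_cons_of_mem _ he'
        · have hne : e' ≠ e := by
            rintro rfl
            exact hnot he'
          rw [if_neg hne]
          linarith

end RouteReal

variable {Q : Type} [MetricSpace Q] (N : Network Q)

theorem route_real {φ : Q → ℝ} {F : N.Arc → ℝ}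
    (hF : ∀ e, φ (N.pt e 0) - φ (N.pt e (N.len e)) = N.len e * F e) {a b : Q}
    (ha : a ∈ N.nodes) {l : List (N.Arc × Bool)}
    (hl : DirPath (fun e => N.pt e 0) (fun e => N.pt e (N.len e)) φ a b l) :
    ∃ (r : ℝ → Q), LipschitzWith 1 r ∧ (∀ s ≤ 0, r s = a) ∧
      (∀ s, (l.map fun p => N.len p.1).sum ≤ s → r s = b) ∧
      ∃ (c : N.Arc → ℝ) (u : Q → ℝ), ∀ s ∈ Icc 0 (l.map fun p => N.len p.1).sum,
        (r s ∈ N.nodes ∧ s = u (r s)) ∨
        ∃ e ∈ l.map Prod.fst, ∃ x ∈ Ioo 0 (N.len e), r s = N.pt e x ∧
          s = c e - (φ (N.pt e 0) - F e * x) / |F e| := by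
  have key : RouteReal.Good N φ F a b l := by
    induction hl with
    | nil v =>
      refine ⟨fun _ => v, (LipschitzWith.const v).weaken zero_le_one, fun _ _ => rfl, fun _ _ => rfl,
        fun _ => 0, fun _ => 0, ?_⟩
      intro s hs
      left
      rw [List.map_nil, List.sum_nil] at hs
      exact ⟨ha, le_antisymm hs.2 hs.1, le_rfl⟩
    | fwd e b l hφ hl ih =>
      have hlen := N.len_pos e
      have hFe : 0 < F e := by
        have h1 := hF e
        have h2 : 0 < N.len e * F e := by
          rw [← h1]
          have : φ (N.pt e (N.len e)) < φ (N.pt e 0) := hφ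
          linarith
        exact (mul_pos_iff_of_pos_left hlen).1 h2
      refine RouteReal.step N φ F (N.pt e 0) (N.pt e (N.len e)) b l e true ⟨e, Or.inl rfl⟩ hφ
        (ih ⟨e, Or.inr rfl⟩) ?_ (RouteReal.gam N e) (RouteReal.gam_lip N e)
        (fun s hs => RouteReal.gam_of_nonpos N e hs) (RouteReal.gam_of_ge N e le_rfl)
        (φ (N.pt e 0) / F e) ?_
      · intro hmem
        have := (RouteReal.arcs_low hl e hmem).1
        have h3 : φ (N.pt e (N.len e)) < φ (N.pt e 0) := hφ
        exact absurd this (not_le.2 h3)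
      · intro s h0 h1
        refine ⟨s, ⟨h0, h1⟩, RouteReal.gam_of_mem N e h0.le h1.le, ?_⟩
        rw [abs_of_pos hFe]
        field_simp
        ring
    | bwd e b l hφ hl ih =>
      have hlen := N.len_pos e
      have hFe : F e < 0 := by
        have h1 := hF e
        have h2 : 0 < N.len e * (-F e) := by
          have : φ (N.pt e 0) < φ (N.pt e (N.len e)) := hφ
          nlinarith
        have := (mul_pos_iff_of_pos_left hlen).1 h2
        linarith
      refine RouteReal.step N φ F (N.pt e (N.len e)) (N.pt e 0) b l e false ⟨e, Or.inr rfl⟩ hφ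
        (ih ⟨e, Or.inl rfl⟩) ?_ (fun s => RouteReal.gam N e (N.len e - s))
        (RouteReal.gam_rev_lip N e)
        (fun s hs => RouteReal.gam_of_ge N e (by linarith)) ?_
        (φ (N.pt e 0) / (-F e) + N.len e) ?_
      · intro hmem
        have := (RouteReal.arcs_low hl e hmem).2
        have h3 : φ (N.pt e 0) < φ (N.pt e (N.len e)) := hφ
        exact absurd this (not_le.2 h3)
      · show RouteReal.gam N e (N.len e - N.len e) = N.pt e 0
        exact RouteReal.gam_of_nonpos N e (by linarith)
      · intro s h0 h1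
        refine ⟨N.len e - s, ⟨by linarith, by linarith⟩,
          RouteReal.gam_of_mem N e (by linarith) (by linarith), ?_⟩
        rw [abs_of_neg hFe]
        have hne : F e ≠ 0 := hFe.ne
        field_simp
        ring
  obtain ⟨r, h1, h2, h3, c, u, h4⟩ := key
  refine ⟨r, h1, h2, h3, c, u, ?_⟩
  intro s hs
  rcases h4 s hs with h5 | h5
  · exact Or.inl ⟨h5.1, h5.2.1⟩
  · exact Or.inr h5

end MPacf82c
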