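import Pool.Agent.Lib.MP_acf82c_lc.NetFlow
import Pool.Agent.Lib.MP_acf82c_lc.RouteReal
import Pool.Agent.Lib.MP_acf82c_lc.RealImage

/-!
# Random routes between nodes and the meeting measure (KEY LEMMA)

`flow_routes` is the interface used later. Take `net_flow` and `route_real` for every path `P i`;
`T i = ∑ of the lengths of the arcs of P i`, so `∑ lam i * T i = ∑_e len e * |F e|`
(use `DirPath.nodup`).

Meeting measure: let `ψ` be the extension `psi_ext` of `φ`, `f = ψ ∘ S` (1-Lipschitz),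
`Z = {t ∈ [t0,t1] : S t ∈ nodes}`, `U_e = {t ∈ [t0,t1] : S t ∈ openArc e}`.
If `S t = r_i (t - θ)` with `0 ≤ t - θ ≤ T i`, `t ∈ [t0,t1]`, then by `route_real` either
`S t` is a node `v` and `θ = t - u_i v`, or `S t ∈ openArc e`, `e ∈ P i` and
`θ = t - c_i e + f t / |F e|`. So the measure of the bad `θ` for route `i` is at most
`∑_v |{t : S t = v}| + ∑_{e ∈ P i} |image of U_e under t + f t/|F e||`
`≤ |Z| + ∑_{e ∈ P i} ∫_{U_e} (1 + f'/|F e|)` (`image_measure_le`; on `U_e` the function `f` is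
locally `|F e|`-Lipschitz). Averaging over `i` with `∑_{i : e ∈ P i} lam i = |F e|` gives
`|Z| + ∑_{e} ∫_{U_e} (|F e| + f')` (for `F e = 0` the function `f` is locally constant on `U_e`),
and `∑_e ∫_{U_e} f' = f t1 - f t0 - ∫_Z f' = f t1 - f t0 ≤ D` (`integral_deriv_lip`,
`deriv_zero_of_countable_image`: the nodes are finitely many).
-/

namespace MPacf82c

open Set MeasureTheory

variable {Q : Type} [MetricSpace Q] (N : Network Q)

theorem meeting_vol_shift (c : ℝ) (A : Set ℝ) :
    volume ((fun t => t - c) '' A) = volume A := by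
  have h : (fun t => t - c) '' A = (fun t => t + c) ⁻¹' A := by
    ext t
    constructor
    · rintro ⟨s, hs, rfl⟩
      simpa using hs
    · intro ht
      exact ⟨t + c, ht, by simp⟩
  rw [h, measure_preimage_add_right]

/-- Local Lipschitz bound for a potential inside an open arc. -/
theorem meeting_deriv_le {F : N.Arc → ℝ} {φ ψ : Q → ℝ}
    (hψ : ∀ e, ∀ s ∈ Icc 0 (N.len e), ψ (N.pt e s) = φ (N.pt e 0) - F e * s)
    {S : ℝ → Q} (hS : LipschitzWith 1 S) {e : N.Arc} {t : ℝ} (ht : S t ∈ N.openArc e) :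
    |deriv (fun t => ψ (S t)) t| ≤ |F e| := by
  have hopen : ∀ᶠ t' in nhds t, S t' ∈ N.openArc e :=
    hS.continuous.continuousAt.eventually_mem ((isOpen_openArc N e).mem_nhds ht)
  obtain ⟨x, hx, hxt⟩ := ht
  have hpos : 0 < min x (N.len e - x) := lt_min hx.1 (by linarith [hx.2])
  have hball : ∀ᶠ t' in nhds t, dist t' t < min x (N.len e - x) :=
    Metric.ball_mem_nhds t hpos
  rw [← Real.norm_eq_abs]
  refine norm_deriv_le_of_lip' (abs_nonneg _) ?_
  filter_upwards [hopen, hball] with t' h1 h2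
  obtain ⟨y, hy, hyt⟩ := h1
  rw [Real.dist_eq] at h2
  have hdist : dist (N.pt e x) (N.pt e y) ≤ |t' - t| := by
    rw [hxt, hyt]
    have h3 := hS.dist_le_mul t t'
    rw [Real.dist_eq, abs_sub_comm] at h3
    simpa using h3
  have hsame := dist_same_arc N e (Ioo_subset_Icc_self hx) (Ioo_subset_Icc_self hy)
  have hxy : |x - y| ≤ |t' - t| := by
    rcases min_le_iff.1 (hsame.trans hdist) with h | h
    · exact h
    · have h4 : 0 < min y (N.len e - y) := lt_min hy.1 (by linarith [hy.2])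
      linarith
  rw [Real.norm_eq_abs, Real.norm_eq_abs]
  have e1 : ψ (S t') = φ (N.pt e 0) - F e * y := by
    rw [← hyt]; exact hψ e y (Ioo_subset_Icc_self hy)
  have e2 : ψ (S t) = φ (N.pt e 0) - F e * x := by
    rw [← hxt]; exact hψ e x (Ioo_subset_Icc_self hx)
  rw [e1, e2]
  calc |φ (N.pt e 0) - F e * y - (φ (N.pt e 0) - F e * x)| = |F e| * |x - y| := by
        rw [← abs_mul]; congr 1; ring
    _ ≤ |F e| * |t' - t| := mul_le_mul_of_nonneg_left hxy (abs_nonneg _)

/-- The times spent in a set, as a set. -/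
def meetSet (S : ℝ → Q) (t0 t1 : ℝ) (A : Set Q) : Set ℝ := {t | t ∈ Icc t0 t1 ∧ S t ∈ A}

omit [MetricSpace Q] in
theorem meetSet_subset (S : ℝ → Q) (t0 t1 : ℝ) (A : Set Q) : meetSet S t0 t1 A ⊆ Icc t0 t1 :=
  fun _ h => h.1

omit [MetricSpace Q] in
theorem meetSet_ne_top (S : ℝ → Q) (t0 t1 : ℝ) (A : Set Q) :
    volume (meetSet S t0 t1 A) ≠ ⊤ :=
  ne_top_of_le_ne_top (by simp [Real.volume_Icc]) (measure_mono (meetSet_subset S t0 t1 A))

theorem meetSet_open {S : ℝ → Q} (hS : Continuous S) (t0 t1 : ℝ) {A : Set Q} (hA : IsOpen A) :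
    MeasurableSet (meetSet S t0 t1 A) :=
  measurableSet_Icc.inter (hA.preimage hS).measurableSet

theorem meetSet_closed {S : ℝ → Q} (hS : Continuous S) (t0 t1 : ℝ) {A : Set Q}
    (hA : IsClosed A) : MeasurableSet (meetSet S t0 t1 A) :=
  measurableSet_Icc.inter (hA.preimage hS).measurableSet

/-- The bad set of one route. -/
theorem meeting_one {F : N.Arc → ℝ} {φ ψ : Q → ℝ} (hψL : LipschitzWith 1 ψ)
    (hψ : ∀ e, ∀ s ∈ Icc 0 (N.len e), ψ (N.pt e s) = φ (N.pt e 0) - F e * s)
    {S : ℝ → Q} (hS : LipschitzWith 1 S) {t0 t1 T : ℝ} {l : Finset N.Arc}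
    (hF0 : ∀ e ∈ l, F e ≠ 0) {r : ℝ → Q} {c : N.Arc → ℝ} {u : Q → ℝ}
    (hr : ∀ s ∈ Icc 0 T, (r s ∈ N.nodes ∧ s = u (r s)) ∨
        ∃ e ∈ l, ∃ x ∈ Ioo 0 (N.len e), r s = N.pt e x ∧
          s = c e - (φ (N.pt e 0) - F e * x) / |F e|) :
    (volume {θ : ℝ | ∃ t ∈ Icc t0 t1, θ ≤ t ∧ t ≤ θ + T ∧ S t = r (t - θ)}).toReal ≤
      timeIn S t0 t1 N.nodes +
        ∑ e ∈ l, ∫ t in meetSet S t0 t1 (N.openArc e),
          (1 + deriv (fun t => ψ (S t)) t / |F e|) := by
  classical
  set f : ℝ → ℝ := fun t => ψ (S t) with hf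
  have hfL : LipschitzWith 1 f := by
    have h0 := hψL.comp hS
    rw [mul_one] at h0
    exact h0
  have hfc : Continuous f := hfL.continuous
  set Zf : Finset Q := (nodes_finite N).toFinset with hZf
  set Z : Q → Set ℝ := fun v => meetSet S t0 t1 {v} with hZ
  set U : N.Arc → Set ℝ := fun e => meetSet S t0 t1 (N.openArc e) with hU
  set A : Set ℝ := ⋃ v ∈ Zf, (fun t => t - u v) '' Z v with hA
  set B : Set ℝ := ⋃ e ∈ l, (fun t => t - c e) '' ((fun t => t + f t / |F e|) '' U e) with hB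
  have hsub : {θ : ℝ | ∃ t ∈ Icc t0 t1, θ ≤ t ∧ t ≤ θ + T ∧ S t = r (t - θ)} ⊆ A ∪ B := by
    rintro θ ⟨t, ht, h1, h2, h3⟩
    rcases hr (t - θ) ⟨by linarith, by linarith⟩ with ⟨h4, h5⟩ | ⟨e, he, x, hx, h4, h5⟩
    · left
      rw [← h3] at h4 h5
      simp only [hA, mem_iUnion]
      refine ⟨S t, by simpa [hZf] using h4, t, ⟨ht, rfl⟩, ?_⟩
      simp only
      linarith
    · right
      simp only [hB, mem_iUnion]
      refine ⟨e, he, t + f t / |F e|, ⟨t, ⟨ht, ?_⟩, rfl⟩, ?_⟩
      · exact ⟨x, hx, by rw [h3, h4]⟩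
      · have h6 : f t = φ (N.pt e 0) - F e * x := by
          simp only [hf]
          rw [h3, h4]
          exact hψ e x (Ioo_subset_Icc_self hx)
        simp only
        rw [h6]
        linarith
  have hfinB : ∀ e, volume ((fun t => t + f t / |F e|) '' U e) ≠ ⊤ := by
    intro e
    have hc : Continuous (fun t : ℝ => t + f t / |F e|) := by fun_prop
    have hk : volume ((fun t : ℝ => t + f t / |F e|) '' Icc t0 t1) ≠ ⊤ :=
      ((isCompact_Icc (a := t0) (b := t1)).image hc).measure_lt_top.ne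
    refine ne_top_of_le_ne_top hk ?_
    exact measure_mono (image_mono (meetSet_subset S t0 t1 _))
  have hfin : volume (A ∪ B) ≠ ⊤ := by
    refine measure_union_ne_top ?_ ?_
    · refine (measure_biUnion_lt_top Zf.finite_toSet ?_).ne
      intro v _
      rw [meeting_vol_shift]
      exact (meetSet_ne_top S t0 t1 _).lt_top
    · refine (measure_biUnion_lt_top l.finite_toSet ?_).ne
      intro e _
      rw [meeting_vol_shift]
      exact (hfinB e).lt_top
  have h1 : volume.real {θ : ℝ | ∃ t ∈ Icc t0 t1, θ ≤ t ∧ t ≤ θ + T ∧ S t = r (t - θ)} ≤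
      volume.real A + volume.real B :=
    (measureReal_mono hsub hfin).trans (measureReal_union_le A B)
  have h2 : volume.real A ≤ timeIn S t0 t1 N.nodes := by
    refine (measureReal_biUnion_finset_le Zf _).trans ?_
    have e1 : ∀ v ∈ Zf, volume.real ((fun t => t - u v) '' Z v) = volume.real (Z v) := by
      intro v _
      simp only [Measure.real]
      rw [meeting_vol_shift]
    rw [Finset.sum_congr rfl e1]
    rw [← measureReal_biUnion_finset (h := fun v _ => meetSet_ne_top S t0 t1 _)]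
    · refine measureReal_mono ?_ (meetSet_ne_top S t0 t1 _)
      intro t ht
      simp only [mem_iUnion] at ht
      obtain ⟨v, hv, ht⟩ := ht
      refine ⟨ht.1, ?_⟩
      have : S t = v := ht.2
      rw [this]
      simpa [hZf] using hv
    · intro v _ w _ hvw
      refine Set.disjoint_left.2 ?_
      intro t h3 h4
      exact hvw ((h3.2 : S t = v).symm.trans (h4.2 : S t = w))
    · intro v _
      exact meetSet_closed hS.continuous t0 t1 isClosed_singleton
  have h3 : volume.real B ≤ ∑ e ∈ l, ∫ t in U e, (1 + deriv f t / |F e|) := by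
    refine (measureReal_biUnion_finset_le l _).trans ?_
    refine Finset.sum_le_sum fun e he => ?_
    simp only [Measure.real]
    rw [meeting_vol_shift]
    refine image_measure_le hfL (abs_pos.2 (hF0 e he))
      (meetSet_open hS.continuous t0 t1 (isOpen_openArc N e)) (meetSet_ne_top S t0 t1 _) ?_
    refine Filter.Eventually.of_forall fun t ht => ?_
    exact meeting_deriv_le N hψ hS ht.2
  have h4 := h1.trans (add_le_add h2 h3)
  exact h4

/-- The total variation of the potential along `S` is collected on the open arcs. -/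
theorem meeting_total {D : ℝ} (hD : ∀ x y : Q, dist x y ≤ D) {F : N.Arc → ℝ} {φ ψ : Q → ℝ}
    (hψL : LipschitzWith 1 ψ)
    (hψ : ∀ e, ∀ s ∈ Icc 0 (N.len e), ψ (N.pt e s) = φ (N.pt e 0) - F e * s)
    {S : ℝ → Q} (hS : LipschitzWith 1 S) {t0 t1 : ℝ} (h01 : t0 ≤ t1) :
    ∑ e, |F e| * ∫ t in meetSet S t0 t1 (N.openArc e),
          (1 + deriv (fun t => ψ (S t)) t / |F e|) ≤
      ∑ e, |F e| * timeIn S t0 t1 (N.openArc e) + D := by
  classical
  set f : ℝ → ℝ := fun t => ψ (S t) with hf
  have hfL : LipschitzWith 1 f := by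
    have h0 := hψL.comp hS
    rw [mul_one] at h0
    exact h0
  have hint : IntegrableOn (deriv f) (Icc t0 t1) := by
    refine Measure.integrableOn_of_bounded (M := 1) (by simp [Real.volume_Icc])
      (measurable_deriv f).aestronglyMeasurable ?_
    refine Filter.Eventually.of_forall fun t => ?_
    have := norm_deriv_le_of_lipschitz (x₀ := t) hfL
    simpa using this
  set U : N.Arc → Set ℝ := fun e => meetSet S t0 t1 (N.openArc e) with hU
  set Z : Set ℝ := meetSet S t0 t1 N.nodes with hZ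
  have hUm : ∀ e, MeasurableSet (U e) := fun e =>
    meetSet_open hS.continuous t0 t1 (isOpen_openArc N e)
  have hZm : MeasurableSet Z := meetSet_closed hS.continuous t0 t1 (nodes_finite N).isClosed
  have hUi : ∀ e, IntegrableOn (deriv f) (U e) := fun e =>
    hint.mono_set (meetSet_subset S t0 t1 _)
  have hone : ∀ e, |F e| * ∫ t in U e, (1 + deriv f t / |F e|) =
      |F e| * timeIn S t0 t1 (N.openArc e) + ∫ t in U e, deriv f t := by
    intro e
    by_cases hFe : F e = 0
    · have h0 : ∫ t in U e, deriv f t = 0 := by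
        have h1 : ∫ t in U e, deriv f t = ∫ t in U e, (0 : ℝ) := by
          refine setIntegral_congr_fun (hUm e) ?_
          intro t ht
          have h2 := meeting_deriv_le N hψ hS ht.2
          rw [hFe, abs_zero] at h2
          exact abs_eq_zero.1 (le_antisymm h2 (abs_nonneg _))
        rw [h1]; simp
      rw [h0, hFe]; simp
    · have hFp : |F e| ≠ 0 := abs_ne_zero.2 hFe
      have h1 : IntegrableOn (fun _ : ℝ => (1 : ℝ)) (U e) :=
        integrableOn_const (meetSet_ne_top S t0 t1 _)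
      rw [integral_add h1 ((hUi e).div_const _), integral_div]
      have h2 : ∫ _ in U e, (1 : ℝ) = timeIn S t0 t1 (N.openArc e) := by
        simp [timeIn, hU, meetSet, Measure.real]
      rw [h2]
      field_simp
  have hsum : ∑ e, ∫ t in U e, deriv f t = ∫ t in ⋃ e, U e, deriv f t := by
    rw [integral_iUnion_fintype hUm ?_ hUi]
    intro e e' hee
    refine Set.disjoint_left.2 ?_
    intro t h3 h4
    exact hee (openArc_unique N h3.2 h4.2)
  have hcov : Icc t0 t1 = (⋃ e, U e) ∪ Z := by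
    ext t
    constructor
    · intro ht
      rcases node_or_openArc N (S t) with h | ⟨e, h⟩
      · exact Or.inr ⟨ht, h⟩
      · exact Or.inl (mem_iUnion.2 ⟨e, ht, h⟩)
    · rintro (h | h)
      · obtain ⟨e, h⟩ := mem_iUnion.1 h
        exact h.1
      · exact h.1
  have hdis : Disjoint (⋃ e, U e) Z := by
    refine Set.disjoint_left.2 ?_
    intro t h3 h4
    obtain ⟨e, h3⟩ := mem_iUnion.1 h3
    exact notMem_nodes_of_mem_openArc N h3.2 h4.2
  have hsplit : ∫ t in Icc t0 t1, deriv f t =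
      (∫ t in ⋃ e, U e, deriv f t) + ∫ t in Z, deriv f t := by
    rw [hcov]
    refine setIntegral_union hdis hZm ?_ ?_
    · exact hint.mono_set (by rw [hcov]; exact subset_union_left)
    · exact hint.mono_set (by rw [hcov]; exact subset_union_right)
  have hZ0 : ∫ t in Z, deriv f t = 0 := by
    have hcount : (f '' Z).Countable := by
      refine (((nodes_finite N).image ψ).subset ?_).countable
      rintro _ ⟨t, ht, rfl⟩
      exact ⟨S t, ht.2, rfl⟩
    have h1 : ∫ t in Z, deriv f t = ∫ t in Z, (0 : ℝ) :=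
      setIntegral_congr_ae hZm (deriv_zero_of_countable_image hfL hcount)
    rw [h1]; simp
  have hftc := integral_deriv_lip hfL h01
  have hfD : f t1 - f t0 ≤ D := by
    have h1 : dist (f t1) (f t0) ≤ dist (S t1) (S t0) := by
      have := hψL.dist_le_mul (S t1) (S t0)
      simpa using this
    have h2 := hD (S t1) (S t0)
    rw [Real.dist_eq] at h1
    linarith [le_abs_self (f t1 - f t0)]
  rw [Finset.sum_congr rfl fun e _ => hone e, Finset.sum_add_distrib, hsum]
  linarith

theorem flow_routes {D : ℝ} (hD : ∀ x y : Q, dist x y ≤ D) {a b : Q} (ha : a ∈ N.nodes)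
    (hb : b ∈ N.nodes) :
    ∃ (m : ℕ) (lam T : Fin m → ℝ) (r : Fin m → ℝ → Q) (F : N.Arc → ℝ),
      (∀ i, 0 ≤ lam i) ∧ ∑ i, lam i = 1 ∧ (∀ i, 0 ≤ T i) ∧ (∀ i, LipschitzWith 1 (r i)) ∧
      (∀ i, ∀ s ≤ 0, r i s = a) ∧ (∀ i s, T i ≤ s → r i s = b) ∧
      (∀ e, 0 ≤ F e) ∧ (∀ e, F e ≤ 1) ∧
      ∑ e, N.len e * F e ≤ Real.sqrt (N.length * D) ∧
      ∑ i, lam i * T i ≤ Real.sqrt (N.length * D) ∧
      ∀ S : ℝ → Q, LipschitzWith 1 S → ∀ t0 t1 : ℝ, t0 ≤ t1 →
        ∑ i, lam i * (volume {θ : ℝ | ∃ t ∈ Icc t0 t1, θ ≤ t ∧ t ≤ θ + T i ∧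
          S t = r i (t - θ)}).toReal ≤
        timeIn S t0 t1 N.nodes + ∑ e, F e * timeIn S t0 t1 (N.openArc e) + D := by
  classical
  obtain ⟨φ, F, m, lam, P, hφ, hF1, hlam0, hlam1, hP, hPF, hPsum, hE⟩ := net_flow N hD ha hb
  obtain ⟨ψ, hψL, hψ⟩ := psi_ext N φ F hF1 hφ
  choose r hrL hr0 hrT c u hr using fun i => route_real N hφ ha (hP i)
  have hsumP : ∀ (i : Fin m) (g : N.Arc → ℝ), ((P i).map fun p => g p.1).sum =
      ∑ e ∈ ((P i).map Prod.fst).toFinset, g e := by
    intro i g
    rw [List.sum_toFinset _ (DirPath.nodup (hP i)), List.map_map]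
    rfl
  have hsumF : ∀ g : N.Arc → ℝ, ∑ i, lam i * ∑ e ∈ ((P i).map Prod.fst).toFinset, g e =
      ∑ e, |F e| * g e := by
    intro g
    have e1 : ∀ i, lam i * ∑ e ∈ ((P i).map Prod.fst).toFinset, g e =
        ∑ e, (if e ∈ (P i).map Prod.fst then lam i else 0) * g e := by
      intro i
      rw [Finset.mul_sum, ← Finset.sum_filter_add_sum_filter_not Finset.univ
        (fun e => e ∈ (P i).map Prod.fst)]
      rw [Finset.sum_eq_zero (s := Finset.univ.filter fun e => ¬ e ∈ (P i).map Prod.fst),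
        add_zero]
      · refine Finset.sum_congr ?_ ?_
        · ext e
          simp
        · intro e he
          have : e ∈ (P i).map Prod.fst := by simpa using he
          rw [if_pos this]
      · intro e he
        rw [if_neg (Finset.mem_filter.1 he).2, zero_mul]
    rw [Finset.sum_congr rfl fun i _ => e1 i, Finset.sum_comm]
    refine Finset.sum_congr rfl fun e _ => ?_
    rw [← Finset.sum_mul, hPsum]
  refine ⟨m, lam, fun i => ((P i).map fun p => N.len p.1).sum, r, fun e => |F e|, hlam0, hlam1,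
    ?_, hrL, hr0, hrT, fun e => abs_nonneg _, hF1, hE, ?_, ?_⟩
  · intro i
    refine List.sum_nonneg ?_
    intro x hx
    obtain ⟨p, _, rfl⟩ := List.mem_map.1 hx
    exact (N.len_pos _).le
  · have h1 : ∑ i, lam i * ((P i).map fun p => N.len p.1).sum = ∑ e, N.len e * |F e| := by
      rw [Finset.sum_congr rfl fun i _ => by rw [hsumP i N.len], hsumF]
      exact Finset.sum_congr rfl fun e _ => mul_comm _ _
    rw [h1]
    exact hE
  · intro S hS t0 t1 h01
    set J : N.Arc → ℝ := fun e => ∫ t in meetSet S t0 t1 (N.openArc e),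
          (1 + deriv (fun t => ψ (S t)) t / |F e|) with hJ
    have h1 : ∀ i, lam i * (volume {θ : ℝ | ∃ t ∈ Icc t0 t1, θ ≤ t ∧
        t ≤ θ + ((P i).map fun p => N.len p.1).sum ∧ S t = r i (t - θ)}).toReal ≤
        lam i * timeIn S t0 t1 N.nodes +
          lam i * ∑ e ∈ ((P i).map Prod.fst).toFinset, J e := by
      intro i
      rw [← mul_add]
      refine mul_le_mul_of_nonneg_left ?_ (hlam0 i)
      refine meeting_one N hψL hψ hS (c := c i) (u := u i) ?_ ?_
      · intro e he
        exact hPF i e (List.mem_toFinset.1 he)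
      · intro s hs
        rcases hr i s hs with h | ⟨e, he, h⟩
        · exact Or.inl h
        · exact Or.inr ⟨e, List.mem_toFinset.2 he, h⟩
    refine (Finset.sum_le_sum fun i _ => h1 i).trans ?_
    rw [Finset.sum_add_distrib, ← Finset.sum_mul, hlam1, one_mul, hsumF]
    have h2 := meeting_total N hD hψL hψ hS h01
    rw [add_assoc]
    exact add_le_add le_rfl h2

end MPacf82c
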