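import Pool.Agent.Lib.MP_acf82c_lc.CloverTop

/-!
# Comparison of clovers

For clovers `(Q, N, O)` with `n` leaves and `(Q', N', O')` with `n' ≥ n` leaves let `g : Q → Q'`
send the leaf `i` of `Q` to the leaf `i` of `Q'` (isometric embedding) and let `f : Q' → Q` be its
left inverse which collapses the other leaves to `O`; both are 1-Lipschitz (use `walk`: a map
which is 1-Lipschitz on every arc and well defined is 1-Lipschitz), `f (g x) = x`, `f O' = O`,
`g O = O'`. If `S'` is a searcher path in `Q'` then `f ∘ S'` is one in `Q` and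
`captureTime (f ∘ S') H ≤ captureTime S' (g ∘ H)`.
-/

namespace MPacf82c

open Set MeasureTheory
open scoped NNReal ENNReal

theorem clover_lift {Q Z : Type} [MetricSpace Q] {N : Network Q} {O : Q} {n : ℕ}
    (hC : IsClover N O n) (F : N.Arc → ℝ → Z) (z : Z) (h0 : ∀ e, F e 0 = z)
    (h1 : ∀ e, F e 1 = z) : ∃ f : Q → Z, ∀ e, ∀ s ∈ Icc (0 : ℝ) 1, f (N.pt e s) = F e s := by
  classical
  have hends : ∀ e s, s ∈ Icc (0 : ℝ) 1 → s ∉ Ioo (0 : ℝ) 1 → F e s = z := by
    intro e s hs hs'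
    by_cases h : s = 0
    · rw [h]; exact h0 e
    · have h2 : s = 1 := by
        by_contra h3
        exact hs' ⟨lt_of_le_of_ne hs.1 (Ne.symm h), lt_of_le_of_ne hs.2 h3⟩
      rw [h2]; exact h1 e
  have hwd : ∀ e e' s s', s ∈ Icc (0 : ℝ) 1 → s' ∈ Icc (0 : ℝ) 1 → N.pt e s = N.pt e' s' →
      F e s = F e' s' := by
    intro e e' s s' hs hs' h
    by_cases h2 : s ∈ Ioo (0 : ℝ) 1
    · obtain ⟨h3, h4⟩ := N.simple e e' s s' (by rw [hC.len]; exact h2)
        (by rw [hC.len]; exact hs') h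
      rw [h3, h4]
    · by_cases h3 : s' ∈ Ioo (0 : ℝ) 1
      · obtain ⟨h4, h5⟩ := N.simple e' e s' s (by rw [hC.len]; exact h3)
          (by rw [hC.len]; exact hs) h.symm
        rw [h4, h5]
      · rw [hends e s hs h2, hends e' s' hs' h3]
  refine ⟨fun x => F (N.cover x).choose (N.cover x).choose_spec.choose, ?_⟩
  intro e s hs
  have h2 := (N.cover (N.pt e s)).choose_spec.choose_spec
  refine hwd _ _ _ _ ?_ hs h2.2
  exact ⟨h2.1.1, h2.1.2.trans (hC.len _).le⟩

theorem walk_dist {Q Z Arc : Type} [MetricSpace Z] {len : Arc → ℝ} {pt : Arc → ℝ → Q}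
    (f : Q → Z) (hf : ∀ e, ∀ s ∈ Icc 0 (len e), ∀ t ∈ Icc 0 (len e),
      dist (f (pt e s)) (f (pt e t)) ≤ |s - t|) {x y : Q} {L : ℝ} (h : Walk len pt x y L) :
    dist (f x) (f y) ≤ L := by
  induction h with
  | nil x => simp
  | cons e s t hs ht y L _ ih =>
    calc dist (f (pt e s)) (f y) ≤ dist (f (pt e s)) (f (pt e t)) + dist (f (pt e t)) (f y) :=
          dist_triangle _ _ _
      _ ≤ |s - t| + L := add_le_add (hf e s hs t ht) ih

theorem lip_of_arcs {Q Z : Type} [MetricSpace Q] [MetricSpace Z] (N : Network Q)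
    (f : Q → Z) (hf : ∀ e, ∀ s ∈ Icc 0 (N.len e), ∀ t ∈ Icc 0 (N.len e),
      dist (f (N.pt e s)) (f (N.pt e t)) ≤ |s - t|) : LipschitzWith 1 f := by
  refine LipschitzWith.of_dist_le_mul fun x y => ?_
  rw [NNReal.coe_one, one_mul]
  exact walk_dist f hf (N.walk x y)

theorem clover_maps {Q Q' : Type} [MetricSpace Q] [MetricSpace Q'] {N : Network Q}
    {N' : Network Q'} {O : Q} {O' : Q'} {n n' : ℕ} (hC : IsClover N O n)
    (hC' : IsClover N' O' n') (hn : n ≤ n') :
    ∃ (f : Q' → Q) (g : Q → Q'), LipschitzWith 1 f ∧ LipschitzWith 1 g ∧ (∀ x, f (g x) = x) ∧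
      f O' = O ∧ g O = O' := by
  classical
  have hcard : Fintype.card N.Arc ≤ Fintype.card N'.Arc := by
    rw [hC.card, hC'.card]; exact hn
  obtain ⟨φ⟩ : Nonempty (N.Arc ↪ N'.Arc) := Function.Embedding.nonempty_of_card_le hcard
  obtain ⟨g, hg⟩ := clover_lift hC (fun e s => N'.pt (φ e) s) O' (fun e => hC'.left _)
    (fun e => hC'.right _)
  obtain ⟨f, hf⟩ := clover_lift hC'
    (fun e' s => if h : ∃ e, φ e = e' then N.pt h.choose s else O) O
    (by
      intro e'
      by_cases h : ∃ e, φ e = e'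
      · simp only [dif_pos h]; exact hC.left _
      · simp only [dif_neg h])
    (by
      intro e'
      by_cases h : ∃ e, φ e = e'
      · simp only [dif_pos h]; exact hC.right _
      · simp only [dif_neg h])
  have hgl : LipschitzWith 1 g := by
    refine lip_of_arcs N g fun e s hs t ht => ?_
    rw [hC.len] at hs ht
    rw [hg e s hs, hg e t ht]
    exact N'.dist_le _ s (by rw [hC'.len]; exact hs) t (by rw [hC'.len]; exact ht)
  have hfl : LipschitzWith 1 f := by
    refine lip_of_arcs N' f fun e' s hs t ht => ?_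
    rw [hC'.len] at hs ht
    rw [hf e' s hs, hf e' t ht]
    by_cases h : ∃ e, φ e = e'
    · simp only [dif_pos h]
      exact N.dist_le _ s (by rw [hC.len]; exact hs) t (by rw [hC.len]; exact ht)
    · simp only [dif_neg h, dist_self]
      exact abs_nonneg _
  have hfg : ∀ x, f (g x) = x := by
    intro x
    obtain ⟨e, s, hs, hx⟩ := N.cover x
    rw [hC.len] at hs
    rw [← hx, hg e s hs, hf (φ e) s hs]
    have h : ∃ e1, φ e1 = φ e := ⟨e, rfl⟩
    simp only [dif_pos h]
    rw [φ.injective h.choose_spec]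
  have hgO : g O = O' := by
    obtain ⟨e, s, hs, hx⟩ := N.cover O
    have h0 : (0 : ℝ) ∈ Icc (0 : ℝ) 1 := ⟨le_rfl, zero_le_one⟩
    rw [← hC.left e, hg e 0 h0]
    exact hC'.left _
  refine ⟨f, g, hfl, hgl, hfg, ?_, hgO⟩
  rw [← hgO]
  exact hfg O

theorem clover_compare {Q Q' : Type} [MetricSpace Q] [MetricSpace Q'] {N : Network Q}
    {N' : Network Q'} {O : Q} {O' : Q'} {n n' : ℕ} (hC : IsClover N O n)
    (hC' : IsClover N' O' n') (hn : n ≤ n') {w : ℝ≥0} {v : ℝ≥0∞}
    (h : SearcherGuarantees w O' v) : SearcherGuarantees w O v := by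
  obtain ⟨f, g, hfl, hgl, hfg, hfO, hgO⟩ := clover_maps hC hC' hn
  obtain ⟨Ω, mΩ, P, S, hP, hS0, hSl, hSm, hS⟩ := h
  refine ⟨Ω, mΩ, P, fun ω t => f (S ω t), hP, ?_, ?_, ?_, ?_⟩
  · intro ω
    show f (S ω 0) = O
    rw [hS0 ω, hfO]
  · intro ω
    have h1 := hfl.comp (hSl ω)
    rw [one_mul] at h1
    exact h1
  · intro t
    borelize Q
    borelize Q'
    exact hfl.continuous.measurable.comp (hSm t)
  · intro H hH
    have h1 := hgl.comp hH
    rw [one_mul] at h1
    refine le_trans (lintegral_mono fun ω => ?_) (hS (g ∘ H) h1)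
    unfold captureTime
    refine le_iInf fun t => le_iInf fun ht => ?_
    refine iInf_le_of_le t (iInf_le_of_le ?_ le_rfl)
    show f (S ω t) = H t
    rw [ht]
    exact hfg _

end MPacf82c
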