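import Pool.Agent.Lib.MP_acf82c_lc.TwoSided
import Pool.Agent.Lib.MP_acf82c_lc.WeakDuality
import Pool.Agent.Lib.MP_acf82c_lc.CloverModel
import Pool.Agent.Lib.MP_acf82c_lc.CloverCompare

/-!
# The theorem
-/

namespace MPacf82c

open Set MeasureTheory Filter
open scoped NNReal ENNReal

theorem upper_compare {n n' : ℕ} (hn : 1 ≤ n) (hnn : n ≤ n') {y : ℝ} (h : Upper n' y) :
    Upper n (y * n' / n) := by
  intro Q _ N O hC w hw
  obtain ⟨Q', i', N', O', hC'⟩ := exists_clover n' (hn.trans hnn)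
  have h1 := h Q' N' O' hC' w hw
  have h2 := clover_compare hC hC' hnn h1
  have hn0 : (n : ℝ) ≠ 0 := by positivity
  rwa [div_mul_cancel₀ _ hn0]

theorem weak_clover {Q : Type} [MetricSpace Q] {N : Network Q} {O : Q} {n : ℕ}
    (hC : IsClover N O n) (hn : 1 ≤ n) {x y : ℝ} (hy : 0 ≤ y) (hL : Lower N x)
    (hU : Upper n y) : x ≤ y := by
  have h := weak_duality N (hL O 1 le_rfl) (hU Q N O hC 1 le_rfl)
  rw [clover_length hC] at h
  have hn0 : (0 : ℝ) < n := by exact_mod_cast hn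
  rcases le_or_gt x 0 with hx | hx
  · linarith
  · rw [ENNReal.ofReal_le_ofReal_iff (by positivity)] at h
    exact le_of_mul_le_mul_right h hn0

/-- The infimum of the `x` with `Upper n x`. -/
noncomputable def uval (n : ℕ) : ℝ := sInf {x | 0 ≤ x ∧ Upper n x}

theorem uval_nonneg (n : ℕ) : 0 ≤ uval n := Real.sInf_nonneg fun _ hx => hx.1

theorem uval_le {n : ℕ} {x : ℝ} (hx : 0 ≤ x) (h : Upper n x) : uval n ≤ x :=
  csInf_le ⟨0, fun _ hy => hy.1⟩ ⟨hx, h⟩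

/-- Sample counts of clovers: all multiples of the number of leaves. -/
theorem clover_count {Q : Type} [MetricSpace Q] {N : Network Q} {O : Q} {n : ℕ}
    (hC : IsClover N O n) (m : ℕ) : ∑ e, ⌊N.len e / (1 / (m : ℝ))⌋₊ = n * m := by
  have : ∀ e, ⌊N.len e / (1 / (m : ℝ))⌋₊ = m := by
    intro e
    rw [hC.len e, one_div_one_div, Nat.floor_natCast]
  simp_rw [this]
  rw [Finset.sum_const, Finset.card_univ, hC.card, smul_eq_mul]

/-- For every `ε`, for large `n` and all clovers with `n` leaves, for large `m`. -/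
theorem clover_two_sided {ε : ℝ} (hε : 0 < ε) : ∃ n0 : ℕ, 1 ≤ n0 ∧ ∀ n, n0 ≤ n →
    ∀ (Q : Type) [MetricSpace Q] (N : Network Q) (O : Q), IsClover N O n →
    ∃ m0 : ℕ, 1 ≤ m0 ∧ ∀ m, m0 ≤ m → ∃ x : ℝ, 1 / 2 ≤ x ∧ x ≤ 2 ∧ Upper (n * m) (x + ε) ∧
      Lower N (x - ε) := by
  obtain ⟨δ, hδ, H⟩ := two_sided hε
  obtain ⟨n0, hn0⟩ := exists_nat_ge (1 / δ)
  refine ⟨n0 + 1, by omega, fun n hn Q _ N O hC => ?_⟩
  have hn1 : (1 : ℝ) ≤ δ * n := by
    have : (n0 : ℝ) ≤ n := by exact_mod_cast (by omega : n0 ≤ n)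
    rw [div_le_iff₀ hδ] at hn0
    nlinarith
  have hlen := clover_length hC
  obtain ⟨h0, hh0, H'⟩ := H Q N (fun x y => by
    rw [hlen]; exact (clover_dist_le hC x y).trans hn1) (length_pos N O)
  obtain ⟨m0, hm0⟩ := exists_nat_ge (1 / h0)
  refine ⟨m0 + 1, by omega, fun m hm => ?_⟩
  have hm' : (m0 : ℝ) ≤ m := by exact_mod_cast (by omega : m0 ≤ m)
  have hmpos : (0 : ℝ) < m := by exact_mod_cast (by omega : 0 < m)
  obtain ⟨x, hx1, hx2, hU, hL⟩ := H' (1 / m) (by positivity) (by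
    rw [div_le_iff₀ hh0] at hm0
    rw [div_le_iff₀ hmpos]
    nlinarith)
  rw [clover_count hC m] at hU
  exact ⟨x, hx1, hx2, hU, hL⟩

/-- `Upper N` for all large `N` from `Upper (n m)` for all large `m`. -/
theorem upper_eventually {n m0 : ℕ} (hn : 1 ≤ n) {y ε : ℝ} (hy : 0 ≤ y) (hε : 0 < ε)
    (h : ∀ m, m0 ≤ m → Upper (n * m) y) : ∃ N1 : ℕ, ∀ N, N1 ≤ N → Upper N (y + ε) := by
  obtain ⟨N2, hN2⟩ := exists_nat_ge (y * n / ε)
  refine ⟨max (max N2 1) (n * m0), fun N hN => ?_⟩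
  have hN1 : 1 ≤ N := (le_max_right _ _).trans ((le_max_left _ _).trans hN)
  have hN3 : N2 ≤ N := (le_max_left _ _).trans ((le_max_left _ _).trans hN)
  have hN4 : n * m0 ≤ N := (le_max_right _ _).trans hN
  have hm : m0 ≤ N / n + 1 := by
    have : m0 ≤ N / n := (Nat.le_div_iff_mul_le (by omega)).2 (by linarith)
    omega
  have hle : N ≤ n * (N / n + 1) := by
    have := Nat.lt_mul_div_succ N (by omega : 0 < n)
    exact this.le
  have hle' : n * (N / n + 1) ≤ N + n := by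
    have := Nat.mul_div_le N n
    nlinarith
  have hU := upper_compare hN1 hle (h _ hm)
  refine hU.mono ?_
  have hNpos : (0 : ℝ) < N := by exact_mod_cast hN1
  rw [div_le_iff₀ hNpos]
  have c1 : ((n * (N / n + 1) : ℕ) : ℝ) ≤ N + n := by exact_mod_cast hle'
  have c2 : y * n / ε ≤ N := hN2.trans (by exact_mod_cast hN3)
  rw [div_le_iff₀ hε] at c2
  nlinarith

theorem uval_bdd : ∃ C : ℝ, ∀ᶠ n in atTop, uval n ≤ C := by
  obtain ⟨n0, hn0, H⟩ := clover_two_sided one_pos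
  obtain ⟨Q, i, N, O, hC⟩ := exists_clover n0 hn0
  obtain ⟨m0, hm0, H'⟩ := H n0 le_rfl Q N O hC
  obtain ⟨N1, hN1⟩ := upper_eventually (n := n0) (m0 := m0) (y := 3) (ε := 1) hn0 (by norm_num)
    one_pos (fun m hm => by
      obtain ⟨x, hx1, hx2, hU, hL⟩ := H' m hm
      exact hU.mono (by linarith))
  exact ⟨3 + 1, eventually_atTop.2 ⟨N1, fun N hN => uval_le (by norm_num) (hN1 N hN)⟩⟩

theorem uval_mem {n : ℕ} (hne : {x | 0 ≤ x ∧ Upper n x}.Nonempty) {b : ℝ} (hb : uval n < b) :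
    Upper n b ∧ 0 ≤ b := by
  obtain ⟨y, ⟨hy0, hy⟩, hyb⟩ := exists_lt_of_csInf_lt hne hb
  exact ⟨hy.mono hyb.le, hy0.trans hyb.le⟩

theorem upper_nonempty : ∃ N1 : ℕ, ∀ N, N1 ≤ N → {x | 0 ≤ x ∧ Upper N x}.Nonempty := by
  obtain ⟨n0, hn0, H⟩ := clover_two_sided one_pos
  obtain ⟨Q, i, N, O, hC⟩ := exists_clover n0 hn0
  obtain ⟨m0, hm0, H'⟩ := H n0 le_rfl Q N O hC
  obtain ⟨N1, hN1⟩ := upper_eventually (n := n0) (m0 := m0) (y := 3) (ε := 1) hn0 (by norm_num)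
    one_pos (fun m hm => by
      obtain ⟨x, hx1, hx2, hU, hL⟩ := H' m hm
      exact hU.mono (by linarith))
  exact ⟨N1, fun N hN => ⟨3 + 1, by norm_num, hN1 N hN⟩⟩

theorem main : ∃ c : ℝ, 1 / 2 ≤ c ∧
    (∀ ε : ℝ, 0 < ε → ∃ n₀ : ℕ, ∀ n : ℕ, n₀ ≤ n →
      ∀ (Q : Type) [MetricSpace Q] (N : Network Q) (O : Q), IsClover N O n →
      ∀ w : ℝ≥0, 1 ≤ w →
        HiderGuarantees w O (ENNReal.ofReal ((c - ε) * n)) ∧
        SearcherGuarantees w O (ENNReal.ofReal ((c + ε) * n))) ∧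
    (∀ ε : ℝ, 0 < ε → ∃ δ : ℝ, 0 < δ ∧
      ∀ (Q : Type) [MetricSpace Q] (N : Network Q) (O : Q),
      (∀ x y : Q, dist x y ≤ δ * N.length) →
      ∀ w : ℝ≥0, 1 ≤ w → HiderGuarantees w O (ENNReal.ofReal ((c - ε) * N.length))) := by
  obtain ⟨C, hC⟩ := uval_bdd
  obtain ⟨N1, hN1⟩ := upper_nonempty
  have hb1 : IsBoundedUnder (· ≥ ·) atTop uval := ⟨0, eventually_map.2
    (Eventually.of_forall fun n => uval_nonneg n)⟩
  have hb2 : IsBoundedUnder (· ≤ ·) atTop uval := ⟨C, eventually_map.2 hC⟩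
  have hcob : IsCoboundedUnder (· ≥ ·) atTop uval := hb2.isCoboundedUnder_ge
  set c := liminf uval atTop with hcdef
  -- lower part for small diameter
  have hlow : ∀ ε : ℝ, 0 < ε → ∃ δ : ℝ, 0 < δ ∧ ∀ (Q : Type) [MetricSpace Q] (N : Network Q)
      (O : Q), (∀ x y : Q, dist x y ≤ δ * N.length) →
      ∀ w : ℝ≥0, 1 ≤ w → HiderGuarantees w O (ENNReal.ofReal ((c - ε) * N.length)) := by
    intro ε hε
    obtain ⟨δ, hδ, H⟩ := two_sided (ε := ε / 3) (by positivity)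
    refine ⟨δ, hδ, fun Q _ N O hD w hw => ?_⟩
    have hlen := length_pos N O
    obtain ⟨h0, hh0, H'⟩ := H Q N hD hlen
    have hev := eventually_lt_of_lt_liminf (f := atTop) (u := uval) (b := c - ε / 3)
      (by rw [← hcdef]; linarith) hb1
    obtain ⟨N2, hN2⟩ := eventually_atTop.1 hev
    obtain ⟨h, hh, hhle, hcount⟩ : ∃ h : ℝ, 0 < h ∧ h ≤ h0 ∧ N2 ≤ ∑ e, ⌊N.len e / h⌋₊ := by
      have hpos : (0 : ℝ) < N2 + Fintype.card N.Arc + 1 := by positivity
      refine ⟨min h0 (N.length / (N2 + Fintype.card N.Arc + 1)), lt_min hh0 (by positivity),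
        min_le_left _ _, ?_⟩
      set h := min h0 (N.length / (N2 + Fintype.card N.Arc + 1))
      have hh : 0 < h := lt_min hh0 (by positivity)
      have h2 := (samples_count N hh).2
      have h3 : h * (N2 + Fintype.card N.Arc + 1) ≤ N.length := by
        rw [← le_div_iff₀ hpos]; exact min_le_right _ _
      have h4 : (N2 : ℝ) ≤ ((∑ e, ⌊N.len e / h⌋₊ : ℕ) : ℝ) := by
        by_contra hcon
        push Not at hcon
        nlinarith
      exact_mod_cast h4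
    obtain ⟨x, hx1, hx2, hU, hL⟩ := H' h hh hhle
    have h5 := uval_le (by linarith) hU
    have h6 := hN2 _ hcount
    exact (hL.mono (x := c - ε) (by linarith)) O w hw
  have hhalf : 1 / 2 ≤ c := by
    refine le_of_forall_pos_le_add fun ε hε => ?_
    have hev : ∀ᶠ n in atTop, 1 / 2 - ε ≤ uval n := by
      obtain ⟨n0, hn0, H⟩ := clover_two_sided hε
      refine eventually_atTop.2 ⟨max n0 N1, fun n hn => ?_⟩
      have hnn0 : n0 ≤ n := (le_max_left _ _).trans hn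
      refine le_csInf (hN1 n ((le_max_right _ _).trans hn)) fun y hy => ?_
      obtain ⟨Q, i, N, O, hC⟩ := exists_clover n (hn0.trans hnn0)
      obtain ⟨m0, hm0, H'⟩ := H n hnn0 Q N O hC
      obtain ⟨x, hx1, hx2, hU, hL⟩ := H' m0 le_rfl
      have := weak_clover hC (hn0.trans hnn0) hy.1 hL hy.2
      linarith
    have := le_liminf_of_le hcob hev
    linarith
  have hup : ∀ ε : ℝ, 0 < ε → ∃ n₀ : ℕ, ∀ n : ℕ, n₀ ≤ n → Upper n (c + ε) := by
    intro ε hε
    obtain ⟨n0, hn0, H⟩ := clover_two_sided (ε := ε / 4) (by positivity)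
    have hfr : ∃ᶠ n in atTop, uval n < c + ε / 4 :=
      frequently_lt_of_liminf_lt hcob (by rw [← hcdef]; linarith)
    obtain ⟨n, hnlt, hnge⟩ := (hfr.and_eventually (eventually_ge_atTop (max n0 N1))).exists
    have hnn0 : n0 ≤ n := (le_max_left _ _).trans hnge
    obtain ⟨hUn, hbn⟩ := uval_mem (hN1 n ((le_max_right _ _).trans hnge)) hnlt
    obtain ⟨Q, i, N, O, hC⟩ := exists_clover n (hn0.trans hnn0)
    obtain ⟨m0, hm0, H'⟩ := H n hnn0 Q N O hC
    obtain ⟨N3, hN3⟩ := upper_eventually (n := n) (m0 := m0) (y := c + 3 * (ε / 4))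
      (ε := ε / 4) (hn0.trans hnn0) (by linarith) (by positivity) (fun m hm => by
        obtain ⟨x, hx1, hx2, hU, hL⟩ := H' m hm
        have := weak_clover hC (hn0.trans hnn0) hbn hL hUn
        exact hU.mono (by linarith))
    exact ⟨N3, fun n hn => (hN3 n hn).mono (by linarith)⟩
  refine ⟨c, hhalf, fun ε hε => ?_, hlow⟩
  obtain ⟨δ, hδ, Hl⟩ := hlow ε hε
  obtain ⟨n1, Hu⟩ := hup ε hε
  obtain ⟨n2, hn2⟩ := exists_nat_ge (1 / δ)
  refine ⟨max n1 n2, fun n hn Q _ N O hC w hw => ⟨?_, ?_⟩⟩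
  · have hlen := clover_length hC
    have := Hl Q N O (fun x y => by
      rw [hlen]
      refine (clover_dist_le hC x y).trans ?_
      have : (n2 : ℝ) ≤ n := by exact_mod_cast (le_max_right _ _).trans hn
      rw [div_le_iff₀ hδ] at hn2
      nlinarith) w hw
    rwa [hlen] at this
  · exact Hu n ((le_max_left _ _).trans hn) Q N O hC w hw

end MPacf82c
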