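import Pool.Agent.Lib.MP_acf82c_lc.Notions

/-!
# Cyclically shifted blocks
-/

namespace MPacf82c

open Finset

theorem slot_some {n : ℕ} {L : Finset (Fin n)} {B' c : ℕ} (hL : L.card ≤ B') {i : Fin n}
    (hi : i ∈ L) : ∃ s < B', slot L B' c s = some i := by
  obtain ⟨j, hj⟩ : ∃ j : Fin L.card, L.orderEmbOfFin rfl j = i := by
    have h1 : (i : Fin n) ∈ Set.range (L.orderEmbOfFin rfl) := by
      rw [Finset.range_orderEmbOfFin]
      exact hi
    exact h1
  have hB : 0 < B' := lt_of_lt_of_le (lt_of_le_of_lt (Nat.zero_le _) j.isLt) hL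
  have hcm : c % B' < B' := Nat.mod_lt _ hB
  have hdm : B' * (c / B') + c % B' = c := Nat.div_add_mod c B'
  have hs : ((j.val + B' - c % B') % B' + c) % B' = j.val := by
    rw [Nat.mod_add_mod]
    have h2 : j.val + B' - c % B' + c = j.val + B' * (c / B' + 1) := by
      rw [Nat.mul_add, Nat.mul_one]
      omega
    rw [h2, Nat.add_mul_mod_self_left]
    exact Nat.mod_eq_of_lt (lt_of_lt_of_le j.isLt hL)
  refine ⟨(j.val + B' - c % B') % B', Nat.mod_lt _ hB, ?_⟩
  unfold slot
  have hlt : ((j.val + B' - c % B') % B' + c) % B' < L.card := by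
    rw [hs]
    exact j.isLt
  rw [dif_pos hlt]
  congr 1
  rw [← hj]
  congr 1
  exact Fin.ext hs

theorem slot_count {n : ℕ} {L : Finset (Fin n)} {B' : ℕ} (hL : L.card ≤ B') (s : ℕ) :
    ((univ : Finset (Fin B')).filter fun c : Fin B' => slot L B' (c : ℕ) s ≠ none).card = L.card := by
  have h0 : ∀ c : ℕ, slot L B' c s ≠ none ↔ (s + c) % B' < L.card := by
    intro c
    unfold slot
    by_cases h : (s + c) % B' < L.card
    · rw [dif_pos h]
      simp [h]
    · rw [dif_neg h]
      simp [h]
  simp only [h0]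
  rcases Nat.eq_zero_or_pos B' with hB | hB
  · subst hB
    have h1 : L.card = 0 := Nat.le_zero.mp hL
    rw [h1]
    simp
  · have : NeZero B' := ⟨hB.ne'⟩
    have h1 : ((univ : Finset (Fin B')).filter fun c : Fin B' => (s + (c : ℕ)) % B' < L.card).card
        = ((univ : Finset (Fin B')).filter fun j : Fin B' => (j : ℕ) < L.card).card := by
      refine Finset.card_bij (fun c _ => Fin.ofNat B' s + c) ?_ ?_ ?_
      · intro c hc
        rw [Finset.mem_filter] at hc ⊢
        refine ⟨Finset.mem_univ _, ?_⟩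
        have h2 : ((Fin.ofNat B' s + c : Fin B') : ℕ) = (s + (c : ℕ)) % B' := by
          rw [Fin.val_add, Fin.val_ofNat, Nat.mod_add_mod]
        rw [h2]
        exact hc.2
      · intro a _ b _ hab
        exact add_left_cancel hab
      · intro j hj
        refine ⟨j - Fin.ofNat B' s, ?_, ?_⟩
        · rw [Finset.mem_filter] at hj ⊢
          refine ⟨Finset.mem_univ _, ?_⟩
          have h2 : ((Fin.ofNat B' s + (j - Fin.ofNat B' s) : Fin B') : ℕ) =
              (s + ((j - Fin.ofNat B' s : Fin B') : ℕ)) % B' := by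
            rw [Fin.val_add, Fin.val_ofNat, Nat.mod_add_mod]
          rw [← h2, add_sub_cancel]
          exact hj.2
        · exact add_sub_cancel _ _
    rw [h1, Fin.card_filter_val_lt]
    exact min_eq_right hL

end MPacf82c
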