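import Pool.Agent.Lib.MP_acf82c_lc.CloverTour
import Pool.Agent.Lib.MP_acf82c_lc.Slots

/-!
# One round of the searcher's strategy in the clover

The round consists of `M` blocks of `B'` slots. For a continuous hider path `H` let
`b k = true` iff `H` passes through `O` in the closed block `[k B', (k+1) B']`, and let `y k` be
the label of the open arc containing `H (k B')` (arbitrary if `H (k B') = O`). If `b k = false`
then `H` stays in one open arc in block `k`, so `y k = y (k+1)`, and `H` is caught in block `k` if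
`y k ∈ L k`, for every shift `c`. If `b k = true`, fix a time `τ` in the block with `H τ = O`,
in the slot `s`: `H` is caught if the slot is a waiting slot, which has probability
`1 - (L k).card / B'` (`slot_count`). The shifts of different blocks are independent. So the
probability (over `c`) of not being caught in the first `m` blocks is at most
`∏_{k<m} fac B' (L k) (y k) (b k)`, and this product is at most `surv B L y' b' m + κ^K` where
`κ = B / B'` and `(y', b')` is `(y, b)` cut after its `K`-th star (`b' k = false` and `y'`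
constant afterwards): the two products agree (up to the factors `κ ≤ 1`) up to the cut, and
after the cut the first one contains at least `K` factors `(L k).card / B' ≤ κ`.
Averaging over the optimal mixture `(p, L)` and summing over `m < M` gives `V + M κ^K`.
-/

namespace MPacf82c

open Set MeasureTheory
open scoped NNReal ENNReal

variable {Q : Type} [MetricSpace Q] {N : Network Q} {O : Q} {n : ℕ}

/-- A time in the block `k` lies in a closed slot of this block. -/
private theorem cr_exists_slot {k B' : ℕ} (hB' : 0 < B') {τ : ℝ≥0}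
    (h1 : (k : ℝ≥0) * B' ≤ τ) (h2 : τ ≤ ((k : ℝ≥0) + 1) * B') :
    ∃ s < B', ((k * B' + s : ℕ) : ℝ≥0) ≤ τ ∧ τ ≤ ((k * B' + s : ℕ) : ℝ≥0) + 1 := by
  have hf1 : k * B' ≤ ⌊τ⌋₊ := by
    apply Nat.le_floor
    push_cast
    exact h1
  have hf2 : ((⌊τ⌋₊ : ℕ) : ℝ≥0) ≤ τ := Nat.floor_le (zero_le)
  have hf3 : τ < ((⌊τ⌋₊ : ℕ) : ℝ≥0) + 1 := Nat.lt_floor_add_one τ
  by_cases h : ⌊τ⌋₊ < (k + 1) * B'
  · refine ⟨⌊τ⌋₊ - k * B', ?_, ?_, ?_⟩
    · rw [add_mul, one_mul] at h
      omega
    · rw [Nat.add_sub_cancel' hf1]
      exact hf2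
    · rw [Nat.add_sub_cancel' hf1]
      exact hf3.le
  · push Not at h
    refine ⟨B' - 1, by omega, ?_, ?_⟩
    · refine le_trans ?_ hf2
      have : k * B' + (B' - 1) ≤ ⌊τ⌋₊ := by
        rw [add_mul, one_mul] at h
        omega
      exact_mod_cast this
    · refine h2.trans (le_of_eq ?_)
      have e : (k + 1) * B' = k * B' + (B' - 1) + 1 := by
        rw [add_mul, one_mul]
        omega
      have e2 : (((k + 1) * B' : ℕ) : ℝ≥0) = ((k * B' + (B' - 1) + 1 : ℕ) : ℝ≥0) := by rw [e]
      push_cast at e2 ⊢
      exact e2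

/-- Distinct open arcs are disjoint. -/
private theorem cr_arc_unique {z : Q} {e e' : N.Arc} (h : z ∈ N.openArc e)
    (h' : z ∈ N.openArc e') : e = e' := by
  obtain ⟨s, hs, rfl⟩ := h
  obtain ⟨s', hs', he⟩ := h'
  exact (N.simple e e' s s' hs (Ioo_subset_Icc_self hs') he.symm).1

/-- The round in the slot `s` of the block `k`. -/
private theorem cr_roundSeq {L : ℕ → Finset (Fin n)} {B' k s : ℕ} (hs : s < B') (c : ℕ → ℕ) :
    roundSeq L B' c (k * B' + s) = slot (L k) B' (c k) s := by
  have h1 : (k * B' + s) / B' = k := by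
    rw [mul_comm, Nat.mul_add_div (by omega), Nat.div_eq_of_lt hs, add_zero]
  have h2 : (k * B' + s) % B' = s := by
    rw [mul_comm, Nat.mul_add_mod, Nat.mod_eq_of_lt hs]
  unfold roundSeq
  rw [h1, h2]

open Classical in
/-- Probability over the shifts of not being caught in the first `m` blocks; the arcs are
labelled by `eq`; the labels `(y, b)` of the hider path do not depend on `L`. -/
theorem round_survival (hC : IsClover N O n) (eq : Fin n ≃ N.Arc) {B' M : ℕ}
    (hB' : 0 < B') {H : ℝ≥0 → Q} (hH : Continuous H) :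
    ∃ (y : ℕ → Fin n) (b : ℕ → Bool), (∀ k, b k = false → y k = y (k + 1)) ∧
      ∀ L : ℕ → Finset (Fin n), (∀ k, (L k).card ≤ B') →
      ∀ m ≤ M, (((Finset.univ : Finset (Fin M → Fin B')).filter fun c =>
        ∀ τ : ℝ≥0, τ ≤ m * B' →
          tour N O (fun s => (roundSeq L B' (fun k => if h : k < M then (c ⟨k, h⟩ : ℕ) else 0)
            s).map eq) τ ≠ H τ).card : ℝ) / (B' : ℝ) ^ M ≤ surv B' L y b m := by
  obtain ⟨e0, _⟩ := N.cover (H 0)
  set b : ℕ → Bool := fun k =>
    decide (∃ τ ∈ Icc ((k : ℝ≥0) * B') (((k : ℝ≥0) + 1) * B'), H τ = O) with hb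
  set y : ℕ → Fin n := fun k =>
    if h : ∃ e, H ((k : ℝ≥0) * B') ∈ N.openArc e then eq.symm h.choose else eq.symm e0 with hy
  have hyk : ∀ (k : ℕ) (e : N.Arc), H ((k : ℝ≥0) * B') ∈ N.openArc e → y k = eq.symm e := by
    intro k e he
    have h : ∃ e, H ((k : ℝ≥0) * B') ∈ N.openArc e := ⟨e, he⟩
    simp only [hy]
    rw [dif_pos h, cr_arc_unique h.choose_spec he]
  have hle : ∀ k : ℕ, (k : ℝ≥0) * B' ≤ ((k : ℝ≥0) + 1) * B' := fun k => by
    gcongr
    exact le_self_add
  have hstay : ∀ k : ℕ, b k = false → ∀ τ ∈ Icc ((k : ℝ≥0) * B') (((k : ℝ≥0) + 1) * B'),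
      H τ ∈ N.openArc (eq (y k)) := by
    intro k hk
    have hn : ¬ ∃ τ ∈ Icc ((k : ℝ≥0) * B') (((k : ℝ≥0) + 1) * B'), H τ = O := by
      simpa [hb] using hk
    rcases clover_stay_or_star hC hH (hle k) with h | ⟨e, he⟩
    · exact (hn h).elim
    · rw [hyk k e (he _ (left_mem_Icc.2 (hle k))), Equiv.apply_symm_apply]
      exact he
  have hstar : ∀ k : ℕ, ∃ s < B', b k = true → ∃ τ : ℝ≥0, τ ≤ ((k : ℝ≥0) + 1) * B' ∧ H τ = O ∧
      ((k * B' + s : ℕ) : ℝ≥0) ≤ τ ∧ τ ≤ ((k * B' + s : ℕ) : ℝ≥0) + 1 := by
    intro k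
    by_cases hk : b k = true
    · have h : ∃ τ ∈ Icc ((k : ℝ≥0) * B') (((k : ℝ≥0) + 1) * B'), H τ = O := by
        simpa [hb] using hk
      obtain ⟨τ, hτ, hO⟩ := h
      obtain ⟨s, hs, h1, h2⟩ := cr_exists_slot hB' hτ.1 hτ.2
      exact ⟨s, hs, fun _ => ⟨τ, hτ.2, hO, h1, h2⟩⟩
    · exact ⟨0, hB', fun h => (hk h).elim⟩
  choose s hs hstar using hstar
  refine ⟨y, b, ?_, ?_⟩
  · intro k hk
    have h1 := hstay k hk (((k : ℝ≥0) + 1) * B') (right_mem_Icc.2 (hle k))
    have h2 := hyk (k + 1) (eq (y k)) (by
      push_cast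
      exact h1)
    rw [h2, Equiv.symm_apply_apply]
  · intro L hL m hm
    set A : ℕ → Finset (Fin B') := fun k =>
      if k < m then
        (if b k = true then
          (Finset.univ : Finset (Fin B')).filter fun c : Fin B' => slot (L k) B' (c : ℕ) (s k) ≠ none
        else if y k ∈ L k then ∅ else Finset.univ)
      else Finset.univ with hA
    have hsub : ((Finset.univ : Finset (Fin M → Fin B')).filter fun c =>
        ∀ τ : ℝ≥0, τ ≤ m * B' →
          tour N O (fun s => (roundSeq L B' (fun k => if h : k < M then (c ⟨k, h⟩ : ℕ) else 0)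
            s).map eq) τ ≠ H τ) ⊆ Fintype.piFinset (fun k : Fin M => A k) := by
      intro c hc
      have hc' := (Finset.mem_filter.1 hc).2
      rw [Fintype.mem_piFinset]
      rintro ⟨k, hkM⟩
      simp only [hA]
      by_cases hkm : k < m
      · rw [if_pos hkm]
        have hkm1 : ((k : ℝ≥0) + 1) * B' ≤ m * B' := by
          have : ((k + 1 : ℕ) : ℝ≥0) ≤ (m : ℝ≥0) := by exact_mod_cast hkm
          push_cast at this
          gcongr
        by_cases hbk : b k = true
        · rw [if_pos hbk, Finset.mem_filter]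
          refine ⟨Finset.mem_univ _, fun hnone => ?_⟩
          obtain ⟨τ, hτ1, hτO, hτ2, hτ3⟩ := hstar k hbk
          apply hc' τ (hτ1.trans hkm1)
          rw [hτO]
          refine tour_slot_none hC _ (k := k * B' + s k) ?_ ⟨hτ2, hτ3⟩
          rw [cr_roundSeq (hs k), dif_pos hkM, hnone]
          rfl
        · rw [if_neg hbk]
          have hbk' : b k = false := by simpa using hbk
          by_cases hyL : y k ∈ L k
          · exfalso
            obtain ⟨s', hs', hsome⟩ := slot_some (c := (c ⟨k, hkM⟩ : ℕ)) (hL k) hyL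
            have hup : ((k * B' + s' : ℕ) : ℝ≥0) + 1 ≤ ((k : ℝ≥0) + 1) * B' := by
              have h1 : k * B' + s' + 1 ≤ (k + 1) * B' := by
                rw [add_mul, one_mul]
                omega
              have h2 : ((k * B' + s' + 1 : ℕ) : ℝ≥0) ≤ (((k + 1) * B' : ℕ) : ℝ≥0) := by
                exact_mod_cast h1
              push_cast at h2 ⊢
              exact h2
            have hlow : (k : ℝ≥0) * B' ≤ ((k * B' + s' : ℕ) : ℝ≥0) := by
              push_cast
              exact le_self_add
            obtain ⟨τ, hτ, hmeet⟩ := tour_catch hC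
              (fun s => (roundSeq L B' (fun k => if h : k < M then (c ⟨k, h⟩ : ℕ) else 0)
                s).map eq) (k := k * B' + s') (e := eq (y k)) (by
                rw [cr_roundSeq hs', dif_pos hkM, hsome]
                rfl) hH (fun τ hτ => hstay k hbk' τ ⟨hlow.trans hτ.1, hτ.2.trans hup⟩)
            exact hc' τ (hτ.2.trans (hup.trans hkm1)) hmeet
          · rw [if_neg hyL]
            exact Finset.mem_univ _
      · rw [if_neg hkm]
        exact Finset.mem_univ _
    have hB0 : (B' : ℝ) ≠ 0 := by exact_mod_cast hB'.ne'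
    have hBpos : (0 : ℝ) < (B' : ℝ) ^ M := by positivity
    have hcard : ((Fintype.piFinset (fun k : Fin M => A k)).card : ℝ) / (B' : ℝ) ^ M =
        surv B' L y b m := by
      rw [Fintype.card_piFinset, Nat.cast_prod]
      have h1 : (B' : ℝ) ^ M = ∏ _k : Fin M, (B' : ℝ) := by
        rw [Finset.prod_const, Finset.card_univ, Fintype.card_fin]
      rw [h1, ← Finset.prod_div_distrib]
      rw [← Finset.prod_range (fun k => ((A k).card : ℝ) / B')]
      unfold surv
      rw [← Finset.prod_subset (Finset.range_subset_range.2 hm)]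
      · refine Finset.prod_congr rfl fun k hk => ?_
        have hkm : k < m := Finset.mem_range.1 hk
        simp only [hA]
        rw [if_pos hkm]
        unfold fac
        by_cases hbk : b k = true
        · rw [if_pos hbk, if_pos hbk, slot_count (hL k)]
        · rw [if_neg hbk, if_neg hbk]
          by_cases hyL : y k ∈ L k
          · rw [if_pos hyL, if_pos hyL]
            simp
          · rw [if_neg hyL, if_neg hyL, Finset.card_univ, Fintype.card_fin]
            exact div_self hB0
      · intro k _ hk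
        have hkm : ¬ k < m := fun h => hk (Finset.mem_range.2 h)
        simp only [hA]
        rw [if_neg hkm, Finset.card_univ, Fintype.card_fin]
        exact div_self hB0
    rw [← hcard]
    rw [div_le_div_iff_of_pos_right hBpos]
    exact_mod_cast Finset.card_le_card hsub

end MPacf82c
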