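import Pool.Agent.Lib.MP_acf82c_lc.CloverTop

/-!
# Tours in the clover

`tour N O a` tours the leaf `e` in the time slot `[k, k+1]` if `a k = some e`, and waits at `O`
if `a k = none`.
-/

namespace MPacf82c

open Set MeasureTheory
open scoped NNReal ENNReal

variable {Q : Type} [MetricSpace Q] {N : Network Q} {O : Q} {n : ℕ}

/-- At integer times the searcher is at `O`. -/
theorem tour_nat (hC : IsClover N O n) (a : ℕ → Option N.Arc) (k : ℕ) :
    tour N O a (k : ℝ≥0) = O := by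
  unfold tour
  rw [Nat.floor_natCast]
  cases a k with
  | none => rfl
  | some e =>
    change N.pt e (((k : ℝ≥0) : ℝ) - (k : ℝ)) = O
    rw [NNReal.coe_natCast, sub_self, hC.left]

theorem tour_zero (hC : IsClover N O n) (a : ℕ → Option N.Arc) : tour N O a 0 = O := by
  have h := tour_nat hC a 0
  rwa [Nat.cast_zero] at h

private theorem cloverTour_some (hC : IsClover N O n) (a : ℕ → Option N.Arc) {k : ℕ} {e : N.Arc}
    (ha : a k = some e) {τ : ℝ≥0} (hτ : τ ∈ Icc (k : ℝ≥0) (k + 1)) :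
    tour N O a τ = N.pt e ((τ : ℝ) - k) := by
  rcases eq_or_lt_of_le hτ.2 with h | h
  · have h1 : tour N O a τ = O := by
      have h2 := tour_nat hC a (k + 1)
      rw [Nat.cast_add, Nat.cast_one, ← h] at h2
      exact h2
    rw [h1, h]
    push_cast
    rw [add_sub_cancel_left, hC.right]
  · have hf : ⌊τ⌋₊ = k := by
      rw [Nat.floor_eq_iff (zero_le)]
      exact ⟨hτ.1, h⟩
    unfold tour
    rw [hf, ha]

private theorem cloverTour_none (hC : IsClover N O n) (a : ℕ → Option N.Arc) {k : ℕ}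
    (ha : a k = none) {τ : ℝ≥0} (hτ : τ ∈ Icc (k : ℝ≥0) (k + 1)) :
    tour N O a τ = O := by
  rcases eq_or_lt_of_le hτ.2 with h | h
  · have h2 := tour_nat hC a (k + 1)
    rw [Nat.cast_add, Nat.cast_one, ← h] at h2
    exact h2
  · have hf : ⌊τ⌋₊ = k := by
      rw [Nat.floor_eq_iff (zero_le)]
      exact ⟨hτ.1, h⟩
    unfold tour
    rw [hf, ha]

private theorem cloverTour_lip (hC : IsClover N O n) (a : ℕ → Option N.Arc) {k : ℕ} {τ τ' : ℝ≥0}
    (hτ : τ ∈ Icc (k : ℝ≥0) (k + 1)) (hτ' : τ' ∈ Icc (k : ℝ≥0) (k + 1)) :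
    dist (tour N O a τ) (tour N O a τ') ≤ |(τ : ℝ) - τ'| := by
  cases h : a k with
  | none =>
    rw [cloverTour_none hC a h hτ, cloverTour_none hC a h hτ', dist_self]
    exact abs_nonneg _
  | some e =>
    rw [cloverTour_some hC a h hτ, cloverTour_some hC a h hτ']
    have hmem : ∀ t : ℝ≥0, t ∈ Icc (k : ℝ≥0) (k + 1) → (t : ℝ) - k ∈ Icc 0 (N.len e) := by
      intro t ht
      rw [hC.len]
      have h1 : (k : ℝ) ≤ t := by exact_mod_cast ht.1
      have h2 : (t : ℝ) ≤ k + 1 := by exact_mod_cast ht.2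
      constructor <;> linarith
    refine (N.dist_le e _ (hmem τ hτ) _ (hmem τ' hτ')).trans (le_of_eq ?_)
    congr 1
    ring

theorem tour_lip (hC : IsClover N O n) (a : ℕ → Option N.Arc) :
    LipschitzWith 1 (tour N O a) := by
  have hfl : ∀ t : ℝ≥0, t ∈ Icc ((⌊t⌋₊ : ℕ) : ℝ≥0) ((⌊t⌋₊ : ℕ) + 1) := fun t =>
    ⟨Nat.floor_le (zero_le), (Nat.lt_floor_add_one t).le⟩
  have key : ∀ τ τ' : ℝ≥0, τ ≤ τ' → dist (tour N O a τ) (tour N O a τ') ≤ (τ' : ℝ) - τ := by
    intro τ τ' hle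
    have hle' : (τ : ℝ) ≤ τ' := by exact_mod_cast hle
    have hk : ⌊τ⌋₊ ≤ ⌊τ'⌋₊ := Nat.floor_mono hle
    rcases eq_or_lt_of_le hk with h | h
    · have h1 := cloverTour_lip hC a (hfl τ) (τ' := τ') (by rw [h]; exact hfl τ')
      rwa [abs_sub_comm, abs_of_nonneg (sub_nonneg.mpr hle')] at h1
    · have h1 : dist (tour N O a τ) O ≤ (⌊τ⌋₊ : ℝ) + 1 - τ := by
        have h2 := cloverTour_lip hC a (hfl τ) (τ' := ((⌊τ⌋₊ : ℕ) : ℝ≥0) + 1)
          ⟨le_self_add, le_rfl⟩
        have h3 := tour_nat hC a (⌊τ⌋₊ + 1)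
        rw [Nat.cast_add, Nat.cast_one] at h3
        rw [h3] at h2
        refine h2.trans (le_of_eq ?_)
        have h4 : (τ : ℝ) ≤ (⌊τ⌋₊ : ℝ) + 1 := by exact_mod_cast (hfl τ).2
        rw [abs_sub_comm, abs_of_nonneg]
        · push_cast
          ring
        · push_cast
          linarith
      have h2 : dist O (tour N O a τ') ≤ (τ' : ℝ) - ⌊τ'⌋₊ := by
        have h2 := cloverTour_lip hC a (τ := ((⌊τ'⌋₊ : ℕ) : ℝ≥0)) ⟨le_rfl, le_self_add⟩ (hfl τ')
        rw [tour_nat hC a] at h2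
        refine h2.trans (le_of_eq ?_)
        have h4 : (⌊τ'⌋₊ : ℝ) ≤ τ' := by exact_mod_cast (hfl τ').1
        rw [abs_sub_comm, abs_of_nonneg]
        · push_cast
          ring
        · push_cast
          linarith
      have h3 : (⌊τ⌋₊ : ℝ) + 1 ≤ ⌊τ'⌋₊ := by exact_mod_cast h
      refine (dist_triangle _ O _).trans ?_
      linarith
  apply LipschitzWith.mk_one
  intro τ τ'
  rcases le_total τ τ' with h | h
  · refine (key τ τ' h).trans ?_
    rw [NNReal.dist_eq, abs_sub_comm]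
    exact le_abs_self _
  · rw [dist_comm]
    refine (key τ' τ h).trans ?_
    rw [NNReal.dist_eq]
    exact le_abs_self _

/-- On the closed slot `[k, k+1]`. -/
theorem tour_slot_some (hC : IsClover N O n) (a : ℕ → Option N.Arc) {k : ℕ} {e : N.Arc}
    (ha : a k = some e) {τ : ℝ≥0} (hτ : τ ∈ Icc (k : ℝ≥0) (k + 1)) :
    tour N O a τ = N.pt e ((τ : ℝ) - k) := cloverTour_some hC a ha hτ

theorem tour_slot_none (hC : IsClover N O n) (a : ℕ → Option N.Arc) {k : ℕ}
    (ha : a k = none) {τ : ℝ≥0} (hτ : τ ∈ Icc (k : ℝ≥0) (k + 1)) :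
    tour N O a τ = O := cloverTour_none hC a ha hτ

/-- A hider who stays in the open arc `e` during the slot `[k, k+1]` in which the searcher tours
`e` is caught (intermediate value theorem for `(τ - k) - y τ`). -/
theorem tour_catch (hC : IsClover N O n) (a : ℕ → Option N.Arc) {k : ℕ} {e : N.Arc}
    (ha : a k = some e) {H : ℝ≥0 → Q} (hH : Continuous H)
    (hs : ∀ τ ∈ Icc (k : ℝ≥0) (k + 1), H τ ∈ N.openArc e) :
    ∃ τ ∈ Icc (k : ℝ≥0) (k + 1), tour N O a τ = H τ := by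
  obtain ⟨y, hy, hy2⟩ := clover_coord hC hH hs
  have hle : (k : ℝ≥0) ≤ k + 1 := le_self_add
  have hcont : ContinuousOn (fun τ : ℝ≥0 => ((τ : ℝ) - k) - y τ) (Icc (k : ℝ≥0) (k + 1)) := by
    apply ContinuousOn.sub _ hy
    exact (NNReal.continuous_coe.sub continuous_const).continuousOn
  have hivt := intermediate_value_Icc hle hcont
  have h0 := (hy2 k ⟨le_rfl, hle⟩).1
  have h1 := (hy2 (k + 1) ⟨hle, le_rfl⟩).1
  have hmem : (0 : ℝ) ∈ Icc ((((k : ℝ≥0) : ℝ) - k) - y k)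
      ((((k : ℝ≥0) + 1 : ℝ≥0) : ℝ) - k - y (k + 1)) := by
    constructor
    · push_cast
      linarith [h0.1]
    · push_cast
      linarith [h1.2]
  obtain ⟨τ, hτ, hτ2⟩ := hivt hmem
  refine ⟨τ, hτ, ?_⟩
  rw [cloverTour_some hC a ha hτ, (hy2 τ hτ).2]
  congr 1
  have h3 : ((τ : ℝ) - k) - y τ = 0 := hτ2
  linarith

/-- Two tours which agree on the slots `k0, k0+1, ..., k0+r-1` and `0, ..., r-1` agree as paths
after a shift of time. -/
theorem tour_shift (hC : IsClover N O n) (a a' : ℕ → Option N.Arc) {k0 r : ℕ}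
    (h : ∀ s < r, a (k0 + s) = a' s) {τ : ℝ≥0} (hτ : τ ≤ r) :
    tour N O a (k0 + τ) = tour N O a' τ := by
  rcases eq_or_lt_of_le hτ with h1 | h1
  · have h2 := tour_nat hC a (k0 + r)
    rw [Nat.cast_add, ← h1] at h2
    have h3 := tour_nat hC a' r
    rw [← h1] at h3
    rw [h2, h3]
  · have h2 : ⌊(k0 : ℝ≥0) + τ⌋₊ = k0 + ⌊τ⌋₊ := by
      rw [add_comm, Nat.floor_add_natCast (zero_le), add_comm]
    have h3 : ⌊τ⌋₊ < r := (Nat.floor_lt (zero_le)).mpr h1
    unfold tour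
    rw [h2, h _ h3]
    cases a' ⌊τ⌋₊ with
    | none => rfl
    | some e =>
      change N.pt e _ = N.pt e _
      congr 1
      push_cast
      ring

end MPacf82c
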