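import Mathlib

/-!
# Networks, the search game with a mobile hider, guarantees of the two players
-/

namespace MPacf82c

open Set MeasureTheory
open scoped NNReal ENNReal

/-- `Walk len pt x y L`: one can go from `x` to `y` by finitely many moves, each inside one arc,
of total length `L`. -/
inductive Walk {Q Arc : Type} (len : Arc → ℝ) (pt : Arc → ℝ → Q) : Q → Q → ℝ → Prop
  | nil (x : Q) : Walk len pt x x 0
  | cons (e : Arc) (s t : ℝ) (hs : s ∈ Icc 0 (len e)) (ht : t ∈ Icc 0 (len e)) (y : Q) (L : ℝ)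
      (h : Walk len pt (pt e t) y L) : Walk len pt (pt e s) y (|s - t| + L)

/-- A presentation of the metric space `Q` as a network: finitely many arcs, the arc `e` being
parametrised by arc length on `[0, len e]`; the arcs cover `Q`, distinct arcs meet only at end
points, interior points of an arc are simple, and `dist` is the length of a shortest walk. -/
structure Network (Q : Type) [MetricSpace Q] where
  Arc : Type
  fin : Fintype Arc
  len : Arc → ℝ
  len_pos : ∀ e, 0 < len e
  pt : Arc → ℝ → Q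
  cover : ∀ z, ∃ e, ∃ s ∈ Icc 0 (len e), pt e s = z
  simple : ∀ e e' s s', s ∈ Ioo 0 (len e) → s' ∈ Icc 0 (len e') → pt e s = pt e' s' →
    e = e' ∧ s = s'
  dist_le : ∀ e, ∀ s ∈ Icc 0 (len e), ∀ t ∈ Icc 0 (len e), dist (pt e s) (pt e t) ≤ |s - t|
  walk : ∀ x y, Walk len pt x y (dist x y)

attribute [instance] Network.fin

variable {Q : Type} [MetricSpace Q]

/-- Total length `μ(Q)`. -/
noncomputable def Network.length (N : Network Q) : ℝ := ∑ e, N.len e

/-- `N` is the `n`-leafed clover with centre `O` and loops of length `1`. -/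
structure IsClover (N : Network Q) (O : Q) (n : ℕ) : Prop where
  card : Fintype.card N.Arc = n
  len : ∀ e, N.len e = 1
  left : ∀ e, N.pt e 0 = O
  right : ∀ e, N.pt e 1 = O

/-- The capture time of the hider path `H` by the searcher path `S` (`∞` if they never meet). -/
noncomputable def captureTime (S H : ℝ≥0 → Q) : ℝ≥0∞ := ⨅ (t : ℝ≥0) (_ : S t = H t), (t : ℝ≥0∞)

/-- The hider (speed bound `w`) has a mixed strategy for which the expected capture time is at
least `v` whatever the searcher starting at `O` does. -/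
def HiderGuarantees (w : ℝ≥0) (O : Q) (v : ℝ≥0∞) : Prop :=
  ∃ (Ω : Type) (_ : MeasurableSpace Ω) (P : Measure Ω) (H : Ω → ℝ≥0 → Q),
    IsProbabilityMeasure P ∧ (∀ ω, LipschitzWith w (H ω)) ∧
    (∀ t, @Measurable Ω Q _ (borel Q) fun ω => H ω t) ∧
    ∀ S : ℝ≥0 → Q, S 0 = O → LipschitzWith 1 S → v ≤ ∫⁻ ω, captureTime S (H ω) ∂P

/-- The searcher starting at `O` has a mixed strategy for which the expected capture time is at
most `v` whatever the hider (speed bound `w`) does. -/
def SearcherGuarantees (w : ℝ≥0) (O : Q) (v : ℝ≥0∞) : Prop :=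
  ∃ (Ω : Type) (_ : MeasurableSpace Ω) (P : Measure Ω) (S : Ω → ℝ≥0 → Q),
    IsProbabilityMeasure P ∧ (∀ ω, S ω 0 = O) ∧ (∀ ω, LipschitzWith 1 (S ω)) ∧
    (∀ t, @Measurable Ω Q _ (borel Q) fun ω => S ω t) ∧
    ∀ H : ℝ≥0 → Q, LipschitzWith w H → ∫⁻ ω, captureTime (S ω) H ∂P ≤ v

end MPacf82c
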