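import Mathlib

/-!
# Existence of the unit electrical current

Finite connected multigraph: vertices `V`, edges `E`, the edge `e` joins `t e` to `h e` and has
resistance `ℓ e > 0`. The Laplacian `Lap φ v = ∑_{t e = v} (φ(t e)-φ(h e))/ℓ e -
∑_{h e = v} (φ(t e)-φ(h e))/ℓ e` is symmetric, its kernel consists of the constants (energy
`∑ (φ(t e)-φ(h e))²/ℓ e = ∑ φ v * Lap φ v`, connectedness), so by rank-nullity its range is
`{f | ∑ f = 0}`.
-/

namespace MPacf82c

open Finset

/-- The Laplacian as a linear map. -/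
noncomputable def elecLap {V E : Type} [Fintype E] [DecidableEq V] (t h : E → V) (ℓ : E → ℝ) :
    (V → ℝ) →ₗ[ℝ] (V → ℝ) where
  toFun φ v := ∑ e ∈ univ.filter (fun e => t e = v), (φ (t e) - φ (h e)) / ℓ e -
      ∑ e ∈ univ.filter (fun e => h e = v), (φ (t e) - φ (h e)) / ℓ e
  map_add' φ ψ := by
    funext v
    simp only [Pi.add_apply]
    have h1 : ∀ e, (φ (t e) + ψ (t e) - (φ (h e) + ψ (h e))) / ℓ e =
        (φ (t e) - φ (h e)) / ℓ e + (ψ (t e) - ψ (h e)) / ℓ e := by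
      intro e
      ring
    simp only [h1, Finset.sum_add_distrib]
    ring
  map_smul' c φ := by
    funext v
    simp only [Pi.smul_apply, smul_eq_mul, RingHom.id_apply]
    have h1 : ∀ e, (c * φ (t e) - c * φ (h e)) / ℓ e = c * ((φ (t e) - φ (h e)) / ℓ e) := by
      intro e
      ring
    simp only [h1, ← Finset.mul_sum]
    ring

lemma elecLap_pairing {V E : Type} [Fintype V] [Fintype E] [DecidableEq V] (t h : E → V)
    (ℓ : E → ℝ) (φ ψ : V → ℝ) :
    ∑ v, ψ v * elecLap t h ℓ φ v = ∑ e, (ψ (t e) - ψ (h e)) * ((φ (t e) - φ (h e)) / ℓ e) := by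
  have h1 : ∀ s : E → V, ∑ v, ψ v * ∑ e ∈ univ.filter (fun e => s e = v),
      (φ (t e) - φ (h e)) / ℓ e = ∑ e, ψ (s e) * ((φ (t e) - φ (h e)) / ℓ e) := by
    intro s
    rw [← Finset.sum_fiberwise (s := univ) (g := s)
      (f := fun e => ψ (s e) * ((φ (t e) - φ (h e)) / ℓ e))]
    refine Finset.sum_congr rfl fun v _ => ?_
    rw [Finset.mul_sum]
    refine Finset.sum_congr rfl fun e he => ?_
    rw [(Finset.mem_filter.mp he).2]
  have h2 : ∀ v, elecLap t h ℓ φ v = ∑ e ∈ univ.filter (fun e => t e = v),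
      (φ (t e) - φ (h e)) / ℓ e - ∑ e ∈ univ.filter (fun e => h e = v),
      (φ (t e) - φ (h e)) / ℓ e := fun v => rfl
  simp only [h2, mul_sub, Finset.sum_sub_distrib]
  rw [h1 t, h1 h, ← Finset.sum_sub_distrib]
  refine Finset.sum_congr rfl fun e _ => ?_
  ring

theorem electrical {V E : Type} [Fintype V] [Fintype E] [DecidableEq V] (t h : E → V)
    (ℓ : E → ℝ) (hℓ : ∀ e, 0 < ℓ e)
    (hconn : ∀ u v : V, Relation.ReflTransGen
      (fun u v => ∃ e, (t e = u ∧ h e = v) ∨ (t e = v ∧ h e = u)) u v) (a b : V) :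
    ∃ φ : V → ℝ, ∀ v, ∑ e ∈ univ.filter (fun e => t e = v), (φ (t e) - φ (h e)) / ℓ e -
      ∑ e ∈ univ.filter (fun e => h e = v), (φ (t e) - φ (h e)) / ℓ e =
        (if v = a then 1 else 0) - (if v = b then 1 else 0) := by
  classical
  by_contra hne
  set f : V → ℝ := fun v => (if v = a then 1 else 0) - (if v = b then 1 else 0) with hf
  have hmem : f ∉ LinearMap.range (elecLap t h ℓ) := by
    rintro ⟨φ, hφ⟩
    exact hne ⟨φ, fun v => congrFun hφ v⟩
  obtain ⟨Ψ, hΨf, hΨ⟩ := Submodule.exists_le_ker_of_notMem hmem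
  set ψ : V → ℝ := fun v => Ψ (fun j => if v = j then 1 else 0) with hψ
  have hrep : ∀ x : V → ℝ, Ψ x = ∑ v, ψ v * x v := by
    intro x
    rw [LinearMap.pi_apply_eq_sum_univ Ψ x]
    refine Finset.sum_congr rfl fun v _ => ?_
    rw [smul_eq_mul, mul_comm]
  have h0 : ∑ v, ψ v * elecLap t h ℓ ψ v = 0 := by
    rw [← hrep]
    exact hΨ ⟨ψ, rfl⟩
  rw [elecLap_pairing] at h0
  have h1 : ∀ e ∈ (univ : Finset E), 0 ≤ (ψ (t e) - ψ (h e)) * ((ψ (t e) - ψ (h e)) / ℓ e) := by
    intro e _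
    rw [← mul_div_assoc]
    exact div_nonneg (mul_self_nonneg _) (hℓ e).le
  have h2 : ∀ e, ψ (t e) = ψ (h e) := by
    intro e
    have h3 := (Finset.sum_eq_zero_iff_of_nonneg h1).mp h0 e (Finset.mem_univ e)
    rw [← mul_div_assoc, div_eq_zero_iff] at h3
    rcases h3 with h3 | h3
    · have h4 := mul_self_eq_zero.mp h3
      linarith
    · exact absurd h3 (hℓ e).ne'
  have h5 : ∀ u v : V, ψ u = ψ v := by
    intro u v
    induction hconn u v with
    | refl => rfl
    | tail _ hstep ih =>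
      obtain ⟨e, he | he⟩ := hstep
      · rw [ih, ← he.1, ← he.2, h2 e]
      · rw [ih, ← he.1, ← he.2, h2 e]
  apply hΨf
  rw [hrep]
  have h6 : ∀ v, ψ v * f v = ψ a * ((if v = a then 1 else 0) - (if v = b then 1 else 0)) := by
    intro v
    rw [h5 v a]
  simp only [h6, ← Finset.mul_sum, Finset.sum_sub_distrib]
  simp

end MPacf82c
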