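import Pool.Agent.Lib.MP_acf82c_lc.Notions

/-!
# Path decomposition of the electrical current

`F e > 0` means flow from `t e` to `h e`; `F` is a unit flow from `a` to `b` and it only flows
from higher to lower potential. Then it is a convex combination of directed paths.

Proof: strong induction on the number of edges with nonzero flow, for flows of arbitrary
value `c ≥ 0` (weights summing to `c`): if the flow is not zero follow edges with flow out of the
current vertex; the potential decreases, so one arrives at `b`; subtract the minimum of `|F e|` on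
this path times the path. Each path visits an edge at most once because the potential decreases.
-/

namespace MPacf82c

open Finset

private theorem flowDecomp_bound {V E : Type} {t h : E → V} {φ : V → ℝ} {a b : V}
    {l : List (E × Bool)} (hl : DirPath t h φ a b l) :
    ∀ e ∈ l.map Prod.fst, φ (t e) ≤ φ a ∧ φ (h e) ≤ φ a := by
  induction hl with
  | nil v => simp
  | fwd e b l hφ _ ih =>
    intro e' he'
    rw [List.map_cons, List.mem_cons] at he'
    rcases he' with rfl | he'
    · exact ⟨le_rfl, hφ.le⟩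
    · exact ⟨(ih e' he').1.trans hφ.le, (ih e' he').2.trans hφ.le⟩
  | bwd e b l hφ _ ih =>
    intro e' he'
    rw [List.map_cons, List.mem_cons] at he'
    rcases he' with rfl | he'
    · exact ⟨hφ.le, le_rfl⟩
    · exact ⟨(ih e' he').1.trans hφ.le, (ih e' he').2.trans hφ.le⟩

/-- A path along which the potential strictly decreases has no repeated edge. -/
private theorem flowDecomp_nodup {V E : Type} {t h : E → V} {φ : V → ℝ} {a b : V}
    {l : List (E × Bool)} (hl : DirPath t h φ a b l) : (l.map Prod.fst).Nodup := by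
  induction hl with
  | nil v => simp
  | fwd e b l hφ hl ih =>
    rw [List.map_cons, List.nodup_cons]
    refine ⟨fun he => ?_, ih⟩
    have := (flowDecomp_bound hl e he).1
    linarith
  | bwd e b l hφ hl ih =>
    rw [List.map_cons, List.nodup_cons]
    refine ⟨fun he => ?_, ih⟩
    have := (flowDecomp_bound hl e he).2
    linarith

section

variable {V E : Type} [Fintype V] [Fintype E] [DecidableEq V] [DecidableEq E]

/-- the divergence -/
private noncomputable def flowDecomp_dv (t h : E → V) (F : E → ℝ) (v : V) : ℝ :=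
  ∑ e, F e * ((if t e = v then 1 else 0) - (if h e = v then 1 else 0))

private theorem flowDecomp_energy (t h : E → V) (φ : V → ℝ) (F : E → ℝ) :
    ∑ v, φ v * flowDecomp_dv t h F v = ∑ e, F e * (φ (t e) - φ (h e)) := by
  unfold flowDecomp_dv
  simp only [Finset.mul_sum]
  rw [Finset.sum_comm]
  refine Finset.sum_congr rfl fun e _ => ?_
  have h1 : ∀ v, φ v * (F e * ((if t e = v then 1 else 0) - (if h e = v then 1 else 0))) =
      F e * ((if t e = v then φ v else 0) - (if h e = v then φ v else 0)) := by
    intro v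
    split_ifs <;> ring
  rw [Finset.sum_congr rfl fun v _ => h1 v, ← Finset.mul_sum, Finset.sum_sub_distrib,
    Finset.sum_ite_eq, Finset.sum_ite_eq]
  simp

private theorem flowDecomp_term_pos (t h : E → V) (φ : V → ℝ) (F : E → ℝ)
    (hpos : ∀ e, 0 < F e → φ (h e) < φ (t e)) (hneg : ∀ e, F e < 0 → φ (t e) < φ (h e))
    (e : E) (he : F e ≠ 0) : 0 < F e * (φ (t e) - φ (h e)) := by
  rcases lt_or_gt_of_ne he with h1 | h1
  · exact mul_pos_of_neg_of_neg h1 (by linarith [hneg e h1])
  · exact mul_pos h1 (by linarith [hpos e h1])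

private theorem flowDecomp_term_nonneg (t h : E → V) (φ : V → ℝ) (F : E → ℝ)
    (hpos : ∀ e, 0 < F e → φ (h e) < φ (t e)) (hneg : ∀ e, F e < 0 → φ (t e) < φ (h e))
    (e : E) : 0 ≤ F e * (φ (t e) - φ (h e)) := by
  by_cases he : F e = 0
  · rw [he, zero_mul]
  · exact (flowDecomp_term_pos t h φ F hpos hneg e he).le

/-- Existence of a directed path in the support. -/
private theorem flowDecomp_path (t h : E → V) (φ : V → ℝ) (F : E → ℝ) (c : ℝ) (hc : 0 < c)
    (hpos : ∀ e, 0 < F e → φ (h e) < φ (t e)) (hneg : ∀ e, F e < 0 → φ (t e) < φ (h e))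
    {a b : V} (hcons : ∀ v, flowDecomp_dv t h F v =
      c * ((if v = a then 1 else 0) - (if v = b then 1 else 0))) :
    ∀ (n : ℕ) (v : V), (univ.filter fun u => φ u < φ v).card = n →
      (v = a ∨ (∃ e, 0 < F e ∧ h e = v) ∨ (∃ e, F e < 0 ∧ t e = v)) →
      ∃ l : List (E × Bool), DirPath t h φ v b l ∧ ∀ e ∈ l.map Prod.fst, F e ≠ 0 := by
  intro n
  induction n using Nat.strong_induction_on with
  | _ n ih =>
  intro v hn hv
  by_cases hvb : v = b
  · subst hvb
    exact ⟨[], DirPath.nil v, by simp⟩
  have hdv := hcons v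
  rw [if_neg hvb, sub_zero] at hdv
  -- there is an outgoing edge
  have hout : (∃ e, 0 < F e ∧ t e = v) ∨ (∃ e, F e < 0 ∧ h e = v) := by
    by_contra hcon
    push Not at hcon
    obtain ⟨h1, h2⟩ := hcon
    have hterm : ∀ e, F e * ((if t e = v then 1 else 0) - (if h e = v then 1 else 0)) ≤ 0 := by
      intro e
      rcases lt_trichotomy (F e) 0 with hF | hF | hF
      · rw [if_neg (h2 e hF), sub_zero]
        split_ifs
        · linarith
        · linarith
      · rw [hF, zero_mul]
      · rw [if_neg (h1 e hF), zero_sub]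
        split_ifs
        · linarith
        · linarith
    rcases hv with hv | ⟨e, he, hev⟩ | ⟨e, he, hev⟩
    · have h3 : flowDecomp_dv t h F v ≤ 0 := Finset.sum_nonpos fun e _ => hterm e
      rw [hdv, if_pos hv, mul_one] at h3
      linarith
    · have h3 : flowDecomp_dv t h F v < 0 := by
        refine Finset.sum_neg' (fun e _ => hterm e) ⟨e, Finset.mem_univ e, ?_⟩
        rw [if_neg (h1 e he), if_pos hev]
        linarith
      rw [hdv] at h3
      split_ifs at h3 <;> linarith
    · have h3 : flowDecomp_dv t h F v < 0 := by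
        refine Finset.sum_neg' (fun e _ => hterm e) ⟨e, Finset.mem_univ e, ?_⟩
        rw [if_neg (h2 e he), if_pos hev]
        linarith
      rw [hdv] at h3
      split_ifs at h3 <;> linarith
  have hlt : ∀ u, φ u < φ v →
      (univ.filter fun w => φ w < φ u).card < (univ.filter fun w => φ w < φ v).card := by
    intro u hu
    refine Finset.card_lt_card ⟨fun w hw => ?_, fun hsub => ?_⟩
    · rw [Finset.mem_filter] at hw ⊢
      exact ⟨hw.1, hw.2.trans hu⟩
    · have : u ∈ univ.filter fun w => φ w < φ u :=
        hsub (Finset.mem_filter.mpr ⟨Finset.mem_univ u, hu⟩)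
      rw [Finset.mem_filter] at this
      exact lt_irrefl _ this.2
  rcases hout with ⟨e, he, rfl⟩ | ⟨e, he, rfl⟩
  · have h1 := hpos e he
    obtain ⟨l, hl, hl'⟩ := ih _ (hn ▸ hlt (h e) h1) (h e) rfl (Or.inr (Or.inl ⟨e, he, rfl⟩))
    refine ⟨(e, true) :: l, DirPath.fwd e b l h1 hl, ?_⟩
    intro e' he'
    rw [List.map_cons, List.mem_cons] at he'
    rcases he' with rfl | he'
    · exact he.ne'
    · exact hl' e' he'
  · have h1 := hneg e he
    obtain ⟨l, hl, hl'⟩ := ih _ (hn ▸ hlt (t e) h1) (t e) rfl (Or.inr (Or.inr ⟨e, he, rfl⟩))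
    refine ⟨(e, false) :: l, DirPath.bwd e b l h1 hl, ?_⟩
    intro e' he'
    rw [List.map_cons, List.mem_cons] at he'
    rcases he' with rfl | he'
    · exact he.ne
    · exact hl' e' he'

private theorem flowDecomp_ite_comm (x y : V) :
    (if x = y then (1 : ℝ) else 0) = if y = x then 1 else 0 := by
  by_cases hxy : x = y
  · rw [if_pos hxy, if_pos hxy.symm]
  · rw [if_neg hxy, if_neg fun h' => hxy h'.symm]

/-- the signed indicator of a path -/
private noncomputable def flowDecomp_ind (F : E → ℝ) (l : List (E × Bool)) (e : E) : ℝ :=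
  if e ∈ l.map Prod.fst then (if 0 < F e then 1 else -1) else 0

private theorem flowDecomp_dv_ind (t h : E → V) (φ : V → ℝ) (F : E → ℝ)
    (hpos : ∀ e, 0 < F e → φ (h e) < φ (t e)) (hneg : ∀ e, F e < 0 → φ (t e) < φ (h e))
    {a b : V} {l : List (E × Bool)} (hl : DirPath t h φ a b l)
    (hF : ∀ e ∈ l.map Prod.fst, F e ≠ 0) (v : V) :
    flowDecomp_dv t h (flowDecomp_ind F l) v =
      (if v = a then 1 else 0) - (if v = b then 1 else 0) := by
  induction hl with
  | nil w =>
    unfold flowDecomp_dv flowDecomp_ind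
    simp
  | fwd e b l hφ hl ih =>
    have hnd := flowDecomp_nodup (DirPath.fwd e b l hφ hl)
    rw [List.map_cons, List.nodup_cons] at hnd
    have he : 0 < F e := by
      rcases lt_or_gt_of_ne (hF e (by simp)) with h1 | h1
      · exact absurd (hneg e h1) (by linarith)
      · exact h1
    have hind : ∀ e', flowDecomp_ind F ((e, true) :: l) e' =
        (if e' = e then 1 else 0) + flowDecomp_ind F l e' := by
      intro e'
      unfold flowDecomp_ind
      simp only [List.map_cons, List.mem_cons]
      by_cases h1 : e' = e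
      · subst h1
        simp [hnd.1, he]
      · simp [h1]
    have h2 := ih (fun e' he' => hF e' (by
      rw [List.map_cons, List.mem_cons]
      exact Or.inr he'))
    unfold flowDecomp_dv at h2 ⊢
    simp only [hind, add_mul, Finset.sum_add_distrib, h2, ite_mul, one_mul, zero_mul,
      Finset.sum_ite_eq', Finset.mem_univ, if_true]
    rw [flowDecomp_ite_comm (t e) v, flowDecomp_ite_comm (h e) v]
    ring
  | bwd e b l hφ hl ih =>
    have hnd := flowDecomp_nodup (DirPath.bwd e b l hφ hl)
    rw [List.map_cons, List.nodup_cons] at hnd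
    have he : ¬ 0 < F e := by
      intro h1
      exact absurd (hpos e h1) (by linarith)
    have hind : ∀ e', flowDecomp_ind F ((e, false) :: l) e' =
        (if e' = e then -1 else 0) + flowDecomp_ind F l e' := by
      intro e'
      unfold flowDecomp_ind
      simp only [List.map_cons, List.mem_cons]
      by_cases h1 : e' = e
      · subst h1
        simp [hnd.1, he]
      · simp [h1]
    have h2 := ih (fun e' he' => hF e' (by
      rw [List.map_cons, List.mem_cons]
      exact Or.inr he'))
    unfold flowDecomp_dv at h2 ⊢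
    simp only [hind, add_mul, Finset.sum_add_distrib, h2, ite_mul, zero_mul,
      Finset.sum_ite_eq', Finset.mem_univ, if_true]
    rw [flowDecomp_ite_comm (t e) v, flowDecomp_ite_comm (h e) v]
    ring

private theorem flowDecomp_aux (t h : E → V) (φ : V → ℝ) {a b : V} (hab : a ≠ b) :
    ∀ (n : ℕ) (F : E → ℝ) (c : ℝ), (univ.filter fun e => F e ≠ 0).card = n →
    (∀ e, 0 < F e → φ (h e) < φ (t e)) → (∀ e, F e < 0 → φ (t e) < φ (h e)) → 0 ≤ c →
    (∀ v, flowDecomp_dv t h F v = c * ((if v = a then 1 else 0) - (if v = b then 1 else 0))) →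
    ∃ (m : ℕ) (lam : Fin m → ℝ) (P : Fin m → List (E × Bool)), (∀ i, 0 ≤ lam i) ∧
      ∑ i, lam i = c ∧ (∀ i, DirPath t h φ a b (P i)) ∧
      (∀ i, ∀ e ∈ (P i).map Prod.fst, F e ≠ 0) ∧
      ∀ e, ∑ i, (if e ∈ (P i).map Prod.fst then lam i else 0) = |F e| := by
  intro n
  induction n using Nat.strong_induction_on with
  | _ n ih =>
  intro F c hn hpos hneg hc hcons
  -- the energy identity
  have henergy : ∀ (F : E → ℝ) (c : ℝ),
      (∀ v, flowDecomp_dv t h F v = c * ((if v = a then 1 else 0) - (if v = b then 1 else 0))) →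
      ∑ e, F e * (φ (t e) - φ (h e)) = c * (φ a - φ b) := by
    intro F c hcons
    rw [← flowDecomp_energy, Finset.sum_congr rfl fun v _ => by rw [hcons v]]
    have h1 : ∀ v, φ v * (c * ((if v = a then 1 else 0) - (if v = b then 1 else 0))) =
        c * ((if v = a then φ v else 0) - (if v = b then φ v else 0)) := by
      intro v
      split_ifs <;> ring
    rw [Finset.sum_congr rfl fun v _ => h1 v, ← Finset.mul_sum, Finset.sum_sub_distrib,
      Finset.sum_ite_eq', Finset.sum_ite_eq']
    simp
  by_cases h0 : ∀ e, F e = 0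
  · -- the zero flow
    have hc0 : c = 0 := by
      have h1 := hcons a
      unfold flowDecomp_dv at h1
      simp only [h0, zero_mul, Finset.sum_const_zero, if_true, if_neg hab, sub_zero, mul_one] at h1
      exact h1.symm
    refine ⟨0, Fin.elim0, Fin.elim0, fun i => i.elim0, ?_, fun i => i.elim0, fun i => i.elim0, ?_⟩
    · simp [hc0]
    · intro e
      simp [h0 e]
  push Not at h0
  obtain ⟨e1, he1⟩ := h0
  have hE := henergy F c hcons
  have hEpos : 0 < ∑ e, F e * (φ (t e) - φ (h e)) :=
    Finset.sum_pos' (fun e _ => flowDecomp_term_nonneg t h φ F hpos hneg e)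
      ⟨e1, Finset.mem_univ _, flowDecomp_term_pos t h φ F hpos hneg e1 he1⟩
  rw [hE] at hEpos
  have hc' : 0 < c := by
    rcases hc.lt_or_eq with h1 | h1
    · exact h1
    · rw [← h1, zero_mul] at hEpos
      exact absurd hEpos (lt_irrefl _)
  have hφab : φ b < φ a := by
    have := pos_of_mul_pos_right hEpos hc
    linarith
  obtain ⟨l, hl, hlF⟩ := flowDecomp_path t h φ F c hc' hpos hneg hcons _ a rfl (Or.inl rfl)
  have hlne : l ≠ [] := by
    rintro rfl
    cases hl
    exact hab rfl
  -- the minimum on the path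
  have hne : ((l.map Prod.fst).toFinset).Nonempty := by
    obtain ⟨p, hp⟩ := List.exists_mem_of_ne_nil l hlne
    exact ⟨p.1, List.mem_toFinset.mpr (List.mem_map_of_mem hp)⟩
  obtain ⟨e0, he0, hmin⟩ := Finset.exists_min_image _ (fun e => |F e|) hne
  rw [List.mem_toFinset] at he0
  have hmin' : ∀ e ∈ l.map Prod.fst, |F e0| ≤ |F e| := fun e he =>
    hmin e (List.mem_toFinset.mpr he)
  set δ : ℝ := |F e0| with hδ
  have hδ0 : 0 < δ := abs_pos.mpr (hlF e0 he0)
  set F' : E → ℝ := fun e => F e - δ * flowDecomp_ind F l e with hF'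
  have hF'out : ∀ e, e ∉ l.map Prod.fst → F' e = F e := by
    intro e he
    simp only [hF', flowDecomp_ind, if_neg he, mul_zero, sub_zero]
  have hF'pos : ∀ e, e ∈ l.map Prod.fst → 0 < F e → F' e = F e - δ := by
    intro e he h1
    simp only [hF', flowDecomp_ind, if_pos he, if_pos h1, mul_one]
  have hF'neg : ∀ e, e ∈ l.map Prod.fst → F e < 0 → F' e = F e + δ := by
    intro e he h1
    simp only [hF', flowDecomp_ind, if_pos he, if_neg h1.not_gt]
    ring
  -- signs
  have hsgn : ∀ e, (0 < F' e → 0 < F e) ∧ (F' e < 0 → F e < 0) := by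
    intro e
    by_cases he : e ∈ l.map Prod.fst
    · rcases lt_or_gt_of_ne (hlF e he) with h1 | h1
      · have h2 := hmin' e he
        rw [abs_of_neg h1] at h2
        rw [hF'neg e he h1]
        exact ⟨fun h3 => by linarith, fun _ => h1⟩
      · have h2 := hmin' e he
        rw [abs_of_pos h1] at h2
        rw [hF'pos e he h1]
        exact ⟨fun _ => h1, fun h3 => by linarith⟩
    · rw [hF'out e he]
      exact ⟨id, id⟩
  have hpos' : ∀ e, 0 < F' e → φ (h e) < φ (t e) := fun e he => hpos e ((hsgn e).1 he)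
  have hneg' : ∀ e, F' e < 0 → φ (t e) < φ (h e) := fun e he => hneg e ((hsgn e).2 he)
  have hsupp : ∀ e, F' e ≠ 0 → F e ≠ 0 := by
    intro e he
    rcases lt_or_gt_of_ne he with h1 | h1
    · exact ((hsgn e).2 h1).ne
    · exact ((hsgn e).1 h1).ne'
  have hF'e0 : F' e0 = 0 := by
    rcases lt_or_gt_of_ne (hlF e0 he0) with h1 | h1
    · rw [hF'neg e0 he0 h1, hδ, abs_of_neg h1]
      ring
    · rw [hF'pos e0 he0 h1, hδ, abs_of_pos h1]
      ring
  have hcard : (univ.filter fun e => F' e ≠ 0).card < n := by
    rw [← hn]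
    refine Finset.card_lt_card ⟨fun e he => ?_, fun hsub => ?_⟩
    · rw [Finset.mem_filter] at he ⊢
      exact ⟨he.1, hsupp e he.2⟩
    · have : e0 ∈ univ.filter fun e => F' e ≠ 0 :=
        hsub (Finset.mem_filter.mpr ⟨Finset.mem_univ _, hlF e0 he0⟩)
      rw [Finset.mem_filter] at this
      exact this.2 hF'e0
  have hcons' : ∀ v, flowDecomp_dv t h F' v =
      (c - δ) * ((if v = a then 1 else 0) - (if v = b then 1 else 0)) := by
    intro v
    have h1 : flowDecomp_dv t h F' v =
        flowDecomp_dv t h F v - δ * flowDecomp_dv t h (flowDecomp_ind F l) v := by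
      unfold flowDecomp_dv
      rw [Finset.mul_sum, ← Finset.sum_sub_distrib]
      refine Finset.sum_congr rfl fun e _ => ?_
      simp only [hF']
      ring
    rw [h1, hcons v, flowDecomp_dv_ind t h φ F hpos hneg hl hlF v]
    ring
  have hcδ : 0 ≤ c - δ := by
    have h1 := henergy F' (c - δ) hcons'
    have h2 : 0 ≤ ∑ e, F' e * (φ (t e) - φ (h e)) :=
      Finset.sum_nonneg fun e _ => flowDecomp_term_nonneg t h φ F' hpos' hneg' e
    rw [h1] at h2
    exact nonneg_of_mul_nonneg_left h2 (by linarith)
  obtain ⟨m, lam, P, hlam, hsum, hP, hPF, hval⟩ :=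
    ih _ hcard F' (c - δ) rfl hpos' hneg' hcδ hcons'
  refine ⟨m + 1, Fin.cons δ lam, Fin.cons l P, ?_, ?_, ?_, ?_, ?_⟩
  · intro i
    refine Fin.cases ?_ (fun j => ?_) i
    · simpa using hδ0.le
    · simpa using hlam j
  · rw [Fin.sum_univ_succ]
    simp only [Fin.cons_zero, Fin.cons_succ, hsum]
    ring
  · intro i
    refine Fin.cases ?_ (fun j => ?_) i
    · simpa using hl
    · simpa using hP j
  · intro i
    refine Fin.cases ?_ (fun j => ?_) i
    · simpa using hlF
    · intro e he
      simp only [Fin.cons_succ] at he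
      exact hsupp e (hPF j e he)
  · intro e
    rw [Fin.sum_univ_succ]
    simp only [Fin.cons_zero, Fin.cons_succ]
    rw [hval e]
    by_cases he : e ∈ l.map Prod.fst
    · rw [if_pos he]
      have h2 := hmin' e he
      rcases lt_or_gt_of_ne (hlF e he) with h1 | h1
      · rw [hF'neg e he h1, abs_of_neg h1]
        rw [abs_of_neg h1] at h2
        rw [abs_of_nonpos (by linarith)]
        ring
      · rw [hF'pos e he h1, abs_of_pos h1]
        rw [abs_of_pos h1] at h2
        rw [abs_of_nonneg (by linarith)]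
        ring
    · rw [if_neg he, hF'out e he, zero_add]

end

theorem flow_decomp {V E : Type} [Fintype V] [Fintype E] [DecidableEq V] [DecidableEq E]
    (t h : E → V) (φ : V → ℝ) (F : E → ℝ)
    (hpos : ∀ e, 0 < F e → φ (h e) < φ (t e)) (hneg : ∀ e, F e < 0 → φ (t e) < φ (h e))
    {a b : V} (hab : a ≠ b)
    (hcons : ∀ v, ∑ e ∈ univ.filter (fun e => t e = v), F e -
      ∑ e ∈ univ.filter (fun e => h e = v), F e =
        (if v = a then 1 else 0) - (if v = b then 1 else 0)) :
    ∃ (m : ℕ) (lam : Fin m → ℝ) (P : Fin m → List (E × Bool)), (∀ i, 0 ≤ lam i) ∧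
      ∑ i, lam i = 1 ∧ (∀ i, DirPath t h φ a b (P i)) ∧
      (∀ i, ∀ e ∈ (P i).map Prod.fst, F e ≠ 0) ∧
      ∀ e, ∑ i, (if e ∈ (P i).map Prod.fst then lam i else 0) = |F e| := by
  refine flowDecomp_aux t h φ hab _ F 1 rfl hpos hneg zero_le_one ?_
  intro v
  rw [one_mul, ← hcons v]
  unfold flowDecomp_dv
  rw [Finset.sum_filter, Finset.sum_filter, ← Finset.sum_sub_distrib]
  refine Finset.sum_congr rfl fun e _ => ?_
  split_ifs <;> ring

/-- A path along which the potential strictly decreases has no repeated edge. -/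
theorem DirPath.nodup {V E : Type} {t h : E → V} {φ : V → ℝ} {a b : V} {l : List (E × Bool)}
    (hl : DirPath t h φ a b l) : (l.map Prod.fst).Nodup :=
  flowDecomp_nodup hl

end MPacf82c
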