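import Pool.Agent.Lib.MP_acf82c_lc.Notions

/-!
# Basic geometry of networks

All distance estimates come from `N.walk` by induction on `Walk`: a walk starting at the interior
point `pt e s` stays on the arc `e` (by `N.simple`) until it has travelled at least
`min s (len e - s)`.
-/

namespace MPacf82c

open Set MeasureTheory
open scoped NNReal ENNReal

variable {Q : Type} [MetricSpace Q] (N : Network Q)

theorem nb_walk_nonneg {x y : Q} {L : ℝ} (h : Walk N.len N.pt x y L) : 0 ≤ L := by
  induction h with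
  | nil x => exact le_rfl
  | cons e s t hs ht y L h ih => positivity

theorem nb_dist_le_walk {x y : Q} {L : ℝ} (h : Walk N.len N.pt x y L) : dist x y ≤ L := by
  induction h with
  | nil x => simp
  | cons e s t hs ht y L h ih =>
    have h1 := N.dist_le e s hs t ht
    have h2 := dist_triangle (N.pt e s) (N.pt e t) y
    linarith

theorem nb_min_eq_zero {e : N.Arc} {s : ℝ} (hs : s ∈ Icc 0 (N.len e))
    (hn : s ∉ Ioo 0 (N.len e)) : min s (N.len e - s) = 0 := by
  have hl := N.len_pos e
  rcases eq_or_lt_of_le hs.1 with h | h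
  · rw [← h]; simp; exact hl.le
  · rcases eq_or_lt_of_le hs.2 with h' | h'
    · rw [h']; simp; exact hl.le
    · exact absurd ⟨h, h'⟩ hn

theorem nb_min_nonneg {e : N.Arc} {s : ℝ} (hs : s ∈ Icc 0 (N.len e)) :
    0 ≤ min s (N.len e - s) := le_min hs.1 (by linarith [hs.2])

theorem nb_min_lip (a s t : ℝ) : min s (a - s) ≤ |s - t| + min t (a - t) := by
  have h1 := le_abs_self (s - t)
  have h2 := neg_abs_le (s - t)
  rcases le_total t (a - t) with h | h
  · rw [min_eq_left h]
    exact le_trans (min_le_left _ _) (by linarith)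
  · rw [min_eq_right h]
    exact le_trans (min_le_right _ _) (by linarith)

theorem nb_pt_notMem_openArc {e : N.Arc} {s : ℝ} (hs : s ∈ Icc 0 (N.len e))
    (hn : s ∉ Ioo 0 (N.len e)) (e' : N.Arc) : N.pt e s ∉ N.openArc e' := by
  rintro ⟨t, ht, h⟩
  obtain ⟨h1, h2⟩ := N.simple e' e t s ht hs h
  subst h1
  subst h2
  exact hn ht

theorem nb_walk_exit (e : N.Arc) {x y : Q} {L : ℝ} (h : Walk N.len N.pt x y L) :
    ∀ s ∈ Icc 0 (N.len e), x = N.pt e s → y ∉ N.openArc e → min s (N.len e - s) ≤ L := by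
  induction h with
  | nil x =>
    intro s hs hx hy
    by_cases hn : s ∈ Ioo 0 (N.len e)
    · exact absurd ⟨s, hn, hx.symm⟩ hy
    · rw [nb_min_eq_zero N hs hn]
  | cons e1 s1 t1 hs1 ht1 y L h ih =>
    intro s hs hx hy
    by_cases hn : s ∈ Ioo 0 (N.len e)
    · obtain ⟨h1, h2⟩ := N.simple e e1 s s1 hn hs1 hx.symm
      subst h1
      subst h2
      have h3 := ih t1 ht1 rfl hy
      have h4 := nb_min_lip (N.len e) s t1
      linarith
    · rw [nb_min_eq_zero N hs hn]
      have := nb_walk_nonneg N h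
      positivity

/-- A point of the arc `e` is at distance at least `min s (len e - s)` from every point outside
the open arc. -/
theorem dist_ge_of_notMem (e : N.Arc) {s : ℝ} (hs : s ∈ Icc 0 (N.len e)) {z : Q}
    (hz : z ∉ N.openArc e) : min s (N.len e - s) ≤ dist (N.pt e s) z := by
  exact nb_walk_exit N e (N.walk (N.pt e s) z) s hs rfl hz

theorem nb_walk_enter (e : N.Arc) {x y : Q} {L : ℝ} (h : Walk N.len N.pt x y L)
    {t : ℝ} (ht : t ∈ Icc 0 (N.len e)) (hy : y = N.pt e t) (hx : x ∉ N.openArc e) :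
    min t (N.len e - t) ≤ L := by
  have h1 := dist_ge_of_notMem N e ht hx
  have h2 := nb_dist_le_walk N h
  rw [hy, dist_comm] at h2
  linarith

theorem nb_walk_same (e : N.Arc) {x y : Q} {L : ℝ} (h : Walk N.len N.pt x y L) :
    ∀ s ∈ Icc 0 (N.len e), ∀ t ∈ Icc 0 (N.len e), x = N.pt e s → y = N.pt e t →
      min |s - t| (min s (N.len e - s) + min t (N.len e - t)) ≤ L := by
  induction h with
  | nil x =>
    intro s hs t ht hx hy
    by_cases hn : s ∈ Ioo 0 (N.len e)
    · obtain ⟨-, h2⟩ := N.simple e e s t hn ht (hx.symm.trans hy)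
      subst h2
      simp
    · by_cases hn' : t ∈ Ioo 0 (N.len e)
      · obtain ⟨-, h2⟩ := N.simple e e t s hn' hs (hy.symm.trans hx)
        subst h2
        simp
      · rw [nb_min_eq_zero N hs hn, nb_min_eq_zero N ht hn']
        simp
  | cons e1 s1 t1 hs1 ht1 y L h ih =>
    intro s hs t ht hx hy
    by_cases hn : s ∈ Ioo 0 (N.len e)
    · obtain ⟨h1, h2⟩ := N.simple e e1 s s1 hn hs1 hx.symm
      subst h1
      subst h2
      have h3 := ih t1 ht1 t ht rfl hy
      have h4 := nb_min_lip (N.len e) s t1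
      have h5 := abs_sub_le s t1 t
      rcases min_le_iff.1 h3 with h6 | h6
      · exact le_trans (min_le_left _ _) (by linarith)
      · exact le_trans (min_le_right _ _) (by linarith)
    · rw [nb_min_eq_zero N hs hn]
      have hx' : N.pt e1 s1 ∉ N.openArc e := by
        rw [hx]
        exact nb_pt_notMem_openArc N hs hn e
      have := nb_walk_enter N e (Walk.cons e1 s1 t1 hs1 ht1 y L h) ht hy hx'
      exact le_trans (min_le_right _ _) (by linarith)

theorem nb_walk_diff {e e' : N.Arc} (hee : e ≠ e') {x y : Q} {L : ℝ}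
    (h : Walk N.len N.pt x y L) :
    ∀ s ∈ Icc 0 (N.len e), ∀ t ∈ Icc 0 (N.len e'), x = N.pt e s → y = N.pt e' t →
      min s (N.len e - s) + min t (N.len e' - t) ≤ L := by
  induction h with
  | nil x =>
    intro s hs t ht hx hy
    by_cases hn : s ∈ Ioo 0 (N.len e)
    · exact absurd (N.simple e e' s t hn ht (hx.symm.trans hy)).1 hee
    · by_cases hn' : t ∈ Ioo 0 (N.len e')
      · exact absurd (N.simple e' e t s hn' hs (hy.symm.trans hx)).1 hee.symm
      · rw [nb_min_eq_zero N hs hn, nb_min_eq_zero N ht hn']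
        simp
  | cons e1 s1 t1 hs1 ht1 y L h ih =>
    intro s hs t ht hx hy
    by_cases hn : s ∈ Ioo 0 (N.len e)
    · obtain ⟨h1, h2⟩ := N.simple e e1 s s1 hn hs1 hx.symm
      subst h1
      subst h2
      have h3 := ih t1 ht1 t ht rfl hy
      have h4 := nb_min_lip (N.len e) s t1
      linarith
    · rw [nb_min_eq_zero N hs hn]
      have hx' : N.pt e1 s1 ∉ N.openArc e' := by
        rw [hx]
        exact nb_pt_notMem_openArc N hs hn e'
      have := nb_walk_enter N e' (Walk.cons e1 s1 t1 hs1 ht1 y L h) ht hy hx'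
      linarith

/-- Two points of one arc. -/
theorem dist_same_arc (e : N.Arc) {s t : ℝ} (hs : s ∈ Icc 0 (N.len e))
    (ht : t ∈ Icc 0 (N.len e)) :
    min |s - t| (min s (N.len e - s) + min t (N.len e - t)) ≤ dist (N.pt e s) (N.pt e t) := by
  exact nb_walk_same N e (N.walk _ _) s hs t ht rfl rfl

/-- Two points of different arcs. -/
theorem dist_diff_arc {e e' : N.Arc} (hee : e ≠ e') {s t : ℝ} (hs : s ∈ Icc 0 (N.len e))
    (ht : t ∈ Icc 0 (N.len e')) :
    min s (N.len e - s) + min t (N.len e' - t) ≤ dist (N.pt e s) (N.pt e' t) := by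
  exact nb_walk_diff N hee (N.walk _ _) s hs t ht rfl rfl

/-- Open arcs are open. -/
theorem isOpen_openArc (e : N.Arc) : IsOpen (N.openArc e) := by
  rw [Metric.isOpen_iff]
  rintro z ⟨s, hs, rfl⟩
  refine ⟨min s (N.len e - s), lt_min hs.1 (by linarith [hs.2]), ?_⟩
  intro w hw
  by_contra hn
  have h1 := dist_ge_of_notMem N e (Ioo_subset_Icc_self hs) hn
  rw [Metric.mem_ball, dist_comm] at hw
  linarith

/-- Every point is a node or lies in an open arc. -/
theorem node_or_openArc (z : Q) : z ∈ N.nodes ∨ ∃ e, z ∈ N.openArc e := by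
  obtain ⟨e, s, hs, rfl⟩ := N.cover z
  rcases eq_or_lt_of_le hs.1 with h | h
  · exact Or.inl ⟨e, Or.inl (by rw [← h])⟩
  · rcases eq_or_lt_of_le hs.2 with h' | h'
    · exact Or.inl ⟨e, Or.inr (by rw [h'])⟩
    · exact Or.inr ⟨e, s, ⟨h, h'⟩, rfl⟩

theorem notMem_nodes_of_mem_openArc {e : N.Arc} {z : Q} (hz : z ∈ N.openArc e) :
    z ∉ N.nodes := by
  obtain ⟨s, hs, rfl⟩ := hz
  rintro ⟨e', h | h⟩
  · obtain ⟨h1, h2⟩ := N.simple e e' s 0 hs ⟨le_rfl, (N.len_pos e').le⟩ h
    exact absurd hs.1 (by rw [h2]; exact lt_irrefl _)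
  · obtain ⟨h1, h2⟩ := N.simple e e' s (N.len e') hs ⟨(N.len_pos e').le, le_rfl⟩ h
    subst h1
    exact absurd hs.2 (by rw [← h2]; exact lt_irrefl _)

theorem openArc_unique {e e' : N.Arc} {z : Q} (hz : z ∈ N.openArc e) (hz' : z ∈ N.openArc e') :
    e = e' := by
  obtain ⟨s, hs, rfl⟩ := hz
  obtain ⟨s', hs', h⟩ := hz'
  exact (N.simple e e' s s' hs (Ioo_subset_Icc_self hs') h.symm).1

theorem nodes_finite : N.nodes.Finite := by
  have : N.nodes ⊆ Set.range (fun e => N.pt e 0) ∪ Set.range (fun e => N.pt e (N.len e)) := by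
    rintro z ⟨e, h | h⟩
    · exact Or.inl ⟨e, h.symm⟩
    · exact Or.inr ⟨e, h.symm⟩
  exact ((Set.finite_range _).union (Set.finite_range _)).subset this

/-- An arc has length at most twice the diameter. -/
theorem len_le_two_diam {D : ℝ} (hD : ∀ x y : Q, dist x y ≤ D) (e : N.Arc) :
    N.len e ≤ 2 * D := by
  have hl := N.len_pos e
  have h0 : N.pt e 0 ∉ N.openArc e :=
    nb_pt_notMem_openArc N ⟨le_rfl, hl.le⟩ (fun h => lt_irrefl _ h.1) e
  have h1 := dist_ge_of_notMem N e (s := N.len e / 2) ⟨by linarith, by linarith⟩ h0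
  have h2 := hD (N.pt e (N.len e / 2)) (N.pt e 0)
  have h3 : min (N.len e / 2) (N.len e - N.len e / 2) = N.len e / 2 := by
    rw [show N.len e - N.len e / 2 = N.len e / 2 by ring, min_self]
  rw [h3] at h1
  linarith

end MPacf82c
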