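import Pool.Agent.Lib.MP_acf82c_lc.NetPot
import Pool.Agent.Lib.MP_acf82c_lc.Electrical
import Pool.Agent.Lib.MP_acf82c_lc.FlowDecomp

/-!
# The unit current between two nodes of a network

Apply `electrical` to `V = ↥N.nodes` (finite, `nodes_connected`), extend the potential to `Q` by
any values outside the nodes, and apply `flow_decomp`. For `a = b` take `F = 0`, `φ = 0`, `m = 1`
and the empty path.

`|F e| ≤ 1` because `|F e| = ∑ (weights of the paths through e) ≤ 1`.
Energy: `∑ len e * F e ^ 2 = ∑ F e * (φ(tail) - φ(head)) = φ a - φ b` (summation by parts), and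
`φ a - φ b ≤ dist a b` since the extension `psi_ext` is 1-Lipschitz. Cauchy-Schwarz:
`∑ len e * |F e| ≤ sqrt(length) * sqrt(∑ len e * F e ^2) ≤ sqrt(length * D)`.
-/

namespace MPacf82c

open Set MeasureTheory

variable {Q : Type} [MetricSpace Q] (N : Network Q)

/-- Transport of a directed path along a map of the vertices. -/
lemma DirPath.mapVert {V W E : Type} {t h : E → V} {φ : V → ℝ} {t' h' : E → W} {φ' : W → ℝ}
    (f : V → W) (ht : ∀ e, f (t e) = t' e) (hh : ∀ e, f (h e) = h' e)
    (hφ : ∀ v, φ' (f v) = φ v) {a b : V} {l : List (E × Bool)}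
    (hl : DirPath t h φ a b l) : DirPath t' h' φ' (f a) (f b) l := by
  induction hl with
  | nil v => exact DirPath.nil _
  | fwd e b l hlt _ ih =>
    rw [ht]
    rw [hh] at ih
    refine DirPath.fwd e _ l ?_ ih
    rw [← ht, ← hh, hφ, hφ]
    exact hlt
  | bwd e b l hlt _ ih =>
    rw [hh]
    rw [ht] at ih
    refine DirPath.bwd e _ l ?_ ih
    rw [← ht, ← hh, hφ, hφ]
    exact hlt

/-- Summation by parts for the electrical current. -/
lemma netFlow_energy {V E : Type} [Fintype V] [Fintype E] [DecidableEq V] (t h : E → V)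
    (ℓ : E → ℝ) (φ : V → ℝ) (a b : V)
    (hcons : ∀ v, ∑ e ∈ Finset.univ.filter (fun e => t e = v), (φ (t e) - φ (h e)) / ℓ e -
      ∑ e ∈ Finset.univ.filter (fun e => h e = v), (φ (t e) - φ (h e)) / ℓ e =
        (if v = a then 1 else 0) - (if v = b then 1 else 0)) :
    ∑ e, (φ (t e) - φ (h e)) * ((φ (t e) - φ (h e)) / ℓ e) = φ a - φ b := by
  have h1 : ∀ s : E → V, ∑ v, φ v * ∑ e ∈ Finset.univ.filter (fun e => s e = v),
      (φ (t e) - φ (h e)) / ℓ e = ∑ e, φ (s e) * ((φ (t e) - φ (h e)) / ℓ e) := by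
    intro s
    rw [← Finset.sum_fiberwise (s := Finset.univ) (g := s)
      (f := fun e => φ (s e) * ((φ (t e) - φ (h e)) / ℓ e))]
    refine Finset.sum_congr rfl fun v _ => ?_
    rw [Finset.mul_sum]
    refine Finset.sum_congr rfl fun e he => ?_
    rw [(Finset.mem_filter.mp he).2]
  have h2 : ∑ e, (φ (t e) - φ (h e)) * ((φ (t e) - φ (h e)) / ℓ e) =
      ∑ v, φ v * (∑ e ∈ Finset.univ.filter (fun e => t e = v), (φ (t e) - φ (h e)) / ℓ e -
      ∑ e ∈ Finset.univ.filter (fun e => h e = v), (φ (t e) - φ (h e)) / ℓ e) := by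
    simp only [mul_sub, Finset.sum_sub_distrib]
    simp only [h1]
    rw [← Finset.sum_sub_distrib]
    refine Finset.sum_congr rfl fun e _ => ?_
    ring
  rw [h2]
  simp only [hcons]
  simp [mul_sub, Finset.sum_sub_distrib]

open Classical in
theorem net_flow {D : ℝ} (hD : ∀ x y : Q, dist x y ≤ D) {a b : Q} (ha : a ∈ N.nodes)
    (hb : b ∈ N.nodes) :
    ∃ (φ : Q → ℝ) (F : N.Arc → ℝ) (m : ℕ) (lam : Fin m → ℝ) (P : Fin m → List (N.Arc × Bool)),
      (∀ e, φ (N.pt e 0) - φ (N.pt e (N.len e)) = N.len e * F e) ∧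
      (∀ e, |F e| ≤ 1) ∧ (∀ i, 0 ≤ lam i) ∧ ∑ i, lam i = 1 ∧
      (∀ i, DirPath (fun e => N.pt e 0) (fun e => N.pt e (N.len e)) φ a b (P i)) ∧
      (∀ i, ∀ e ∈ (P i).map Prod.fst, F e ≠ 0) ∧
      (∀ e, ∑ i, (if e ∈ (P i).map Prod.fst then lam i else 0) = |F e|) ∧
      ∑ e, N.len e * |F e| ≤ Real.sqrt (N.length * D) := by
  by_cases hab : a = b
  · subst hab
    refine ⟨fun _ => 0, fun _ => 0, 1, fun _ => 1, fun _ => [], by simp, by simp, by simp,
      by simp, fun _ => DirPath.nil _, by simp, by simp, ?_⟩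
    simp
  · have : Fintype N.nodes := (nodes_finite N).fintype
    set t : N.Arc → N.nodes := fun e => ⟨N.pt e 0, e, Or.inl rfl⟩ with ht
    set h : N.Arc → N.nodes := fun e => ⟨N.pt e (N.len e), e, Or.inr rfl⟩ with hh
    have hconn : ∀ u v : N.nodes, Relation.ReflTransGen
        (fun u v => ∃ e, (t e = u ∧ h e = v) ∨ (t e = v ∧ h e = u)) u v := by
      intro u v
      refine Relation.ReflTransGen.mono ?_ u v (nodes_connected N u v)
      rintro x y ⟨e, he | he⟩
      · exact ⟨e, Or.inl ⟨Subtype.ext he.1, Subtype.ext he.2⟩⟩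
      · exact ⟨e, Or.inr ⟨Subtype.ext he.1, Subtype.ext he.2⟩⟩
    set a' : N.nodes := ⟨a, ha⟩ with ha'
    set b' : N.nodes := ⟨b, hb⟩ with hb'
    have hab' : a' ≠ b' := fun h0 => hab (congrArg Subtype.val h0)
    obtain ⟨φ₀, hφ₀⟩ := electrical t h N.len N.len_pos hconn a' b'
    set F : N.Arc → ℝ := fun e => (φ₀ (t e) - φ₀ (h e)) / N.len e with hF
    have hFlen : ∀ e, φ₀ (t e) - φ₀ (h e) = N.len e * F e := by
      intro e
      rw [hF]
      field_simp [(N.len_pos e).ne']
    obtain ⟨m, lam, P, hlam, hsum, hdir, hne, habs⟩ := flow_decomp t h φ₀ F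
      (fun e he => by
        have h1 := hFlen e
        have h2 := mul_pos (N.len_pos e) he
        linarith)
      (fun e he => by
        have h1 := hFlen e
        have h2 := mul_neg_of_pos_of_neg (N.len_pos e) he
        linarith) hab' hφ₀
    set φ : Q → ℝ := fun z => if hz : z ∈ N.nodes then φ₀ ⟨z, hz⟩ else 0 with hφ
    have hφv : ∀ v : N.nodes, φ v = φ₀ v := by
      intro v
      rw [hφ]
      simp only [v.2, dif_pos]
    have hφt : ∀ e, φ (N.pt e 0) = φ₀ (t e) := fun e => hφv (t e)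
    have hφh : ∀ e, φ (N.pt e (N.len e)) = φ₀ (h e) := fun e => hφv (h e)
    have h1 : ∀ e, φ (N.pt e 0) - φ (N.pt e (N.len e)) = N.len e * F e := by
      intro e
      rw [hφt, hφh, hFlen]
    have hF1 : ∀ e, |F e| ≤ 1 := by
      intro e
      rw [← habs e, ← hsum]
      refine Finset.sum_le_sum fun i _ => ?_
      split_ifs
      · exact le_rfl
      · exact hlam i
    refine ⟨φ, F, m, lam, P, h1, hF1, hlam, hsum, ?_, hne, ?_, ?_⟩
    · intro i
      exact (hdir i).mapVert (f := Subtype.val) (fun e => rfl) (fun e => rfl) hφv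
    · intro e
      rw [← habs e]
    · -- the energy bound
      obtain ⟨ψ, hψ1, hψ2⟩ := psi_ext N φ F hF1 h1
      have hψn : ∀ z ∈ N.nodes, ψ z = φ z := by
        rintro z ⟨e, rfl | rfl⟩
        · rw [hψ2 e 0 ⟨le_rfl, (N.len_pos e).le⟩]
          ring
        · rw [hψ2 e (N.len e) ⟨(N.len_pos e).le, le_rfl⟩]
          have h2 := h1 e
          linarith
      have hen : ∑ e, N.len e * F e ^ 2 = φ a - φ b := by
        have h2 := netFlow_energy t h N.len φ₀ a' b' hφ₀
        have h3 : φ a = φ₀ a' := hφv a'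
        have h4 : φ b = φ₀ b' := hφv b'
        rw [h3, h4, ← h2]
        refine Finset.sum_congr rfl fun e _ => ?_
        have h5 : (φ₀ (t e) - φ₀ (h e)) / N.len e = F e := rfl
        rw [h5, hFlen e]
        ring
      have hle : φ a - φ b ≤ D := by
        rw [← hψn a ha, ← hψn b hb]
        have h2 := hψ1.dist_le_mul a b
        rw [Real.dist_eq, NNReal.coe_one, one_mul] at h2
        exact (le_abs_self _).trans (h2.trans (hD a b))
      have hcs := Finset.sum_mul_sq_le_sq_mul_sq (Finset.univ : Finset N.Arc)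
        (fun e => Real.sqrt (N.len e)) (fun e => Real.sqrt (N.len e) * |F e|)
      have e1 : ∀ e, Real.sqrt (N.len e) * (Real.sqrt (N.len e) * |F e|) = N.len e * |F e| := by
        intro e
        rw [← mul_assoc, Real.mul_self_sqrt (N.len_pos e).le]
      have e2 : ∀ e, Real.sqrt (N.len e) ^ 2 = N.len e := fun e =>
        Real.sq_sqrt (N.len_pos e).le
      have e3 : ∀ e, (Real.sqrt (N.len e) * |F e|) ^ 2 = N.len e * F e ^ 2 := by
        intro e
        rw [mul_pow, e2, sq_abs]
      simp only [e1, e2, e3] at hcs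
      rw [hen] at hcs
      apply Real.le_sqrt_of_sq_le
      refine hcs.trans ?_
      have hlen : 0 ≤ N.length := Finset.sum_nonneg fun e _ => (N.len_pos e).le
      exact mul_le_mul_of_nonneg_left hle hlen

end MPacf82c
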