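import Pool.Agent.Lib.MP_acf82c_lc.NetBasic

/-!
# Tent functions, extension of potentials, connectedness of the nodes

`psi_ext`: define `ψ z` by choosing `e, s` with `z = pt e s`; consistent at nodes by `h`;
1-Lipschitz by induction on `Walk`. `nodes_connected`: show by induction on `Walk x y L` with
`y ∈ nodes` that if `x = pt e s` then `pt e 0` is connected to `y`.
-/

namespace MPacf82c

open Set MeasureTheory
open scoped NNReal ENNReal

variable {Q : Type} [MetricSpace Q] (N : Network Q)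

private theorem netPot_end {e : N.Arc} {s : ℝ} (hs : s ∈ Icc 0 (N.len e))
    (h : s ∉ Ioo 0 (N.len e)) : s = 0 ∨ s = N.len e := by
  rcases eq_or_lt_of_le hs.1 with h0 | h0
  · exact Or.inl h0.symm
  · rcases eq_or_lt_of_le hs.2 with h1 | h1
    · exact Or.inr h1
    · exact absurd ⟨h0, h1⟩ h

private theorem netPot_notMem (e : N.Arc) {s : ℝ} (hs : s ∈ Icc 0 (N.len e))
    (h : s ∉ Ioo 0 (N.len e)) : N.pt e s ∉ N.openArc e := by
  rintro ⟨s', hs', h1⟩
  obtain ⟨-, rfl⟩ := N.simple e e s' s hs' hs h1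
  exact h hs'

/-- The tent function of an arc: distance to the complement of the open arc. -/
theorem infDist_compl_openArc (e : N.Arc) {s : ℝ} (hs : s ∈ Icc 0 (N.len e))
    (hne : (N.openArc e)ᶜ.Nonempty) :
    Metric.infDist (N.pt e s) (N.openArc e)ᶜ = min s (N.len e - s) := by
  have hl := N.len_pos e
  have h0 : (0 : ℝ) ∈ Icc 0 (N.len e) := ⟨le_rfl, hl.le⟩
  have h1 : N.len e ∈ Icc 0 (N.len e) := ⟨hl.le, le_rfl⟩
  apply le_antisymm
  · apply le_min
    · refine (Metric.infDist_le_dist_of_mem (y := N.pt e 0)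
        (netPot_notMem N e h0 (fun h => lt_irrefl _ h.1))).trans ?_
      refine (N.dist_le e s hs 0 h0).trans ?_
      rw [sub_zero, abs_of_nonneg hs.1]
    · refine (Metric.infDist_le_dist_of_mem (y := N.pt e (N.len e))
        (netPot_notMem N e h1 (fun h => lt_irrefl _ h.2))).trans ?_
      refine (N.dist_le e s hs _ h1).trans ?_
      rw [abs_sub_comm, abs_of_nonneg (sub_nonneg.mpr hs.2)]
  · rw [Metric.le_infDist hne]
    intro z hz
    exact dist_ge_of_notMem N e hs hz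

/-- Linear extension of a potential with slopes at most one. -/
theorem psi_ext (φ : Q → ℝ) (F : N.Arc → ℝ) (hF : ∀ e, |F e| ≤ 1)
    (h : ∀ e, φ (N.pt e 0) - φ (N.pt e (N.len e)) = N.len e * F e) :
    ∃ ψ : Q → ℝ, LipschitzWith 1 ψ ∧
      ∀ e, ∀ s ∈ Icc 0 (N.len e), ψ (N.pt e s) = φ (N.pt e 0) - F e * s := by
  have hend : ∀ e, ∀ s ∈ Icc 0 (N.len e), s ∉ Ioo 0 (N.len e) →
      φ (N.pt e 0) - F e * s = φ (N.pt e s) := by
    intro e s hs hs'
    rcases netPot_end N hs hs' with rfl | rfl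
    · rw [mul_zero, sub_zero]
    · linarith [h e]
  have hcons : ∀ e e', ∀ s ∈ Icc 0 (N.len e), ∀ s' ∈ Icc 0 (N.len e'), N.pt e s = N.pt e' s' →
      φ (N.pt e 0) - F e * s = φ (N.pt e' 0) - F e' * s' := by
    intro e e' s hs s' hs' heq
    by_cases h1 : s ∈ Ioo 0 (N.len e)
    · obtain ⟨rfl, rfl⟩ := N.simple e e' s s' h1 hs' heq
      rfl
    · by_cases h2 : s' ∈ Ioo 0 (N.len e')
      · obtain ⟨rfl, rfl⟩ := N.simple e' e s' s h2 hs heq.symm
        rfl
      · rw [hend e s hs h1, hend e' s' hs' h2, heq]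
  choose E' S' hS' hE' using N.cover
  have hψ : ∀ e, ∀ s ∈ Icc 0 (N.len e),
      φ (N.pt (E' (N.pt e s)) 0) - F (E' (N.pt e s)) * S' (N.pt e s) =
        φ (N.pt e 0) - F e * s := by
    intro e s hs
    exact hcons _ _ _ (hS' _) _ hs (hE' _)
  refine ⟨fun z => φ (N.pt (E' z) 0) - F (E' z) * S' z, ?_, hψ⟩
  have hwalk : ∀ x y L, Walk N.len N.pt x y L →
      |(φ (N.pt (E' x) 0) - F (E' x) * S' x) - (φ (N.pt (E' y) 0) - F (E' y) * S' y)| ≤ L := by
    intro x y L hw
    induction hw with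
    | nil x => rw [sub_self, abs_zero]
    | cons e s t hs ht y L _ ih =>
      have h1 : |(φ (N.pt e 0) - F e * s) - (φ (N.pt e 0) - F e * t)| ≤ |s - t| := by
        have h2 : (φ (N.pt e 0) - F e * s) - (φ (N.pt e 0) - F e * t) = F e * (t - s) := by ring
        rw [h2, abs_mul, abs_sub_comm t s]
        calc |F e| * |s - t| ≤ 1 * |s - t| := mul_le_mul_of_nonneg_right (hF e) (abs_nonneg _)
          _ = |s - t| := one_mul _
      rw [hψ e s hs]
      rw [hψ e t ht] at ih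
      calc |φ (N.pt e 0) - F e * s - (φ (N.pt (E' y) 0) - F (E' y) * S' y)|
          ≤ |(φ (N.pt e 0) - F e * s) - (φ (N.pt e 0) - F e * t)| +
            |(φ (N.pt e 0) - F e * t) - (φ (N.pt (E' y) 0) - F (E' y) * S' y)| :=
            abs_sub_le _ _ _
        _ ≤ |s - t| + L := add_le_add h1 ih
  apply LipschitzWith.mk_one
  intro x y
  rw [Real.dist_eq]
  exact hwalk x y _ (N.walk x y)

/-- Nodes are connected by walks through arcs. -/
theorem nodes_connected (u v : N.nodes) :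
    Relation.ReflTransGen (fun u v : N.nodes => ∃ e, (N.pt e 0 = u ∧ N.pt e (N.len e) = v) ∨
      (N.pt e 0 = v ∧ N.pt e (N.len e) = u)) u v := by
  set R := (fun u v : N.nodes => ∃ e, (N.pt e 0 = u ∧ N.pt e (N.len e) = v) ∨
      (N.pt e 0 = v ∧ N.pt e (N.len e) = u)) with hR
  have hRs : ∀ u v, R u v → R v u := by
    rintro u v ⟨e, h | h⟩
    · exact ⟨e, Or.inr h⟩
    · exact ⟨e, Or.inl h⟩
  have hnode : ∀ e, ∀ s ∈ Icc 0 (N.len e), N.pt e s ∈ N.nodes → s = 0 ∨ s = N.len e := by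
    intro e s hs hn
    apply netPot_end N hs
    intro h
    exact notMem_nodes_of_mem_openArc N ⟨s, h, rfl⟩ hn
  -- the first end of an arc is connected to every end of the arc
  have hstep : ∀ e, ∀ s ∈ Icc 0 (N.len e), ∀ x : N.nodes, N.pt e s = x →
      Relation.ReflTransGen R ⟨N.pt e 0, e, Or.inl rfl⟩ x ∧
        Relation.ReflTransGen R x ⟨N.pt e 0, e, Or.inl rfl⟩ := by
    intro e s hs x hx
    rcases hnode e s hs (by rw [hx]; exact x.2) with rfl | rfl
    · have h1 : x = ⟨N.pt e 0, e, Or.inl rfl⟩ := Subtype.ext hx.symm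
      rw [h1]
      exact ⟨Relation.ReflTransGen.refl, Relation.ReflTransGen.refl⟩
    · have h1 : R ⟨N.pt e 0, e, Or.inl rfl⟩ x := ⟨e, Or.inl ⟨rfl, hx⟩⟩
      exact ⟨Relation.ReflTransGen.single h1, Relation.ReflTransGen.single (hRs _ _ h1)⟩
  have key : ∀ x y L, Walk N.len N.pt x y L → ∀ hy : y ∈ N.nodes, ∀ e, ∀ s ∈ Icc 0 (N.len e),
      N.pt e s = x → Relation.ReflTransGen R ⟨N.pt e 0, e, Or.inl rfl⟩ ⟨y, hy⟩ := by
    intro x y L hw
    induction hw with
    | nil x =>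
      intro hy e s hs hx
      exact (hstep e s hs ⟨x, hy⟩ hx).1
    | cons e1 s1 t1 hs1 ht1 y L _ ih =>
      intro hy e s hs hx
      have h1 := ih hy e1 t1 ht1 rfl
      by_cases h2 : s ∈ Ioo 0 (N.len e)
      · obtain ⟨rfl, -⟩ := N.simple e e1 s s1 h2 hs1 hx
        exact h1
      · have hmem : N.pt e s ∈ N.nodes := by
          rcases netPot_end N hs h2 with rfl | rfl
          · exact ⟨e, Or.inl rfl⟩
          · exact ⟨e, Or.inr rfl⟩
        have h3 := (hstep e s hs ⟨_, hmem⟩ rfl).1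
        have h4 := (hstep e1 s1 hs1 ⟨_, hmem⟩ hx.symm).2
        exact (h3.trans h4).trans h1
  obtain ⟨u, hu⟩ := u
  obtain ⟨v, hv⟩ := v
  obtain ⟨e, he⟩ := id hu
  have hl := N.len_pos e
  rcases he with he | he
  · have h1 := (hstep e 0 ⟨le_rfl, hl.le⟩ ⟨u, hu⟩ he.symm).2
    exact h1.trans (key u v _ (N.walk u v) hv e 0 ⟨le_rfl, hl.le⟩ he.symm)
  · have h1 := (hstep e (N.len e) ⟨hl.le, le_rfl⟩ ⟨u, hu⟩ he.symm).2
    exact h1.trans (key u v _ (N.walk u v) hv e (N.len e) ⟨hl.le, le_rfl⟩ he.symm)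

end MPacf82c
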