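import Pool.Agent.Lib.MP_acf82c_lc.Defs

/-!
# Auxiliary notions used only in the proofs
-/

namespace MPacf82c

open Set MeasureTheory
open scoped NNReal ENNReal

variable {Q : Type} [MetricSpace Q]

/-- The open arc `e`. -/
def Network.openArc (N : Network Q) (e : N.Arc) : Set Q := N.pt e '' Ioo 0 (N.len e)

/-- The set of nodes. -/
def Network.nodes (N : Network Q) : Set Q := {z | ∃ e, z = N.pt e 0 ∨ z = N.pt e (N.len e)}

/-- One factor of the survival probability in the block game: `L` the set of labels searched in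
the block, `y` the label of the hider, `b` the star bit. -/
noncomputable def fac {n : ℕ} (B : ℕ) (L : Finset (Fin n)) (y : Fin n) (b : Bool) : ℝ :=
  if b then (L.card : ℝ) / B else if y ∈ L then 0 else 1

/-- Survival probability of the first `m` blocks. -/
noncomputable def surv {n : ℕ} (B : ℕ) (L : ℕ → Finset (Fin n)) (y : ℕ → Fin n) (b : ℕ → Bool)
    (m : ℕ) : ℝ := ∏ k ∈ Finset.range m, fac B (L k) (y k) (b k)

/-- Payoff of the block game with `M` blocks. -/
noncomputable def payoff {n : ℕ} (B M : ℕ) (L : ℕ → Finset (Fin n)) (y : ℕ → Fin n)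
    (b : ℕ → Bool) : ℝ := ∑ m ∈ Finset.range M, surv B L y b m

/-- Admissible hider strategies of the block game. -/
def Adm {n : ℕ} (M K : ℕ) (y : ℕ → Fin n) (b : ℕ → Bool) : Prop :=
  (∀ k, k < M → b k = false → y k = y (k + 1)) ∧
    ((Finset.range M).filter fun k => b k = true).card ≤ K

/-- The searcher has a mixed strategy of value at most `V` in the block game. -/
def SearcherVal (n B M K : ℕ) (V : ℝ) : Prop :=
  ∃ (ι : Type) (_ : Fintype ι) (p : ι → ℝ) (L : ι → ℕ → Finset (Fin n)),
    (∀ i, 0 ≤ p i) ∧ ∑ i, p i = 1 ∧ (∀ i k, (L i k).card ≤ B) ∧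
    ∀ (y : ℕ → Fin n) (b : ℕ → Bool), Adm M K y b → ∑ i, p i * payoff B M (L i) y b ≤ V

/-- The hider has a mixed strategy of value at least `V` in the block game. -/
def HiderVal (n B M K : ℕ) (V : ℝ) : Prop :=
  ∃ (ι : Type) (_ : Fintype ι) (q : ι → ℝ) (y : ι → ℕ → Fin n) (b : ι → ℕ → Bool),
    (∀ i, 0 ≤ q i) ∧ ∑ i, q i = 1 ∧ (∀ i, Adm M K (y i) (b i)) ∧
    ∀ L : ℕ → Finset (Fin n), (∀ k, (L k).card ≤ B) →
      V ≤ ∑ i, q i * payoff B M L (y i) (b i)

/-- Slot `s` of a block in which the labels of `L` are searched, with `B'` slots, cyclically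
shifted by `c`: `none` means waiting. -/
def slot {n : ℕ} (L : Finset (Fin n)) (B' c s : ℕ) : Option (Fin n) :=
  if h : (s + c) % B' < L.card then some (L.orderEmbOfFin rfl ⟨(s + c) % B', h⟩) else none

/-- The slots of one round: block `k` searches `L k`, shifted by `c k`. -/
def roundSeq {n : ℕ} (L : ℕ → Finset (Fin n)) (B' : ℕ) (c : ℕ → ℕ) (s : ℕ) : Option (Fin n) :=
  slot (L (s / B')) B' (c (s / B')) (s % B')

/-- The searcher path in a clover which in the time slot `[k, k+1]` tours the leaf `e` if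
`a k = some e` and waits at `O` if `a k = none`. -/
noncomputable def tour (N : Network Q) (O : Q) (a : ℕ → Option N.Arc) (t : ℝ≥0) : Q :=
  match a ⌊t⌋₊ with
  | none => O
  | some e => N.pt e ((t : ℝ) - (⌊t⌋₊ : ℝ))

/-- Directed paths in a finite graph along which the potential `φ` strictly decreases;
`(e, true)` means that the edge `e` is traversed from `t e` to `h e`. -/
inductive DirPath {V E : Type} (t h : E → V) (φ : V → ℝ) : V → V → List (E × Bool) → Prop
  | nil (v : V) : DirPath t h φ v v []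
  | fwd (e : E) (b : V) (l : List (E × Bool)) (hφ : φ (h e) < φ (t e))
      (hl : DirPath t h φ (h e) b l) : DirPath t h φ (t e) b ((e, true) :: l)
  | bwd (e : E) (b : V) (l : List (E × Bool)) (hφ : φ (t e) < φ (h e))
      (hl : DirPath t h φ (t e) b l) : DirPath t h φ (h e) b ((e, false) :: l)

/-- Time (in the block `[t0, t0 + T]`) spent by `S` in the set `A`. -/
noncomputable def timeIn (S : ℝ → Q) (t0 t1 : ℝ) (A : Set Q) : ℝ :=
  (volume {t : ℝ | t ∈ Icc t0 t1 ∧ S t ∈ A}).toReal

end MPacf82c
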