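import Pool.Agent.Lib.MP_acf82c_lc.Meeting

/-!
# Random routes between two interior points of arcs

From `pt e s` go inside the arc `e` to its nearest end `a` (distance `min s (len e - s) ≤ D` by
`len_le_two_diam`), then take a random route of `flow_routes` from `a` to `b`, `b` the nearest end
of the arc `e'` to `pt e' s'`, then go inside `e'` to `pt e' s'`. Total time
`T' i = min s (len e - s) + T i + min s' (len e' - s')`.

Meeting measure of the first part (times at which the traveller is in the open arc `e`): on the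
first part the position `z` of the traveller after time `σ` satisfies
`σ = τ(pt e s) - τ(z)` with the tent function `τ = infDist · (openArc e)ᶜ`, which is 1-Lipschitz
on `Q`; so a bad `θ` is in the image of `{t : S t ∈ openArc e}` under the 2-Lipschitz function
`t ↦ t - τ(pt e s) + τ(S t)`, of measure at most `2 * timeIn (openArc e)`. Same for the last part.
-/

namespace MPacf82c

open Set MeasureTheory

variable {Q : Type} [MetricSpace Q] (N : Network Q)

namespace TripRoutes

lemma clamp_dist (c x y : ℝ) : |max 0 (min x c) - max 0 (min y c)| ≤ |x - y| := by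
  have h := ((LipschitzWith.id (α := ℝ)).min_const c).const_max 0
  have h2 := h.dist_le_mul x y
  simpa [Real.dist_eq] using h2

/-- The path inside an arc from the nearest end to an interior point. -/
lemma inner (e : N.Arc) {s : ℝ} (hs : s ∈ Ioo 0 (N.len e)) :
    ∃ (a : Q) (q : ℝ → Q), a ∈ N.nodes ∧ LipschitzWith 1 q ∧ (∀ τ ≤ 0, q τ = a) ∧
      (∀ τ, min s (N.len e - s) ≤ τ → q τ = N.pt e s) ∧
      ∀ τ, 0 < τ → τ ≤ min s (N.len e - s) → q τ ∈ N.openArc e ∧
        Metric.infDist (q τ) (N.openArc e)ᶜ = τ := by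
  obtain ⟨h0, h1⟩ := hs
  have hne : (N.openArc e)ᶜ.Nonempty :=
    ⟨N.pt e 0, fun h => notMem_nodes_of_mem_openArc N h ⟨e, Or.inl rfl⟩⟩
  rcases le_total s (N.len e - s) with hle | hle
  · refine ⟨N.pt e 0, fun τ => N.pt e (max 0 (min τ s)), ⟨e, Or.inl rfl⟩, ?_, ?_, ?_, ?_⟩
    · refine LipschitzWith.mk_one fun x y => ?_
      refine (N.dist_le e _ ?_ _ ?_).trans ?_
      · exact ⟨le_max_left _ _, max_le (by linarith) ((min_le_right _ _).trans h1.le)⟩
      · exact ⟨le_max_left _ _, max_le (by linarith) ((min_le_right _ _).trans h1.le)⟩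
      · rw [Real.dist_eq]
        exact clamp_dist s x y
    · intro τ hτ
      simp only
      rw [max_eq_left ((min_le_left _ _).trans hτ)]
    · intro τ hτ
      rw [min_eq_left hle] at hτ
      simp only
      rw [min_eq_right hτ, max_eq_right h0.le]
    · intro τ h2 h3
      rw [min_eq_left hle] at h3
      simp only
      rw [min_eq_left h3, max_eq_right h2.le]
      refine ⟨⟨τ, ⟨h2, by linarith⟩, rfl⟩, ?_⟩
      rw [infDist_compl_openArc N e ⟨h2.le, by linarith⟩ hne]
      exact min_eq_left (by linarith)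
  · refine ⟨N.pt e (N.len e), fun τ => N.pt e (N.len e - max 0 (min τ (N.len e - s))),
      ⟨e, Or.inr rfl⟩, ?_, ?_, ?_, ?_⟩
    · refine LipschitzWith.mk_one fun x y => ?_
      have hm : ∀ τ : ℝ, N.len e - max 0 (min τ (N.len e - s)) ∈ Icc 0 (N.len e) := by
        intro τ
        have h4 : max 0 (min τ (N.len e - s)) ≤ N.len e :=
          max_le (by linarith) ((min_le_right _ _).trans (by linarith))
        have h5 : 0 ≤ max 0 (min τ (N.len e - s)) := le_max_left _ _
        exact ⟨by linarith, by linarith⟩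
      refine (N.dist_le e _ (hm x) _ (hm y)).trans ?_
      rw [Real.dist_eq, sub_sub_sub_cancel_left, abs_sub_comm]
      exact clamp_dist _ x y
    · intro τ hτ
      simp only
      rw [max_eq_left ((min_le_left _ _).trans hτ), sub_zero]
    · intro τ hτ
      rw [min_eq_right hle] at hτ
      simp only
      rw [min_eq_right hτ, max_eq_right (by linarith), sub_sub_cancel]
    · intro τ h2 h3
      rw [min_eq_right hle] at h3
      simp only
      rw [min_eq_left h3, max_eq_right h2.le]
      refine ⟨⟨N.len e - τ, ⟨by linarith, by linarith⟩, rfl⟩, ?_⟩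
      rw [infDist_compl_openArc N e ⟨by linarith, by linarith⟩ hne, sub_sub_cancel]
      exact min_eq_right (by linarith)

/-- Concatenation of two paths. -/
lemma concat {f g : ℝ → Q} (hf : LipschitzWith 1 f) (hg : LipschitzWith 1 g) {c : ℝ}
    (h : f c = g c) : LipschitzWith 1 (fun t => if t ≤ c then f t else g t) := by
  have key : ∀ x y : ℝ, x ≤ c → c < y → dist (f x) (g y) ≤ dist x y := by
    intro x y hx hy
    have h1 := hf.dist_le_mul x c
    have h2 := hg.dist_le_mul c y
    rw [NNReal.coe_one, one_mul] at h1 h2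
    calc dist (f x) (g y) ≤ dist (f x) (f c) + dist (f c) (g y) := dist_triangle _ _ _
      _ ≤ dist x c + dist c y := by rw [h] at h1 ⊢; exact add_le_add h1 h2
      _ = dist x y := by
        rw [Real.dist_eq, Real.dist_eq, Real.dist_eq, abs_of_nonpos (by linarith),
          abs_of_nonpos (by linarith), abs_of_nonpos (by linarith)]
        ring
  refine LipschitzWith.mk_one fun x y => ?_
  by_cases hx : x ≤ c <;> by_cases hy : y ≤ c
  · simp only [if_pos hx, if_pos hy]
    simpa using hf.dist_le_mul x y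
  · simp only [if_pos hx, if_neg hy]
    exact key x y hx (not_le.mp hy)
  · simp only [if_neg hx, if_pos hy]
    rw [dist_comm, dist_comm x y]
    exact key y x hy (not_le.mp hx)
  · simp only [if_neg hx, if_neg hy]
    simpa using hg.dist_le_mul x y

/-- Measure of the image of a set under a 2-Lipschitz function. -/
lemma image_le {g : ℝ → ℝ} (hg : ∀ x y, |g x - g y| ≤ 2 * |x - y|) (U : Set ℝ) :
    volume (g '' U) ≤ 2 * volume U := by
  have h1 : LipschitzWith 2 g := LipschitzWith.of_dist_le_mul fun x y => by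
    rw [Real.dist_eq, Real.dist_eq]
    exact_mod_cast hg x y
  have h2 := h1.hausdorffMeasure_image_le (d := 1) zero_le_one U
  rw [hausdorffMeasure_real] at h2
  simpa using h2

lemma tent_lip {S : ℝ → Q} (hS : LipschitzWith 1 S) (A : Set Q) (x y : ℝ) :
    |Metric.infDist (S x) A - Metric.infDist (S y) A| ≤ |x - y| := by
  have h1 := ((Metric.lipschitz_infDist_pt A).comp hS).dist_le_mul x y
  simpa [Real.dist_eq] using h1

end TripRoutes

open TripRoutes in
theorem trip_routes {D : ℝ} (hD : ∀ x y : Q, dist x y ≤ D) {e e' : N.Arc} {s s' : ℝ}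
    (hs : s ∈ Ioo 0 (N.len e)) (hs' : s' ∈ Ioo 0 (N.len e')) :
    ∃ (m : ℕ) (lam T : Fin m → ℝ) (r : Fin m → ℝ → Q) (F : N.Arc → ℝ),
      (∀ i, 0 ≤ lam i) ∧ ∑ i, lam i = 1 ∧ (∀ i, 0 ≤ T i) ∧ (∀ i, LipschitzWith 1 (r i)) ∧
      (∀ i, ∀ σ ≤ 0, r i σ = N.pt e s) ∧ (∀ i σ, T i ≤ σ → r i σ = N.pt e' s') ∧
      (∀ c, 0 ≤ F c) ∧ (∀ c, F c ≤ 1) ∧
      ∑ c, N.len c * F c ≤ Real.sqrt (N.length * D) ∧
      ∑ i, lam i * T i ≤ Real.sqrt (N.length * D) + 2 * D ∧
      ∀ S : ℝ → Q, LipschitzWith 1 S → ∀ t0 t1 : ℝ, t0 ≤ t1 →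
        ∑ i, lam i * (volume {θ : ℝ | ∃ t ∈ Icc t0 t1, θ ≤ t ∧ t ≤ θ + T i ∧
          S t = r i (t - θ)}).toReal ≤
        timeIn S t0 t1 N.nodes + ∑ c, F c * timeIn S t0 t1 (N.openArc c) + D +
          2 * timeIn S t0 t1 (N.openArc e) + 2 * timeIn S t0 t1 (N.openArc e') := by
  obtain ⟨a, q, ha, hq, hq0, hq1, hq2⟩ := inner N e hs
  obtain ⟨b, q', hb, hq', hq0', hq1', hq2'⟩ := inner N e' hs'
  obtain ⟨m, lam, T, r, F, hlam, hsum, hT, hr, hr0, hr1, hF0, hF1, hFl, hTl, hmeet⟩ :=
    flow_routes N hD ha hb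
  have hlen := len_le_two_diam N hD e
  have hlen' := len_le_two_diam N hD e'
  obtain ⟨hs0, hs1⟩ := hs
  obtain ⟨hs0', hs1'⟩ := hs'
  set σ₁ : ℝ := min s (N.len e - s) with hσ₁
  set σ₂ : ℝ := min s' (N.len e' - s') with hσ₂
  have h1pos : 0 < σ₁ := lt_min hs0 (by linarith)
  have h2pos : 0 < σ₂ := lt_min hs0' (by linarith)
  have h1D : σ₁ ≤ D := by
    have h3 : σ₁ ≤ s := min_le_left _ _
    have h4 : σ₁ ≤ N.len e - s := min_le_right _ _
    linarith
  have h2D : σ₂ ≤ D := by
    have h3 : σ₂ ≤ s' := min_le_left _ _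
    have h4 : σ₂ ≤ N.len e' - s' := min_le_right _ _
    linarith
  refine ⟨m, lam, fun i => σ₁ + T i + σ₂, fun i σ => if σ ≤ σ₁ then q (σ₁ - σ) else
    if σ ≤ σ₁ + T i then r i (σ - σ₁) else q' (σ - (σ₁ + T i)), F, hlam, hsum, ?_, ?_, ?_, ?_,
    hF0, hF1, hFl, ?_, ?_⟩
  · intro i
    have := hT i
    positivity
  · intro i
    have hTi := hT i
    apply concat (f := fun σ => q (σ₁ - σ))
      (g := fun σ => if σ ≤ σ₁ + T i then r i (σ - σ₁) else q' (σ - (σ₁ + T i)))
    · refine LipschitzWith.mk_one fun x y => ?_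
      have h3 := hq.dist_le_mul (σ₁ - x) (σ₁ - y)
      rw [NNReal.coe_one, one_mul] at h3
      refine h3.trans (le_of_eq ?_)
      rw [Real.dist_eq, Real.dist_eq, sub_sub_sub_cancel_left, abs_sub_comm]
    · apply concat (f := fun σ => r i (σ - σ₁)) (g := fun σ => q' (σ - (σ₁ + T i)))
      · refine LipschitzWith.mk_one fun x y => ?_
        have h3 := (hr i).dist_le_mul (x - σ₁) (y - σ₁)
        rw [NNReal.coe_one, one_mul] at h3
        refine h3.trans (le_of_eq ?_)
        rw [Real.dist_eq, Real.dist_eq, sub_sub_sub_cancel_right]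
      · refine LipschitzWith.mk_one fun x y => ?_
        have h3 := hq'.dist_le_mul (x - (σ₁ + T i)) (y - (σ₁ + T i))
        rw [NNReal.coe_one, one_mul] at h3
        refine h3.trans (le_of_eq ?_)
        rw [Real.dist_eq, Real.dist_eq, sub_sub_sub_cancel_right]
      · rw [add_sub_cancel_left, sub_self, hr1 i _ le_rfl, hq0' _ le_rfl]
    · rw [if_pos (by linarith), sub_self, hq0 _ le_rfl, hr0 i _ le_rfl]
  · intro i σ hσ
    simp only
    rw [if_pos (by linarith)]
    exact hq1 _ (by linarith)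
  · intro i σ hσ
    have hTi := hT i
    simp only at hσ ⊢
    rw [if_neg (by linarith), if_neg (by linarith)]
    exact hq1' _ (by linarith)
  · have h3 : ∑ i, lam i * (σ₁ + T i + σ₂) = (σ₁ + σ₂) * ∑ i, lam i + ∑ i, lam i * T i := by
      rw [Finset.mul_sum, ← Finset.sum_add_distrib]
      exact Finset.sum_congr rfl fun i _ => by ring
    simp only
    rw [h3, hsum]
    linarith
  · intro S hS t0 t1 ht
    have hmain := hmeet S hS t0 t1 ht
    -- the sets of times
    set U : Set ℝ := {t : ℝ | t ∈ Icc t0 t1 ∧ S t ∈ N.openArc e} with hU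
    set U' : Set ℝ := {t : ℝ | t ∈ Icc t0 t1 ∧ S t ∈ N.openArc e'} with hU'
    have hUf : volume U ≠ ⊤ :=
      ((measure_mono (fun t ht => ht.1)).trans_lt (measure_Icc_lt_top (a := t0) (b := t1))).ne
    have hUf' : volume U' ≠ ⊤ :=
      ((measure_mono (fun t ht => ht.1)).trans_lt (measure_Icc_lt_top (a := t0) (b := t1))).ne
    let g₁ : ℝ → ℝ := fun t => t - σ₁ + Metric.infDist (S t) (N.openArc e)ᶜ
    let g₃ : Fin m → ℝ → ℝ := fun i t => t - (σ₁ + T i) - Metric.infDist (S t) (N.openArc e')ᶜ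
    have hg₁ : volume (g₁ '' U) ≤ 2 * volume U := by
      apply image_le
      intro x y
      have h3 := tent_lip hS (N.openArc e)ᶜ x y
      have h4 : g₁ x - g₁ y = (x - y) + (Metric.infDist (S x) (N.openArc e)ᶜ -
        Metric.infDist (S y) (N.openArc e)ᶜ) := by simp only [g₁]; ring
      rw [h4]
      exact (abs_add_le _ _).trans (by linarith)
    have hg₃ : ∀ i, volume (g₃ i '' U') ≤ 2 * volume U' := by
      intro i
      apply image_le
      intro x y
      have h3 := tent_lip hS (N.openArc e')ᶜ x y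
      have h4 : g₃ i x - g₃ i y = (x - y) - (Metric.infDist (S x) (N.openArc e')ᶜ -
        Metric.infDist (S y) (N.openArc e')ᶜ) := by simp only [g₃]; ring
      rw [h4]
      exact (abs_sub _ _).trans (by linarith)
    -- the bad sets
    have key : ∀ i, (volume {θ : ℝ | ∃ t ∈ Icc t0 t1, θ ≤ t ∧ t ≤ θ + (σ₁ + T i + σ₂) ∧
        S t = (if t - θ ≤ σ₁ then q (σ₁ - (t - θ)) else
          if t - θ ≤ σ₁ + T i then r i (t - θ - σ₁) else q' (t - θ - (σ₁ + T i)))}).toReal ≤
        2 * timeIn S t0 t1 (N.openArc e) + (volume {θ : ℝ | ∃ t ∈ Icc t0 t1, θ ≤ t ∧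
          t ≤ θ + T i ∧ S t = r i (t - θ)}).toReal + 2 * timeIn S t0 t1 (N.openArc e') := by
      intro i
      set B : Set ℝ := {θ : ℝ | ∃ t ∈ Icc t0 t1, θ ≤ t ∧ t ≤ θ + T i ∧ S t = r i (t - θ)} with hB
      have hTi := hT i
      have hBf : volume B ≠ ⊤ := by
        have h3 : B ⊆ Icc (t0 - T i) t1 := by
          rintro θ ⟨t, ht, h4, h5, -⟩
          exact ⟨by linarith [ht.1], by linarith [ht.2]⟩
        exact ((measure_mono h3).trans_lt measure_Icc_lt_top).ne
      have hsub : {θ : ℝ | ∃ t ∈ Icc t0 t1, θ ≤ t ∧ t ≤ θ + (σ₁ + T i + σ₂) ∧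
          S t = (if t - θ ≤ σ₁ then q (σ₁ - (t - θ)) else
            if t - θ ≤ σ₁ + T i then r i (t - θ - σ₁) else q' (t - θ - (σ₁ + T i)))} ⊆
          g₁ '' U ∪ (fun θ => θ + σ₁) ⁻¹' B ∪ g₃ i '' U' := by
        rintro θ ⟨t, ht, h3, h4, h5⟩
        rcases lt_trichotomy (t - θ) σ₁ with h6 | h6 | h6
        · rw [if_pos h6.le] at h5
          left; left
          obtain ⟨h7, h8⟩ := hq2 (σ₁ - (t - θ)) (by linarith) (by linarith)
          rw [← h5] at h7 h8
          refine ⟨t, ⟨ht, h7⟩, ?_⟩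
          simp only [g₁]
          rw [h8]
          ring
        · rw [if_pos h6.le, h6, sub_self, hq0 _ le_rfl] at h5
          left; right
          refine ⟨t, ht, by linarith, by linarith, ?_⟩
          have h7 : t - (θ + σ₁) = 0 := by linarith
          rw [h7, hr0 i _ le_rfl]
          exact h5
        · rw [if_neg (not_le.mpr h6)] at h5
          by_cases h7 : t - θ ≤ σ₁ + T i
          · rw [if_pos h7] at h5
            left; right
            refine ⟨t, ht, by linarith, by linarith, ?_⟩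
            have h8 : t - (θ + σ₁) = t - θ - σ₁ := by ring
            rw [h8]
            exact h5
          · rw [if_neg h7] at h5
            right
            obtain ⟨h8, h9⟩ := hq2' (t - θ - (σ₁ + T i)) (by linarith) (by linarith)
            rw [← h5] at h8 h9
            refine ⟨t, ⟨ht, h8⟩, ?_⟩
            simp only [g₃]
            rw [h9]
            ring
      have h3 : volume {θ : ℝ | ∃ t ∈ Icc t0 t1, θ ≤ t ∧ t ≤ θ + (σ₁ + T i + σ₂) ∧
          S t = (if t - θ ≤ σ₁ then q (σ₁ - (t - θ)) else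
            if t - θ ≤ σ₁ + T i then r i (t - θ - σ₁) else q' (t - θ - (σ₁ + T i)))} ≤
          2 * volume U + volume B + 2 * volume U' := by
        refine (measure_mono hsub).trans ?_
        refine (measure_union_le _ _).trans ?_
        refine add_le_add ((measure_union_le _ _).trans ?_) (hg₃ i)
        rw [measure_preimage_add_right]
        exact add_le_add hg₁ le_rfl
      have h2U : 2 * volume U ≠ ⊤ := ENNReal.mul_ne_top (by simp) hUf
      have h2U' : 2 * volume U' ≠ ⊤ := ENNReal.mul_ne_top (by simp) hUf'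
      have h4 := ENNReal.toReal_mono
        (ENNReal.add_ne_top.2 ⟨ENNReal.add_ne_top.2 ⟨h2U, hBf⟩, h2U'⟩) h3
      rw [ENNReal.toReal_add (ENNReal.add_ne_top.2 ⟨h2U, hBf⟩) h2U', ENNReal.toReal_add h2U hBf,
        ENNReal.toReal_mul, ENNReal.toReal_mul, ENNReal.toReal_ofNat] at h4
      exact h4
    calc _ ≤ ∑ i, lam i * (2 * timeIn S t0 t1 (N.openArc e) +
          (volume {θ : ℝ | ∃ t ∈ Icc t0 t1, θ ≤ t ∧ t ≤ θ + T i ∧
            S t = r i (t - θ)}).toReal + 2 * timeIn S t0 t1 (N.openArc e')) :=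
          Finset.sum_le_sum fun i _ => mul_le_mul_of_nonneg_left (key i) (hlam i)
      _ = (2 * timeIn S t0 t1 (N.openArc e) + 2 * timeIn S t0 t1 (N.openArc e')) * ∑ i, lam i +
          ∑ i, lam i * (volume {θ : ℝ | ∃ t ∈ Icc t0 t1, θ ≤ t ∧ t ≤ θ + T i ∧
            S t = r i (t - θ)}).toReal := by
          rw [Finset.mul_sum, ← Finset.sum_add_distrib]
          exact Finset.sum_congr rfl fun i _ => by ring
      _ ≤ _ := by
          rw [hsum]
          linarith

end MPacf82c
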